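import Pool.Agent.Acy.Prod

/-! # The counting lemma (module 2a of MP_af9dfb_co) -/

set_option autoImplicit false
set_option linter.unusedSectionVars false

namespace Pool.Agent.Acy

open Finset
open scoped Classical

section

variable {ι α : Type*} [Fintype ι] [DecidableEq ι] [Fintype α] [DecidableEq α]

/-- The partial assignment `W` holds at `ω`. -/
def Holds (W : Finset (ι × α)) (ω : ι → α) : Prop := ∀ q ∈ W, ω q.1 = q.2

/-- Weighted number of configurations that hold. -/
noncomputable def cnt {κ : Type*} [Fintype κ] (w : κ → ℝ) (cd : κ → Finset (ι × α)) (ω : ι → α) : ℝ :=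
  ∑ U, if Holds (cd U) ω then w U else 0

/-- Extension sum: configurations whose condition set contains `W`. -/
noncomputable def ext {κ : Type*} [Fintype κ] (π : ι → α → ℝ) (w : κ → ℝ)
    (cd : κ → Finset (ι × α)) (W : Finset (ι × α)) : ℝ :=
  ∑ U, if W ⊆ cd U then w U * ∏ q ∈ cd U \ W, π q.1 q.2 else 0

/-- A partial assignment holds with probability at most the product of the bounds. -/
theorem Pr_holds_le {μ : ι → α → ℝ} (h : IsPM μ) (π : ι → α → ℝ)
    (hπ : ∀ i a, μ i a ≤ π i a) (W : Finset (ι × α)) :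
    Pr μ (Holds W) ≤ ∏ q ∈ W, π q.1 q.2 := by
  have hπ0 : ∀ i a, 0 ≤ π i a := fun i a => (h.nonneg i a).trans (hπ i a)
  have h1 : Pr μ (Holds W) =
      ∏ i, ∑ a, μ i a * (if ∀ q ∈ W, q.1 = i → a = q.2 then 1 else 0) := by
    rw [← Ex_prod]
    unfold Pr
    congr 1
    funext ω
    by_cases hW : Holds W ω
    · rw [if_pos hW]
      symm
      refine Finset.prod_eq_one fun i _ => ?_
      rw [if_pos]
      intro q hq hqi
      rw [← hqi]
      exact hW q hq
    · rw [if_neg hW]
      symm
      unfold Holds at hW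
      push Not at hW
      obtain ⟨q, hq, hne⟩ := hW
      refine Finset.prod_eq_zero (Finset.mem_univ q.1) ?_
      rw [if_neg]
      intro hall
      exact hne (hall q hq rfl)
  rw [h1, ← Finset.prod_fiberwise W (fun q => q.1) (fun q => π q.1 q.2)]
  refine Finset.prod_le_prod (fun i _ => Finset.sum_nonneg fun a _ => ?_) fun i _ => ?_
  · refine mul_nonneg (h.nonneg i a) ?_
    split_ifs <;> norm_num
  · by_cases hemp : (W.filter fun q => q.1 = i) = ∅
    · rw [hemp, Finset.prod_empty]
      refine le_trans (Finset.sum_le_sum fun a _ => ?_) (h.sum_one i).le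
      have := h.nonneg i a
      split_ifs <;> linarith
    · obtain ⟨q, hq⟩ := Finset.nonempty_iff_ne_empty.mpr hemp
      have hq' := Finset.mem_filter.mp hq
      by_cases hone : ∀ q' ∈ W.filter (fun q => q.1 = i), q' = q
      · have hs : (W.filter fun q => q.1 = i) = {q} := by
          ext x
          rw [Finset.mem_singleton]
          exact ⟨fun hx => hone x hx, fun hx => by rw [hx]; exact hq⟩
        rw [hs, Finset.prod_singleton, hq'.2]
        calc ∑ a, μ i a * (if ∀ q ∈ W, q.1 = i → a = q.2 then 1 else 0)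
            ≤ ∑ a, if a = q.2 then μ i a else 0 := by
              refine Finset.sum_le_sum fun a _ => ?_
              by_cases ha : a = q.2
              · have := h.nonneg i a
                rw [if_pos ha]
                split_ifs <;> linarith
              · rw [if_neg ha, if_neg, mul_zero]
                intro hall
                exact ha (hall q hq'.1 hq'.2)
          _ = μ i q.2 := by rw [Finset.sum_ite_eq' univ q.2]; simp
          _ ≤ π i q.2 := hπ i q.2
      · push Not at hone
        obtain ⟨q', hq1, hne⟩ := hone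
        have hq1' := Finset.mem_filter.mp hq1
        have hz : ∑ a, μ i a * (if ∀ q ∈ W, q.1 = i → a = q.2 then (1 : ℝ) else 0) = 0 := by
          refine Finset.sum_eq_zero fun a _ => ?_
          rw [if_neg, mul_zero]
          intro hall
          have e1 := hall q hq'.1 hq'.2
          have e2 := hall q' hq1'.1 hq1'.2
          exact hne (Prod.ext (hq1'.2.trans hq'.2.symm) (e2.symm.trans e1))
        rw [hz]
        exact Finset.prod_nonneg fun q _ => hπ0 _ _

/-- The number of subsets of size at most `r`. -/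
theorem card_small_subsets {β : Type*} [DecidableEq β] (C : Finset β) (r : ℕ) :
    (C.powerset.filter fun W => W.card ≤ r).card ≤ (C.card + 1) ^ r := by
  induction r with
  | zero =>
    rw [pow_zero]
    refine Finset.card_le_one.mpr fun a ha b hb => ?_
    have h1 := Finset.card_eq_zero.mp (Nat.le_zero.mp (Finset.mem_filter.mp ha).2)
    have h2 := Finset.card_eq_zero.mp (Nat.le_zero.mp (Finset.mem_filter.mp hb).2)
    rw [h1, h2]
  | succ r ih =>
    have hsub : (C.powerset.filter fun W => W.card ≤ r + 1) ⊆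
        (C.powerset.filter fun W => W.card ≤ r) ∪
          C.biUnion fun x => (C.powerset.filter fun W => W.card ≤ r).image (insert x) := by
      intro W hW
      have hW' := Finset.mem_filter.mp hW
      have hWC := Finset.mem_powerset.mp hW'.1
      rw [Finset.mem_union]
      by_cases hr : W.card ≤ r
      · left
        exact Finset.mem_filter.mpr ⟨hW'.1, hr⟩
      · right
        have hne : W.Nonempty := by
          rw [Finset.nonempty_iff_ne_empty]
          rintro rfl
          simp at hr
        obtain ⟨x, hx⟩ := hne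
        rw [Finset.mem_biUnion]
        refine ⟨x, hWC hx, Finset.mem_image.mpr ⟨W.erase x, Finset.mem_filter.mpr
          ⟨Finset.mem_powerset.mpr ((Finset.erase_subset _ _).trans hWC), ?_⟩,
          Finset.insert_erase hx⟩⟩
        rw [Finset.card_erase_of_mem hx]
        have := hW'.2
        omega
    calc _ ≤ _ := Finset.card_le_card hsub
      _ ≤ _ := Finset.card_union_le _ _
      _ ≤ (C.powerset.filter fun W => W.card ≤ r).card +
          ∑ x ∈ C, ((C.powerset.filter fun W => W.card ≤ r).image (insert x)).card :=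
        Nat.add_le_add_left Finset.card_biUnion_le _
      _ ≤ (C.powerset.filter fun W => W.card ≤ r).card +
          ∑ _x ∈ C, (C.powerset.filter fun W => W.card ≤ r).card :=
        Nat.add_le_add_left (Finset.sum_le_sum fun x _ => Finset.card_image_le) _
      _ = (C.card + 1) * (C.powerset.filter fun W => W.card ≤ r).card := by
        rw [Finset.sum_const, smul_eq_mul]
        ring
      _ ≤ (C.card + 1) * (C.card + 1) ^ r := Nat.mul_le_mul_left _ ih
      _ = (C.card + 1) ^ (r + 1) := by ring

/-- Summing over all configurations with the part inside `C` paid for. -/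
theorem sum_ext_le {κ : Type*} [Fintype κ] (π : ι → α → ℝ)
    (hπ0 : ∀ i a, 0 ≤ π i a) (w : κ → ℝ) (hw : ∀ U, 0 ≤ w U) (cd : κ → Finset (ι × α))
    (r : ℕ) (hr : ∀ U, (cd U).card ≤ r) (M : ℝ) (hM : 0 < M)
    (hext : ∀ W : Finset (ι × α), W.card ≤ r → ext π w cd W ≤ M) (C : Finset (ι × α)) :
    ∑ U, w U * ∏ q ∈ cd U \ C, π q.1 q.2 ≤ ((C.card + 1 : ℕ) : ℝ) ^ r * M := by
  calc ∑ U, w U * ∏ q ∈ cd U \ C, π q.1 q.2
      ≤ ∑ U, ∑ W ∈ C.powerset.filter (fun W => W.card ≤ r),
          (if W ⊆ cd U then w U * ∏ q ∈ cd U \ W, π q.1 q.2 else 0) := by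
        refine Finset.sum_le_sum fun U _ => ?_
        have hmem : cd U ∩ C ∈ C.powerset.filter (fun W => W.card ≤ r) :=
          Finset.mem_filter.mpr ⟨Finset.mem_powerset.mpr Finset.inter_subset_right,
            (Finset.card_le_card Finset.inter_subset_left).trans (hr U)⟩
        have h1 := Finset.single_le_sum
          (f := fun W => if W ⊆ cd U then w U * ∏ q ∈ cd U \ W, π q.1 q.2 else 0)
          (fun W _ => by
            split_ifs
            · exact mul_nonneg (hw U) (Finset.prod_nonneg fun q _ => hπ0 _ _)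
            · exact le_rfl) hmem
        refine le_trans (le_of_eq ?_) h1
        show _ = if cd U ∩ C ⊆ cd U then w U * ∏ q ∈ cd U \ (cd U ∩ C), π q.1 q.2 else 0
        rw [if_pos Finset.inter_subset_left, Finset.sdiff_inter_self_left]
    _ = ∑ W ∈ C.powerset.filter (fun W => W.card ≤ r), ext π w cd W := by
        rw [Finset.sum_comm]
        rfl
    _ ≤ ∑ _W ∈ C.powerset.filter (fun W => W.card ≤ r), M :=
        Finset.sum_le_sum fun W hW => hext W (Finset.mem_filter.mp hW).2
    _ = ((C.powerset.filter (fun W => W.card ≤ r)).card : ℝ) * M := by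
        rw [Finset.sum_const, nsmul_eq_mul]
    _ ≤ ((C.card + 1 : ℕ) : ℝ) ^ r * M := by
        refine mul_le_mul_of_nonneg_right ?_ hM.le
        exact_mod_cast card_small_subsets C r

theorem cnt_nonneg {κ : Type*} [Fintype κ] (w : κ → ℝ) (hw : ∀ U, 0 ≤ w U)
    (cd : κ → Finset (ι × α)) (ω : ι → α) : 0 ≤ cnt w cd ω := by
  unfold cnt
  refine Finset.sum_nonneg fun U _ => ?_
  split_ifs
  · exact hw U
  · exact le_rfl

/-- The moment bound behind the counting lemma. -/
theorem moment_bound {μ : ι → α → ℝ} (h : IsPM μ) {κ : Type*} [Fintype κ] (π : ι → α → ℝ)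
    (hπ : ∀ i a, μ i a ≤ π i a) (w : κ → ℝ) (hw : ∀ U, 0 ≤ w U) (cd : κ → Finset (ι × α))
    (r : ℕ) (hr : ∀ U, (cd U).card ≤ r) (M : ℝ) (hM : 0 < M)
    (hext : ∀ W : Finset (ι × α), W.card ≤ r → ext π w cd W ≤ M) (m : ℕ) :
    ∀ C : Finset (ι × α),
      Ex μ (fun ω => cnt w cd ω ^ m * (if Holds C ω then 1 else 0)) ≤
        (((C.card + r * m + 1 : ℕ) : ℝ) ^ r * M) ^ m * ∏ q ∈ C, π q.1 q.2 := by
  have hπ0 : ∀ i a, 0 ≤ π i a := fun i a => (h.nonneg i a).trans (hπ i a)
  induction m with
  | zero =>
    intro C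
    have := Pr_holds_le h π hπ C
    simpa [Pr] using this
  | succ m ih =>
    intro C
    have h1 : (fun ω => cnt w cd ω ^ (m + 1) * (if Holds C ω then (1 : ℝ) else 0)) =
        fun ω => ∑ U, w U * (cnt w cd ω ^ m * (if Holds (C ∪ cd U) ω then 1 else 0)) := by
      funext ω
      have h2 : cnt w cd ω ^ (m + 1) * (if Holds C ω then (1 : ℝ) else 0) =
          ∑ U, (cnt w cd ω ^ m * (if Holds C ω then (1 : ℝ) else 0)) *
            (if Holds (cd U) ω then w U else 0) := by
        rw [← Finset.mul_sum]
        show _ = _ * cnt w cd ω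
        ring
      rw [h2]
      refine Finset.sum_congr rfl fun U _ => ?_
      have hiff : Holds (C ∪ cd U) ω ↔ Holds C ω ∧ Holds (cd U) ω := by
        unfold Holds
        constructor
        · intro hh
          exact ⟨fun q hq => hh q (Finset.mem_union_left _ hq),
            fun q hq => hh q (Finset.mem_union_right _ hq)⟩
        · rintro ⟨ha, hb⟩ q hq
          rcases Finset.mem_union.mp hq with hq | hq
          · exact ha q hq
          · exact hb q hq
      by_cases ha : Holds C ω <;> by_cases hb : Holds (cd U) ω <;>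
        simp [hiff, ha, hb, mul_comm]
    rw [h1, Ex_sum]
    have hC : (0 : ℝ) ≤ ∏ q ∈ C, π q.1 q.2 := Finset.prod_nonneg fun q _ => hπ0 _ _
    set K : ℝ := ((C.card + r * (m + 1) + 1 : ℕ) : ℝ) ^ r * M with hK
    have hK0 : 0 ≤ K := by positivity
    calc ∑ U, Ex μ (fun ω => w U * (cnt w cd ω ^ m * (if Holds (C ∪ cd U) ω then 1 else 0)))
        ≤ ∑ U, w U * (K ^ m * ((∏ q ∈ C, π q.1 q.2) * ∏ q ∈ cd U \ C, π q.1 q.2)) := by
          refine Finset.sum_le_sum fun U _ => ?_
          rw [Ex_mul_left]
          refine mul_le_mul_of_nonneg_left ?_ (hw U)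
          refine (ih (C ∪ cd U)).trans ?_
          have e1 : ∏ q ∈ C ∪ cd U, π q.1 q.2 =
              (∏ q ∈ C, π q.1 q.2) * ∏ q ∈ cd U \ C, π q.1 q.2 := by
            rw [← Finset.union_sdiff_self_eq_union, Finset.prod_union Finset.disjoint_sdiff]
          rw [e1]
          refine mul_le_mul_of_nonneg_right ?_
            (mul_nonneg hC (Finset.prod_nonneg fun q _ => hπ0 _ _))
          refine pow_le_pow_left₀ (by positivity) ?_ m
          rw [hK]
          refine mul_le_mul_of_nonneg_right ?_ hM.le
          refine pow_le_pow_left₀ (by positivity) ?_ r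
          have e2 : (C ∪ cd U).card + r * m + 1 ≤ C.card + r * (m + 1) + 1 := by
            have e3 := Finset.card_union_le C (cd U)
            have e4 := hr U
            have e5 : r * (m + 1) = r * m + r := by ring
            omega
          exact_mod_cast e2
      _ = K ^ m * (∏ q ∈ C, π q.1 q.2) * ∑ U, w U * ∏ q ∈ cd U \ C, π q.1 q.2 := by
          rw [Finset.mul_sum]
          exact Finset.sum_congr rfl fun U _ => by ring
      _ ≤ K ^ m * (∏ q ∈ C, π q.1 q.2) * K := by
          refine mul_le_mul_of_nonneg_left ?_ (mul_nonneg (pow_nonneg hK0 _) hC)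
          refine (sum_ext_le π hπ0 w hw cd r hr M hM hext C).trans ?_
          rw [hK]
          refine mul_le_mul_of_nonneg_right ?_ hM.le
          refine pow_le_pow_left₀ (by positivity) ?_ r
          have : C.card + 1 ≤ C.card + r * (m + 1) + 1 := by omega
          exact_mod_cast this
      _ = K ^ (m + 1) * ∏ q ∈ C, π q.1 q.2 := by ring

/-- Counting lemma: if all extension sums are at most `M`, then
`P(N >= e (r m + 1)^r M) <= e^{-m}`. -/
theorem count_tail {μ : ι → α → ℝ} (h : IsPM μ) {κ : Type*} [Fintype κ] (π : ι → α → ℝ)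
    (hπ : ∀ i a, μ i a ≤ π i a) (w : κ → ℝ) (hw : ∀ U, 0 ≤ w U) (cd : κ → Finset (ι × α))
    (r : ℕ) (hr : ∀ U, (cd U).card ≤ r) (M : ℝ) (hM : 0 < M)
    (hext : ∀ W : Finset (ι × α), W.card ≤ r → ext π w cd W ≤ M) (m : ℕ) :
    Pr μ (fun ω => Real.exp 1 * ((r * m + 1 : ℕ) : ℝ) ^ r * M ≤ cnt w cd ω) ≤
      Real.exp (-m) := by
  have hb := moment_bound h π hπ w hw cd r hr M hM hext m ∅
  have hH : ∀ ω : ι → α, Holds (∅ : Finset (ι × α)) ω := fun ω q hq => by simp at hq
  simp only [hH, if_true, mul_one, Finset.card_empty, zero_add, Finset.prod_empty] at hb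
  set K : ℝ := ((r * m + 1 : ℕ) : ℝ) ^ r * M with hK
  have hKpos : 0 < K := by positivity
  have hc : 0 < (Real.exp 1 * K) ^ m := by positivity
  calc Pr μ (fun ω => Real.exp 1 * ((r * m + 1 : ℕ) : ℝ) ^ r * M ≤ cnt w cd ω)
      ≤ Pr μ (fun ω => (Real.exp 1 * K) ^ m ≤ cnt w cd ω ^ m) := by
        refine Pr_mono h fun ω hω => ?_
        refine pow_le_pow_left₀ (by positivity) ?_ m
        rw [hK, ← mul_assoc]
        exact hω
    _ ≤ Ex μ (fun ω => cnt w cd ω ^ m) / (Real.exp 1 * K) ^ m :=
        Pr_markov h (fun ω => pow_nonneg (cnt_nonneg w hw cd ω) m) hc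
    _ ≤ K ^ m / (Real.exp 1 * K) ^ m := by gcongr
    _ = Real.exp (-m) := by
        rw [mul_pow (Real.exp 1) K m, div_mul_eq_div_div_swap,
          div_self (pow_ne_zero _ hKpos.ne'), ← Real.exp_nat_mul,
          mul_one, one_div, Real.exp_neg]

end

end Pool.Agent.Acy
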