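import Pool.Agent.Acy.Mgf
import Pool.Agent.Acy.Count

/-! # Definitions for the semi-random colouring (project MP_af9dfb_co)

`T` is the large parameter: maximum degree `d <= T ^ 3000`, `T ^ 3999 <= k <= T ^ 4000` colours,
at most `T ^ 150` rounds. -/

set_option autoImplicit false
set_option linter.unusedSectionVars false

namespace Pool.Agent.Acy

open Finset
open scoped Classical

universe u

/-- The large parameter. -/
structure Big (T : ℝ) : Prop where
  big : (10 : ℝ) ^ 6 ≤ T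
  exp : T ^ 60000 ≤ Real.exp T

/-- `Good` can be reached by avoiding a local family of events of probability at most
`exp (-T)`. -/
def StepOK {Q : Type u} [Fintype Q] [DecidableEq Q] {α : Type*} [Fintype α] (T : ℝ)
    (μ : Q → α → ℝ) (Good : (Q → α) → Prop) : Prop :=
  ∃ (κ : Type u) (_ : Fintype κ) (E : κ → (Q → α) → Prop) (S : κ → Finset Q),
    (∀ b, DependsOn (E b) (S b : Set Q)) ∧ (∀ b, Pr μ (E b) ≤ Real.exp (-T)) ∧
    (∀ b, ((S b).card : ℝ) ≤ T ^ 20000) ∧
    (∀ i, ((univ.filter fun b => i ∈ S b).card : ℝ) ≤ T ^ 20000) ∧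
    ∀ ω, (∀ b, ¬ E b ω) → Good ω

section

variable {Q : Type u} [Fintype Q] [DecidableEq Q]

/-- Static data of the semi-random colouring of `Q`. -/
structure NibData (Q : Type u) where
  /-- large parameter -/
  T : ℝ
  /-- number of colours -/
  k : ℕ
  /-- number of rounds -/
  q : ℕ
  /-- the round of a vertex -/
  rd : Q → ℕ
  /-- related pairs -/
  rp : Q → Q → Prop
  /-- compensation kernel, `-1` = conflict -/
  K : Q → Q → ℝ
  /-- normalised hazard, `2` = forbidden pair -/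
  h : Q → Q → ℝ

namespace NibData

variable (D : NibData Q)

/-- The two kinds of test weights: conflicts (`true`) and hazards (`false`). -/
noncomputable def a (b : Bool) (x y : Q) : ℝ :=
  if b then (if D.K y x = -1 then 1 else 0) else (2 + D.K y x) * D.h y x

/-- Related vertices. -/
noncomputable def R (x : Q) : Finset Q := univ.filter fun u => D.rp u x

/-- The vertices of round `j`. -/
noncomputable def V (j : ℕ) : Finset Q := univ.filter fun u => D.rd u = j

/-- The hypotheses of the nibble. -/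
structure Ok : Prop where
  big : Big D.T
  k_lo : D.T ^ 3999 ≤ D.k
  k_hi : (D.k : ℝ) ≤ D.T ^ 4000
  q_hi : (D.q : ℝ) ≤ D.T ^ 150
  rd_lt : ∀ u, D.rd u < D.q
  rp_symm : ∀ x y, D.rp x y → D.rp y x
  rp_irrefl : ∀ x, ¬ D.rp x x
  K_symm : ∀ x y, D.K x y = D.K y x
  h_symm : ∀ x y, D.h x y = D.h y x
  K_off : ∀ x y, ¬ D.rp x y → D.K x y = 0
  h_off : ∀ x y, ¬ D.rp x y → D.h x y = 0
  K_cases : ∀ x y, D.K x y = -1 ∨ 0 ≤ D.K x y
  K_exp : ∀ x y, D.K x y ≠ -1 → 1 + D.K x y ≤ Real.exp (Real.log D.T / 10 * D.h x y)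
  h_nonneg : ∀ x y, 0 ≤ D.h x y
  h_le : ∀ x y, D.h x y ≤ 2
  R_card : ∀ x, ((D.R x).card : ℝ) ≤ D.T ^ 4030
  RV_card : ∀ x j, ((D.R x ∩ D.V j).card : ℝ) ≤ D.T ^ 3885
  cf_sum : ∀ x, ∑ y, D.a true x y ≤ Real.log D.T / 40 * D.k
  h_sum : ∀ x, ∑ y, D.a false x y ≤ (D.k : ℝ) / 100
  qv : ∀ x j, ∑ y ∈ D.R x, ∑ y' ∈ D.R x, |∑ u ∈ D.V j, D.K u y * D.K u y'| ≤ D.T ^ 11435

end NibData

/-- State of the process: formal weights, alive pairs, budgets, accumulated hazards, accumulated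
double counts. -/
structure NState (Q : Type u) (k : ℕ) where
  v : Q → Fin k → ℝ
  al : Q → Fin k → Prop
  be : Q → Fin k → ℝ
  ac : Bool → Q → Fin k → ℝ
  pd : Q → Fin k → ℝ

/-- Initial state. -/
def NState.init (Q : Type u) (k : ℕ) : NState Q k where
  v := fun _ _ => 1
  al := fun _ _ => True
  be := fun _ _ => 0
  ac := fun _ _ _ => 0
  pd := fun _ _ => 0

namespace NibData

variable (D : NibData Q) (S : NState Q D.k) (j : ℕ)

/-- Alive mass. -/
noncomputable def A (x : Q) : ℝ := ∑ c, if S.al x c then S.v x c else 0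

/-- Pick probabilities. -/
noncomputable def p (x : Q) (c : Fin D.k) : ℝ := if S.al x c then S.v x c / D.A S x else 0

/-- Number of related vertices of round `j` that pick `c`. -/
noncomputable def J (ω : Q → Fin D.k) (x : Q) (c : Fin D.k) : ℕ :=
  ((D.R x ∩ D.V j).filter fun u => ω u = c).card

/-- The compensator. -/
noncomputable def cmp (x : Q) (c : Fin D.k) : ℝ := ∑ u ∈ D.V j, D.p S u c * D.K u x

/-- Sum of the kernel over the vertices of round `j` that pick `c`. -/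
noncomputable def pk (ω : Q → Fin D.k) (x : Q) (c : Fin D.k) : ℝ :=
  ∑ u ∈ (D.V j).filter fun u => ω u = c, D.K u x

/-- Sum of the hazards over the vertices of round `j` that pick `c`. -/
noncomputable def hk (ω : Q → Fin D.k) (x : Q) (c : Fin D.k) : ℝ :=
  ∑ u ∈ (D.V j).filter fun u => ω u = c, D.h u x

/-- Effect of the pick of `u` on the prediction for `(x, c)`. -/
noncomputable def G (b : Bool) (u x : Q) (c : Fin D.k) : ℝ :=
  1 / D.k * ∑ y, if j < D.rd y ∧ S.al y c then D.a b x y * S.v y c * D.K u y else 0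

/-- Threshold for bad picks. -/
noncomputable def d3 : ℝ := 1 / D.T ^ 190

/-- Increment of the accumulated hazard. -/
noncomputable def dac (b : Bool) (x : Q) (c : Fin D.k) : ℝ :=
  1 / D.k * ∑ y ∈ D.V j, if S.al y c then D.a b x y * S.v y c else 0

/-- Double count. -/
noncomputable def dbl (ω : Q → Fin D.k) (x : Q) (c : Fin D.k) : ℝ :=
  ∑ y ∈ D.R x, (D.J j ω y c : ℝ) * ((D.J j ω y c : ℝ) - 1)

/-- One round. -/
noncomputable def step (ω : Q → Fin D.k) : NState Q D.k where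
  v := fun x c => if S.al x c then
    (if D.J j ω x c ≤ 1 then S.v x c * (1 + D.pk j ω x c - D.cmp S j x c) else 0) else S.v x c
  be := fun x c => if S.al x c ∧ D.J j ω x c ≤ 1 then S.be x c + D.hk j ω x c else S.be x c
  ac := fun b x c => if S.al x c then S.ac b x c + D.dac S j b x c else S.ac b x c
  pd := fun x c => if S.al x c then S.pd x c + D.dbl j ω x c else S.pd x c
  al := fun x c => S.al x c ∧ D.J j ω x c ≤ 1 ∧
    (∀ u, D.rd u = j → ω u = c → D.K u x ≠ -1) ∧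
    (S.be x c + D.hk j ω x c ≤ 1) ∧
    (S.pd x c + D.dbl j ω x c ≤ D.k / D.T ^ 20) ∧
    (∀ b u, D.rd u = j → ω u = c → |D.G S j b u x c| ≤ D.d3)

/-- The colouring after the round. -/
def upd (col ω : Q → Fin D.k) (u : Q) : Fin D.k := if D.rd u = j then ω u else col u

/-- Prediction of the future hazard. -/
noncomputable def Nf (b : Bool) (x : Q) (c : Fin D.k) : ℝ :=
  1 / D.k * ∑ y, if j ≤ D.rd y then D.a b x y * S.v y c else 0

/-- The invariants at the beginning of round `j`. -/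
structure Inv (col : Q → Fin D.k) : Prop where
  al_pos : ∀ x c, S.al x c → 0 < S.v x c
  v_lo : ∀ x c, -(1 / D.T ^ 100) ≤ S.v x c
  v_hi : ∀ x c, S.v x c ≤ Real.exp (Real.log D.T / 10 * S.be x c + 2 * S.ac true x c)
  be_nonneg : ∀ x c, 0 ≤ S.be x c
  be_le : ∀ x c, S.be x c ≤ 3
  be_al : ∀ x c, S.al x c → S.be x c ≤ 1
  ac_nonneg : ∀ b x c, 0 ≤ S.ac b x c
  ac_true : ∀ x c, S.ac true x c ≤ Real.log D.T / 20
  ac_false : ∀ x c, S.ac false x c ≤ 1 / 50
  pd_nonneg : ∀ x c, 0 ≤ S.pd x c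
  pd_al : ∀ x c, S.al x c → S.pd x c ≤ D.k / D.T ^ 20
  pred : ∀ b x c, S.al x c → S.ac b x c + D.Nf S j b x c ≤
    1 / D.k * (∑ y, D.a b x y) + j / D.T ^ 180 + 6 * D.T ^ 3 / D.k * S.pd x c
  mass : ∀ x, |∑ c, S.v x c - D.k| ≤ j * D.k / D.T ^ 180
  bud : ∀ x, ∑ c, S.v x c * (S.be x c - 2 * S.ac false x c) ≤ j * D.k / D.T ^ 180
  dead : ∀ x, ∃ O : Finset (Fin D.k), (O.card : ℝ) ≤ j * D.k / D.T ^ 165 ∧
    ∀ c, ¬ S.al x c → S.v x c ≤ 1 / D.T ^ 100 ∨ 1 < S.be x c ∨ D.k / D.T ^ 20 < S.pd x c ∨ c ∈ O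
  pds : ∀ x, ∑ c, S.pd x c ≤ j * D.T ^ 7810
  sep : ∀ x c, S.al x c → ∀ u, D.rd u < j → col u = c → D.K u x ≠ -1 ∧ D.h u x ≤ 1
  col_ok : ∀ u y, D.rd u < D.rd y → D.rd y < j → col u = col y → D.K u y ≠ -1 ∧ D.h u y ≤ 1

/-- The centred sum attached to a test function `Y`. -/
noncomputable def cen (Y : Q → Fin D.k → ℝ) (ω : Q → Fin D.k) : ℝ :=
  ∑ u, (Y u (ω u) - mean (D.p S) Y u)

/-- Test function for the mass. -/
noncomputable def Y1 (x : Q) (u : Q) (c : Fin D.k) : ℝ :=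
  if D.rd u = j ∧ S.al x c then S.v x c * D.K u x else 0

/-- Test function for the budget. -/
noncomputable def Y2 (x : Q) (u : Q) (c : Fin D.k) : ℝ :=
  if D.rd u = j ∧ S.al x c then
    S.v x c * D.K u x * (S.be x c - 2 * S.ac false x c - 2 * D.dac S j false x c) else 0

/-- Second test function for the budget. -/
noncomputable def Y3 (x : Q) (u : Q) (c : Fin D.k) : ℝ :=
  if D.rd u = j ∧ S.al x c then S.v x c * ((2 + D.K u x) * D.h u x) else 0

/-- Test function for the predictions. -/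
noncomputable def Y4 (b : Bool) (x : Q) (c₀ : Fin D.k) (u : Q) (c : Fin D.k) : ℝ :=
  if D.rd u = j ∧ c = c₀ ∧ |D.G S j b u x c₀| ≤ D.d3 then D.G S j b u x c₀ else 0

/-- The picks of round `j` are typical. -/
structure GoodEv (ω : Q → Fin D.k) : Prop where
  e1 : ∀ x, |D.cen S (D.Y1 S j x) ω| ≤ D.T ^ 2000
  e2 : ∀ x, |D.cen S (D.Y2 S j x) ω| ≤ D.T ^ 2000
  e3 : ∀ x, |D.cen S (D.Y3 S j x) ω| ≤ D.T ^ 2000
  e4 : ∀ b x c, |D.cen S (D.Y4 S j b x c) ω| ≤ 1 / D.T ^ 187
  e5 : ∀ b x, (((D.V j).filter fun u => D.d3 < |D.G S j b u x (ω u)|).card : ℝ) ≤ D.T ^ 3830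
  e6 : ∀ x, ∑ c, (D.J j ω x c : ℝ) * ((D.J j ω x c : ℝ) - 1) ≤ D.T ^ 3778

end NibData

end

end Pool.Agent.Acy
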