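import Pool.Agent.Acy.Count
import Pool.Agent.Acy.Defs

/-! # The counting lemma with the large parameter (module M2c) -/

set_option autoImplicit false
set_option linter.unusedSectionVars false

namespace Pool.Agent.Acy

open Finset
open scoped Classical

universe u

section

variable {ι α : Type*} [Fintype ι] [DecidableEq ι] [Fintype α] [DecidableEq α]

/-- Counting lemma with at most three conditions per configuration. -/
theorem count_T {T : ℝ} (hT : Big T) {μ : ι → α → ℝ} (h : IsPM μ) {κ : Type*} [Fintype κ]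
    (π : ι → α → ℝ) (hπ : ∀ i a, μ i a ≤ π i a) (w : κ → ℝ) (hw : ∀ U, 0 ≤ w U)
    (cd : κ → Finset (ι × α)) (hr : ∀ U, (cd U).card ≤ 3) (M : ℝ) (hM : 0 < M)
    (hext : ∀ W : Finset (ι × α), W.card ≤ 3 → ext π w cd W ≤ M) :
    Pr μ (fun ω => T ^ 4 * M ≤ cnt w cd ω) ≤ Real.exp (-(2 * T)) := by
  have hTb := hT.big
  have hT0 : (0 : ℝ) < T := by linarith
  have hm1 : 2 * T ≤ (⌈2 * T⌉₊ : ℝ) := Nat.le_ceil _
  have hm2 : (⌈2 * T⌉₊ : ℝ) < 2 * T + 1 := Nat.ceil_lt_add_one (by linarith)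
  have key := count_tail h π hπ w hw cd 3 hr M hM hext ⌈2 * T⌉₊
  refine le_trans (Pr_mono h fun ω hω => ?_) (key.trans (Real.exp_le_exp.mpr (by linarith)))
  refine le_trans (mul_le_mul_of_nonneg_right ?_ hM.le) hω
  have h1 : ((3 * ⌈2 * T⌉₊ + 1 : ℕ) : ℝ) ≤ 7 * T := by
    push_cast
    linarith
  have h2 : ((3 * ⌈2 * T⌉₊ + 1 : ℕ) : ℝ) ^ 3 ≤ (7 * T) ^ 3 :=
    pow_le_pow_left₀ (Nat.cast_nonneg _) h1 3
  have he : Real.exp 1 ≤ 3 := by
    have := Real.exp_one_lt_d9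
    linarith
  calc Real.exp 1 * ((3 * ⌈2 * T⌉₊ + 1 : ℕ) : ℝ) ^ 3 ≤ 3 * (7 * T) ^ 3 :=
        mul_le_mul he h2 (by positivity) (by norm_num)
    _ = 1029 * T ^ 3 := by ring
    _ ≤ T * T ^ 3 := mul_le_mul_of_nonneg_right (by linarith) (by positivity)
    _ = T ^ 4 := by ring

end

end Pool.Agent.Acy
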