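import Pool.Agent.Acy.RhoF
import Pool.Agent.Acy.CountT

/-! # The balanced partition into rounds (module G1) -/

set_option autoImplicit false
set_option linter.unusedSectionVars false

namespace Pool.Agent.Acy

open Finset
open scoped Classical

universe u

/-- A uniformly random value in a fixed set of indices is attained rarely. -/
theorem unif_hit_tail {Q : Type*} [Fintype Q] [DecidableEq Q] {T : ℝ} (hT : Big T) {q : ℕ}
    (hq : 0 < q) (A : Finset Q) (j : Fin q) (M : ℝ) (hM1 : 1 ≤ M) (hM : (A.card : ℝ) / q ≤ M) :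
    Pr (fun (_ : Q) (_ : Fin q) => (1 : ℝ) / q)
      (fun ω => T ^ 4 * M ≤ ((A.filter fun u => ω u = j).card : ℝ)) ≤ Real.exp (-(2 * T)) := by
  have hq' : (0 : ℝ) < q := by exact_mod_cast hq
  have hpm : IsPM (fun (_ : Q) (_ : Fin q) => (1 : ℝ) / q) := by
    refine ⟨fun _ _ => by positivity, fun _ => ?_⟩
    rw [Finset.sum_const, Finset.card_univ, Fintype.card_fin, nsmul_eq_mul]
    field_simp
  have hcnt : ∀ ω : Q → Fin q, cnt (fun u : Q => if u ∈ A then (1 : ℝ) else 0)
      (fun u => ({(u, j)} : Finset (Q × Fin q))) ω = ((A.filter fun u => ω u = j).card : ℝ) := by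
    intro ω
    unfold cnt
    rw [Finset.card_filter]
    push_cast
    rw [← Finset.sum_filter_add_sum_filter_not univ (fun u => u ∈ A)]
    have h2 : ∑ x ∈ univ.filter (fun u => u ∉ A),
        (if Holds ({(x, j)} : Finset (Q × Fin q)) ω then (if x ∈ A then (1 : ℝ) else 0) else 0) = 0 := by
      refine Finset.sum_eq_zero fun x hx => ?_
      rw [if_neg (Finset.mem_filter.mp hx).2]
      simp
    rw [h2, add_zero]
    have h3 : univ.filter (fun u => u ∈ A) = A := by
      ext x
      simp
    rw [h3]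
    refine Finset.sum_congr rfl fun x hx => ?_
    rw [if_pos hx]
    have : Holds ({(x, j)} : Finset (Q × Fin q)) ω ↔ ω x = j := by
      unfold Holds
      simp
    simp only [this]
  have key := count_T hT hpm (fun (_ : Q) (_ : Fin q) => (1 : ℝ) / q) (fun _ _ => le_rfl)
    (fun u : Q => if u ∈ A then (1 : ℝ) else 0) (fun u => by split_ifs <;> norm_num)
    (fun u => ({(u, j)} : Finset (Q × Fin q))) (fun u => by simp) M (by linarith) ?_
  · simp only [hcnt] at key
    exact key
  · intro W _
    unfold ext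
    by_cases hW : W = ∅
    · subst hW
      simp only [Finset.empty_subset, if_true, Finset.sdiff_empty, Finset.prod_singleton]
      rw [← Finset.sum_mul]
      simp only [Finset.sum_ite_mem, Finset.univ_inter, Finset.sum_const, nsmul_eq_mul, mul_one]
      rw [mul_one_div]
      exact hM
    · obtain ⟨⟨a, b⟩, hab⟩ := Finset.nonempty_iff_ne_empty.mpr hW
      calc ∑ U : Q, (if W ⊆ ({(U, j)} : Finset (Q × Fin q)) then
            (if U ∈ A then (1 : ℝ) else 0) * ∏ q_1 ∈ ({(U, j)} : Finset (Q × Fin q)) \ W,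
              (1 : ℝ) / q else 0)
          ≤ ∑ U : Q, if U = a then (1 : ℝ) else 0 := by
            refine Finset.sum_le_sum fun U _ => ?_
            by_cases hWU : W ⊆ ({(U, j)} : Finset (Q × Fin q))
            · have h1 := hWU hab
              rw [Finset.mem_singleton, Prod.mk.injEq] at h1
              have h2 : ({(U, j)} : Finset (Q × Fin q)) \ W = ∅ := by
                rw [Finset.sdiff_eq_empty_iff_subset, Finset.singleton_subset_iff,
                  ← h1.1, ← h1.2]
                exact hab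
              rw [if_pos hWU, h2, Finset.prod_empty, mul_one, if_pos h1.1.symm]
              split_ifs <;> norm_num
            · rw [if_neg hWU]
              split_ifs <;> norm_num
        _ = 1 := by simp
        _ ≤ M := hM1

namespace BData

variable {P Q : Type u} [Fintype P] [DecidableEq P] [Fintype Q] [DecidableEq Q] {B : BData P Q}

/-- Related pairs have codegree at least `T ^ 1970`. -/
theorem rp_cod_ge (hB : B.Ok) (u x : Q) (h : B.rel u x ∨ B.spec u x) :
    B.T ^ 1970 ≤ (B.cod u x : ℝ) := by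
  rcases h with h | h
  · exact h.2.1
  · have h1 := spec_cod_gt hB u x h
    have hs := sqrt_pos hB
    rw [one_le_div hs] at h1
    refine le_trans ?_ h1
    refine Real.le_sqrt_of_sq_le ?_
    have hT := T_ge hB
    have h2 : 1 ≤ Real.log B.T / 10 := by
      have h3 : Real.log ((10 : ℝ) ^ 6) ≤ Real.log B.T := Real.log_le_log (by norm_num) hT
      have h4 : (10 : ℝ) ≤ Real.log ((10 : ℝ) ^ 6) := by
        rw [Real.le_log_iff_exp_le (by norm_num)]
        have h5 : Real.exp 10 = Real.exp 1 ^ 10 := by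
          rw [← Real.exp_nat_mul]
          norm_num
        rw [h5]
        have h6 := Real.exp_one_lt_d9
        have h7 : Real.exp 1 ≤ 2.72 := by linarith
        calc Real.exp 1 ^ 10 ≤ (2.72 : ℝ) ^ 10 := pow_le_pow_left₀ (Real.exp_pos _).le h7 10
          _ ≤ 10 ^ 6 := by norm_num
      linarith
    have hk := k_pos hB
    calc (B.T ^ 1970) ^ 2 = B.T ^ 3940 := by rw [← pow_mul]
      _ ≤ B.T ^ 3999 := pow_le_pow_right₀ (T_one hB) (by norm_num)
      _ ≤ B.k := hB.k_lo
      _ ≤ B.k * (Real.log B.T / 10) := by nlinarith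

/-- Deterministic count: few pairs of codegree at least `T ^ 1970`. -/
theorem card_rp (hB : B.Ok) (x : Q) :
    ((univ.filter fun u => B.rel u x ∨ B.spec u x).card : ℝ) ≤ B.T ^ 4030 := by
  have hpos : 0 < B.T ^ 1970 := pow_pos (T_pos hB) _
  have h1 : ((univ.filter fun u => B.rel u x ∨ B.spec u x).card : ℝ) * B.T ^ 1970 ≤ B.T ^ 6000 := by
    calc ((univ.filter fun u => B.rel u x ∨ B.spec u x).card : ℝ) * B.T ^ 1970
        = ∑ _u ∈ univ.filter (fun u => B.rel u x ∨ B.spec u x), B.T ^ 1970 := by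
          rw [Finset.sum_const, nsmul_eq_mul]
      _ ≤ ∑ u ∈ univ.filter (fun u => B.rel u x ∨ B.spec u x), (B.cod u x : ℝ) :=
          Finset.sum_le_sum fun u hu => rp_cod_ge hB u x (Finset.mem_filter.mp hu).2
      _ ≤ ∑ u, (B.cod u x : ℝ) :=
          Finset.sum_le_sum_of_subset_of_nonneg (Finset.filter_subset _ _) fun _ _ _ =>
            Nat.cast_nonneg _
      _ ≤ B.T ^ 6000 := sum_cod hB x
  have h2 : B.T ^ 6000 = B.T ^ 4030 * B.T ^ 1970 := by rw [← pow_add]
  rw [h2] at h1
  exact le_of_mul_le_mul_right h1 hpos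

theorem exists_rd (hB : B.Ok) : ∃ rd : Q → ℕ, B.RdOk rd := by
  have hT := T_ge hB
  have hT0 := T_pos hB
  have hT1 := T_one hB
  have hqpos : (0 : ℝ) < B.q := by
    have h1 := hB.q_lo
    have h2 : 0 < B.T ^ 150 := pow_pos hT0 _
    linarith
  have hq : 0 < B.q := by exact_mod_cast hqpos
  have hq' : (0 : ℝ) < (B.q : ℝ) := hqpos
  have hpm : IsPM (fun (_ : Q) (_ : Fin B.q) => (1 : ℝ) / B.q) := by
    refine ⟨fun _ _ => by positivity, fun _ => ?_⟩
    rw [Finset.sum_const, Finset.card_univ, Fintype.card_fin, nsmul_eq_mul]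
    field_simp
  -- the events
  let Ev : (P ⊕ Q) × Fin B.q → (Q → Fin B.q) → Prop := fun b ω =>
    match b.1 with
    | Sum.inl z => B.T ^ 2855 < (((B.NP z).filter fun u => ω u = b.2).card : ℝ)
    | Sum.inr x => B.T ^ 3885 <
        (((univ.filter fun u => B.rel u x ∨ B.spec u x).filter fun u => ω u = b.2).card : ℝ)
  let S : (P ⊕ Q) × Fin B.q → Finset Q := fun b =>
    match b.1 with
    | Sum.inl z => B.NP z
    | Sum.inr x => univ.filter fun u => B.rel u x ∨ B.spec u x
  have hdepA : ∀ (A : Finset Q) (j : Fin B.q) (c : ℝ),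
      DependsOn (fun ω : Q → Fin B.q => c < ((A.filter fun u => ω u = j).card : ℝ))
        (A : Set Q) := by
    intro A j c ω ω' hω
    have : (A.filter fun u => ω u = j) = A.filter fun u => ω' u = j := by
      refine Finset.filter_congr fun u hu => ?_
      rw [hω u (by exact_mod_cast hu)]
    simp only [this]
  have hdep : ∀ b, DependsOn (Ev b) (S b : Set Q) := by
    rintro ⟨z | x, j⟩
    · exact hdepA _ _ _
    · exact hdepA _ _ _
  have hgen : ∀ (A : Finset Q) (j : Fin B.q) (a b : ℕ), a + 150 = b → 5 + a = a + 5 →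
      (A.card : ℝ) ≤ B.T ^ b →
      Pr (fun (_ : Q) (_ : Fin B.q) => (1 : ℝ) / B.q)
        (fun ω => B.T ^ (a + 5) < ((A.filter fun u => ω u = j).card : ℝ)) ≤
        Real.exp (-(2 * B.T)) := by
    intro A j a b hab _ hA
    have h2 : (0 : ℝ) < B.T ^ a := pow_pos hT0 _
    have h3 : (1 : ℝ) ≤ B.T ^ a := one_le_pow₀ hT1
    have key := unif_hit_tail hB.big hq A j (2 * B.T ^ a) (by linarith) (by
      rw [div_le_iff₀ hq']
      calc (A.card : ℝ) ≤ B.T ^ b := hA
        _ = 2 * B.T ^ a * (B.T ^ 150 / 2) := by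
          rw [← hab, pow_add]
          ring
        _ ≤ 2 * B.T ^ a * B.q := by
          have := hB.q_lo
          gcongr)
    refine le_trans (Pr_mono hpm fun ω hω => ?_) key
    refine le_trans ?_ hω.le
    calc B.T ^ 4 * (2 * B.T ^ a) = 2 * B.T ^ (a + 4) := by
          rw [pow_add]
          ring
      _ ≤ B.T * B.T ^ (a + 4) := by
          have : (0 : ℝ) < B.T ^ (a + 4) := pow_pos hT0 _
          exact mul_le_mul_of_nonneg_right (by linarith) this.le
      _ = B.T ^ (a + 5) := by
          rw [← pow_succ']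
  have hp : ∀ b, Pr (fun (_ : Q) (_ : Fin B.q) => (1 : ℝ) / B.q) (Ev b) ≤
      Real.exp (-(2 * B.T)) := by
    rintro ⟨z | x, j⟩
    · exact hgen _ j 2850 3000 (by norm_num) (by norm_num) (hB.degP z)
    · have h4 := card_rp hB x
      exact hgen _ j 3880 4030 (by norm_num) (by norm_num) h4
  have hmono : ∀ {a b : ℕ}, a ≤ b → B.T ^ a ≤ B.T ^ b := fun h => pow_le_pow_right₀ hT1 h
  have hs : ∀ b, (S b).card ≤ ⌊B.T ^ 4030⌋₊ := by
    rintro ⟨z | x, j⟩
    · exact Nat.le_floor ((hB.degP z).trans (hmono (by norm_num)))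
    · exact Nat.le_floor (card_rp hB x)
  have hs' : ∀ i, (univ.filter fun b => i ∈ S b).card ≤ ⌊B.T ^ 4181⌋₊ := by
    intro i
    refine Nat.le_floor ?_
    have h1 : (univ.filter fun b : (P ⊕ Q) × Fin B.q => i ∈ S b) ⊆
        ((B.N i).map ⟨Sum.inl, Sum.inl_injective⟩ ∪
          (univ.filter fun x => B.rel x i ∨ B.spec x i).map ⟨Sum.inr, Sum.inr_injective⟩) ×ˢ
          (univ : Finset (Fin B.q)) := by
      rintro ⟨z | x, j⟩ hb
      · have hb' : i ∈ B.NP z := (Finset.mem_filter.mp hb).2
        rw [Finset.mem_product]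
        refine ⟨Finset.mem_union_left _ ?_, mem_univ _⟩
        rw [Finset.mem_map]
        refine ⟨z, ?_, rfl⟩
        exact (Finset.mem_filter.mp hb').2
      · have hb' : i ∈ univ.filter (fun u => B.rel u x ∨ B.spec u x) :=
          (Finset.mem_filter.mp hb).2
        have hb'' := (Finset.mem_filter.mp hb').2
        rw [Finset.mem_product]
        refine ⟨Finset.mem_union_right _ ?_, mem_univ _⟩
        rw [Finset.mem_map]
        refine ⟨x, ?_, rfl⟩
        rw [Finset.mem_filter]
        exact ⟨mem_univ _, hb''.imp (rel_symm i x) (spec_symm i x)⟩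
    have h2 := Finset.card_le_card h1
    rw [Finset.card_product, Finset.card_univ, Fintype.card_fin] at h2
    have h3 := Finset.card_union_le ((B.N i).map ⟨Sum.inl, Sum.inl_injective⟩)
      ((univ.filter fun x => B.rel x i ∨ B.spec x i).map ⟨Sum.inr, Sum.inr_injective⟩ :
        Finset (P ⊕ Q))
    rw [Finset.card_map, Finset.card_map] at h3
    have h4 : ((univ.filter fun b : (P ⊕ Q) × Fin B.q => i ∈ S b).card : ℝ) ≤
        (((B.N i).card + (univ.filter fun x => B.rel x i ∨ B.spec x i).card : ℕ) : ℝ) * B.q := by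
      have := h2.trans (Nat.mul_le_mul_right _ h3)
      exact_mod_cast this
    refine h4.trans ?_
    push_cast
    calc (((B.N i).card : ℝ) + ((univ.filter fun x => B.rel x i ∨ B.spec x i).card : ℝ)) * B.q
        ≤ (B.T ^ 4030 + B.T ^ 4030) * B.T ^ 150 := by
          have h5 : ((B.N i).card : ℝ) ≤ B.T ^ 4030 := (hB.degQ i).trans (hmono (by norm_num))
          have h6 := card_rp hB i
          have h7 := hB.q_hi
          gcongr
      _ = 2 * B.T ^ 4180 := by
          rw [← two_mul, mul_assoc, ← pow_add]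
      _ ≤ B.T * B.T ^ 4180 := by
          have : (0 : ℝ) < B.T ^ 4180 := pow_pos hT0 _
          exact mul_le_mul_of_nonneg_right (by linarith) this.le
      _ = B.T ^ 4181 := by rw [← pow_succ']
  have hexp : Real.exp (-(2 * B.T)) * B.T ^ 60000 ≤ 1 := by
    have h1 := hB.big.exp
    have h2 : Real.exp (-(2 * B.T)) ≤ Real.exp (-B.T) := Real.exp_le_exp.mpr (by linarith)
    calc Real.exp (-(2 * B.T)) * B.T ^ 60000 ≤ Real.exp (-B.T) * Real.exp B.T := by
          have : (0 : ℝ) < B.T ^ 60000 := pow_pos hT0 _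
          gcongr
      _ = 1 := by rw [← Real.exp_add]; simp
  obtain ⟨ω, -, hω⟩ := lll_local hpm Ev S hdep (Real.exp (-(2 * B.T))) ⌊B.T ^ 4030⌋₊
    ⌊B.T ^ 4181⌋₊ (Real.exp_pos _).le hp hs hs' (by
      push_cast
      have h1 : (⌊B.T ^ 4030⌋₊ : ℝ) ≤ B.T ^ 4030 := Nat.floor_le (pow_nonneg hT0.le _)
      have h2 : (⌊B.T ^ 4181⌋₊ : ℝ) ≤ B.T ^ 4181 := Nat.floor_le (pow_nonneg hT0.le _)
      calc 4 * Real.exp (-(2 * B.T)) * ((⌊B.T ^ 4030⌋₊ : ℝ) * (⌊B.T ^ 4181⌋₊ : ℝ))
          ≤ 4 * Real.exp (-(2 * B.T)) * (B.T ^ 4030 * B.T ^ 4181) := by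
            gcongr
        _ = Real.exp (-(2 * B.T)) * (4 * B.T ^ 8211) := by
            rw [← pow_add]
            ring
        _ ≤ Real.exp (-(2 * B.T)) * (B.T * B.T ^ 8211) := by
            have : (0 : ℝ) < B.T ^ 8211 := pow_pos hT0 _
            gcongr
            linarith
        _ = Real.exp (-(2 * B.T)) * B.T ^ 8212 := by rw [← pow_succ']
        _ ≤ Real.exp (-(2 * B.T)) * B.T ^ 60000 := by
            have := hmono (a := 8212) (b := 60000) (by norm_num)
            gcongr
        _ ≤ 1 := hexp) (by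
      have h1 : (10 : ℝ) ≤ B.T ^ 60000 := by
        calc (10 : ℝ) ≤ B.T := by linarith
          _ = B.T ^ 1 := (pow_one _).symm
          _ ≤ B.T ^ 60000 := hmono (by norm_num)
      have h2 := Real.exp_pos (-(2 * B.T))
      nlinarith)
  refine ⟨fun u => (ω u : ℕ), ⟨fun u => (ω u).2, ?_, ?_⟩⟩
  · intro z j
    by_cases hj : j < B.q
    · have h1 := hω (Sum.inl z, ⟨j, hj⟩)
      have h2 : ¬ B.T ^ 2855 < (((B.NP z).filter fun u => ω u = ⟨j, hj⟩).card : ℝ) := h1
      refine le_trans (le_of_eq ?_) (not_lt.mp h2)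
      congr 2
      refine Finset.filter_congr fun u _ => ?_
      rw [Fin.ext_iff]
    · have h1 : ((B.NP z).filter fun u => (ω u : ℕ) = j) = ∅ := by
        refine Finset.filter_false_of_mem fun u _ => ?_
        have := (ω u).2
        omega
      rw [h1]
      simp only [Finset.card_empty, Nat.cast_zero]
      exact pow_nonneg hT0.le _
  · intro x j
    by_cases hj : j < B.q
    · have h1 := hω (Sum.inr x, ⟨j, hj⟩)
      have h2 : ¬ B.T ^ 3885 < (((univ.filter fun u => B.rel u x ∨ B.spec u x).filter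
        fun u => ω u = ⟨j, hj⟩).card : ℝ) := h1
      refine le_trans (le_of_eq ?_) (not_lt.mp h2)
      rw [Finset.filter_filter]
      congr 2
      refine Finset.filter_congr fun u _ => ?_
      rw [Fin.ext_iff]
    · have h1 : (univ.filter fun u => (B.rel u x ∨ B.spec u x) ∧ (ω u : ℕ) = j) = ∅ := by
        refine Finset.filter_false_of_mem fun u _ => ?_
        have := (ω u).2
        omega
      rw [h1]
      simp only [Finset.card_empty, Nat.cast_zero]
      exact pow_nonneg hT0.le _

end BData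

end Pool.Agent.Acy
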