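import Pool.Agent.Acy.RhoF
import Pool.Agent.Acy.Part

/-! # The hypotheses of the nibble (module G5) -/

set_option autoImplicit false
set_option linter.unusedSectionVars false

namespace Pool.Agent.Acy

open Finset
open scoped Classical

universe u

namespace BData

variable {P Q : Type u} [Fintype P] [DecidableEq P] [Fintype Q] [DecidableEq Q] {B : BData P Q}

/-- The extra relations. -/
def toX (B : BData P Q) (φ : P → Fin B.k) : XData Q where
  nb := fun u x => (B.N u ∩ B.N x).Nonempty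
  Hd := B.Hd φ
  Hs := B.Hs φ
  E3 := B.E3 φ

namespace Ok

theorem tn_big (hB : B.Ok) : (10 : ℝ) ^ 6 ≤ B.T := hB.big.big

theorem tn_one (hB : B.Ok) : 1 ≤ B.T := le_trans (by norm_num) hB.tn_big

theorem tn_pos (hB : B.Ok) : 0 < B.T := lt_of_lt_of_le one_pos hB.tn_one

theorem tn_log (hB : B.Ok) : 1 ≤ Real.log B.T := by
  rw [Real.le_log_iff_exp_le hB.tn_pos]
  have h1 := Real.exp_one_lt_d9
  have h2 := hB.tn_big
  norm_num at h1 h2 ⊢
  linarith

theorem tn_kpos (hB : B.Ok) : (0 : ℝ) < B.k :=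
  lt_of_lt_of_le (pow_pos hB.tn_pos 3999) hB.k_lo

theorem tn_kNpos (hB : B.Ok) : 0 < B.k := by exact_mod_cast hB.tn_kpos

theorem tn_cod_le_k (hB : B.Ok) (u x : Q) : B.cod u x ≤ B.k := by
  have h1 : (B.cod u x : ℝ) ≤ B.k :=
    (cod_le hB u x).trans ((pow_le_pow_right₀ hB.tn_one (by norm_num)).trans hB.k_lo)
  exact_mod_cast h1

theorem tn_Lpos (hB : B.Ok) : 0 < Real.log B.T / 10 := by
  have := hB.tn_log
  linarith

/-- Powers of `T` absorb constants. -/
theorem tn_absorb (hB : B.Ok) {c : ℝ} (hc : c ≤ 10 ^ 6) {a b : ℕ} (hab : a + 1 ≤ b) :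
    c * B.T ^ a ≤ B.T ^ b := by
  have h0 : (0 : ℝ) ≤ B.T ^ a := (pow_pos hB.tn_pos a).le
  calc c * B.T ^ a ≤ B.T * B.T ^ a := mul_le_mul_of_nonneg_right (hc.trans hB.tn_big) h0
    _ = B.T ^ (a + 1) := by rw [pow_succ, mul_comm]
    _ ≤ B.T ^ b := pow_le_pow_right₀ hB.tn_one hab

end Ok

section basic

theorem tn_inj_symm (φ : P → Fin B.k) (u x : Q) : B.inj φ u x ↔ B.inj φ x u := by
  unfold inj
  rw [Finset.inter_comm]

theorem tn_hz_symm (u x : Q) : B.hz u x = B.hz x u := by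
  unfold hz
  rw [cod_symm]

theorem tn_rel_iff (u x : Q) : B.rel u x ↔ B.rel x u := ⟨rel_symm u x, rel_symm x u⟩

theorem tn_spec_iff (u x : Q) : B.spec u x ↔ B.spec x u := ⟨spec_symm u x, spec_symm x u⟩

theorem tn_light_iff (u x : Q) : B.light u x ↔ B.light x u := by
  unfold light
  rw [cod_symm, ne_comm]

theorem tn_not_spec_of_rel (u x : Q) (h : B.rel u x) : ¬ B.spec u x := fun h' =>
  absurd h.2.2 (not_le.mpr h'.2)

theorem tn_K_symm (φ : P → Fin B.k) (u x : Q) : B.K φ u x = B.K φ x u := by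
  unfold K
  simp only [tn_rel_iff u x, tn_inj_symm φ u x, cod_symm u x]

theorem tn_h_symm (u x : Q) : B.h u x = B.h x u := by
  unfold h
  simp only [tn_rel_iff u x, tn_spec_iff u x, tn_hz_symm u x]

theorem tn_rho_pos (hB : B.Ok) (u x : Q) (h : B.rel u x) : 0 < rho B.k (B.cod u x) :=
  lt_of_lt_of_le (one_div_pos.mpr hB.tn_pos) (rel_rho_ge hB u x h)

theorem tn_hz_nonneg_of_rel (hB : B.Ok) (u x : Q) (h : B.rel u x) : 0 ≤ B.hz u x := by
  unfold hz
  have h1 := tn_rho_pos hB u x h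
  have h2 := rho_le_one (hB.tn_cod_le_k u x)
  have := Real.log_nonpos h1.le h2
  linarith

theorem tn_K_nonneg_of_inj (hB : B.Ok) (u x : Q) (h : B.rel u x) :
    0 ≤ 1 / rho B.k (B.cod u x) - 1 := by
  have h1 := tn_rho_pos hB u x h
  have h2 := rho_le_one (hB.tn_cod_le_k u x)
  have : 1 ≤ 1 / rho B.k (B.cod u x) := by
    rw [le_div_iff₀ h1, one_mul]
    exact h2
  linarith

theorem tn_K_cases (hB : B.Ok) (φ : P → Fin B.k) (u x : Q) : B.K φ u x = -1 ∨ 0 ≤ B.K φ u x := by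
  unfold K
  by_cases h : B.rel u x
  · by_cases h' : B.inj φ u x
    · right
      rw [if_pos h, if_pos h']
      exact tn_K_nonneg_of_inj hB u x h
    · left
      rw [if_pos h, if_neg h']
  · right
    rw [if_neg h]

theorem tn_h_nonneg (hB : B.Ok) (u x : Q) : 0 ≤ B.h u x := by
  unfold h
  by_cases hr : B.rel u x
  · rw [if_pos hr]
    exact div_nonneg (tn_hz_nonneg_of_rel hB u x hr) hB.tn_Lpos.le
  · rw [if_neg hr]
    split_ifs <;> norm_num

theorem tn_h_le (hB : B.Ok) (u x : Q) : B.h u x ≤ 2 := by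
  unfold h
  by_cases hr : B.rel u x
  · rw [if_pos hr]
    have : B.hz u x / (Real.log B.T / 10) ≤ 1 := by
      rw [div_le_one hB.tn_Lpos]
      exact hr.2.2
    linarith
  · rw [if_neg hr]
    split_ifs <;> norm_num

theorem tn_K_exp (hB : B.Ok) (φ : P → Fin B.k) (u x : Q) (hK : B.K φ u x ≠ -1) :
    1 + B.K φ u x ≤ Real.exp (Real.log B.T / 10 * B.h u x) := by
  by_cases hr : B.rel u x
  · have h1 := tn_rho_pos hB u x hr
    have hi : B.inj φ u x := by
      by_contra hi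
      apply hK
      unfold K
      rw [if_pos hr, if_neg hi]
    have e1 : B.K φ u x = 1 / rho B.k (B.cod u x) - 1 := by
      unfold K
      rw [if_pos hr, if_pos hi]
    have e2 : Real.log B.T / 10 * B.h u x = B.hz u x := by
      unfold h
      rw [if_pos hr]
      rw [mul_div_assoc']
      exact mul_div_cancel_left₀ _ hB.tn_Lpos.ne'
    rw [e1, e2]
    unfold hz
    rw [Real.exp_neg, Real.exp_log h1, one_div]
    linarith
  · have e1 : B.K φ u x = 0 := by
      unfold K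
      rw [if_neg hr]
    rw [e1, add_zero]
    exact Real.one_le_exp (mul_nonneg hB.tn_Lpos.le (tn_h_nonneg hB u x))

/-- Crude bound for the kernel. -/
theorem tn_K_abs_le (hB : B.Ok) (φ : P → Fin B.k) (u x : Q) : |B.K φ u x| ≤ B.T := by
  have hT := hB.tn_one
  unfold K
  by_cases hr : B.rel u x
  · rw [if_pos hr]
    by_cases hi : B.inj φ u x
    · rw [if_pos hi, abs_of_nonneg (tn_K_nonneg_of_inj hB u x hr)]
      have h1 := tn_rho_pos hB u x hr
      have h2 := rel_rho_ge hB u x hr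
      have h3 : 1 / rho B.k (B.cod u x) ≤ B.T := by
        rw [div_le_iff₀ h1]
        rw [div_le_iff₀ hB.tn_pos] at h2
        linarith
      linarith
    · rw [if_neg hi, abs_neg, abs_one]
      exact hT
  · rw [if_neg hr, abs_zero]
    linarith

theorem tn_K_zero_of_not (φ : P → Fin B.k) (u x : Q) (h : ¬ B.rel u x) : B.K φ u x = 0 := by
  unfold K
  rw [if_neg h]

/-- Sums over all vertices of sums that are small in every round. -/
theorem tn_sum_rounds (hB : B.Ok) {rd : Q → ℕ} (hrd : B.RdOk rd) (F : Q → ℝ) {M : ℝ}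
    (hF : ∀ j, |∑ u ∈ univ.filter (fun u => rd u = j), F u| ≤ M) :
    |∑ u, F u| ≤ B.T ^ 150 * M := by
  have h0 : 0 ≤ M := (abs_nonneg _).trans (hF 0)
  have h1 : ∑ u, F u = ∑ j ∈ range B.q, ∑ u ∈ univ.filter (fun u => rd u = j), F u := by
    rw [Finset.sum_fiberwise_of_maps_to]
    intro u _
    exact Finset.mem_range.mpr (hrd.lt u)
  rw [h1]
  calc |∑ j ∈ range B.q, ∑ u ∈ univ.filter (fun u => rd u = j), F u|
      ≤ ∑ j ∈ range B.q, |∑ u ∈ univ.filter (fun u => rd u = j), F u| :=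
        Finset.abs_sum_le_sum_abs _ _
    _ ≤ ∑ _j ∈ range B.q, M := Finset.sum_le_sum fun j _ => hF j
    _ = B.q * M := by rw [Finset.sum_const, Finset.card_range, nsmul_eq_mul]
    _ ≤ B.T ^ 150 * M := mul_le_mul_of_nonneg_right hB.q_hi h0

theorem tn_small_k (hB : B.Ok) : B.T ^ 150 * B.T ^ 3373 ≤ (B.k : ℝ) / 200 := by
  have h1 : B.T ^ 150 * B.T ^ 3373 = B.T ^ 3523 := by rw [← pow_add]
  have h2 : 200 * B.T ^ 3523 ≤ B.T ^ 3999 := hB.tn_absorb (by norm_num) (by norm_num)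
  have h3 := hB.k_lo
  rw [h1]
  linarith

end basic

section sums

theorem tn_cf_bound (hB : B.Ok) {rd : Q → ℕ} (hrd : B.RdOk rd) {φ : P → Fin B.k}
    (hφ : B.PFacts rd φ) (x : Q) :
    ∑ y, (if B.K φ y x = -1 then (1 : ℝ) else 0) ≤ Real.log B.T / 40 * B.k := by
  have hlog := hB.tn_log
  have hk := hB.tn_kpos
  have hkey : ∀ y, (if B.K φ y x = -1 then (1 : ℝ) else 0) ≤
      (B.cod y x : ℝ) / Real.sqrt (2 * B.k) - B.K φ y x * rho B.k (B.cod y x) := by
    intro y
    by_cases hr : B.rel y x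
    · have h1 := tn_rho_pos hB y x hr
      have h2 := one_sub_rho_le' (hB.tn_cod_le_k y x) hB.tn_kNpos
      by_cases hi : B.inj φ y x
      · have e1 : B.K φ y x = 1 / rho B.k (B.cod y x) - 1 := by
          unfold K
          rw [if_pos hr, if_pos hi]
        have hne : B.K φ y x ≠ -1 := by
          have := tn_K_nonneg_of_inj hB y x hr
          rw [e1]
          linarith
        rw [if_neg hne, e1, sub_mul, one_div_mul_cancel h1.ne']
        linarith
      · have e1 : B.K φ y x = -1 := by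
          unfold K
          rw [if_pos hr, if_neg hi]
        rw [if_pos e1, e1]
        linarith
    · have e1 := tn_K_zero_of_not φ y x hr
      have hne : B.K φ y x ≠ -1 := by
        rw [e1]
        norm_num
      rw [if_neg hne, e1, zero_mul, sub_zero]
      positivity
  have h1 : ∑ y, (if B.K φ y x = -1 then (1 : ℝ) else 0) ≤
      (∑ y, (B.cod y x : ℝ)) / Real.sqrt (2 * B.k) -
        ∑ y, B.K φ y x * rho B.k (B.cod y x) := by
    rw [Finset.sum_div, ← Finset.sum_sub_distrib]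
    exact Finset.sum_le_sum fun y _ => hkey y
  have h2 := abs_le.mp (tn_sum_rounds hB hrd (fun y => B.K φ y x * rho B.k (B.cod y x))
    (fun j => hφ.pl1 x j))
  have h3 := tn_small_k hB
  have h4 : (∑ y, (B.cod y x : ℝ)) / Real.sqrt (2 * B.k) ≤ B.k * Real.log B.T / 1600 := by
    have hs : 0 < Real.sqrt (2 * B.k) := Real.sqrt_pos.mpr (by linarith)
    rw [div_le_iff₀ hs]
    have h5 := sum_cod hB x
    have h6 := hB.kK
    have h7 : Real.sqrt (B.k * (Real.log B.T / 10)) ≤ Real.sqrt (2 * B.k) * Real.log B.T := by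
      have e : Real.sqrt (2 * B.k) * Real.log B.T =
          Real.sqrt (2 * B.k * Real.log B.T ^ 2) := by
        rw [Real.sqrt_mul (by linarith : (0 : ℝ) ≤ 2 * B.k) (Real.log B.T ^ 2),
          Real.sqrt_sq (by linarith)]
      rw [e]
      apply Real.sqrt_le_sqrt
      have : B.k * (Real.log B.T / 10) ≤ B.k * (2 * Real.log B.T ^ 2) := by
        apply mul_le_mul_of_nonneg_left _ hk.le
        nlinarith
      linarith
    have h8 : 1600 * B.T ^ 6000 ≤ B.k * (Real.sqrt (2 * B.k) * Real.log B.T) :=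
      h6.trans (mul_le_mul_of_nonneg_left h7 hk.le)
    calc ∑ y, (B.cod y x : ℝ) ≤ B.T ^ 6000 := h5
      _ ≤ B.k * (Real.sqrt (2 * B.k) * Real.log B.T) / 1600 := by linarith
      _ = B.k * Real.log B.T / 1600 * Real.sqrt (2 * B.k) := by ring
  have h9 : (B.k : ℝ) ≤ B.k * Real.log B.T := by
    have := mul_le_mul_of_nonneg_left hlog hk.le
    linarith
  have h10 : ∑ y, (if B.K φ y x = -1 then (1 : ℝ) else 0) ≤
      B.k * Real.log B.T / 1600 + B.k * Real.log B.T / 200 := by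
    linarith [h2.1]
  have h11 : Real.log B.T / 40 * B.k = B.k * Real.log B.T / 40 := by ring
  rw [h11]
  linarith

theorem tn_h_bound (hB : B.Ok) {rd : Q → ℕ} (hrd : B.RdOk rd) {φ : P → Fin B.k}
    (hφ : B.PFacts rd φ) (x : Q) :
    ∑ y, (2 + B.K φ y x) * B.h y x ≤ (B.k : ℝ) / 100 := by
  have hk := hB.tn_kpos
  have h1 : ∑ y, (2 + B.K φ y x) * B.h y x = 2 * ∑ y, B.h y x + ∑ y, B.K φ y x * B.h y x := by
    rw [Finset.mul_sum, ← Finset.sum_add_distrib]
    exact Finset.sum_congr rfl fun y _ => by ring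
  have h2 := abs_le.mp (tn_sum_rounds hB hrd (fun y => B.K φ y x * B.h y x)
    (fun j => hφ.plh x j))
  have h3 := tn_small_k hB
  have h4 : ∑ y, B.h y x = ∑ y ∈ univ.filter (fun y => B.rel y x),
      B.hz y x / (Real.log B.T / 10) + 2 * ((univ.filter fun y => B.spec y x).card : ℝ) := by
    have e1 : ∀ y, B.h y x = (if B.rel y x then B.hz y x / (Real.log B.T / 10) else 0) +
        (if B.spec y x then 2 else 0) := by
      intro y
      unfold h
      by_cases hr : B.rel y x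
      · rw [if_pos hr, if_pos hr, if_neg (tn_not_spec_of_rel y x hr), add_zero]
      · rw [if_neg hr, if_neg hr, zero_add]
    rw [Finset.sum_congr rfl fun y _ => e1 y, Finset.sum_add_distrib, ← Finset.sum_filter,
      ← Finset.sum_filter, Finset.sum_const, nsmul_eq_mul]
    ring
  have h5 := sum_rel_hz hB x
  have h6 := card_spec hB x
  have hL := hB.tn_Lpos
  have hs : 0 < Real.sqrt (B.k * (Real.log B.T / 10)) := Real.sqrt_pos.mpr (mul_pos hk hL)
  have h7 : B.T ^ 6000 / Real.sqrt (B.k * (Real.log B.T / 10)) ≤ (B.k : ℝ) / 1600 := by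
    rw [div_le_iff₀ hs]
    have := hB.kK
    linarith
  have h8 : 2 * B.T ^ 6000 / Real.sqrt (B.k * (Real.log B.T / 10)) =
      2 * (B.T ^ 6000 / Real.sqrt (B.k * (Real.log B.T / 10))) := by ring
  rw [h8] at h5
  rw [h1, h4]
  linarith [h2.2]

/-- Few near twins. -/
theorem tn_card_twins (hB : B.Ok) (y : Q) :
    ((univ.filter fun y' => B.T ^ 2500 < (B.cod y' y : ℝ)).card : ℝ) ≤ B.T ^ 3500 := by
  have h0 : 0 < B.T ^ 2500 := pow_pos hB.tn_pos _
  have h1 : ((univ.filter fun y' => B.T ^ 2500 < (B.cod y' y : ℝ)).card : ℝ) * B.T ^ 2500 ≤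
      B.T ^ 6000 := by
    refine le_trans ?_ (sum_cod hB y)
    rw [← nsmul_eq_mul]
    calc _ = ∑ _y' ∈ univ.filter (fun y' => B.T ^ 2500 < (B.cod y' y : ℝ)), B.T ^ 2500 := by
          rw [Finset.sum_const]
      _ ≤ ∑ y' ∈ univ.filter (fun y' => B.T ^ 2500 < (B.cod y' y : ℝ)), (B.cod y' y : ℝ) :=
          Finset.sum_le_sum fun y' hy' => (Finset.mem_filter.mp hy').2.le
      _ ≤ ∑ y', (B.cod y' y : ℝ) :=
          Finset.sum_le_sum_of_subset_of_nonneg (Finset.filter_subset _ _)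
            fun _ _ _ => Nat.cast_nonneg _
  have h2 : B.T ^ 6000 = B.T ^ 3500 * B.T ^ 2500 := by rw [← pow_add]
  rw [h2] at h1
  exact le_of_mul_le_mul_right h1 h0

theorem tn_qv_bound (hB : B.Ok) {rd : Q → ℕ} (hrd : B.RdOk rd) {φ : P → Fin B.k}
    (hφ : B.PFacts rd φ) (x : Q) (j : ℕ) :
    ∑ y ∈ univ.filter (fun y => B.rel y x ∨ B.spec y x),
      ∑ y' ∈ univ.filter (fun y => B.rel y x ∨ B.spec y x),
        |∑ u ∈ univ.filter (fun u => rd u = j), B.K φ u y * B.K φ u y'| ≤ B.T ^ 11435 := by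
  have hT := hB.tn_one
  have hT0 := hB.tn_pos
  set R := univ.filter (fun y => B.rel y x ∨ B.spec y x) with hR
  have hRc : (R.card : ℝ) ≤ B.T ^ 4030 := card_rp hB x
  have htriv : ∀ y y', |∑ u ∈ univ.filter (fun u => rd u = j), B.K φ u y * B.K φ u y'| ≤
      B.T ^ 3887 := by
    intro y y'
    have e1 : ∑ u ∈ univ.filter (fun u => rd u = j), B.K φ u y * B.K φ u y' =
        ∑ u ∈ univ.filter (fun u => (B.rel u y ∨ B.spec u y) ∧ rd u = j),
          B.K φ u y * B.K φ u y' := by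
      symm
      apply Finset.sum_subset
      · intro u hu
        rw [Finset.mem_filter] at hu ⊢
        exact ⟨hu.1, hu.2.2⟩
      · intro u hu hu'
        rw [Finset.mem_filter] at hu hu'
        have hnr : ¬ B.rel u y := fun hr => hu' ⟨hu.1, Or.inl hr, hu.2⟩
        rw [tn_K_zero_of_not φ u y hnr, zero_mul]
    rw [e1]
    calc |∑ u ∈ univ.filter (fun u => (B.rel u y ∨ B.spec u y) ∧ rd u = j),
          B.K φ u y * B.K φ u y'|
        ≤ ∑ u ∈ univ.filter (fun u => (B.rel u y ∨ B.spec u y) ∧ rd u = j),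
          |B.K φ u y * B.K φ u y'| := Finset.abs_sum_le_sum_abs _ _
      _ ≤ ∑ _u ∈ univ.filter (fun u => (B.rel u y ∨ B.spec u y) ∧ rd u = j), B.T ^ 2 := by
          apply Finset.sum_le_sum
          intro u _
          rw [abs_mul, sq]
          exact mul_le_mul (tn_K_abs_le hB φ u y) (tn_K_abs_le hB φ u y') (abs_nonneg _) hT0.le
      _ = ((univ.filter fun u => (B.rel u y ∨ B.spec u y) ∧ rd u = j).card : ℝ) * B.T ^ 2 := by
          rw [Finset.sum_const, nsmul_eq_mul]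
      _ ≤ B.T ^ 3885 * B.T ^ 2 :=
          mul_le_mul_of_nonneg_right (hrd.rp y j) (pow_nonneg hT0.le _)
      _ = B.T ^ 3887 := by rw [← pow_add]
  have hinner : ∀ y, ∑ y' ∈ R,
      |∑ u ∈ univ.filter (fun u => rd u = j), B.K φ u y * B.K φ u y'| ≤
      B.T ^ 7403 + B.T ^ 7387 := by
    intro y
    have hpt : ∀ y', |∑ u ∈ univ.filter (fun u => rd u = j), B.K φ u y * B.K φ u y'| ≤
        B.T ^ 3373 + (if B.T ^ 2500 < (B.cod y' y : ℝ) then B.T ^ 3887 else 0) := by
      intro y'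
      by_cases hc : B.T ^ 2500 < (B.cod y' y : ℝ)
      · rw [if_pos hc]
        have := htriv y y'
        have h0 : (0 : ℝ) ≤ B.T ^ 3373 := pow_nonneg hT0.le _
        linarith
      · rw [if_neg hc, add_zero]
        apply hφ.pl2
        rw [cod_symm]
        exact not_lt.mp hc
    calc ∑ y' ∈ R, |∑ u ∈ univ.filter (fun u => rd u = j), B.K φ u y * B.K φ u y'|
        ≤ ∑ y' ∈ R, (B.T ^ 3373 + (if B.T ^ 2500 < (B.cod y' y : ℝ) then B.T ^ 3887 else 0)) :=
          Finset.sum_le_sum fun y' _ => hpt y'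
      _ = R.card * B.T ^ 3373 +
          ∑ y' ∈ R, (if B.T ^ 2500 < (B.cod y' y : ℝ) then B.T ^ 3887 else 0) := by
          rw [Finset.sum_add_distrib, Finset.sum_const, nsmul_eq_mul]
      _ ≤ B.T ^ 4030 * B.T ^ 3373 + B.T ^ 3500 * B.T ^ 3887 := by
          apply add_le_add
          · exact mul_le_mul_of_nonneg_right hRc (pow_nonneg hT0.le _)
          · calc ∑ y' ∈ R, (if B.T ^ 2500 < (B.cod y' y : ℝ) then B.T ^ 3887 else 0)
                ≤ ∑ y', (if B.T ^ 2500 < (B.cod y' y : ℝ) then B.T ^ 3887 else 0) := by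
                  apply Finset.sum_le_sum_of_subset_of_nonneg (Finset.subset_univ _)
                  intro i _ _
                  split_ifs
                  · exact pow_nonneg hT0.le _
                  · exact le_refl _
              _ = ((univ.filter fun y' => B.T ^ 2500 < (B.cod y' y : ℝ)).card : ℝ) *
                  B.T ^ 3887 := by
                  rw [← Finset.sum_filter, Finset.sum_const, nsmul_eq_mul]
              _ ≤ B.T ^ 3500 * B.T ^ 3887 :=
                  mul_le_mul_of_nonneg_right (tn_card_twins hB y) (pow_nonneg hT0.le _)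
      _ = B.T ^ 7403 + B.T ^ 7387 := by rw [← pow_add, ← pow_add]
  calc ∑ y ∈ R, ∑ y' ∈ R, |∑ u ∈ univ.filter (fun u => rd u = j), B.K φ u y * B.K φ u y'|
      ≤ ∑ _y ∈ R, (B.T ^ 7403 + B.T ^ 7387) := Finset.sum_le_sum fun y _ => hinner y
    _ = R.card * (B.T ^ 7403 + B.T ^ 7387) := by rw [Finset.sum_const, nsmul_eq_mul]
    _ ≤ B.T ^ 4030 * (B.T ^ 7403 + B.T ^ 7387) :=
        mul_le_mul_of_nonneg_right hRc (by positivity)
    _ ≤ B.T ^ 4030 * (2 * B.T ^ 7403) := by
        apply mul_le_mul_of_nonneg_left _ (pow_nonneg hT0.le _)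
        have : B.T ^ 7387 ≤ B.T ^ 7403 := pow_le_pow_right₀ hT (by norm_num)
        linarith
    _ = 2 * B.T ^ 11433 := by
        rw [mul_left_comm, ← pow_add]
    _ ≤ B.T ^ 11435 := hB.tn_absorb (by norm_num) (by norm_num)

end sums

theorem tn_R_eq (rd : Q → ℕ) (φ : P → Fin B.k) (x : Q) :
    (B.toNib rd φ).R x = univ.filter (fun u => B.rel u x ∨ B.spec u x) := by
  ext u
  unfold NibData.R
  rw [Finset.mem_filter, Finset.mem_filter]
  exact Iff.rfl

theorem toNib_ok (hB : B.Ok) {rd : Q → ℕ} (hrd : B.RdOk rd) {φ : P → Fin B.k}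
    (hφ : B.PFacts rd φ) : (B.toNib rd φ).Ok where
  big := hB.big
  k_lo := hB.k_lo
  k_hi := hB.k_hi
  q_hi := hB.q_hi
  rd_lt := hrd.lt
  rp_symm := fun x y h => h.elim (fun h => Or.inl (rel_symm x y h))
    (fun h => Or.inr (spec_symm x y h))
  rp_irrefl := fun x h => h.elim (fun h => h.1 rfl) (fun h => h.1 rfl)
  K_symm := tn_K_symm φ
  h_symm := tn_h_symm
  K_off := fun x y h => tn_K_zero_of_not φ x y fun h' => h (Or.inl h')
  h_off := fun x y h => by
    show B.h x y = 0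
    unfold BData.h
    rw [if_neg fun h' => h (Or.inl h'), if_neg fun h' => h (Or.inr h')]
  K_cases := tn_K_cases hB φ
  K_exp := tn_K_exp hB φ
  h_nonneg := tn_h_nonneg hB
  h_le := tn_h_le hB
  R_card := fun x => by
    rw [tn_R_eq]
    exact card_rp hB x
  RV_card := fun x j => by
    have h1 : (B.toNib rd φ).R x ∩ (B.toNib rd φ).V j =
        univ.filter fun u => (B.rel u x ∨ B.spec u x) ∧ rd u = j := by
      rw [tn_R_eq]
      ext u
      unfold NibData.V
      rw [Finset.mem_inter, Finset.mem_filter, Finset.mem_filter, Finset.mem_filter]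
      constructor
      · rintro ⟨⟨_, h1⟩, ⟨_, h2⟩⟩
        exact ⟨Finset.mem_univ _, h1, h2⟩
      · rintro ⟨_, h1, h2⟩
        exact ⟨⟨Finset.mem_univ _, h1⟩, ⟨Finset.mem_univ _, h2⟩⟩
    rw [h1]
    exact hrd.rp x j
  cf_sum := fun x => tn_cf_bound hB hrd hφ x
  h_sum := fun x => tn_h_bound hB hrd hφ x
  qv := fun x j => by
    rw [tn_R_eq]
    exact tn_qv_bound hB hrd hφ x j

theorem tn_nb_card_le (hB : B.Ok) (x : Q) :
    ((univ.filter fun u => (B.N x ∩ B.N u).Nonempty).card : ℝ) ≤ B.T ^ 6000 := by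
  refine le_trans ?_ (sum_cod hB x)
  calc ((univ.filter fun u => (B.N x ∩ B.N u).Nonempty).card : ℝ)
      = ∑ _u ∈ univ.filter (fun u => (B.N x ∩ B.N u).Nonempty), (1 : ℝ) := by
        rw [Finset.sum_const, nsmul_eq_mul, mul_one]
    _ ≤ ∑ u ∈ univ.filter (fun u => (B.N x ∩ B.N u).Nonempty), (B.cod u x : ℝ) := by
        apply Finset.sum_le_sum
        intro u hu
        have h1 := (Finset.mem_filter.mp hu).2
        have h2 : 1 ≤ B.cod u x := by
          rw [cod_symm]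
          exact Finset.card_pos.mpr h1
        exact_mod_cast h2
    _ ≤ ∑ u, (B.cod u x : ℝ) :=
        Finset.sum_le_sum_of_subset_of_nonneg (Finset.filter_subset _ _)
          fun _ _ _ => Nat.cast_nonneg _

theorem tn_nb_of_cod (x y : Q) (h : B.cod x y ≠ 0) : (B.N x ∩ B.N y).Nonempty :=
  Finset.card_ne_zero.mp h

theorem tn_nb_of_rp (hB : B.Ok) (x y : Q) (h : B.rel x y ∨ B.spec x y) :
    (B.N x ∩ B.N y).Nonempty := by
  apply tn_nb_of_cod
  intro h0
  rcases h with h | h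
  · have h1 := h.2.1
    rw [h0, Nat.cast_zero] at h1
    exact absurd (pow_pos hB.tn_pos 1970) (not_lt.mpr h1)
  · have h1 := h.2
    unfold hz at h1
    rw [h0] at h1
    have h2 : rho B.k 0 = 1 := by
      unfold rho
      rw [Finset.range_zero, Finset.prod_empty]
    rw [h2, Real.log_one, neg_zero] at h1
    exact absurd hB.tn_Lpos (not_lt.mpr h1.le)

theorem tn_nb_of_Hd {φ : P → Fin B.k} (x y : Q) (h : B.Hd φ x y) : (B.N x ∩ B.N y).Nonempty := by
  rw [Finset.nonempty_iff_ne_empty]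
  intro h0
  apply h.2
  unfold inj
  rw [h0, Finset.coe_empty]
  exact Set.injOn_empty φ

theorem tn_Hs_symm {φ : P → Fin B.k} (x y : Q) (h : B.Hs φ x y) : B.Hs φ y x := by
  obtain ⟨hne, z₀, z₁, z₂, h01, h02, h12, e1, e2, m0, m1, m1', m2⟩ := h
  exact ⟨hne.symm, z₂, z₁, z₀, h12.symm, h02.symm, h01.symm, e2.symm, e1.symm, m2, m1', m1, m0⟩

theorem tn_E3h_nb {φ : P → Fin B.k} (x u u' : Q) (h : B.E3h φ x u u') :
    (B.N x ∩ B.N u).Nonempty ∧ (B.N x ∩ B.N u').Nonempty := by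
  obtain ⟨_, _, _, z, z', z'', _, _, _, _, _, m1, m2, m3, _, m5⟩ := h
  exact ⟨⟨z, Finset.mem_inter.mpr ⟨m1, m3⟩⟩, ⟨z', Finset.mem_inter.mpr ⟨m2, m5⟩⟩⟩

theorem toX_ok (hB : B.Ok) {rd : Q → ℕ} (hrd : B.RdOk rd) {φ : P → Fin B.k}
    (hφ : B.PFacts rd φ) : (B.toX φ).Ok (B.toNib rd φ) where
  nb_symm := fun x y h => by
    show (B.N y ∩ B.N x).Nonempty
    rw [Finset.inter_comm]
    exact h
  nb_card := fun x => by
    have h1 : univ.filter ((B.toX φ).nb x) = univ.filter fun u => (B.N x ∩ B.N u).Nonempty := by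
      ext u
      rw [Finset.mem_filter, Finset.mem_filter]
      exact Iff.rfl
    rw [h1]
    exact tn_nb_card_le hB x
  rp_nb := fun x y h => tn_nb_of_rp hB x y h
  Hd_nb := fun x y h => tn_nb_of_Hd x y h
  Hs_nb := fun x y h => by
    obtain ⟨_, _, z₁, _, _, _, _, _, _, _, m1, m1', _⟩ := h
    exact ⟨z₁, Finset.mem_inter.mpr ⟨m1, m1'⟩⟩
  E3_nb := fun x u u' h => h.elim (fun h => tn_E3h_nb x u u' h) (fun h => (tn_E3h_nb x u' u h).symm)
  Hd_symm := fun x y h => ⟨(tn_light_iff x y).mp h.1, fun h' => h.2 ((tn_inj_symm φ x y).mpr h')⟩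
  Hs_symm := fun x y h => tn_Hs_symm x y h
  E3_symm := fun x u u' h => h.symm
  Hd_irr := fun x h => h.1.1 rfl
  Hs_irr := fun x h => h.1 rfl
  E3_irr := fun x u u' h => h.elim (fun h => ⟨h.1, h.2.1, h.2.2.1⟩)
    (fun h => ⟨h.2.1, h.1, h.2.2.1.symm⟩)
  hd := hφ.hd
  hs := hφ.hs
  hsV := hφ.hsV
  e3 := hφ.e3
  e3' := hφ.e3'

end BData

end Pool.Agent.Acy
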