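import Pool.Agent.Acy.XC

/-! # Long cycles and dropped vertices (module X) -/

set_option autoImplicit false
set_option linter.unusedSectionVars false

namespace Pool.Agent.Acy

open Finset
open scoped Classical

universe u

namespace XData

variable {Q : Type u} [Fintype Q] [DecidableEq Q] {X : XData Q} {D : NibData Q}

/-- The auxiliary invariants can be maintained. -/
theorem aux_ok (hX : X.Ok D) (hD : D.Ok) : AuxOK D (X.Inv D) := by
  have hT := T_pos hD
  have hT1 := T_one hD
  refine ⟨fun col => ?_, fun j hj col hI μ hμ hμ' => ?_⟩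
  · constructor
    · intro x u c
      have : (univ.filter fun u' => D.rd u' < 0 ∧ X.E3 x u u' ∧ col u' = c) = ∅ :=
        Finset.filter_eq_empty_iff.mpr fun y _ hy => absurd hy.1 (Nat.not_lt_zero _)
      rw [this]
      simp
    · intro x
      have : (univ.filter fun w : Q × Q => D.rd w.1 < 0 ∧ D.rd w.2 < 0 ∧ X.E3 x w.1 w.2 ∧
          col w.1 = col w.2) = ∅ :=
        Finset.filter_eq_empty_iff.mpr fun y _ hy => absurd hy.1 (Nat.not_lt_zero _)
      rw [this]
      simp
    · intro v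
      have : (univ.filter fun y => D.rd y < 0 ∧ X.drop D col y ∧ X.Tv D v y) = ∅ :=
        Finset.filter_eq_empty_iff.mpr fun y _ hy => absurd hy.1 (Nat.not_lt_zero _)
      rw [this]
      have h2 : (univ.filter fun y => D.rd y < 0 ∧ X.Tv D v y) = ∅ :=
        Finset.filter_eq_empty_iff.mpr fun y _ hy => absurd hy.1 (Nat.not_lt_zero _)
      rw [h2]
      simp
  · have h6 : D.T ^ 6000 ≤ D.T ^ 12001 := pow_le_pow_right₀ hT1 (by norm_num)
    have f1 := (cc_fam hX hD j hμ hμ').mono (fun _ h => h) h6 le_rfl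
    have f2 := (cp1_fam hX hD j hj col hI.cc hμ hμ').mono (fun _ h => h) h6 le_rfl
    have f3 := (cp2_fam hX hD j hμ hμ').mono (fun _ h => h) h6 le_rfl
    have f4 := cr1_fam hX hD j hμ hμ'
    have f5 := (cr2_fam hX hD j hj col hI.cp hμ hμ').mono (fun _ h => h) h6 le_rfl
    have f := f1.and (f2.and (f3.and (f4.and f5)))
    obtain ⟨κ, i, E, S, a, b, c, d, e⟩ := f
    refine ⟨κ, i, E, S, a, fun b' => (b b').trans ?_, fun b' => (c b').trans ?_,
      fun i' => (d i').trans ?_, fun ω hω => ?_⟩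
    · rw [Real.exp_le_exp]
      linarith
    · exact pow_le_pow_right₀ hT1 (by norm_num)
    · have h7 : D.T ^ 6000 * (D.T ^ 6000 * D.T ^ 4000) = D.T ^ 16000 := by ring
      have h8 : D.T ^ 6000 ≤ D.T ^ 16000 := pow_le_pow_right₀ hT1 (by norm_num)
      have h9 : D.T ^ 12001 ≤ D.T ^ 16000 := pow_le_pow_right₀ hT1 (by norm_num)
      have h10 : (10 : ℝ) ^ 6 ≤ D.T ^ 4000 := T_pow_ge hD (by norm_num)
      rw [h7]
      calc D.T ^ 16000 + (D.T ^ 6000 + (D.T ^ 6000 + (D.T ^ 12001 + D.T ^ 6000))) ≤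
            5 * D.T ^ 16000 := by linarith
        _ ≤ D.T ^ 4000 * D.T ^ 16000 :=
            mul_le_mul_of_nonneg_right (by linarith) (by positivity)
        _ = D.T ^ 20000 := by ring
    · obtain ⟨g1, g2, g3, g4, g5⟩ := e ω hω
      exact ⟨cc_step hI.cc g1, cp_step hX hD hI.cp g2 g3, cr_step hD hI.cr g4 g5⟩

/-- Few dropped vertices in every test set. -/
theorem drop_few (hX : X.Ok D) (hD : D.Ok) (col : Q → Fin D.k) (hI : X.Inv D D.q col) (v : Q) :
    ((univ.filter fun y => X.drop D col y ∧ X.Tv D v y).card : ℝ) ≤ (D.k : ℝ) / 2 := by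
  have hT := T_pos hD
  have hT1 := T_one hD
  have h1 : (univ.filter fun y => X.drop D col y ∧ X.Tv D v y) =
      univ.filter fun y => D.rd y < D.q ∧ X.drop D col y ∧ X.Tv D v y := by
    refine Finset.filter_congr fun y _ => ⟨fun h => ⟨hD.rd_lt y, h⟩, fun h => h.2⟩
  rw [h1]
  refine (hI.cr v).trans ?_
  -- the size of the test set
  have h2 : (univ.filter fun y => D.rd y < D.q ∧ X.Tv D v y) ⊆
      (univ.filter fun y => D.K y v = -1) ∪ ((univ.filter fun y => 1 < D.h y v) ∪
      ((univ.filter fun y => X.Hd y v) ∪ (univ.filter fun y => X.Hs y v))) := by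
    intro y hy
    rw [Finset.mem_filter] at hy
    rcases hy.2.2 with h | h | h | h
    · exact Finset.mem_union_left _ (Finset.mem_filter.mpr
        ⟨mem_univ _, by rw [hD.K_symm]; exact h⟩)
    · exact Finset.mem_union_right _ (Finset.mem_union_left _ (Finset.mem_filter.mpr
        ⟨mem_univ _, by rw [hD.h_symm]; exact h⟩))
    · exact Finset.mem_union_right _ (Finset.mem_union_right _ (Finset.mem_union_left _
        (Finset.mem_filter.mpr ⟨mem_univ _, hX.Hd_symm _ _ h⟩)))
    · exact Finset.mem_union_right _ (Finset.mem_union_right _ (Finset.mem_union_right _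
        (Finset.mem_filter.mpr ⟨mem_univ _, hX.Hs_symm _ _ h⟩)))
  have h3 := (Finset.card_le_card h2).trans ((Finset.card_union_le _ _).trans
    (Nat.add_le_add_left ((Finset.card_union_le _ _).trans
      (Nat.add_le_add_left (Finset.card_union_le _ _) _)) _))
  have h4 : ((univ.filter fun y => D.rd y < D.q ∧ X.Tv D v y).card : ℝ) ≤
      ((univ.filter fun y => D.K y v = -1).card : ℝ) + (((univ.filter fun y => 1 < D.h y v).card : ℝ)
        + (((univ.filter fun y => X.Hd y v).card : ℝ) +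
          ((univ.filter fun y => X.Hs y v).card : ℝ))) := by exact_mod_cast h3
  have h5 : ((univ.filter fun y => D.K y v = -1).card : ℝ) ≤ Real.log D.T / 40 * D.k := by
    refine le_trans (le_of_eq ?_) (hD.cf_sum v)
    rw [Finset.card_filter]
    push_cast
    refine Finset.sum_congr rfl fun y _ => ?_
    simp [NibData.a]
  have h6 : ((univ.filter fun y => 1 < D.h y v).card : ℝ) ≤ (D.k : ℝ) / 100 := by
    refine le_trans ?_ (hD.h_sum v)
    rw [Finset.card_filter]
    push_cast
    refine Finset.sum_le_sum fun y _ => ?_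
    have h7 : -1 ≤ D.K y v := by
      rcases hD.K_cases y v with h | h <;> linarith
    have h8 := hD.h_nonneg y v
    have h9 : D.a false v y = (2 + D.K y v) * D.h y v := by simp [NibData.a]
    rw [h9]
    by_cases h10 : 1 < D.h y v
    · simp only [h10, if_true]
      nlinarith
    · simp only [h10, if_false]
      exact mul_nonneg (by linarith) h8
  have h7 := hX.hd v
  have h8 := hX.hs v
  have hk := hD.k_hi
  have hk' := hD.k_lo
  have hk0 := k_pos hD
  have hlog : Real.log D.T ≤ D.T := by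
    have := Real.log_le_sub_one_of_pos hT
    linarith
  have h9 : ((univ.filter fun y => D.rd y < D.q ∧ X.Tv D v y).card : ℝ) ≤ 2 * D.T ^ 4008 := by
    have h10 : Real.log D.T / 40 * D.k ≤ D.T ^ 4001 := by
      calc Real.log D.T / 40 * D.k ≤ D.T * D.T ^ 4000 := by
            refine mul_le_mul (by linarith) hk hk0.le hT.le
        _ = D.T ^ 4001 := by ring
    have h11 : (D.k : ℝ) / 100 ≤ D.T ^ 4001 := by
      have : D.T ^ 4000 ≤ D.T ^ 4001 := pow_le_pow_right₀ hT1 (by norm_num)
      linarith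
    have h12 : D.T ^ 3977 ≤ D.T ^ 4001 := pow_le_pow_right₀ hT1 (by norm_num)
    have h13 : 3 * D.T ^ 4001 ≤ D.T ^ 4008 := by
      have h14 : (10 : ℝ) ^ 6 ≤ D.T ^ 7 := T_pow_ge hD (by norm_num)
      calc 3 * D.T ^ 4001 ≤ D.T ^ 7 * D.T ^ 4001 :=
            mul_le_mul_of_nonneg_right (by linarith) (by positivity)
        _ = D.T ^ 4008 := by ring
    linarith
  have h10 : ((univ.filter fun y => D.rd y < D.q ∧ X.Tv D v y).card : ℝ) / D.T ^ 13 ≤
      2 * D.T ^ 3995 := by
    rw [div_le_iff₀ (by positivity)]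
    calc ((univ.filter fun y => D.rd y < D.q ∧ X.Tv D v y).card : ℝ) ≤ 2 * D.T ^ 4008 := h9
      _ = 2 * D.T ^ 3995 * D.T ^ 13 := by ring
  have h11 : (D.q : ℝ) * D.T ^ 6 ≤ D.T ^ 3995 := by
    calc (D.q : ℝ) * D.T ^ 6 ≤ D.T ^ 150 * D.T ^ 6 :=
          mul_le_mul_of_nonneg_right hD.q_hi (by positivity)
      _ = D.T ^ 156 := by ring
      _ ≤ D.T ^ 3995 := pow_le_pow_right₀ hT1 (by norm_num)
  have h12 : 6 * D.T ^ 3995 ≤ D.T ^ 3999 := by
    have h14 : (10 : ℝ) ^ 6 ≤ D.T ^ 4 := T_pow_ge hD (by norm_num)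
    calc 6 * D.T ^ 3995 ≤ D.T ^ 4 * D.T ^ 3995 :=
          mul_le_mul_of_nonneg_right (by linarith) (by positivity)
      _ = D.T ^ 3999 := by ring
  linarith

end XData

end Pool.Agent.Acy
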