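import Pool.Agent.Acy.Phi
import Pool.Agent.Acy.ToNib
import Pool.Agent.Acy.XAux

/-! # Assembly: colourings of the bipartite graph (module G6) -/

set_option autoImplicit false
set_option linter.unusedSectionVars false

namespace Pool.Agent.Acy

open Finset
open scoped Classical

universe u

/-- No two-coloured subgraph of minimum degree two. -/
def AcycPair {P Q α β : Type*} [DecidableEq P] (N : Q → Finset P) (φ : P → α) (ψ : Q → β) :
    Prop :=
  ∀ (W : Finset P) (U : Finset Q), U.Nonempty → (∀ z ∈ W, ∀ z' ∈ W, φ z = φ z') →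
    (∀ u ∈ U, ∀ u' ∈ U, ψ u = ψ u') → (∀ u ∈ U, 2 ≤ (N u ∩ W).card) →
    ¬ ∀ z ∈ W, 2 ≤ (U.filter fun u => z ∈ N u).card

/-- Greedy colouring of a set in which every vertex has fewer than `k` related vertices. -/
theorem greedy {Q : Type*} [Fintype Q] (r : Q → Q → Prop) (hr : ∀ x y, r x y → r y x)
    (hirr : ∀ x, ¬ r x x) (k : ℕ) (h : ∀ x, (univ.filter fun y => r x y).card < k) :
    ∃ f : Q → Fin k, ∀ x y, r x y → f x ≠ f y := by
  classical
  rcases isEmpty_or_nonempty Q with hQ | ⟨⟨x₀⟩⟩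
  · exact ⟨fun x => (hQ.false x).elim, fun x => (hQ.false x).elim⟩
  have hk : 0 < k := lt_of_le_of_lt (Nat.zero_le _) (h x₀)
  have key : ∀ s : Finset Q, ∃ f : Q → Fin k, ∀ x ∈ s, ∀ y ∈ s, r x y → f x ≠ f y := by
    intro s
    induction s using Finset.induction_on with
    | empty => exact ⟨fun _ => ⟨0, hk⟩, by simp⟩
    | insert a s ha ih =>
      obtain ⟨f, hf⟩ := ih
      have hex : ∃ c : Fin k, c ∉ ((univ.filter fun y => r a y).image f) := by
        by_contra hcon
        push Not at hcon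
        have h1 : (univ : Finset (Fin k)) ⊆ ((univ.filter fun y => r a y).image f) :=
          fun c _ => hcon c
        have h2 := (card_le_card h1).trans card_image_le
        rw [card_univ, Fintype.card_fin] at h2
        exact absurd (h a) (not_lt.2 h2)
      obtain ⟨c, hc⟩ := hex
      refine ⟨fun x => if x = a then c else f x, ?_⟩
      intro x hx y hy hxy
      by_cases hxa : x = a
      · by_cases hya : y = a
        · subst hxa; subst hya
          exact absurd hxy (hirr _)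
        · simp only [hxa, hya, if_true, if_false]
          intro heq
          exact hc (mem_image.2 ⟨y, by simpa [hxa] using hxy, heq.symm⟩)
      · by_cases hya : y = a
        · simp only [hxa, hya, if_true, if_false]
          intro heq
          exact hc (mem_image.2 ⟨x, by simpa [hya] using hr _ _ hxy, heq⟩)
        · simp only [hxa, hya, if_false]
          exact hf x ((mem_insert.1 hx).resolve_left hxa) y ((mem_insert.1 hy).resolve_left hya) hxy
  obtain ⟨f, hf⟩ := key univ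
  exact ⟨f, fun x y => hf x (mem_univ _) y (mem_univ _)⟩

namespace BData

variable {P Q : Type u} [Fintype P] [DecidableEq P] [Fintype Q] [DecidableEq Q] {B : BData P Q}

/-- Two vertices with two common neighbours of the same colour are related in one of three
ways. -/
theorem tri_of_not_inj (rd : Q → ℕ) (φ : P → Fin B.k) {u x : Q} (hux : u ≠ x)
    (hi : ¬ B.inj φ u x) :
    (B.rel u x ∧ (B.toNib rd φ).K u x = -1) ∨ (B.spec u x ∧ 1 < (B.toNib rd φ).h u x) ∨
      B.Hd φ u x := by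
  by_cases hl : (B.cod u x : ℝ) < B.T ^ 1970
  · exact Or.inr (Or.inr ⟨⟨hux, hl⟩, hi⟩)
  · by_cases hz : B.hz u x ≤ Real.log B.T / 10
    · have hrel : B.rel u x := ⟨hux, not_lt.1 hl, hz⟩
      refine Or.inl ⟨hrel, ?_⟩
      show B.K φ u x = -1
      unfold BData.K
      rw [if_pos hrel, if_neg hi]
    · have hsp : B.spec u x := ⟨hux, not_le.1 hz⟩
      refine Or.inr (Or.inl ⟨hsp, ?_⟩)
      show 1 < B.h u x
      have hnr : ¬ B.rel u x := fun h => hz h.2.2
      unfold BData.h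
      rw [if_neg hnr, if_pos hsp]
      norm_num

/-- In a subgraph of minimum degree two, a vertex of `W` other than a given one. -/
theorem exists_other {W : Finset P} {u : Q} (h2 : 2 ≤ (B.N u ∩ W).card) (z : P) :
    ∃ z', z' ≠ z ∧ z' ∈ B.N u ∧ z' ∈ W := by
  obtain ⟨z', hz', hne⟩ := Finset.exists_mem_ne (show 1 < (B.N u ∩ W).card by omega) z
  exact ⟨z', hne, (mem_inter.1 hz').1, (mem_inter.1 hz').2⟩

/-- Two common neighbours of the same colour. -/
theorem not_inj_of {φ : P → Fin B.k} {u x : Q} {z z' : P} (hne : z ≠ z') (hφ : φ z = φ z')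
    (h1 : z ∈ B.N u) (h2 : z' ∈ B.N u) (h3 : z ∈ B.N x) (h4 : z' ∈ B.N x) :
    ¬ B.inj φ u x := by
  intro hi
  exact hne (hi (by simpa using ⟨h1, h3⟩) (by simpa using ⟨h2, h4⟩) hφ)

/-- The combinatorial core: the colouring built from `φ`, `col` and the greedy colouring. -/
theorem acycPair_of (hB : B.Ok) (rd : Q → ℕ) (φ : P → Fin B.k) (col f : Q → Fin B.k)
    (hcol : ∀ u y, rd u < rd y → col u = col y →
      (B.toNib rd φ).K u y ≠ -1 ∧ (B.toNib rd φ).h u y ≤ 1)
    (hf : ∀ u y, (B.toX φ).drop (B.toNib rd φ) col u → (B.toX φ).drop (B.toNib rd φ) col y →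
      u ≠ y → (B.toX φ).Tv (B.toNib rd φ) u y → f u ≠ f y) :
    AcycPair B.N φ (fun u => if (B.toX φ).drop (B.toNib rd φ) col u then
      (Sum.inr (f u) : Fin B.k ⊕ Fin B.k) else Sum.inl (col u)) := by
  intro W U hU hφ hψ hdU hdW
  by_cases hdr : ∃ u ∈ U, (B.toX φ).drop (B.toNib rd φ) col u
  · -- all vertices of `U` are dropped
    obtain ⟨u, huU, hud⟩ := hdr
    have hall : ∀ x ∈ U, (B.toX φ).drop (B.toNib rd φ) col x ∧ f x = f u := by
      intro x hx
      have h := hψ x hx u huU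
      by_cases hxd : (B.toX φ).drop (B.toNib rd φ) col x
      · simp only [hud, hxd, if_true] at h
        exact ⟨hxd, Sum.inr_injective h⟩
      · simp only [hud, hxd, if_true, if_false] at h
        exact absurd h (by simp)
    -- a neighbour `z` of `u` in `W` and another neighbour `x` of `z` in `U`
    obtain ⟨z, hz⟩ : (B.N u ∩ W).Nonempty := by
      rw [← card_pos]; have := hdU u huU; omega
    have hzu := (mem_inter.1 hz).1
    have hzW := (mem_inter.1 hz).2
    obtain ⟨x, hx, hxu⟩ := Finset.exists_mem_ne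
      (show 1 < (U.filter fun u => z ∈ B.N u).card from hdW z hzW) u
    rw [mem_filter] at hx
    obtain ⟨hxU, hzx⟩ := hx
    obtain ⟨z₀, hz₀z, hz₀u, hz₀W⟩ := exists_other (hdU u huU) z
    obtain ⟨z₂, hz₂z, hz₂x, hz₂W⟩ := exists_other (hdU x hxU) z
    have hT : (B.toX φ).Tv (B.toNib rd φ) u x := by
      by_cases h02 : z₀ = z₂
      · subst h02
        have hi := not_inj_of (B := B) (φ := φ) hz₀z (hφ _ hz₀W _ hzW) hz₀u hzu hz₂x hzx
        rcases tri_of_not_inj rd φ (Ne.symm hxu) hi with h | h | h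
        · exact Or.inl h.2
        · exact Or.inr (Or.inl h.2)
        · exact Or.inr (Or.inr (Or.inl h))
      · refine Or.inr (Or.inr (Or.inr ?_))
        exact ⟨Ne.symm hxu, z₀, z, z₂, hz₀z, h02, Ne.symm hz₂z, hφ _ hz₀W _ hzW,
          hφ _ hzW _ hz₂W, hz₀u, hzu, hzx, hz₂x⟩
    exact hf u x hud (hall x hxU).1 (Ne.symm hxu) hT (hall x hxU).2.symm
  · -- no vertex of `U` is dropped
    push Not at hdr
    have hc : ∀ u ∈ U, ∀ u' ∈ U, col u = col u' := by
      intro u hu u' hu'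
      have h := hψ u hu u' hu'
      simp only [hdr u hu, hdr u' hu', if_false] at h
      exact Sum.inl_injective h
    obtain ⟨x, hxU, hmax⟩ := Finset.exists_max_image U rd hU
    -- no other vertex of `U` has two common neighbours in `W` with `x`
    have h4 : ∀ u ∈ U, u ≠ x → ∀ z z', z ≠ z' → z ∈ W → z' ∈ W → z ∈ B.N u → z' ∈ B.N u →
        z ∈ B.N x → z' ∈ B.N x → False := by
      intro u hu hux z z' hzz hzW hz'W h1 h2 h3 h5
      have hi := not_inj_of (B := B) (φ := φ) hzz (hφ _ hzW _ hz'W) h1 h2 h3 h5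
      have hcc := hc u hu x hxU
      rcases lt_or_eq_of_le (hmax u hu) with hlt | heq
      · have hco := hcol u x hlt hcc
        rcases tri_of_not_inj rd φ hux hi with h | h | h
        · exact hco.1 h.2
        · exact absurd hco.2 (not_le.2 h.2)
        · exact hdr x hxU (Or.inr (Or.inl ⟨u, hlt, hcc, h⟩))
      · rcases tri_of_not_inj rd φ hux hi with h | h | h
        · exact hdr x hxU (Or.inl ⟨u, hux, heq, hcc, Or.inl (Or.inl h.1)⟩)
        · exact hdr x hxU (Or.inl ⟨u, hux, heq, hcc, Or.inl (Or.inr h.1)⟩)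
        · exact hdr x hxU (Or.inl ⟨u, hux, heq, hcc, Or.inr (Or.inl h)⟩)
    -- two neighbours of `x` in `W`
    obtain ⟨z, hz⟩ : (B.N x ∩ W).Nonempty := by
      rw [← card_pos]; have := hdU x hxU; omega
    have hzx := (mem_inter.1 hz).1
    have hzW := (mem_inter.1 hz).2
    obtain ⟨z', hz'z, hz'x, hz'W⟩ := exists_other (hdU x hxU) z
    obtain ⟨u, hu, hux⟩ := Finset.exists_mem_ne
      (show 1 < (U.filter fun u => z ∈ B.N u).card from hdW z hzW) x
    obtain ⟨u', hu', hu'x⟩ := Finset.exists_mem_ne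
      (show 1 < (U.filter fun u => z' ∈ B.N u).card from hdW z' hz'W) x
    rw [mem_filter] at hu hu'
    obtain ⟨huU, hzu⟩ := hu
    obtain ⟨hu'U, hz'u'⟩ := hu'
    have hz'u : z' ∉ B.N u := fun h => h4 u huU hux z z' (Ne.symm hz'z) hzW hz'W hzu h hzx hz'x
    have hzu' : z ∉ B.N u' := fun h =>
      h4 u' hu'U hu'x z z' (Ne.symm hz'z) hzW hz'W h hz'u' hzx hz'x
    have huu' : u ≠ u' := fun h => hz'u (h ▸ hz'u')
    obtain ⟨z₃, hz₃z, hz₃u, hz₃W⟩ := exists_other (hdU u huU) z
    obtain ⟨z₄, hz₄z', hz₄u', hz₄W⟩ := exists_other (hdU u' hu'U) z'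
    have hz₃z' : z₃ ≠ z' := fun h => hz'u (h ▸ hz₃u)
    have hz₄z : z₄ ≠ z := fun h => hzu' (h ▸ hz₄u')
    have hlt : ∀ w ∈ U, w ≠ x → B.Hs φ w x → rd w < rd x := by
      intro w hw hwx hH
      rcases lt_or_eq_of_le (hmax w hw) with h | h
      · exact h
      · exact absurd (Or.inl ⟨w, hwx, h, hc w hw x hxU, Or.inr (Or.inr hH)⟩) (hdr x hxU)
    have hHu : B.Hs φ u x := ⟨hux, z₃, z, z', hz₃z, hz₃z', Ne.symm hz'z, hφ _ hz₃W _ hzW,
      hφ _ hzW _ hz'W, hz₃u, hzu, hzx, hz'x⟩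
    have hHu' : B.Hs φ u' x := ⟨hu'x, z₄, z', z, hz₄z', hz₄z, hz'z, hφ _ hz₄W _ hz'W,
      hφ _ hz'W _ hzW, hz₄u', hz'u', hz'x, hzx⟩
    refine hdr x hxU (Or.inr (Or.inr ⟨u, u', hlt u huU hux hHu, hlt u' hu'U hu'x hHu',
      hc u huU x hxU, hc u' hu'U x hxU, Or.inl ⟨Ne.symm hux, Ne.symm hu'x, huu', z, z', z₃,
        Ne.symm hz'z, Ne.symm hz₃z, Ne.symm hz₃z', hφ _ hzW _ hz'W, hφ _ hzW _ hz₃W, hzx, hz'x,
        hzu, hz₃u, hz'u'⟩⟩))

theorem colour_exists (hB : B.Ok) :
    ∃ (φ : P → Fin B.k) (ψ : Q → Fin B.k ⊕ Fin B.k), AcycPair B.N φ ψ := by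
  obtain ⟨rd, hrd⟩ := exists_rd hB
  obtain ⟨φ, hφ⟩ := exists_phi hB hrd
  have hD : (B.toNib rd φ).Ok := toNib_ok hB hrd hφ
  have hX : (B.toX φ).Ok (B.toNib rd φ) := toX_ok hB hrd hφ
  obtain ⟨col, hinv, hcol⟩ := NibData.nibble hD _ (XData.aux_ok hX hD)
  have hfew := XData.drop_few hX hD col hinv
  have hkpos : (0 : ℝ) < B.k := by
    have hT : (0 : ℝ) < B.T := lt_of_lt_of_le (by norm_num) hB.big.big
    exact lt_of_lt_of_le (by positivity) hB.k_lo
  obtain ⟨f, hf⟩ := greedy (Q := Q) (fun x y => x ≠ y ∧ (B.toX φ).drop (B.toNib rd φ) col x ∧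
      (B.toX φ).drop (B.toNib rd φ) col y ∧ (B.toX φ).Tv (B.toNib rd φ) x y)
    (by
      rintro x y ⟨hne, hx, hy, h⟩
      refine ⟨Ne.symm hne, hy, hx, ?_⟩
      rcases h with h | h | h | h
      · exact Or.inl (by rw [hD.K_symm]; exact h)
      · exact Or.inr (Or.inl (by rw [hD.h_symm]; exact h))
      · exact Or.inr (Or.inr (Or.inl (hX.Hd_symm _ _ h)))
      · exact Or.inr (Or.inr (Or.inr (hX.Hs_symm _ _ h))))
    (fun x h => h.1 rfl) B.k
    (by
      intro x
      have h1 : ((univ.filter fun y => (B.toX φ).drop (B.toNib rd φ) col y ∧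
          (B.toX φ).Tv (B.toNib rd φ) x y).card : ℝ) ≤ (B.k : ℝ) / 2 := hfew x
      have h2 : ((univ.filter fun y => (B.toX φ).drop (B.toNib rd φ) col y ∧
          (B.toX φ).Tv (B.toNib rd φ) x y).card : ℝ) < B.k := by linarith
      refine lt_of_le_of_lt (card_le_card ?_) (by exact_mod_cast h2)
      intro y hy
      simp only [mem_filter, mem_univ, true_and] at hy ⊢
      exact ⟨hy.2.2.1, hy.2.2.2⟩)
  exact ⟨φ, _, acycPair_of hB rd φ col f hcol
    (fun u y hu hy hne hT => hf u y ⟨hne, hu, hy, hT⟩)⟩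

end BData

end Pool.Agent.Acy
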