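import Pool.Agent.Acy.Defs

/-! # Consequences of `Ok` and `Inv` (module N1a) -/

set_option autoImplicit false
set_option linter.unusedSectionVars false

namespace Pool.Agent.Acy

open Finset
open scoped Classical

universe u

namespace Big

variable {T : ℝ} (hT : Big T)

include hT

theorem pos : 0 < T := by
  have := hT.big
  linarith

theorem one_le : 1 ≤ T := by
  have := hT.big
  linarith

theorem log_pos : 0 < Real.log T := by
  apply Real.log_pos
  have := hT.big
  linarith

/-- `exp (c log T) <= T` for `c <= 1`. -/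
theorem exp_le {c : ℝ} (hc : c ≤ 1) : Real.exp (c * Real.log T) ≤ T := by
  have h1 : c * Real.log T ≤ Real.log T := by
    have := hT.log_pos
    nlinarith
  calc Real.exp (c * Real.log T) ≤ Real.exp (Real.log T) := Real.exp_le_exp.mpr h1
    _ = T := Real.exp_log hT.pos

theorem log_le : Real.log T ≤ T / 1000 := by
  have h1 : Real.log (T ^ 60000) ≤ T := by
    have h2 := Real.log_le_log (pow_pos hT.pos 60000) hT.exp
    rwa [Real.log_exp] at h2
  rw [Real.log_pow] at h1
  have := hT.log_pos
  push_cast at h1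
  linarith

/-- Monotonicity of powers. -/
theorem pw {a b : ℕ} (h : a ≤ b) : T ^ a ≤ T ^ b := pow_le_pow_right₀ hT.one_le h

/-- Monotonicity of inverse powers. -/
theorem ipw {a b : ℕ} (h : a ≤ b) : 1 / T ^ b ≤ 1 / T ^ a :=
  one_div_le_one_div_of_le (pow_pos hT.pos a) (hT.pw h)

/-- Inverse powers are small. -/
theorem small {n : ℕ} (h : 1 ≤ n) : 1 / T ^ n ≤ 1 / 1000000 := by
  have h1 : T ^ 1 ≤ T ^ n := hT.pw h
  have h2 := hT.big
  apply one_div_le_one_div_of_le (by norm_num)
  rw [pow_one] at h1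
  linarith

/-- The fifth root of `T` is much smaller than `T`. -/
theorem exp_fifth : Real.exp (Real.log T / 5) ≤ T / 10000 := by
  have h5 : Real.exp (Real.log T / 5) ^ 5 = T := by
    rw [← Real.exp_nat_mul]
    have : ((5 : ℕ) : ℝ) * (Real.log T / 5) = Real.log T := by
      push_cast
      ring
    rw [this, Real.exp_log hT.pos]
  set y := Real.exp (Real.log T / 5) with hy
  have hy0 : 0 < y := Real.exp_pos _
  have hy10 : 10 ≤ y := by
    by_contra hc
    push Not at hc
    have h1 : y ^ 5 < 10 ^ 5 := pow_lt_pow_left₀ hc hy0.le (by norm_num)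
    have h2 := hT.big
    rw [h5] at h1
    norm_num at h1 h2
    linarith
  have h4 : (10 : ℝ) ^ 4 ≤ y ^ 4 := pow_le_pow_left₀ (by norm_num) hy10 4
  have : y ^ 5 = y ^ 4 * y := by ring
  rw [← h5, this]
  rw [le_div_iff₀ (by norm_num)]
  norm_num at h4
  nlinarith

end Big

namespace NibData

variable {Q : Type u} [Fintype Q] [DecidableEq Q] {D : NibData Q}

section ok

variable (hD : D.Ok)

include hD

theorem k_pos : 0 < D.k := by
  have h1 := hD.k_lo
  have h2 : (0 : ℝ) < D.T ^ 3999 := pow_pos hD.big.pos _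
  have h3 : (0 : ℝ) < D.k := lt_of_lt_of_le h2 h1
  exact_mod_cast h3

theorem k_pos' : (0 : ℝ) < D.k := by
  exact_mod_cast k_pos hD

theorem exp_h_le (x y : Q) : Real.exp (Real.log D.T / 10 * D.h x y) ≤ D.T / 10000 := by
  have h1 : Real.log D.T / 10 * D.h x y ≤ Real.log D.T / 5 := by
    have h2 := hD.h_le x y
    have h3 := hD.big.log_pos
    nlinarith
  exact (Real.exp_le_exp.mpr h1).trans hD.big.exp_fifth

theorem K_ge (x y : Q) : -1 ≤ D.K x y := by
  rcases hD.K_cases x y with h | h
  · rw [h]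
  · linarith

theorem one_add_K_le (x y : Q) : 1 + D.K x y ≤ D.T / 10000 := by
  have hT := hD.big.big
  rcases hD.K_cases x y with h | h
  · rw [h]
    norm_num at hT ⊢
    linarith
  · exact (hD.K_exp x y (by linarith)).trans (exp_h_le hD x y)

theorem K_le (x y : Q) : D.K x y ≤ D.T := by
  have h1 := one_add_K_le hD x y
  have h2 := hD.big.pos
  linarith

theorem K_abs (x y : Q) : |D.K x y| ≤ D.T := by
  have h1 := K_ge hD x y
  have h2 := hD.big.one_le
  exact abs_le.mpr ⟨by linarith, K_le hD x y⟩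

theorem a_nonneg (b : Bool) (x y : Q) : 0 ≤ D.a b x y := by
  have h1 := K_ge hD y x
  have h2 := hD.h_nonneg y x
  cases b
  · simp only [a, Bool.false_eq_true, if_false]
    exact mul_nonneg (by linarith) h2
  · simp only [a, if_true]
    split_ifs <;> norm_num

theorem a_le (b : Bool) (x y : Q) : D.a b x y ≤ D.T := by
  have h1 := one_add_K_le hD y x
  have h2 := hD.h_nonneg y x
  have h3 := hD.h_le y x
  have hT := hD.big.big
  norm_num at hT
  have h4 := K_ge hD y x
  cases b
  · simp only [a, Bool.false_eq_true, if_false]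
    nlinarith
  · simp only [a, if_true]
    split_ifs <;> linarith

theorem K_off' (x y : Q) (h : y ∉ D.R x) : D.K y x = 0 := by
  apply hD.K_off
  intro hc
  exact h (Finset.mem_filter.mpr ⟨mem_univ _, hc⟩)

theorem h_off' (x y : Q) (h : y ∉ D.R x) : D.h y x = 0 := by
  apply hD.h_off
  intro hc
  exact h (Finset.mem_filter.mpr ⟨mem_univ _, hc⟩)

theorem a_off (b : Bool) (x y : Q) (h : y ∉ D.R x) : D.a b x y = 0 := by
  cases b
  · simp only [a, Bool.false_eq_true, if_false]
    rw [h_off' hD x y h, mul_zero]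
  · simp only [a, if_true]
    rw [K_off' hD x y h]
    norm_num

theorem mem_R_symm (x y : Q) : x ∈ D.R y ↔ y ∈ D.R x := by
  simp only [R, Finset.mem_filter, Finset.mem_univ, true_and]
  exact ⟨fun h => hD.rp_symm _ _ h, fun h => hD.rp_symm _ _ h⟩

/-- A sum over the vertices of a round of terms supported on the related vertices. -/
theorem sum_V_le (x : Q) (i : ℕ) (f : Q → ℝ) (C : ℝ) (hC : 0 ≤ C)
    (h0 : ∀ y, y ∉ D.R x → f y ≤ 0) (h1 : ∀ y ∈ D.R x, f y ≤ C) :
    ∑ y ∈ D.V i, f y ≤ D.T ^ 3885 * C := by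
  calc ∑ y ∈ D.V i, f y ≤ ∑ y ∈ D.V i, (if y ∈ D.R x then C else 0) := by
        refine Finset.sum_le_sum fun y _ => ?_
        split_ifs with hy
        · exact h1 y hy
        · exact h0 y hy
    _ = ((D.R x ∩ D.V i).card : ℝ) * C := by
        rw [← Finset.sum_filter, Finset.sum_const, nsmul_eq_mul]
        congr 3
        ext y
        simp [Finset.mem_inter, and_comm]
    _ ≤ D.T ^ 3885 * C := mul_le_mul_of_nonneg_right (hD.RV_card x i) hC

theorem k_inv_le : 1 / (D.k : ℝ) ≤ 1 / D.T ^ 3999 :=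
  one_div_le_one_div_of_le (pow_pos hD.big.pos _) hD.k_lo

end ok

section inv

variable (hD : D.Ok) {S : NState Q D.k} {j : ℕ} {col : Q → Fin D.k} (hI : D.Inv S j col)
  (hj : j ≤ D.q)

include hD hI hj

theorem v_le (x : Q) (c : Fin D.k) : S.v x c ≤ D.T := by
  have h1 := hI.v_hi x c
  have h2 := hI.be_le x c
  have h3 := hI.ac_true x c
  have h4 := hD.big.log_pos
  have h5 : Real.log D.T / 10 * S.be x c + 2 * S.ac true x c ≤ 1 * Real.log D.T := by
    nlinarith
  exact (h1.trans (Real.exp_le_exp.mpr h5)).trans (hD.big.exp_le le_rfl)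

theorem v_lo' (x : Q) (c : Fin D.k) : -(1 / 1000000) ≤ S.v x c := by
  have h1 := hI.v_lo x c
  have h2 := hD.big.small (n := 100) (by norm_num)
  linarith

theorem v_abs (x : Q) (c : Fin D.k) : |S.v x c| ≤ D.T := by
  have h1 := v_lo' hD hI hj x c
  have h2 := hD.big.one_le
  exact abs_le.mpr ⟨by linarith, v_le hD hI hj x c⟩

/-- At least half of the mass is alive. -/
theorem A_ge (x : Q) : (D.k : ℝ) / 2 ≤ D.A S x := by
  have hT := hD.big
  have hT0 := hT.pos
  have hk := k_pos' hD
  have hTb := hT.big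
  norm_num at hTb
  have hjq : (j : ℝ) ≤ D.T ^ 150 := by
    have : (j : ℝ) ≤ D.q := by exact_mod_cast hj
    exact this.trans hD.q_hi
  have hj0 : (0 : ℝ) ≤ j := Nat.cast_nonneg j
  -- small quantities
  have e1 : (j : ℝ) * D.k / D.T ^ 180 ≤ D.k / 1000000 := by
    rw [div_le_div_iff₀ (by positivity) (by norm_num)]
    have h1 : D.T ^ 180 = D.T ^ 150 * (D.T ^ 29 * D.T) := by ring
    have h2 : (1 : ℝ) ≤ D.T ^ 29 := one_le_pow₀ hT.one_le
    have h3 : (1000000 : ℝ) ≤ D.T ^ 29 * D.T := by nlinarith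
    have h4 : (j : ℝ) * 1000000 ≤ D.T ^ 180 := by
      rw [h1]
      exact mul_le_mul hjq h3 (by norm_num) (by positivity)
    nlinarith
  set ε : ℝ := 1 / D.T ^ 100 with hε
  have hε0 : 0 < ε := by positivity
  have e2 : ε ≤ 1 / 1000000 := hT.small (by norm_num)
  obtain ⟨O, hO, hdead⟩ := hI.dead x
  have e3 : D.T * (O.card : ℝ) ≤ D.k / 1000000 := by
    have h1 : (j : ℝ) * D.k / D.T ^ 165 ≤ D.k / D.T ^ 15 := by
      rw [div_le_div_iff₀ (by positivity) (by positivity)]
      have h2 : D.T ^ 165 = D.T ^ 150 * D.T ^ 15 := by ring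
      rw [h2]
      have h3 : (j : ℝ) * D.T ^ 15 ≤ D.T ^ 150 * D.T ^ 15 :=
        mul_le_mul_of_nonneg_right hjq (by positivity)
      nlinarith
    have h2 : D.T * (O.card : ℝ) ≤ D.T * (D.k / D.T ^ 15) :=
      mul_le_mul_of_nonneg_left (hO.trans h1) hT0.le
    have h3 : D.T * (D.k / D.T ^ 15) = D.k * (1 / D.T ^ 14) := by
      field_simp
    have h4 := hT.small (n := 14) (by norm_num)
    rw [h3] at h2
    nlinarith
  -- number of colours with large double count
  set N : Finset (Fin D.k) := univ.filter fun c => D.k / D.T ^ 20 < S.pd x c with hN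
  have e4 : D.T * (N.card : ℝ) ≤ D.k / 1000000 := by
    have h1 : (N.card : ℝ) * (D.k / D.T ^ 20) ≤ ∑ c, S.pd x c := by
      calc (N.card : ℝ) * (D.k / D.T ^ 20) = ∑ c ∈ N, (D.k / D.T ^ 20 : ℝ) := by
            rw [Finset.sum_const, nsmul_eq_mul]
        _ ≤ ∑ c ∈ N, S.pd x c := by
            refine Finset.sum_le_sum fun c hc => ?_
            exact (Finset.mem_filter.mp hc).2.le
        _ ≤ ∑ c, S.pd x c :=
            Finset.sum_le_sum_of_subset_of_nonneg (Finset.subset_univ _)
              fun c _ _ => hI.pd_nonneg x c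
    have h2 : (N.card : ℝ) * (D.k / D.T ^ 20) ≤ D.T ^ 150 * D.T ^ 7810 :=
      h1.trans ((hI.pds x).trans (mul_le_mul_of_nonneg_right hjq (by positivity)))
    have h3 : (N.card : ℝ) * D.k ≤ D.T ^ 7980 := by
      have h4 : (N.card : ℝ) * (D.k / D.T ^ 20) = (N.card : ℝ) * D.k / D.T ^ 20 := by ring
      rw [h4, div_le_iff₀ (by positivity)] at h2
      calc (N.card : ℝ) * D.k ≤ D.T ^ 150 * D.T ^ 7810 * D.T ^ 20 := h2
        _ = D.T ^ 7980 := by ring
    have h5 := hD.k_lo
    have h6 : (N.card : ℝ) * D.T ^ 3999 ≤ D.T ^ 3981 * D.T ^ 3999 := by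
      calc (N.card : ℝ) * D.T ^ 3999 ≤ (N.card : ℝ) * D.k :=
            mul_le_mul_of_nonneg_left h5 (Nat.cast_nonneg _)
        _ ≤ D.T ^ 7980 := h3
        _ = D.T ^ 3981 * D.T ^ 3999 := by rw [← pow_add]
    have h7 : (N.card : ℝ) ≤ D.T ^ 3981 := le_of_mul_le_mul_right h6 (by positivity)
    have h8 : D.T * (N.card : ℝ) ≤ D.T ^ 3982 := by
      calc D.T * (N.card : ℝ) ≤ D.T * D.T ^ 3981 := mul_le_mul_of_nonneg_left h7 hT0.le
        _ = D.T ^ 3982 := by rw [← pow_succ']
    have h9 : D.T ^ 3999 = D.T ^ 3982 * (D.T ^ 16 * D.T) := by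
      rw [← pow_succ, ← pow_add]
    have h10 : (1 : ℝ) ≤ D.T ^ 16 := one_le_pow₀ hT.one_le
    have h11 : (1000000 : ℝ) ≤ D.T ^ 16 * D.T := by nlinarith
    have h12 : D.T ^ 3982 * 1000000 ≤ D.k := by
      refine le_trans ?_ h5
      rw [h9]
      exact mul_le_mul_of_nonneg_left h11 (by positivity)
    linarith
  -- the budget sum
  have hsumv : ∑ c, S.v x c ≤ D.k + D.k / 1000000 := by
    have := (abs_le.mp (hI.mass x)).2
    linarith
  have hsumv' : (D.k : ℝ) - D.k / 1000000 ≤ ∑ c, S.v x c := by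
    have := (abs_le.mp (hI.mass x)).1
    linarith
  have hsumε : ∑ _c : Fin D.k, ε = ε * D.k := by
    rw [Finset.sum_const, Finset.card_univ, Fintype.card_fin, nsmul_eq_mul, mul_comm]
  have hεk : ε * D.k ≤ D.k / 1000000 := by nlinarith
  have hac : ∑ c, S.v x c * S.ac false x c ≤ 1 / 50 * (D.k + D.k / 1000000 + D.k / 1000000) := by
    calc ∑ c, S.v x c * S.ac false x c ≤ ∑ c, 1 / 50 * (S.v x c + ε) := by
          refine Finset.sum_le_sum fun c _ => ?_
          have h1 := hI.v_lo x c
          have h2 := hI.ac_false x c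
          have h3 := hI.ac_nonneg false x c
          have h4 : 0 ≤ S.v x c + ε := by linarith
          nlinarith
      _ = 1 / 50 * (∑ c, S.v x c + ε * D.k) := by
          rw [← Finset.mul_sum, Finset.sum_add_distrib, hsumε]
      _ ≤ _ := by
          have : ∑ c, S.v x c + ε * D.k ≤ D.k + D.k / 1000000 + D.k / 1000000 := by linarith
          linarith
  have hbe : ∑ c, S.v x c * S.be x c ≤
      D.k / 1000000 + 2 * (1 / 50 * (D.k + D.k / 1000000 + D.k / 1000000)) := by
    have h1 := (hI.bud x).trans e1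
    have h2 : ∑ c, S.v x c * (S.be x c - 2 * S.ac false x c) =
        ∑ c, S.v x c * S.be x c - 2 * ∑ c, S.v x c * S.ac false x c := by
      rw [Finset.mul_sum, ← Finset.sum_sub_distrib]
      exact Finset.sum_congr rfl fun c _ => by ring
    rw [h2] at h1
    linarith
  -- the dead mass
  have hdm : ∑ c, (if S.al x c then 0 else S.v x c) ≤
      ε * D.k + (∑ c, S.v x c * S.be x c + 3 * (ε * D.k)) + D.T * N.card + D.T * O.card := by
    have h1 : ∀ c, (if S.al x c then 0 else S.v x c) ≤
        ε + (S.v x c * S.be x c + 3 * ε) + (if c ∈ N then D.T else 0) +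
          (if c ∈ O then D.T else 0) := by
      intro c
      have h2 := hI.v_lo x c
      have h3 := hI.be_nonneg x c
      have h4 := hI.be_le x c
      have h5 := v_le hD hI hj x c
      have h6 : 0 ≤ S.v x c + ε := by linarith
      have h7 : 0 ≤ (if c ∈ N then D.T else 0) := by split_ifs <;> linarith
      have h8 : 0 ≤ (if c ∈ O then D.T else 0) := by split_ifs <;> linarith
      have h9 : 0 ≤ S.v x c * S.be x c + 3 * ε := by
        have : S.v x c * S.be x c + 3 * ε = (S.v x c + ε) * S.be x c + ε * (3 - S.be x c) := by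
          ring
        rw [this]
        have h10 : 0 ≤ ε * (3 - S.be x c) := mul_nonneg hε0.le (by linarith)
        have h11 : 0 ≤ (S.v x c + ε) * S.be x c := mul_nonneg h6 h3
        linarith
      split_ifs with hal
      · linarith
      · linarith
      · linarith
      · linarith
      · rcases hdead c hal with h | h | h | h <;> linarith
      · rcases hdead c hal with h | h | h | h <;> linarith
      · rcases hdead c hal with h | h | h | h <;> linarith
      · rename_i hn ho
        rcases hdead c hal with h | h | h | h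
        · linarith
        · have : S.v x c * S.be x c + 3 * ε =
              (S.v x c + ε) + (S.v x c + ε) * (S.be x c - 1) + ε * (3 - S.be x c) - 0 := by
            ring
          have h10 : 0 ≤ ε * (3 - S.be x c) := mul_nonneg hε0.le (by linarith)
          have h11 : 0 ≤ (S.v x c + ε) * (S.be x c - 1) := mul_nonneg h6 (by linarith)
          linarith
        · exact absurd (show c ∈ N by rw [hN]; exact Finset.mem_filter.mpr ⟨mem_univ c, h⟩) hn
        · exact absurd h ho
    calc ∑ c, (if S.al x c then 0 else S.v x c)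
        ≤ ∑ c, (ε + (S.v x c * S.be x c + 3 * ε) + (if c ∈ N then D.T else 0) +
          (if c ∈ O then D.T else 0)) := Finset.sum_le_sum fun c _ => h1 c
      _ = _ := by
          rw [Finset.sum_add_distrib, Finset.sum_add_distrib, Finset.sum_add_distrib,
            Finset.sum_add_distrib, hsumε, ← Finset.sum_filter, ← Finset.sum_filter]
          simp only [Finset.sum_const, nsmul_eq_mul, Finset.card_univ, Fintype.card_fin,
            Finset.filter_mem_eq_inter, Finset.univ_inter]
          ring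
  have hA : D.A S x = ∑ c, S.v x c - ∑ c, (if S.al x c then 0 else S.v x c) := by
    rw [← Finset.sum_sub_distrib]
    refine Finset.sum_congr rfl fun c _ => ?_
    split_ifs <;> ring
  rw [hA]
  linarith

theorem A_pos (x : Q) : 0 < D.A S x := by
  have h1 := A_ge hD hI hj x
  have h2 := k_pos' hD
  linarith

theorem p_nonneg (x : Q) (c : Fin D.k) : 0 ≤ D.p S x c := by
  unfold p
  split_ifs with h
  · exact div_nonneg (hI.al_pos x c h).le (A_pos hD hI hj x).le
  · exact le_rfl

theorem p_isPM : IsPM (D.p S) := by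
  refine ⟨fun x c => p_nonneg hD hI hj x c, fun x => ?_⟩
  have h1 : ∑ c, D.p S x c = D.A S x / D.A S x := by
    unfold A
    rw [Finset.sum_div]
    refine Finset.sum_congr rfl fun c _ => ?_
    unfold p
    split_ifs
    · rfl
    · rw [zero_div]
  rw [h1, div_self (A_pos hD hI hj x).ne']

theorem p_le_v (x : Q) (c : Fin D.k) (h : S.al x c) : D.p S x c ≤ 2 / D.k * S.v x c := by
  have h1 := A_ge hD hI hj x
  have h2 := k_pos' hD
  have h3 := hI.al_pos x c h
  unfold p
  rw [if_pos h]
  calc S.v x c / D.A S x ≤ S.v x c / (D.k / 2) :=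
        div_le_div_of_nonneg_left h3.le (by positivity) h1
    _ = 2 / D.k * S.v x c := by
        field_simp

theorem p_le (x : Q) (c : Fin D.k) : D.p S x c ≤ 2 * D.T / D.k := by
  have h2 := k_pos' hD
  by_cases h : S.al x c
  · refine (p_le_v hD hI hj x c h).trans ?_
    have h4 := v_le hD hI hj x c
    have h5 : (0 : ℝ) < 2 / D.k := by positivity
    calc 2 / D.k * S.v x c ≤ 2 / D.k * D.T := mul_le_mul_of_nonneg_left h4 h5.le
      _ = 2 * D.T / D.k := by ring
  · unfold p
    rw [if_neg h]
    have := hD.big.pos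
    positivity

theorem al_of_p_pos (x : Q) (c : Fin D.k) (h : 0 < D.p S x c) : S.al x c := by
  by_contra hc
  unfold p at h
  rw [if_neg hc] at h
  exact lt_irrefl _ h

theorem small_VT {C : ℝ} {n : ℕ} (hn : n + 110 ≤ 3999) (hC : C ≤ D.T ^ n / D.k) :
    C ≤ 1 / D.T ^ 110 := by
  have hT0 := hD.big.pos
  have hk := k_pos' hD
  refine hC.trans ?_
  rw [div_le_div_iff₀ hk (by positivity), one_mul, ← pow_add]
  exact (hD.big.pw hn).trans hD.k_lo

theorem cmp_abs (x : Q) (c : Fin D.k) : |D.cmp S j x c| ≤ 1 / D.T ^ 110 := by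
  have hT := hD.big
  have hT0 := hT.pos
  have hk := k_pos' hD
  have hTb := hT.big
  norm_num at hTb
  have h1 : |D.cmp S j x c| ≤ ∑ u ∈ D.V j, |D.p S u c * D.K u x| :=
    Finset.abs_sum_le_sum_abs _ _
  have h2 : ∑ u ∈ D.V j, |D.p S u c * D.K u x| ≤ D.T ^ 3885 * (2 * D.T / D.k * D.T) := by
    apply sum_V_le hD x j _ _ (by positivity)
    · intro y hy
      rw [K_off' hD x y hy]
      simp
    · intro y _
      rw [abs_mul, abs_of_nonneg (p_nonneg hD hI hj y c)]
      exact mul_le_mul (p_le hD hI hj y c) (K_abs hD y x) (abs_nonneg _) (by positivity)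
  apply small_VT hD hI hj (n := 3888) (by norm_num)
  refine h1.trans (h2.trans ?_)
  have h3 : D.T ^ 3885 * (2 * D.T / D.k * D.T) = 2 * D.T ^ 3887 / D.k := by ring
  rw [h3]
  apply div_le_div_of_nonneg_right _ hk.le
  have h4 : D.T ^ 3888 = D.T * D.T ^ 3887 := by ring
  rw [h4]
  exact mul_le_mul_of_nonneg_right (by linarith) (by positivity)

/-- The growth per round is at most twice the increment of the accumulated conflict hazard. -/
theorem cmp_lo (x : Q) (c : Fin D.k) : -D.cmp S j x c ≤ 2 * D.dac S j true x c := by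
  have hk := k_pos' hD
  unfold cmp dac
  rw [← Finset.sum_neg_distrib, ← mul_assoc, Finset.mul_sum]
  refine Finset.sum_le_sum fun u _ => ?_
  by_cases h : S.al u c
  · rw [if_pos h]
    have h1 := p_le_v hD hI hj u c h
    have h2 := hI.al_pos u c h
    have h3 := p_nonneg hD hI hj u c
    have h4 : (2 : ℝ) * (1 / D.k) = 2 / D.k := by ring
    rw [h4]
    rcases hD.K_cases u x with hK | hK
    · have : D.a true x u = 1 := by
        simp [a, hK]
      rw [this, hK]
      linarith
    · have h5 : 0 ≤ D.a true x u := a_nonneg hD true x u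
      have h6 : 0 ≤ 2 / (D.k : ℝ) * (D.a true x u * S.v u c) := by positivity
      have h7 : 0 ≤ D.p S u c * D.K u x := mul_nonneg h3 hK
      linarith
  · rw [if_neg h]
    unfold p
    rw [if_neg h]
    simp

theorem dac_nonneg (b : Bool) (x : Q) (c : Fin D.k) : 0 ≤ D.dac S j b x c := by
  have hk := k_pos' hD
  unfold dac
  apply mul_nonneg (by positivity)
  apply Finset.sum_nonneg
  intro y _
  split_ifs with h
  · exact mul_nonneg (a_nonneg hD b x y) (hI.al_pos y c h).le
  · exact le_rfl

theorem dac_le (b : Bool) (x : Q) (c : Fin D.k) : D.dac S j b x c ≤ 1 / D.T ^ 110 := by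
  have hT0 := hD.big.pos
  have hk := k_pos' hD
  have h2 : ∑ y ∈ D.V j, (if S.al y c then D.a b x y * S.v y c else 0) ≤
      D.T ^ 3885 * (D.T * D.T) := by
    apply sum_V_le hD x j _ _ (by positivity)
    · intro y hy
      rw [a_off hD b x y hy]
      simp
    · intro y _
      split_ifs with h
      · exact mul_le_mul (a_le hD b x y) (v_le hD hI hj y c) (hI.al_pos y c h).le hT0.le
      · positivity
  apply small_VT hD hI hj (n := 3887) (by norm_num)
  unfold dac
  calc 1 / (D.k : ℝ) * ∑ y ∈ D.V j, (if S.al y c then D.a b x y * S.v y c else 0)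
      ≤ 1 / (D.k : ℝ) * (D.T ^ 3885 * (D.T * D.T)) :=
        mul_le_mul_of_nonneg_left h2 (by positivity)
    _ = D.T ^ 3887 / D.k := by ring

/-- Expected budget increase of the picks of round `j`. -/
theorem sum_p_h (x : Q) (c : Fin D.k) :
    ∑ u ∈ D.V j, D.p S u c * ((2 + D.K u x) * D.h u x) ≤ 2 * D.dac S j false x c := by
  have hk := k_pos' hD
  unfold dac
  rw [← mul_assoc, Finset.mul_sum]
  refine Finset.sum_le_sum fun u _ => ?_
  have ha : D.a false x u = (2 + D.K u x) * D.h u x := by
    simp [a]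
  have ha0 := a_nonneg hD false x u
  rw [ha] at ha0 ⊢
  by_cases h : S.al u c
  · rw [if_pos h]
    have h1 := p_le_v hD hI hj u c h
    have h4 : (2 : ℝ) * (1 / D.k) = 2 / D.k := by ring
    rw [h4]
    calc D.p S u c * ((2 + D.K u x) * D.h u x)
        ≤ (2 / D.k * S.v u c) * ((2 + D.K u x) * D.h u x) :=
          mul_le_mul_of_nonneg_right h1 ha0
      _ = 2 / D.k * ((2 + D.K u x) * D.h u x * S.v u c) := by ring
  · rw [if_neg h]
    unfold p
    rw [if_neg h]
    simp

/-- The mass of a round is part of the prediction. -/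
theorem dac_add_le (b : Bool) (x : Q) (c : Fin D.k) :
    D.dac S j b x c + D.Nf S (j + 1) b x c ≤ D.Nf S j b x c + 1 / D.T ^ 200 := by
  have hT := hD.big
  have hT0 := hT.pos
  have hk := k_pos' hD
  have h1 : D.Nf S j b x c = D.Nf S (j + 1) b x c +
      1 / D.k * ∑ y ∈ D.V j, D.a b x y * S.v y c := by
    unfold Nf V
    rw [← mul_add, Finset.sum_filter, ← Finset.sum_add_distrib]
    congr 1
    refine Finset.sum_congr rfl fun y _ => ?_
    by_cases h2 : D.rd y = j
    · rw [if_pos h2, if_pos (by omega), if_neg (by omega), zero_add]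
    · rw [if_neg h2, add_zero]
      by_cases h3 : j ≤ D.rd y
      · rw [if_pos h3, if_pos (by omega)]
      · rw [if_neg h3, if_neg (by omega)]
  have h2 : ∑ y ∈ D.V j, ((if S.al y c then D.a b x y * S.v y c else 0) -
      D.a b x y * S.v y c) ≤ D.T ^ 3885 * (D.T * (1 / D.T ^ 100)) := by
    apply sum_V_le hD x j _ _ (by positivity)
    · intro y hy
      rw [a_off hD b x y hy]
      simp
    · intro y _
      have h3 := a_nonneg hD b x y
      have h4 := a_le hD b x y
      have h5 := hI.v_lo y c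
      have h6 : (0 : ℝ) < 1 / D.T ^ 100 := by positivity
      split_ifs with h
      · rw [sub_self]
        positivity
      · rw [zero_sub]
        calc -(D.a b x y * S.v y c) = D.a b x y * (-S.v y c) := by ring
          _ ≤ D.a b x y * (1 / D.T ^ 100) := mul_le_mul_of_nonneg_left (by linarith) h3
          _ ≤ D.T * (1 / D.T ^ 100) := mul_le_mul_of_nonneg_right h4 h6.le
  have h3 : D.dac S j b x c - 1 / D.k * ∑ y ∈ D.V j, D.a b x y * S.v y c =
      1 / D.k * ∑ y ∈ D.V j, ((if S.al y c then D.a b x y * S.v y c else 0) -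
      D.a b x y * S.v y c) := by
    unfold dac
    rw [Finset.sum_sub_distrib, mul_sub]
  have h4 : 1 / (D.k : ℝ) * (D.T ^ 3885 * (D.T * (1 / D.T ^ 100))) ≤ 1 / D.T ^ 200 := by
    have h5 : 1 / (D.k : ℝ) * (D.T ^ 3885 * (D.T * (1 / D.T ^ 100))) = D.T ^ 3786 / D.k := by
      have : D.T ^ 3885 * (D.T * (1 / D.T ^ 100)) = D.T ^ 3786 := by
        field_simp
      rw [this]
      ring
    rw [h5, div_le_div_iff₀ hk (by positivity), one_mul, ← pow_add]
    exact (hT.pw (by norm_num)).trans hD.k_lo
  have h5 : 1 / (D.k : ℝ) * ∑ y ∈ D.V j, ((if S.al y c then D.a b x y * S.v y c else 0) -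
      D.a b x y * S.v y c) ≤ 1 / D.T ^ 200 :=
    (mul_le_mul_of_nonneg_left h2 (by positivity)).trans h4
  rw [h1]
  linarith

theorem Nf_lo (i : ℕ) (b : Bool) (x : Q) (c : Fin D.k) : -(1 / D.T ^ 60) ≤ D.Nf S i b x c := by
  have hT := hD.big
  have hT0 := hT.pos
  have hk := k_pos' hD
  have h6 : (0 : ℝ) < 1 / D.T ^ 100 := by positivity
  have h1 : ∑ y, -(if i ≤ D.rd y then D.a b x y * S.v y c else 0) ≤
      ∑ y, if y ∈ D.R x then D.T * (1 / D.T ^ 100) else 0 := by
    refine Finset.sum_le_sum fun y _ => ?_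
    have h3 := a_nonneg hD b x y
    have h4 := a_le hD b x y
    have h5 := hI.v_lo y c
    by_cases hy : y ∈ D.R x
    · rw [if_pos hy]
      split_ifs
      · calc -(D.a b x y * S.v y c) = D.a b x y * (-S.v y c) := by ring
          _ ≤ D.a b x y * (1 / D.T ^ 100) := mul_le_mul_of_nonneg_left (by linarith) h3
          _ ≤ D.T * (1 / D.T ^ 100) := mul_le_mul_of_nonneg_right h4 h6.le
      · rw [neg_zero]
        positivity
    · rw [if_neg hy, a_off hD b x y hy]
      simp
  have h2 : (∑ y, if y ∈ D.R x then D.T * (1 / D.T ^ 100) else 0) ≤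
      D.T ^ 4030 * (D.T * (1 / D.T ^ 100)) := by
    rw [← Finset.sum_filter, Finset.sum_const, nsmul_eq_mul]
    have : (univ.filter fun y => y ∈ D.R x) = D.R x := by
      ext y
      simp
    rw [this]
    exact mul_le_mul_of_nonneg_right (hD.R_card x) (by positivity)
  have h3 : D.T ^ 4030 * (D.T * (1 / D.T ^ 100)) = D.T ^ 3931 := by
    field_simp
  have h4 : 1 / (D.k : ℝ) * D.T ^ 3931 ≤ 1 / D.T ^ 60 := by
    have h5 : 1 / (D.k : ℝ) * D.T ^ 3931 = D.T ^ 3931 / D.k := by ring
    rw [h5, div_le_div_iff₀ hk (by positivity), one_mul, ← pow_add]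
    exact (hT.pw (by norm_num)).trans hD.k_lo
  unfold Nf
  rw [Finset.sum_neg_distrib] at h1
  have h5 := mul_le_mul_of_nonneg_left (h1.trans (h2.trans h3.le))
    (show (0 : ℝ) ≤ 1 / D.k by positivity)
  linarith

end inv

end NibData

end Pool.Agent.Acy
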