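import Pool.Agent.Acy.BasicA

/-! # Quadratic variation (module N1b) -/

set_option autoImplicit false
set_option linter.unusedSectionVars false

namespace Pool.Agent.Acy

open Finset
open scoped Classical

universe u

namespace NibData

variable {Q : Type u} [Fintype Q] [DecidableEq Q] {D : NibData Q}

variable (hD : D.Ok) {S : NState Q D.k} {j : ℕ} {col : Q → Fin D.k} (hI : D.Inv S j col)
  (hj : j ≤ D.q)

include hD hI hj

/-- Quadratic variation. -/
theorem qv_le (b : Bool) (x : Q) (c : Fin D.k) :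
    ∑ u ∈ D.V j, D.p S u c * D.G S j b u x c ^ 2 ≤ 1 / D.T ^ 556 := by
  have hT1 : (1 : ℝ) ≤ D.T := hD.big.one_le
  have hT0 : (0 : ℝ) < D.T := lt_of_lt_of_le one_pos hT1
  have hT6 : (10 : ℝ) ^ 6 ≤ D.T := hD.big.big
  have hk0 : (0 : ℝ) < D.k := by
    have := k_pos hD
    exact_mod_cast this
  have hkT : D.T ^ 3999 ≤ D.k := hD.k_lo
  let w : Q → ℝ := fun y => if j < D.rd y ∧ S.al y c then D.a b x y * S.v y c else 0
  have hw_abs : ∀ y, |w y| ≤ D.T ^ 2 := by
    intro y
    by_cases h : j < D.rd y ∧ S.al y c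
    · have h1 : w y = D.a b x y * S.v y c := if_pos h
      rw [h1, abs_mul, abs_of_nonneg (a_nonneg hD b x y), pow_two]
      exact mul_le_mul (a_le hD b x y) (v_abs hD hI hj y c) (abs_nonneg _) hT0.le
    · have h1 : w y = 0 := if_neg h
      rw [h1, abs_zero]
      positivity
  have hw_off : ∀ y, y ∉ D.R x → w y = 0 := by
    intro y hy
    by_cases h : j < D.rd y ∧ S.al y c
    · have h1 : w y = D.a b x y * S.v y c := if_pos h
      rw [h1, a_off hD b x y hy, zero_mul]
    · exact if_neg h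
  have hG : ∀ u, D.G S j b u x c = 1 / D.k * ∑ y ∈ D.R x, w y * D.K u y := by
    intro u
    unfold NibData.G
    congr 1
    have h1 : ∀ y, (if j < D.rd y ∧ S.al y c then D.a b x y * S.v y c * D.K u y else 0) =
        w y * D.K u y := by
      intro y
      by_cases h : j < D.rd y ∧ S.al y c
      · have h2 : w y = D.a b x y * S.v y c := if_pos h
        rw [if_pos h, h2]
      · have h2 : w y = 0 := if_neg h
        rw [if_neg h, h2, zero_mul]
    rw [Finset.sum_congr rfl fun y _ => h1 y]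
    symm
    refine Finset.sum_subset (Finset.subset_univ _) fun y _ hy => ?_
    rw [hw_off y hy, zero_mul]
  have hsq : ∀ u, D.G S j b u x c ^ 2 =
      1 / (D.k : ℝ) ^ 2 * ∑ y ∈ D.R x, ∑ y' ∈ D.R x, w y * w y' * (D.K u y * D.K u y') := by
    intro u
    rw [hG u, mul_pow, pow_two (∑ y ∈ D.R x, w y * D.K u y), Finset.sum_mul_sum, one_div_pow]
    congr 1
    refine Finset.sum_congr rfl fun y _ => Finset.sum_congr rfl fun y' _ => ?_
    ring
  have hsum : ∑ u ∈ D.V j, D.G S j b u x c ^ 2 ≤ 1 / (D.k : ℝ) ^ 2 * (D.T ^ 4 * D.T ^ 11435) := by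
    rw [Finset.sum_congr rfl fun u _ => hsq u, ← Finset.mul_sum]
    refine mul_le_mul_of_nonneg_left ?_ (by positivity)
    rw [Finset.sum_comm]
    have h1 : ∀ y ∈ D.R x, ∑ u ∈ D.V j, ∑ y' ∈ D.R x, w y * w y' * (D.K u y * D.K u y') =
        ∑ y' ∈ D.R x, w y * w y' * ∑ u ∈ D.V j, D.K u y * D.K u y' := by
      intro y _
      rw [Finset.sum_comm]
      refine Finset.sum_congr rfl fun y' _ => ?_
      rw [Finset.mul_sum]
    rw [Finset.sum_congr rfl h1]
    calc ∑ y ∈ D.R x, ∑ y' ∈ D.R x, w y * w y' * ∑ u ∈ D.V j, D.K u y * D.K u y'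
        ≤ ∑ y ∈ D.R x, ∑ y' ∈ D.R x, D.T ^ 4 * |∑ u ∈ D.V j, D.K u y * D.K u y'| := by
          refine Finset.sum_le_sum fun y _ => Finset.sum_le_sum fun y' _ => ?_
          refine le_trans (le_abs_self _) ?_
          rw [abs_mul]
          refine mul_le_mul_of_nonneg_right ?_ (abs_nonneg _)
          rw [abs_mul]
          calc |w y| * |w y'| ≤ D.T ^ 2 * D.T ^ 2 :=
                mul_le_mul (hw_abs y) (hw_abs y') (abs_nonneg _) (by positivity)
            _ = D.T ^ 4 := by ring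
      _ = D.T ^ 4 * ∑ y ∈ D.R x, ∑ y' ∈ D.R x, |∑ u ∈ D.V j, D.K u y * D.K u y'| := by
          rw [Finset.mul_sum]
          refine Finset.sum_congr rfl fun y _ => ?_
          rw [Finset.mul_sum]
      _ ≤ D.T ^ 4 * D.T ^ 11435 := mul_le_mul_of_nonneg_left (hD.qv x j) (by positivity)
  have hp : ∑ u ∈ D.V j, D.p S u c * D.G S j b u x c ^ 2 ≤
      2 * D.T / D.k * ∑ u ∈ D.V j, D.G S j b u x c ^ 2 := by
    rw [Finset.mul_sum]
    exact Finset.sum_le_sum fun u _ =>
      mul_le_mul_of_nonneg_right (p_le hD hI hj u c) (sq_nonneg _)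
  refine hp.trans ?_
  have hk3 : D.T ^ 11997 ≤ (D.k : ℝ) ^ 3 := by
    calc D.T ^ 11997 = (D.T ^ 3999) ^ 3 := by rw [← pow_mul]
      _ ≤ (D.k : ℝ) ^ 3 := pow_le_pow_left₀ (by positivity) hkT 3
  calc 2 * D.T / D.k * ∑ u ∈ D.V j, D.G S j b u x c ^ 2
      ≤ 2 * D.T / D.k * (1 / (D.k : ℝ) ^ 2 * (D.T ^ 4 * D.T ^ 11435)) :=
        mul_le_mul_of_nonneg_left hsum (by positivity)
    _ = 2 * D.T ^ 11440 / (D.k : ℝ) ^ 3 := by
        rw [← pow_add]
        field_simp
    _ ≤ D.T * D.T ^ 11440 / D.T ^ 11997 := by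
        refine div_le_div₀ (by positivity) ?_ (by positivity) hk3
        refine mul_le_mul_of_nonneg_right ?_ (by positivity)
        linarith
    _ = 1 / D.T ^ 556 := by
        rw [← pow_succ', div_eq_div_iff (by positivity) (by positivity), one_mul, ← pow_add]

end NibData

end Pool.Agent.Acy
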