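import Pool.Agent.Acy.BasicA

/-! # Picks and centred sums (module N1c) -/

set_option autoImplicit false
set_option linter.unusedSectionVars false

namespace Pool.Agent.Acy

open Finset
open scoped Classical

universe u

namespace NibData

variable {Q : Type u} [Fintype Q] [DecidableEq Q] {D : NibData Q}

/-- The picks of `c` seen from `x` are related vertices. -/
theorem pk_eq (hD : D.Ok) (j : ℕ) (ω : Q → Fin D.k) (x : Q) (c : Fin D.k) :
    D.pk j ω x c = ∑ u ∈ (D.R x ∩ D.V j).filter (fun u => ω u = c), D.K u x := by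
  unfold pk
  symm
  refine Finset.sum_subset ?_ ?_
  · intro u hu
    rw [Finset.mem_filter, Finset.mem_inter] at hu
    rw [Finset.mem_filter]
    exact ⟨hu.1.2, hu.2⟩
  · intro u hu hu'
    rw [Finset.mem_filter] at hu
    refine K_off' hD x u ?_
    intro hR
    exact hu' (by rw [Finset.mem_filter, Finset.mem_inter]; exact ⟨⟨hR, hu.1⟩, hu.2⟩)

theorem hk_eq (hD : D.Ok) (j : ℕ) (ω : Q → Fin D.k) (x : Q) (c : Fin D.k) :
    D.hk j ω x c = ∑ u ∈ (D.R x ∩ D.V j).filter (fun u => ω u = c), D.h u x := by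
  unfold hk
  symm
  refine Finset.sum_subset ?_ ?_
  · intro u hu
    rw [Finset.mem_filter, Finset.mem_inter] at hu
    rw [Finset.mem_filter]
    exact ⟨hu.1.2, hu.2⟩
  · intro u hu hu'
    rw [Finset.mem_filter] at hu
    refine h_off' hD x u ?_
    intro hR
    exact hu' (by rw [Finset.mem_filter, Finset.mem_inter]; exact ⟨⟨hR, hu.1⟩, hu.2⟩)

/-- Picks in a round with at most one related pick. -/
theorem pk_zero (hD : D.Ok) (j : ℕ) (ω : Q → Fin D.k) (x : Q) (c : Fin D.k)
    (h : D.J j ω x c = 0) : D.pk j ω x c = 0 ∧ D.hk j ω x c = 0 := by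
  unfold J at h
  rw [Finset.card_eq_zero] at h
  rw [pk_eq hD, hk_eq hD, h]
  simp

theorem pk_one (hD : D.Ok) (j : ℕ) (ω : Q → Fin D.k) (x : Q) (c : Fin D.k)
    (h : D.J j ω x c = 1) : ∃ u, D.rd u = j ∧ ω u = c ∧ u ∈ D.R x ∧ D.pk j ω x c = D.K u x ∧
      D.hk j ω x c = D.h u x := by
  unfold J at h
  rw [Finset.card_eq_one] at h
  obtain ⟨u, hu⟩ := h
  have hmem : u ∈ (D.R x ∩ D.V j).filter (fun u => ω u = c) := by
    rw [hu]; exact Finset.mem_singleton_self u
  rw [Finset.mem_filter, Finset.mem_inter] at hmem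
  have hV : D.rd u = j := by
    have := hmem.1.2
    unfold V at this
    rw [Finset.mem_filter] at this
    exact this.2
  refine ⟨u, hV, hmem.2, hmem.1.1, ?_, ?_⟩
  · rw [pk_eq hD, hu, Finset.sum_singleton]
  · rw [hk_eq hD, hu, Finset.sum_singleton]

theorem pk_abs (hD : D.Ok) (j : ℕ) (ω : Q → Fin D.k) (x : Q) (c : Fin D.k) :
    |D.pk j ω x c| ≤ D.T * D.J j ω x c := by
  rw [pk_eq hD]
  refine (Finset.abs_sum_le_sum_abs _ _).trans ?_
  refine (Finset.sum_le_sum (fun u _ => K_abs hD u x)).trans ?_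
  rw [Finset.sum_const, nsmul_eq_mul, mul_comm]
  exact le_rfl

theorem hk_nonneg (hD : D.Ok) (j : ℕ) (ω : Q → Fin D.k) (x : Q) (c : Fin D.k) :
    0 ≤ D.hk j ω x c :=
  Finset.sum_nonneg fun u _ => hD.h_nonneg u x

theorem hk_le (hD : D.Ok) (j : ℕ) (ω : Q → Fin D.k) (x : Q) (c : Fin D.k) :
    D.hk j ω x c ≤ 2 * D.J j ω x c := by
  rw [hk_eq hD]
  refine (Finset.sum_le_sum (fun u _ => hD.h_le u x)).trans ?_
  rw [Finset.sum_const, nsmul_eq_mul, mul_comm]
  exact le_rfl

theorem J_mul_nonneg (j : ℕ) (ω : Q → Fin D.k) (x : Q) (c : Fin D.k) :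
    0 ≤ (D.J j ω x c : ℝ) * ((D.J j ω x c : ℝ) - 1) := by
  rcases Nat.eq_zero_or_pos (D.J j ω x c) with h | h
  · rw [h]; simp
  · have h1 : (1 : ℝ) ≤ (D.J j ω x c : ℝ) := by exact_mod_cast h
    exact mul_nonneg (by linarith) (by linarith)

theorem dbl_nonneg (j : ℕ) (ω : Q → Fin D.k) (x : Q) (c : Fin D.k) : 0 ≤ D.dbl j ω x c :=
  Finset.sum_nonneg fun y _ => J_mul_nonneg j ω y c

/-- Centred sums as sums over the colours. -/
theorem cen_eq (S : NState Q D.k) (Y : Q → Fin D.k → ℝ) (ω : Q → Fin D.k) :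
    D.cen S Y ω = ∑ c, ∑ u, ((if ω u = c then 1 else 0) - D.p S u c) * Y u c := by
  unfold cen mean
  rw [Finset.sum_comm]
  refine Finset.sum_congr rfl fun u _ => ?_
  simp_rw [sub_mul]
  rw [Finset.sum_sub_distrib]
  congr 1
  simp

theorem pk_sub_cmp (S : NState Q D.k) (j : ℕ) (ω : Q → Fin D.k) (x : Q) (c : Fin D.k) :
    D.pk j ω x c - D.cmp S j x c =
      ∑ u ∈ D.V j, ((if ω u = c then 1 else 0) - D.p S u c) * D.K u x := by
  unfold pk cmp
  simp_rw [sub_mul]
  rw [Finset.sum_sub_distrib]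
  congr 1
  rw [Finset.sum_filter]
  refine Finset.sum_congr rfl fun u _ => ?_
  split_ifs <;> simp

/-- Generic form of the centred sums. -/
theorem cen_gen (S : NState Q D.k) (j : ℕ) (ω : Q → Fin D.k) (x : Q)
    (w : Fin D.k → ℝ) (g : Q → Fin D.k → ℝ) :
    D.cen S (fun u c => if D.rd u = j ∧ S.al x c then w c * g u c else 0) ω =
      ∑ c, if S.al x c then
        w c * (∑ u ∈ D.V j, ((if ω u = c then 1 else 0) - D.p S u c) * g u c) else 0 := by
  rw [cen_eq]
  refine Finset.sum_congr rfl fun c _ => ?_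
  by_cases hc : S.al x c
  · rw [if_pos hc]
    unfold V
    rw [Finset.mul_sum, Finset.sum_filter]
    refine Finset.sum_congr rfl fun u _ => ?_
    by_cases hu : D.rd u = j
    · have e : (if D.rd u = j ∧ S.al x c then w c * g u c else 0) = w c * g u c :=
        if_pos ⟨hu, hc⟩
      rw [e, if_pos hu]; ring
    · have e : (if D.rd u = j ∧ S.al x c then w c * g u c else 0) = 0 :=
        if_neg (fun h => hu h.1)
      rw [e, if_neg hu]; ring
  · rw [if_neg hc]
    refine Finset.sum_eq_zero fun u _ => ?_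
    have e : (if D.rd u = j ∧ S.al x c then w c * g u c else 0) = 0 :=
      if_neg (fun h => hc h.2)
    rw [e]; ring

/-- Sum of the centred picks against the kernel. -/
theorem cen_Y1 (S : NState Q D.k) (j : ℕ) (ω : Q → Fin D.k) (x : Q) :
    D.cen S (D.Y1 S j x) ω =
      ∑ c, if S.al x c then S.v x c * (D.pk j ω x c - D.cmp S j x c) else 0 := by
  have h := cen_gen (D := D) S j ω x (fun c => S.v x c) (fun u _ => D.K u x)
  simp only [← pk_sub_cmp] at h
  exact h

theorem cen_Y2 (S : NState Q D.k) (j : ℕ) (ω : Q → Fin D.k) (x : Q) :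
    D.cen S (D.Y2 S j x) ω = ∑ c, if S.al x c then
      S.v x c * (D.pk j ω x c - D.cmp S j x c) *
        (S.be x c - 2 * S.ac false x c - 2 * D.dac S j false x c) else 0 := by
  have h := cen_gen (D := D) S j ω x
    (fun c => S.v x c * (S.be x c - 2 * S.ac false x c - 2 * D.dac S j false x c))
    (fun u _ => D.K u x)
  simp only [← pk_sub_cmp] at h
  have e1 : D.Y2 S j x = fun u c => if D.rd u = j ∧ S.al x c then
      S.v x c * (S.be x c - 2 * S.ac false x c - 2 * D.dac S j false x c) * D.K u x else 0 := by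
    funext u c
    unfold Y2
    split_ifs
    · ring
    · rfl
  rw [e1, h]
  refine Finset.sum_congr rfl fun c _ => ?_
  split_ifs
  · ring
  · rfl

theorem cen_Y3 (S : NState Q D.k) (j : ℕ) (ω : Q → Fin D.k) (x : Q) :
    D.cen S (D.Y3 S j x) ω = ∑ c, if S.al x c then
      S.v x c * (∑ u ∈ D.V j, ((if ω u = c then 1 else 0) - D.p S u c) *
        ((2 + D.K u x) * D.h u x)) else 0 :=
  cen_gen (D := D) S j ω x (fun c => S.v x c) (fun u _ => (2 + D.K u x) * D.h u x)

theorem cen_Y4 (S : NState Q D.k) (j : ℕ) (ω : Q → Fin D.k) (b : Bool) (x : Q) (c : Fin D.k) :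
    D.cen S (D.Y4 S j b x c) ω = ∑ u ∈ D.V j, ((if ω u = c then 1 else 0) - D.p S u c) *
      (if |D.G S j b u x c| ≤ D.d3 then D.G S j b u x c else 0) := by
  rw [cen_eq, Finset.sum_eq_single c]
  · unfold V
    rw [Finset.sum_filter]
    refine Finset.sum_congr rfl fun u _ => ?_
    by_cases hu : D.rd u = j
    · by_cases hg : |D.G S j b u x c| ≤ D.d3
      · have e : D.Y4 S j b x c u c = D.G S j b u x c := if_pos ⟨hu, rfl, hg⟩
        rw [e, if_pos hu, if_pos hg]
      · have e : D.Y4 S j b x c u c = 0 := if_neg (fun h => hg h.2.2)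
        rw [e, if_pos hu, if_neg hg]
    · have e : D.Y4 S j b x c u c = 0 := if_neg (fun h => hu h.1)
      rw [e, if_neg hu]; ring
  · intro c' _ hc'
    refine Finset.sum_eq_zero fun u _ => ?_
    have e : D.Y4 S j b x c u c' = 0 := if_neg (fun h => hc' h.2.1)
    rw [e]; ring
  · intro h; exact absurd (Finset.mem_univ c) h

/-- Change of the prediction in terms of the linear effects. -/
theorem sum_eff (S : NState Q D.k) (j : ℕ) (ω : Q → Fin D.k) (b : Bool) (x : Q) (c : Fin D.k) :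
    1 / D.k * (∑ y, if j < D.rd y ∧ S.al y c then
        D.a b x y * S.v y c * (D.pk j ω y c - D.cmp S j y c) else 0) =
      ∑ u ∈ D.V j, ((if ω u = c then 1 else 0) - D.p S u c) * D.G S j b u x c := by
  have e1 : ∀ y, (if j < D.rd y ∧ S.al y c then
        D.a b x y * S.v y c * (D.pk j ω y c - D.cmp S j y c) else 0) =
      ∑ u ∈ D.V j, ((if ω u = c then 1 else 0) - D.p S u c) *
        (if j < D.rd y ∧ S.al y c then D.a b x y * S.v y c * D.K u y else 0) := by
    intro y
    rw [pk_sub_cmp]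
    by_cases hy : j < D.rd y ∧ S.al y c
    · simp only [if_pos hy]
      rw [Finset.mul_sum]
      refine Finset.sum_congr rfl fun u _ => ?_
      ring
    · simp only [if_neg hy, mul_zero, Finset.sum_const_zero]
  simp_rw [e1]
  rw [Finset.sum_comm, Finset.mul_sum]
  refine Finset.sum_congr rfl fun u _ => ?_
  unfold G
  rw [← Finset.mul_sum]
  ring

end NibData

end Pool.Agent.Acy
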