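import Pool.Agent.Acy.GDefs

/-! # Concentration of products of compensated indicators (module G2) -/

set_option autoImplicit false
set_option linter.unusedSectionVars false
set_option linter.unusedVariables false

namespace Pool.Agent.Acy

open Finset
open scoped Classical

universe u

section

variable {P Q : Type u} [Fintype P] [DecidableEq P] [Fintype Q] [DecidableEq Q]

/-- The uniform measure. -/
noncomputable def unif (P : Type u) (k : ℕ) : P → Fin k → ℝ := fun _ _ => 1 / (k : ℝ)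

/-- Compensated injectivity indicator. -/
noncomputable def MM (k : ℕ) (N : Q → Finset P) (N₁ : Finset P) (φ : P → Fin k) (u : Q) : ℝ :=
  if Set.InjOn φ ((N u ∩ N₁ : Finset P) : Set P) then 1 / rho k (N u ∩ N₁).card else 0

theorem unif_isPM (k : ℕ) (hk : 0 < k) : IsPM (unif P k) where
  nonneg := fun _ _ => by
    unfold unif
    positivity
  sum_one := fun _ => by
    unfold unif
    rw [Finset.sum_const, Finset.card_univ, Fintype.card_fin, nsmul_eq_mul]
    have : (k : ℝ) ≠ 0 := by exact_mod_cast hk.ne'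
    field_simp

private theorem rho_succ' (k m : ℕ) : rho k (m + 1) = rho k m * (1 - (m : ℝ) / k) := by
  unfold rho
  rw [Finset.prod_range_succ]

private theorem rho_pos' {k m : ℕ} (h : m ≤ k) (hk : 0 < k) : 0 < rho k m := by
  unfold rho
  refine Finset.prod_pos fun i hi => ?_
  have h0 : i < m := Finset.mem_range.mp hi
  have h1 : (i : ℝ) < k := by exact_mod_cast lt_of_lt_of_le h0 h
  have h2 : (0 : ℝ) < k := by exact_mod_cast hk
  rw [sub_pos, div_lt_one h2]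
  exact h1

private theorem rho_anti' {k m n : ℕ} (h : m ≤ n) (hn : n ≤ k) (hk : 0 < k) :
    rho k n ≤ rho k m := by
  induction n, h using Nat.le_induction with
  | base => exact le_rfl
  | succ n hmn ih =>
    rw [rho_succ']
    have h3 := ih (by omega)
    have h0 : 0 ≤ rho k n := (rho_pos' (by omega) hk).le
    have h1 : 1 - (n : ℝ) / k ≤ 1 := by
      have : 0 ≤ (n : ℝ) / k := by positivity
      linarith
    calc rho k n * (1 - (n : ℝ) / k) ≤ rho k n * 1 := mul_le_mul_of_nonneg_left h1 h0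
      _ = rho k n := mul_one _
      _ ≤ _ := h3

private theorem rho_le_one' {k m : ℕ} (h : m ≤ k) (hk : 0 < k) : rho k m ≤ 1 := by
  have h1 := rho_anti' (Nat.zero_le m) h hk
  have h2 : rho k 0 = 1 := by
    unfold rho
    simp
  linarith

private theorem injOn_update_insert {k : ℕ} (φ : P → Fin k) (z : P) (a : Fin k) (S : Finset P)
    (hz : z ∉ S) :
    Set.InjOn (Function.update φ z a) ((insert z S : Finset P) : Set P) ↔
      Set.InjOn φ (S : Set P) ∧ a ∉ S.image φ := by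
  have hc : Set.EqOn (Function.update φ z a) φ (S : Set P) := fun x hx =>
    Function.update_of_ne (fun h => hz (by rw [← h]; exact hx)) _ _
  rw [Finset.coe_insert, Set.injOn_insert (by simpa using hz), hc.injOn_iff, hc.image_eq,
    Function.update_self]
  simp

private theorem injOn_update_notMem {k : ℕ} (φ : P → Fin k) (z : P) (a : Fin k) (S : Finset P)
    (hz : z ∉ S) :
    Set.InjOn (Function.update φ z a) (S : Set P) ↔ Set.InjOn φ (S : Set P) := by
  have hc : Set.EqOn (Function.update φ z a) φ (S : Set P) := fun x hx =>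
    Function.update_of_ne (fun h => hz (by rw [← h]; exact hx)) _ _
  rw [hc.injOn_iff]

/-- The factor of one exposure step. -/
private noncomputable def fac (k : ℕ) (φ : P → Fin k) (S : Finset P) (a : Fin k) : ℝ :=
  if a ∈ S.image φ then 0 else 1 / (1 - (S.card : ℝ) / k)

private theorem MM_notMem {k : ℕ} (N : Q → Finset P) (N₁ E : Finset P) (φ : P → Fin k) (u : Q)
    (z : P) (a : Fin k) (hz : z ∉ E) (h : ¬ (z ∈ N u ∧ z ∈ N₁)) :
    MM k N (N₁ ∩ insert z E) (Function.update φ z a) u = MM k N (N₁ ∩ E) φ u := by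
  have h1 : N u ∩ (N₁ ∩ insert z E) = N u ∩ (N₁ ∩ E) := by
    ext i
    simp only [Finset.mem_inter, Finset.mem_insert]
    constructor
    · rintro ⟨h1, h2, h3 | h3⟩
      · subst h3
        exact absurd ⟨h1, h2⟩ h
      · exact ⟨h1, h2, h3⟩
    · rintro ⟨h1, h2, h3⟩
      exact ⟨h1, h2, Or.inr h3⟩
  have hzS : z ∉ N u ∩ (N₁ ∩ E) := by simp [hz]
  by_cases hi : Set.InjOn φ ((N u ∩ (N₁ ∩ E) : Finset P) : Set P)
  · have hi' := (injOn_update_notMem φ z a _ hzS).mpr hi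
    rw [← h1] at hi'
    unfold MM
    rw [if_pos hi, if_pos hi', h1]
  · have hi' := fun h => hi ((injOn_update_notMem φ z a _ hzS).mp h)
    rw [← h1] at hi'
    unfold MM
    rw [if_neg hi, if_neg hi']

private theorem MM_mem {k : ℕ} (N : Q → Finset P) (N₁ E : Finset P) (φ : P → Fin k) (u : Q)
    (z : P) (a : Fin k) (hz : z ∉ E) (h : z ∈ N u) (h' : z ∈ N₁) :
    MM k N (N₁ ∩ insert z E) (Function.update φ z a) u =
      MM k N (N₁ ∩ E) φ u * fac k φ (N u ∩ (N₁ ∩ E)) a := by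
  have h1 : N u ∩ (N₁ ∩ insert z E) = insert z (N u ∩ (N₁ ∩ E)) := by
    ext i
    simp only [Finset.mem_inter, Finset.mem_insert]
    constructor
    · rintro ⟨h1, h2, h3 | h3⟩
      · exact Or.inl h3
      · exact Or.inr ⟨h1, h2, h3⟩
    · rintro (h1 | ⟨h1, h2, h3⟩)
      · subst h1
        exact ⟨h, h', Or.inl rfl⟩
      · exact ⟨h1, h2, Or.inr h3⟩
  have hzS : z ∉ N u ∩ (N₁ ∩ E) := by simp [hz]
  have hiff := injOn_update_insert φ z a _ hzS
  rw [← h1] at hiff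
  unfold MM fac
  by_cases hi : Set.InjOn φ ((N u ∩ (N₁ ∩ E) : Finset P) : Set P)
  · by_cases ha : a ∈ (N u ∩ (N₁ ∩ E)).image φ
    · rw [if_neg (fun hh => (hiff.mp hh).2 ha), if_pos hi, if_pos ha, mul_zero]
    · rw [if_pos (hiff.mpr ⟨hi, ha⟩), if_pos hi, if_neg ha, one_div_mul_one_div, h1,
        Finset.card_insert_of_notMem hzS, rho_succ']
  · rw [if_neg (fun hh => hi (hiff.mp hh).1), if_neg hi, zero_mul]

/-- The term of the exposure martingale; `E` is the set of the exposed points. -/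
private noncomputable def ff (k : ℕ) (N : Q → Finset P) (N₁ N₂ E : Finset P) (φ : P → Fin k)
    (u : Q) : ℝ :=
  MM k N (N₁ ∩ E) φ u * MM k N (N₂ ∩ E) φ u *
    (rho k (N u ∩ (N₁ ∩ N₂ ∩ E)).card / rho k (N u ∩ N₁ ∩ N₂).card)

private theorem MM_ne_zero {k : ℕ} {N : Q → Finset P} {S : Finset P} {φ : P → Fin k} {u : Q}
    (h : MM k N S φ u ≠ 0) : Set.InjOn φ ((N u ∩ S : Finset P) : Set P) := by
  by_contra hcon
  exact h (by unfold MM; rw [if_neg hcon])

private theorem fac_empty (k : ℕ) (φ : P → Fin k) (a : Fin k) : fac k φ ∅ a = 1 := by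
  unfold fac
  simp

private theorem ff_step (k : ℕ) (N : Q → Finset P) (N₁ N₂ E : Finset P) (z : P)
    (hz : z ∉ E) (hE : z ∈ N₁ → z ∈ N₂ → E ⊆ N₁ ∩ N₂) (φ : P → Fin k) (u : Q)
    (c₁ : (N u ∩ N₁).card < k) :
    ∃ S : Finset P, (S ⊆ N u ∩ N₁ ∨ S ⊆ N u ∩ N₂) ∧ (z ∉ N u → S = ∅) ∧
      (ff k N N₁ N₂ E φ u ≠ 0 → Set.InjOn φ (S : Set P)) ∧
      ∀ a, ff k N N₁ N₂ (insert z E) (Function.update φ z a) u =
        ff k N N₁ N₂ E φ u * fac k φ S a := by
  have hC : ¬ (z ∈ N u ∧ z ∈ N₁ ∧ z ∈ N₂) →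
      N u ∩ (N₁ ∩ N₂ ∩ insert z E) = N u ∩ (N₁ ∩ N₂ ∩ E) := by
    intro h
    ext i
    simp only [Finset.mem_inter, Finset.mem_insert]
    constructor
    · rintro ⟨h1, ⟨h2, h3⟩, h4 | h4⟩
      · subst h4
        exact absurd ⟨h1, h2, h3⟩ h
      · exact ⟨h1, ⟨h2, h3⟩, h4⟩
    · rintro ⟨h1, h2, h3⟩
      exact ⟨h1, h2, Or.inr h3⟩
  by_cases hu : z ∈ N u
  swap
  · refine ⟨∅, Or.inl (Finset.empty_subset _), fun _ => rfl, fun _ => by simp, fun a => ?_⟩
    unfold ff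
    rw [MM_notMem N N₁ E φ u z a hz (fun h => hu h.1), MM_notMem N N₂ E φ u z a hz
      (fun h => hu h.1), hC (fun h => hu h.1), fac_empty, mul_one]
  by_cases h1 : z ∈ N₁
  · by_cases h2 : z ∈ N₂
    · -- common point
      have hsub := hE h1 h2
      have e1 : N₁ ∩ E = E := Finset.inter_eq_right.mpr fun i hi =>
        (Finset.mem_inter.mp (hsub hi)).1
      have e2 : N₂ ∩ E = E := Finset.inter_eq_right.mpr fun i hi =>
        (Finset.mem_inter.mp (hsub hi)).2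
      have e3 : N₁ ∩ N₂ ∩ E = E := Finset.inter_eq_right.mpr hsub
      have e4 : N₁ ∩ N₂ ∩ insert z E = insert z E := Finset.inter_eq_right.mpr fun i hi => by
        rcases Finset.mem_insert.mp hi with h | h
        · subst h
          exact Finset.mem_inter.mpr ⟨h1, h2⟩
        · exact hsub h
      have hzS : z ∉ N u ∩ E := by simp [hz]
      have e5 : N u ∩ insert z E = insert z (N u ∩ E) := by
        rw [Finset.inter_insert_of_mem hu]
      have hlt : (N u ∩ E).card < k := by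
        refine lt_of_le_of_lt (Finset.card_le_card ?_) c₁
        intro i hi
        rw [Finset.mem_inter] at hi ⊢
        exact ⟨hi.1, (Finset.mem_inter.mp (hsub hi.2)).1⟩
      have hk : (0 : ℝ) < k := by exact_mod_cast lt_of_le_of_lt (Nat.zero_le _) hlt
      have hpos : 0 < 1 - ((N u ∩ E).card : ℝ) / k := by
        rw [sub_pos, div_lt_one hk]
        exact_mod_cast hlt
      refine ⟨N u ∩ E, Or.inl ?_, fun h => absurd hu h, fun h => ?_, fun a => ?_⟩
      · intro i hi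
        rw [Finset.mem_inter] at hi ⊢
        exact ⟨hi.1, (Finset.mem_inter.mp (hsub hi.2)).1⟩
      · have h3 : MM k N (N₁ ∩ E) φ u ≠ 0 := fun h0 => h (by unfold ff; rw [h0]; ring)
        have := MM_ne_zero h3
        rwa [e1] at this
      · unfold ff
        rw [MM_mem N N₁ E φ u z a hz hu h1, MM_mem N N₂ E φ u z a hz hu h2, e1, e2, e3, e4, e5,
          Finset.card_insert_of_notMem hzS, rho_succ']
        have h5 : fac k φ (N u ∩ E) a * fac k φ (N u ∩ E) a *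
            (1 - ((N u ∩ E).card : ℝ) / k) = fac k φ (N u ∩ E) a := by
          unfold fac
          split_ifs
          · ring
          · field_simp
        calc MM k N E φ u * fac k φ (N u ∩ E) a * (MM k N E φ u * fac k φ (N u ∩ E) a) *
            (rho k (N u ∩ E).card * (1 - ((N u ∩ E).card : ℝ) / k) /
              rho k (N u ∩ N₁ ∩ N₂).card)
            = MM k N E φ u * MM k N E φ u *
              (rho k (N u ∩ E).card / rho k (N u ∩ N₁ ∩ N₂).card) *
              (fac k φ (N u ∩ E) a * fac k φ (N u ∩ E) a *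
                (1 - ((N u ∩ E).card : ℝ) / k)) := by ring
          _ = _ := by rw [h5]
    · refine ⟨N u ∩ (N₁ ∩ E), Or.inl ?_, fun h => absurd hu h, fun h => ?_, fun a => ?_⟩
      · intro i hi
        rw [Finset.mem_inter, Finset.mem_inter] at hi
        exact Finset.mem_inter.mpr ⟨hi.1, hi.2.1⟩
      · exact MM_ne_zero (fun h0 => h (by unfold ff; rw [h0]; ring))
      · unfold ff
        rw [MM_mem N N₁ E φ u z a hz hu h1, MM_notMem N N₂ E φ u z a hz (fun h => h2 h.2),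
          hC (fun h => h2 h.2.2)]
        ring
  · by_cases h2 : z ∈ N₂
    · refine ⟨N u ∩ (N₂ ∩ E), Or.inr ?_, fun h => absurd hu h, fun h => ?_, fun a => ?_⟩
      · intro i hi
        rw [Finset.mem_inter, Finset.mem_inter] at hi
        exact Finset.mem_inter.mpr ⟨hi.1, hi.2.1⟩
      · exact MM_ne_zero (fun h0 => h (by unfold ff; rw [h0]; ring))
      · unfold ff
        rw [MM_mem N N₂ E φ u z a hz hu h2, MM_notMem N N₁ E φ u z a hz (fun h => h1 h.2),
          hC (fun h => h1 h.2.1)]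
        ring
    · refine ⟨∅, Or.inl (Finset.empty_subset _), fun _ => rfl, fun _ => by simp, fun a => ?_⟩
      unfold ff
      rw [MM_notMem N N₁ E φ u z a hz (fun h => h1 h.2), MM_notMem N N₂ E φ u z a hz
        (fun h => h2 h.2), hC (fun h => h1 h.2.1), fac_empty, mul_one]

private theorem fac_sum {k : ℕ} (φ : P → Fin k) (S : Finset P) (hS : Set.InjOn φ (S : Set P))
    (hc : S.card < k) (g : ℝ → ℝ) :
    ∑ a, 1 / (k : ℝ) * g (fac k φ S a) =
      (S.card : ℝ) / k * g 0 + (1 - (S.card : ℝ) / k) * g (1 / (1 - (S.card : ℝ) / k)) := by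
  have hk : (0 : ℝ) < k := by exact_mod_cast lt_of_le_of_lt (Nat.zero_le _) hc
  have h1 : ∑ a, 1 / (k : ℝ) * g (fac k φ S a) =
      ∑ a ∈ S.image φ, 1 / (k : ℝ) * g 0 +
      ∑ a ∈ (S.image φ)ᶜ, 1 / (k : ℝ) * g (1 / (1 - (S.card : ℝ) / k)) := by
    rw [← Finset.sum_add_sum_compl (S.image φ)]
    congr 1
    · refine Finset.sum_congr rfl fun a ha => ?_
      unfold fac
      rw [if_pos ha]
    · refine Finset.sum_congr rfl fun a ha => ?_
      unfold fac
      rw [if_neg (Finset.mem_compl.mp ha)]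
  rw [h1, Finset.sum_const, Finset.sum_const, Finset.card_compl, Fintype.card_fin,
    Finset.card_image_of_injOn hS, nsmul_eq_mul, nsmul_eq_mul, Nat.cast_sub hc.le]
  field_simp

private theorem MM_nonneg {k : ℕ} (N : Q → Finset P) (S : Finset P) (φ : P → Fin k) (u : Q)
    (hk : 0 < k) (hc : (N u ∩ S).card ≤ k) : 0 ≤ MM k N S φ u := by
  unfold MM
  split_ifs
  · exact (one_div_pos.mpr (rho_pos' hc hk)).le
  · exact le_rfl

private theorem MM_le {k : ℕ} (N : Q → Finset P) (S S' : Finset P) (φ : P → Fin k) (u : Q)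
    (hk : 0 < k) {T : ℝ} (hT : 0 < T) (hS : S ⊆ S') (hc : (N u ∩ S').card ≤ k)
    (hr : 1 / T ≤ rho k (N u ∩ S').card) : MM k N S φ u ≤ T := by
  unfold MM
  split_ifs
  · have h1 : (N u ∩ S).card ≤ (N u ∩ S').card :=
      Finset.card_le_card (Finset.inter_subset_inter_left hS)
    have h2 := rho_anti' h1 hc hk
    have h3 : 1 / T ≤ rho k (N u ∩ S).card := hr.trans h2
    rw [one_div_le (rho_pos' (h1.trans hc) hk) hT]
    exact h3
  · exact hT.le

private theorem ff_bd {k : ℕ} (N : Q → Finset P) (N₁ N₂ E : Finset P) (φ : P → Fin k) (u : Q)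
    (hk : 0 < k) {T : ℝ} (hT : 0 < T) (hc₁ : (N u ∩ N₁).card ≤ k) (hc₂ : (N u ∩ N₂).card ≤ k)
    (r₁ : 1 / T ≤ rho k (N u ∩ N₁).card) (r₂ : 1 / T ≤ rho k (N u ∩ N₂).card) :
    0 ≤ ff k N N₁ N₂ E φ u ∧ ff k N N₁ N₂ E φ u ≤ T ^ 3 := by
  have a1 : (N u ∩ (N₁ ∩ E)).card ≤ (N u ∩ N₁).card :=
    Finset.card_le_card (Finset.inter_subset_inter_left Finset.inter_subset_left)
  have a2 : (N u ∩ (N₂ ∩ E)).card ≤ (N u ∩ N₂).card :=
    Finset.card_le_card (Finset.inter_subset_inter_left Finset.inter_subset_left)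
  have b1 := MM_nonneg N (N₁ ∩ E) φ u hk (a1.trans hc₁)
  have b2 := MM_nonneg N (N₂ ∩ E) φ u hk (a2.trans hc₂)
  have b3 := MM_le N (N₁ ∩ E) N₁ φ u hk hT Finset.inter_subset_left hc₁ r₁
  have b4 := MM_le N (N₂ ∩ E) N₂ φ u hk hT Finset.inter_subset_left hc₂ r₂
  have a3 : (N u ∩ N₁ ∩ N₂).card ≤ (N u ∩ N₁).card :=
    Finset.card_le_card Finset.inter_subset_left
  have a4 : (N u ∩ (N₁ ∩ N₂ ∩ E)).card ≤ (N u ∩ N₁ ∩ N₂).card := by
    refine Finset.card_le_card fun i hi => ?_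
    simp only [Finset.mem_inter] at hi ⊢
    exact ⟨⟨hi.1, hi.2.1.1⟩, hi.2.1.2⟩
  have c1 := rho_pos' (a3.trans hc₁) hk
  have c2 := rho_pos' ((a4.trans a3).trans hc₁) hk
  have c3 := rho_le_one' ((a4.trans a3).trans hc₁) hk
  have c4 : 1 / T ≤ rho k (N u ∩ N₁ ∩ N₂).card := r₁.trans (rho_anti' a3 hc₁ hk)
  have d1 : 0 ≤ rho k (N u ∩ (N₁ ∩ N₂ ∩ E)).card / rho k (N u ∩ N₁ ∩ N₂).card :=
    (div_pos c2 c1).le
  have d2 : rho k (N u ∩ (N₁ ∩ N₂ ∩ E)).card / rho k (N u ∩ N₁ ∩ N₂).card ≤ T := by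
    rw [div_le_iff₀ c1]
    rw [div_le_iff₀ hT] at c4
    linarith
  unfold ff
  refine ⟨mul_nonneg (mul_nonneg b1 b2) d1, ?_⟩
  calc MM k N (N₁ ∩ E) φ u * MM k N (N₂ ∩ E) φ u *
        (rho k (N u ∩ (N₁ ∩ N₂ ∩ E)).card / rho k (N u ∩ N₁ ∩ N₂).card)
      ≤ T * T * T := by
        apply mul_le_mul (mul_le_mul b3 b4 b2 hT.le) d2 d1 (by positivity)
    _ = T ^ 3 := by ring

private theorem ff_mean {k : ℕ} (N : Q → Finset P) (N₁ N₂ E : Finset P) (z : P)
    (hz : z ∉ E) (hE : z ∈ N₁ → z ∈ N₂ → E ⊆ N₁ ∩ N₂) (φ : P → Fin k) (u : Q)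
    (hc₁ : (N u ∩ N₁).card < k) (hc₂ : (N u ∩ N₂).card < k) :
    ∑ a, 1 / (k : ℝ) * ff k N N₁ N₂ (insert z E) (Function.update φ z a) u =
      ff k N N₁ N₂ E φ u := by
  have hk : (0 : ℝ) < k := by exact_mod_cast lt_of_le_of_lt (Nat.zero_le _) hc₁
  obtain ⟨S, hS, -, hi, hst⟩ := ff_step k N N₁ N₂ E z hz hE φ u hc₁
  have hSc : S.card < k := by
    rcases hS with h | h
    · exact lt_of_le_of_lt (Finset.card_le_card h) hc₁
    · exact lt_of_le_of_lt (Finset.card_le_card h) hc₂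
  by_cases h0 : ff k N N₁ N₂ E φ u = 0
  · rw [h0]
    refine Finset.sum_eq_zero fun a _ => ?_
    rw [hst, h0]
    ring
  · have h1 := fac_sum φ S (hi h0) hSc (fun x => ff k N N₁ N₂ E φ u * x)
    have h2 : ∑ a, 1 / (k : ℝ) * ff k N N₁ N₂ (insert z E) (Function.update φ z a) u =
        ∑ a, 1 / (k : ℝ) * (ff k N N₁ N₂ E φ u * fac k φ S a) :=
      Finset.sum_congr rfl fun a _ => by rw [hst]
    rw [h2]
    refine h1.trans ?_
    have h3 : 0 < 1 - (S.card : ℝ) / k := by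
      rw [sub_pos, div_lt_one hk]
      exact_mod_cast hSc
    have h4 := mul_one_div_cancel h3.ne'
    linear_combination ff k N N₁ N₂ E φ u * h4

private theorem ff_l1 {k : ℕ} (N : Q → Finset P) (N₁ N₂ E : Finset P) (z : P)
    (hz : z ∉ E) (hE : z ∈ N₁ → z ∈ N₂ → E ⊆ N₁ ∩ N₂) (φ : P → Fin k) (u : Q)
    (hc₁ : (N u ∩ N₁).card < k) (hc₂ : (N u ∩ N₂).card < k) {T : ℝ} (hT : 0 < T)
    (r₁ : 1 / T ≤ rho k (N u ∩ N₁).card) (r₂ : 1 / T ≤ rho k (N u ∩ N₂).card)
    (c₁ : ((N u ∩ N₁).card : ℝ) ≤ T ^ 2001) (c₂ : ((N u ∩ N₂).card : ℝ) ≤ T ^ 2001) :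
    ∑ a, 1 / (k : ℝ) * |ff k N N₁ N₂ (insert z E) (Function.update φ z a) u -
      ff k N N₁ N₂ E φ u| ≤ if z ∈ N u then 2 * T ^ 2004 / k else 0 := by
  have hkn : 0 < k := lt_of_le_of_lt (Nat.zero_le _) hc₁
  have hk : (0 : ℝ) < k := by exact_mod_cast hkn
  obtain ⟨S, hS, hS0, hi, hst⟩ := ff_step k N N₁ N₂ E z hz hE φ u hc₁
  have hSc : S.card < k := by
    rcases hS with h | h
    · exact lt_of_le_of_lt (Finset.card_le_card h) hc₁
    · exact lt_of_le_of_lt (Finset.card_le_card h) hc₂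
  have hS1 : (S.card : ℝ) ≤ T ^ 2001 := by
    rcases hS with h | h
    · exact le_trans (by exact_mod_cast Finset.card_le_card h) c₁
    · exact le_trans (by exact_mod_cast Finset.card_le_card h) c₂
  obtain ⟨f0, f1⟩ := ff_bd N N₁ N₂ E φ u hkn hT hc₁.le hc₂.le r₁ r₂
  by_cases hu : z ∈ N u
  swap
  · rw [if_neg hu]
    refine le_of_eq (Finset.sum_eq_zero fun a _ => ?_)
    rw [hst, hS0 hu, fac_empty, mul_one, sub_self, abs_zero, mul_zero]
  rw [if_pos hu]
  by_cases h0 : ff k N N₁ N₂ E φ u = 0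
  · have : ∑ a, 1 / (k : ℝ) * |ff k N N₁ N₂ (insert z E) (Function.update φ z a) u -
        ff k N N₁ N₂ E φ u| = 0 := by
      refine Finset.sum_eq_zero fun a _ => ?_
      rw [hst, h0]
      simp
    rw [this]
    positivity
  · have h1 := fac_sum φ S (hi h0) hSc (fun x => ff k N N₁ N₂ E φ u * |x - 1|)
    have h2 : ∑ a, 1 / (k : ℝ) * |ff k N N₁ N₂ (insert z E) (Function.update φ z a) u -
        ff k N N₁ N₂ E φ u| =
        ∑ a, 1 / (k : ℝ) * (ff k N N₁ N₂ E φ u * |fac k φ S a - 1|) := by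
      refine Finset.sum_congr rfl fun a _ => ?_
      rw [hst]
      have h3 : ff k N N₁ N₂ E φ u * fac k φ S a - ff k N N₁ N₂ E φ u =
          ff k N N₁ N₂ E φ u * (fac k φ S a - 1) := by ring
      rw [h3, abs_mul, abs_of_nonneg f0]
    rw [h2]
    refine h1.le.trans ?_
    have h3 : 0 < 1 - (S.card : ℝ) / k := by
      rw [sub_pos, div_lt_one hk]
      exact_mod_cast hSc
    have h4 : 1 ≤ 1 / (1 - (S.card : ℝ) / k) := by
      rw [le_div_iff₀ h3]
      have : 0 ≤ (S.card : ℝ) / k := by positivity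
      linarith
    have h5 : (S.card : ℝ) / k * (ff k N N₁ N₂ E φ u * |(0 : ℝ) - 1|) +
        (1 - (S.card : ℝ) / k) * (ff k N N₁ N₂ E φ u * |1 / (1 - (S.card : ℝ) / k) - 1|) =
        2 * (S.card : ℝ) / k * ff k N N₁ N₂ E φ u := by
      rw [abs_of_nonneg (sub_nonneg.mpr h4)]
      have : |(0 : ℝ) - 1| = 1 := by norm_num
      rw [this]
      have h6 := mul_one_div_cancel h3.ne'
      linear_combination ff k N N₁ N₂ E φ u * h6
    refine h5.le.trans ?_
    calc 2 * (S.card : ℝ) / k * ff k N N₁ N₂ E φ u ≤ 2 * T ^ 2001 / k * T ^ 3 := by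
          apply mul_le_mul _ f1 f0 (by positivity)
          gcongr
      _ = 2 * T ^ 2004 / k := by ring

/-- The exposure martingale. -/
private noncomputable def FF (k : ℕ) (N : Q → Finset P) (N₁ N₂ : Finset P) (A : Finset Q)
    (w : Q → ℝ) (E : Finset P) (φ : P → Fin k) : ℝ :=
  ∑ u ∈ A, w u * ff k N N₁ N₂ E φ u

private theorem FF_mean {k : ℕ} (N : Q → Finset P) (N₁ N₂ E : Finset P) (z : P)
    (hz : z ∉ E) (hE : z ∈ N₁ → z ∈ N₂ → E ⊆ N₁ ∩ N₂) (φ : P → Fin k) (A : Finset Q)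
    (w : Q → ℝ) (hc₁ : ∀ u ∈ A, (N u ∩ N₁).card < k) (hc₂ : ∀ u ∈ A, (N u ∩ N₂).card < k) :
    ∑ a, 1 / (k : ℝ) * FF k N N₁ N₂ A w (insert z E) (Function.update φ z a) =
      FF k N N₁ N₂ A w E φ := by
  unfold FF
  calc ∑ a, 1 / (k : ℝ) * ∑ u ∈ A, w u * ff k N N₁ N₂ (insert z E) (Function.update φ z a) u
      = ∑ a, ∑ u ∈ A,
          w u * (1 / (k : ℝ) * ff k N N₁ N₂ (insert z E) (Function.update φ z a) u) := by
        refine Finset.sum_congr rfl fun a _ => ?_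
        rw [Finset.mul_sum]
        exact Finset.sum_congr rfl fun u _ => by ring
    _ = ∑ u ∈ A, w u * ff k N N₁ N₂ E φ u := by
        rw [Finset.sum_comm]
        refine Finset.sum_congr rfl fun u hu => ?_
        rw [← Finset.mul_sum, ff_mean N N₁ N₂ E z hz hE φ u (hc₁ u hu) (hc₂ u hu)]

private theorem FF_abs {k : ℕ} (N : Q → Finset P) (N₁ N₂ E E' : Finset P) (φ φ' : P → Fin k)
    (A : Finset Q) (w : Q → ℝ) (hw : ∀ u ∈ A, 0 ≤ w u ∧ w u ≤ 1) :
    |FF k N N₁ N₂ A w E φ - FF k N N₁ N₂ A w E' φ'| ≤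
      ∑ u ∈ A, |ff k N N₁ N₂ E φ u - ff k N N₁ N₂ E' φ' u| := by
  unfold FF
  rw [← Finset.sum_sub_distrib]
  refine (Finset.abs_sum_le_sum_abs _ _).trans (Finset.sum_le_sum fun u hu => ?_)
  rw [← mul_sub, abs_mul, abs_of_nonneg (hw u hu).1]
  calc w u * |ff k N N₁ N₂ E φ u - ff k N N₁ N₂ E' φ' u|
      ≤ 1 * |ff k N N₁ N₂ E φ u - ff k N N₁ N₂ E' φ' u| :=
        mul_le_mul_of_nonneg_right (hw u hu).2 (abs_nonneg _)
    _ = _ := one_mul _

private theorem FF_diff {k : ℕ} (N : Q → Finset P) (N₁ N₂ E : Finset P) (z : P)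
    (hz : z ∉ E) (hE : z ∈ N₁ → z ∈ N₂ → E ⊆ N₁ ∩ N₂) (φ : P → Fin k) (A : Finset Q)
    (w : Q → ℝ) (hw : ∀ u ∈ A, 0 ≤ w u ∧ w u ≤ 1)
    (hc₁ : ∀ u ∈ A, (N u ∩ N₁).card < k) (hc₂ : ∀ u ∈ A, (N u ∩ N₂).card < k)
    {T : ℝ} (hT : 0 < T) (hA : ((A.filter fun u => z ∈ N u).card : ℝ) ≤ T ^ 2855)
    (r₁ : ∀ u ∈ A, 1 / T ≤ rho k (N u ∩ N₁).card) (r₂ : ∀ u ∈ A, 1 / T ≤ rho k (N u ∩ N₂).card)
    (hk : 0 < k) (a : Fin k) :
    |FF k N N₁ N₂ A w (insert z E) (Function.update φ z a) - FF k N N₁ N₂ A w E φ| ≤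
      T ^ 2858 := by
  refine (FF_abs N N₁ N₂ _ _ _ _ A w hw).trans ?_
  calc ∑ u ∈ A, |ff k N N₁ N₂ (insert z E) (Function.update φ z a) u - ff k N N₁ N₂ E φ u|
      ≤ ∑ u ∈ A, if z ∈ N u then T ^ 3 else 0 := by
        refine Finset.sum_le_sum fun u hu => ?_
        obtain ⟨f0, f1⟩ := ff_bd N N₁ N₂ E φ u hk hT (hc₁ u hu).le (hc₂ u hu).le (r₁ u hu)
          (r₂ u hu)
        obtain ⟨f2, f3⟩ := ff_bd N N₁ N₂ (insert z E) (Function.update φ z a) u hk hT
          (hc₁ u hu).le (hc₂ u hu).le (r₁ u hu) (r₂ u hu)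
        split_ifs with hzu
        · rw [abs_le]
          constructor <;> linarith
        · obtain ⟨S, -, hS0, -, hst⟩ := ff_step k N N₁ N₂ E z hz hE φ u (hc₁ u hu)
          rw [hst, hS0 hzu, fac_empty, mul_one, sub_self, abs_zero]
    _ = ((A.filter fun u => z ∈ N u).card : ℝ) * T ^ 3 := by
        rw [← Finset.sum_filter, Finset.sum_const, nsmul_eq_mul]
    _ ≤ T ^ 2855 * T ^ 3 := by gcongr
    _ = T ^ 2858 := by ring

private theorem FF_sq {k : ℕ} (N : Q → Finset P) (N₁ N₂ E : Finset P) (z : P)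
    (hz : z ∉ E) (hE : z ∈ N₁ → z ∈ N₂ → E ⊆ N₁ ∩ N₂) (φ : P → Fin k) (A : Finset Q)
    (w : Q → ℝ) (hw : ∀ u ∈ A, 0 ≤ w u ∧ w u ≤ 1)
    (hc₁ : ∀ u ∈ A, (N u ∩ N₁).card < k) (hc₂ : ∀ u ∈ A, (N u ∩ N₂).card < k)
    {T : ℝ} (hT : 0 < T) (hA : ((A.filter fun u => z ∈ N u).card : ℝ) ≤ T ^ 2855)
    (r₁ : ∀ u ∈ A, 1 / T ≤ rho k (N u ∩ N₁).card) (r₂ : ∀ u ∈ A, 1 / T ≤ rho k (N u ∩ N₂).card)
    (c₁ : ∀ u ∈ A, ((N u ∩ N₁).card : ℝ) ≤ T ^ 2001)
    (c₂ : ∀ u ∈ A, ((N u ∩ N₂).card : ℝ) ≤ T ^ 2001)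
    (hk : 0 < k) (hk' : T ^ 3999 ≤ (k : ℝ)) :
    ∑ a, 1 / (k : ℝ) *
      (FF k N N₁ N₂ A w (insert z E) (Function.update φ z a) - FF k N N₁ N₂ A w E φ) ^ 2 ≤
      2 * T ^ 3718 := by
  have hk0 : (0 : ℝ) < k := by exact_mod_cast hk
  calc ∑ a, 1 / (k : ℝ) *
      (FF k N N₁ N₂ A w (insert z E) (Function.update φ z a) - FF k N N₁ N₂ A w E φ) ^ 2
      ≤ ∑ a, 1 / (k : ℝ) * (T ^ 2858 * ∑ u ∈ A,
          |ff k N N₁ N₂ (insert z E) (Function.update φ z a) u - ff k N N₁ N₂ E φ u|) := by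
        refine Finset.sum_le_sum fun a _ => ?_
        apply mul_le_mul_of_nonneg_left _ (by positivity)
        rw [← sq_abs, sq]
        apply mul_le_mul _ (FF_abs N N₁ N₂ _ _ _ _ A w hw) (abs_nonneg _) (by positivity)
        exact FF_diff N N₁ N₂ E z hz hE φ A w hw hc₁ hc₂ hT hA r₁ r₂ hk a
    _ = T ^ 2858 * ∑ u ∈ A, ∑ a, 1 / (k : ℝ) *
          |ff k N N₁ N₂ (insert z E) (Function.update φ z a) u - ff k N N₁ N₂ E φ u| := by
        rw [Finset.sum_comm, Finset.mul_sum]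
        refine Finset.sum_congr rfl fun a _ => ?_
        rw [Finset.mul_sum, Finset.mul_sum, Finset.mul_sum]
        exact Finset.sum_congr rfl fun u _ => by ring
    _ ≤ T ^ 2858 * ∑ u ∈ A, if z ∈ N u then 2 * T ^ 2004 / k else 0 := by
        apply mul_le_mul_of_nonneg_left _ (by positivity)
        refine Finset.sum_le_sum fun u hu => ?_
        exact ff_l1 N N₁ N₂ E z hz hE φ u (hc₁ u hu) (hc₂ u hu) hT (r₁ u hu) (r₂ u hu)
          (c₁ u hu) (c₂ u hu)
    _ = T ^ 2858 * (((A.filter fun u => z ∈ N u).card : ℝ) * (2 * T ^ 2004 / k)) := by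
        rw [← Finset.sum_filter, Finset.sum_const, nsmul_eq_mul]
    _ ≤ T ^ 2858 * (T ^ 2855 * (2 * T ^ 2004 / T ^ 3999)) := by gcongr
    _ = 2 * T ^ 3718 := by
        have : T ^ 3999 ≠ 0 := by positivity
        field_simp

private theorem ff_congr {k : ℕ} (N : Q → Finset P) (N₁ N₂ E : Finset P) (φ ψ : P → Fin k)
    (u : Q) (h : ∀ i ∈ E, φ i = ψ i) : ff k N N₁ N₂ E φ u = ff k N N₁ N₂ E ψ u := by
  have key : ∀ S : Finset P, MM k N (S ∩ E) φ u = MM k N (S ∩ E) ψ u := by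
    intro S
    have hc : Set.EqOn φ ψ ((N u ∩ (S ∩ E) : Finset P) : Set P) := by
      intro i hi
      have hi' : i ∈ N u ∩ (S ∩ E) := hi
      rw [Finset.mem_inter, Finset.mem_inter] at hi'
      exact h i hi'.2.2
    have hiff := hc.injOn_iff
    unfold MM
    by_cases hi : Set.InjOn φ ((N u ∩ (S ∩ E) : Finset P) : Set P)
    · rw [if_pos hi, if_pos (hiff.mp hi)]
    · rw [if_neg hi, if_neg (fun h => hi (hiff.mpr h))]
  unfold ff
  rw [key, key]

/-- (PL) -/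
theorem pl_tail {T : ℝ} (hT : Big T) (k : ℕ) (hk : T ^ 3999 ≤ k) (hk' : (k : ℝ) ≤ T ^ 4000)
    (N : Q → Finset P) (N₁ N₂ : Finset P) (h₁ : (N₁.card : ℝ) ≤ T ^ 3000)
    (h₂ : (N₂.card : ℝ) ≤ T ^ 3000) (A : Finset Q)
    (hA : ∀ z, ((A.filter fun u => z ∈ N u).card : ℝ) ≤ T ^ 2855)
    (c₁ : ∀ u ∈ A, ((N u ∩ N₁).card : ℝ) ≤ T ^ 2001)
    (c₂ : ∀ u ∈ A, ((N u ∩ N₂).card : ℝ) ≤ T ^ 2001)
    (r₁ : ∀ u ∈ A, 1 / T ≤ rho k (N u ∩ N₁).card) (r₂ : ∀ u ∈ A, 1 / T ≤ rho k (N u ∩ N₂).card)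
    (w : Q → ℝ) (hw : ∀ u ∈ A, 0 ≤ w u ∧ w u ≤ 1) :
    Pr (unif P k) (fun φ => T ^ 3370 ≤ |∑ u ∈ A, w u * (MM k N N₁ φ u * MM k N N₂ φ u -
      1 / rho k (N u ∩ N₁ ∩ N₂).card)|) ≤ Real.exp (-(2 * T)) := by
  have hT1 : (1 : ℝ) ≤ T := le_trans (by norm_num) hT.big
  have hT0 : (0 : ℝ) < T := by linarith
  have hk0r : (0 : ℝ) < k := lt_of_lt_of_le (by positivity) hk
  have hk0 : 0 < k := by exact_mod_cast hk0r
  have hPM := unif_isPM (P := P) k hk0
  have hlt : T ^ 2001 < T ^ 3999 := pow_lt_pow_right₀ (by linarith [hT.big]) (by norm_num)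
  have hc₁ : ∀ u ∈ A, (N u ∩ N₁).card < k := fun u hu => by
    have := c₁ u hu
    have h3 : ((N u ∩ N₁).card : ℝ) < k := by linarith
    exact_mod_cast h3
  have hc₂ : ∀ u ∈ A, (N u ∩ N₂).card < k := fun u hu => by
    have := c₂ u hu
    have h3 : ((N u ∩ N₂).card : ℝ) < k := by linarith
    exact_mod_cast h3
  -- the enumeration
  set l1 := (N₁ ∩ N₂).toList with hl1
  set l2 := ((N₁ ∪ N₂) \ (N₁ ∩ N₂)).toList with hl2
  set L := l1 ++ l2 with hL
  have hnod : L.Nodup := by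
    rw [hL, List.nodup_append']
    refine ⟨Finset.nodup_toList _, Finset.nodup_toList _, ?_⟩
    intro i hi hi'
    rw [hl1, Finset.mem_toList] at hi
    rw [hl2, Finset.mem_toList] at hi'
    exact (Finset.mem_sdiff.mp hi').2 hi
  have hmem : L.toFinset = N₁ ∪ N₂ := by
    ext i
    rw [List.mem_toFinset, hL, List.mem_append, hl1, hl2, Finset.mem_toList, Finset.mem_toList,
      Finset.mem_sdiff, Finset.mem_union, Finset.mem_inter]
    tauto
  have hlen : (L.length : ℝ) ≤ 2 * T ^ 3000 := by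
    have h3 : L.length = (N₁ ∪ N₂).card := by
      rw [← hmem, List.toFinset_card_of_nodup hnod]
    have h4 := Finset.card_union_le N₁ N₂
    have h5 : ((N₁ ∪ N₂).card : ℝ) ≤ N₁.card + N₂.card := by exact_mod_cast h4
    rw [h3]
    linarith
  rcases isEmpty_or_nonempty P with hP | hP
  · have h0 : ∀ S : Finset P, S = ∅ := fun S => Finset.eq_empty_of_isEmpty S
    have h3 : ∀ φ : P → Fin k, ∑ u ∈ A, w u * (MM k N N₁ φ u * MM k N N₂ φ u -
        1 / rho k (N u ∩ N₁ ∩ N₂).card) = 0 := by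
      intro φ
      refine Finset.sum_eq_zero fun u _ => ?_
      unfold MM
      rw [h0 (N u ∩ N₁), h0 (N u ∩ N₂), h0 (∅ ∩ N₂)]
      unfold rho
      simp
    have h4 : ∀ φ : P → Fin k, ¬ T ^ 3370 ≤ |∑ u ∈ A, w u * (MM k N N₁ φ u * MM k N N₂ φ u -
        1 / rho k (N u ∩ N₁ ∩ N₂).card)| := by
      intro φ
      rw [h3, abs_zero, not_le]
      positivity
    unfold Pr
    simp only [h4, if_false]
    rw [Ex_const hPM]
    positivity
  set z : ℕ → P := fun t => L.getD t (Classical.arbitrary P) with hz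
  have hzt : ∀ t (ht : t < L.length), z t = L[t] := fun t ht => by
    rw [hz]
    exact List.getD_eq_getElem _ _ ht
  have hzinj : Set.InjOn z (Set.Iio L.length) := by
    intro s hs t ht hst
    rw [hzt s hs, hzt t ht] at hst
    exact (hnod.getElem_inj_iff).mp hst
  set E : ℕ → Finset P := fun t => (L.take t).toFinset with hE
  have hE0 : E 0 = ∅ := by
    rw [hE]
    simp
  have hEn : E L.length = N₁ ∪ N₂ := by
    rw [hE]
    simp only [List.take_length]
    exact hmem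
  have hEs : ∀ t (ht : t < L.length), E (t + 1) = insert (z t) (E t) := by
    intro t ht
    rw [hE, hzt t ht]
    simp only
    rw [List.take_succ_eq_append_getElem ht, List.toFinset_append]
    ext i
    simp [or_comm]
  have hEmem : ∀ t ≤ L.length, ∀ i ∈ E t, ∃ s < t, z s = i := by
    intro t ht i hi
    rw [hE, List.mem_toFinset, List.mem_take_iff_getElem] at hi
    obtain ⟨s, hs, hsi⟩ := hi
    have hs' : s < t := lt_of_lt_of_le hs (min_le_left _ _)
    exact ⟨s, hs', by rw [hzt s (lt_of_lt_of_le hs' ht)]; exact hsi⟩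
  have hznE : ∀ t (ht : t < L.length), z t ∉ E t := by
    intro t ht hcon
    obtain ⟨s, hs, hst⟩ := hEmem t ht.le _ hcon
    have := hzinj (Set.mem_Iio.mpr (hs.trans ht)) (Set.mem_Iio.mpr ht) hst
    omega
  have hEsub : ∀ t (ht : t < L.length), z t ∈ N₁ → z t ∈ N₂ → E t ⊆ N₁ ∩ N₂ := by
    intro t ht h3 h4
    have h5 : t < l1.length := by
      by_contra hcon
      push Not at hcon
      have h6 : L[t] = l2[t - l1.length]'(by
          rw [hL, List.length_append] at ht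
          omega) := List.getElem_append_right hcon
      have h7 : L[t] ∈ l2 := by
        rw [h6]
        exact List.getElem_mem _
      rw [← hzt t ht, hl2, Finset.mem_toList, Finset.mem_sdiff] at h7
      exact h7.2 (Finset.mem_inter.mpr ⟨h3, h4⟩)
    intro i hi
    rw [hE, List.mem_toFinset, hL, List.take_append_of_le_length h5.le] at hi
    have := List.mem_of_mem_take hi
    rwa [hl1, Finset.mem_toList] at this
  have key := mart_tail hPM z L.length hzinj (fun t => FF k N N₁ N₂ A w (E t))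
    (fun _ => 2 * T ^ 3718)
    (fun t ht φ ψ hφ => by
      unfold FF
      refine Finset.sum_congr rfl fun u _ => ?_
      rw [ff_congr N N₁ N₂ (E t) φ ψ u fun i hi => hφ i (hEmem t ht i hi)])
    (fun t ht φ => by
      rw [hEs t ht]
      exact FF_mean N N₁ N₂ (E t) (z t) (hznE t ht) (hEsub t ht) φ A w hc₁ hc₂)
    (T ^ 2858)
    (fun t ht φ a => by
      rw [hEs t ht]
      exact FF_diff N N₁ N₂ (E t) (z t) (hznE t ht) (hEsub t ht) φ A w hw hc₁ hc₂ hT0 (hA _)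
        r₁ r₂ hk0 a)
    (fun t ht φ => by
      rw [hEs t ht]
      exact FF_sq N N₁ N₂ (E t) (z t) (hznE t ht) (hEsub t ht) φ A w hw hc₁ hc₂ hT0 (hA _)
        r₁ r₂ c₁ c₂ hk0 hk)
    (1 / T ^ 3365) (by positivity)
    (by
      rw [one_div_mul_eq_div, div_le_one (by positivity)]
      exact pow_le_pow_right₀ hT1 (by norm_num)) (T ^ 3370)
  have hF : ∀ φ, FF k N N₁ N₂ A w (E L.length) φ - FF k N N₁ N₂ A w (E 0) φ =
      ∑ u ∈ A, w u * (MM k N N₁ φ u * MM k N N₂ φ u - 1 / rho k (N u ∩ N₁ ∩ N₂).card) := by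
    intro φ
    unfold FF
    rw [← Finset.sum_sub_distrib]
    refine Finset.sum_congr rfl fun u hu => ?_
    have e1 : N₁ ∩ (N₁ ∪ N₂) = N₁ := Finset.inter_eq_left.mpr Finset.subset_union_left
    have e2 : N₂ ∩ (N₁ ∪ N₂) = N₂ := by
      rw [Finset.inter_eq_left]
      exact Finset.subset_union_right
    have e3 : N₁ ∩ N₂ ∩ (N₁ ∪ N₂) = N₁ ∩ N₂ := by
      rw [Finset.inter_eq_left]
      exact Finset.inter_subset_left.trans Finset.subset_union_left
    have hr : rho k (N u ∩ N₁ ∩ N₂).card ≠ 0 :=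
      (rho_pos' ((Finset.card_le_card Finset.inter_subset_left).trans (hc₁ u hu).le) hk0).ne'
    have e4 : ff k N N₁ N₂ (E L.length) φ u = MM k N N₁ φ u * MM k N N₂ φ u := by
      unfold ff
      rw [hEn, e1, e2, e3, ← Finset.inter_assoc, div_self hr, mul_one]
    have e5 : ff k N N₁ N₂ (E 0) φ u = 1 / rho k (N u ∩ N₁ ∩ N₂).card := by
      unfold ff MM
      rw [hE0]
      simp [rho]
    rw [e4, e5]
    ring
  simp only [hF] at key
  refine key.trans ?_
  rw [Finset.sum_const, Finset.card_range, nsmul_eq_mul]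
  have h5 : (1 / T ^ 3365) ^ 2 * ((L.length : ℝ) * (2 * T ^ 3718)) ≤ 1 := by
    calc (1 / T ^ 3365) ^ 2 * ((L.length : ℝ) * (2 * T ^ 3718))
        ≤ (1 / T ^ 3365) ^ 2 * (2 * T ^ 3000 * (2 * T ^ 3718)) := by gcongr
      _ = 4 / T ^ 12 := by
          have : T ≠ 0 := hT0.ne'
          field_simp
          ring
      _ ≤ 1 := by
          rw [div_le_one (by positivity)]
          calc (4 : ℝ) ≤ T := le_trans (by norm_num) hT.big
            _ = T ^ 1 := (pow_one T).symm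
            _ ≤ T ^ 12 := pow_le_pow_right₀ hT1 (by norm_num)
  have h6 : 1 / T ^ 3365 * T ^ 3370 = T ^ 5 := by
    have : T ≠ 0 := hT0.ne'
    field_simp
  rw [h6]
  have h7 : T * 10 ≤ T ^ 5 := by
    calc T * 10 ≤ T * T := by
          apply mul_le_mul_of_nonneg_left _ hT0.le
          exact le_trans (by norm_num) hT.big
      _ = T ^ 2 := by ring
      _ ≤ T ^ 5 := pow_le_pow_right₀ hT1 (by norm_num)
  have h8 : (2 : ℝ) ≤ Real.exp 1 := by
    have := Real.add_one_le_exp (1 : ℝ)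
    linarith
  calc 2 * Real.exp ((1 / T ^ 3365) ^ 2 * ((L.length : ℝ) * (2 * T ^ 3718)) - T ^ 5)
      ≤ Real.exp 1 * Real.exp (1 - T * 10) := by
        apply mul_le_mul h8 _ (Real.exp_pos _).le (Real.exp_pos _).le
        apply Real.exp_le_exp.mpr
        linarith
    _ = Real.exp (1 + (1 - T * 10)) := (Real.exp_add _ _).symm
    _ ≤ Real.exp (-(2 * T)) := by
        apply Real.exp_le_exp.mpr
        have := hT.big
        linarith

end

end Pool.Agent.Acy
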