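import Pool.Agent.Acy.Mono
import Pool.Agent.Acy.Pl

/-! # Counting light conflicts and long patterns (module G3) -/

set_option autoImplicit false
set_option linter.unusedSectionVars false

namespace Pool.Agent.Acy

open Finset
open scoped Classical

universe u

namespace BData

variable {P Q : Type u} [Fintype P] [DecidableEq P] [Fintype Q] [DecidableEq Q] {B : BData P Q}

/-! ### numbers -/

theorem cfg_T_ge (hB : B.Ok) : (10 : ℝ) ^ 6 ≤ B.T := hB.big.big

theorem cfg_T_one (hB : B.Ok) : (1 : ℝ) ≤ B.T := le_trans (by norm_num) (cfg_T_ge hB)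

theorem cfg_k_pos (hB : B.Ok) : 0 < B.k := by
  have h1 : (0 : ℝ) < B.k := lt_of_lt_of_le (pow_pos (lt_of_lt_of_le one_pos (cfg_T_one hB)) _) hB.k_lo
  exact_mod_cast h1

theorem frac_le (hB : B.Ok) {Z : Finset P} (hZ : (Z.card : ℝ) ≤ B.T ^ 3000) :
    0 ≤ (Z.card : ℝ) * (1 / (B.k : ℝ)) ∧ (Z.card : ℝ) * (1 / (B.k : ℝ)) ≤ 1 := by
  have hk : (0 : ℝ) < B.k := by exact_mod_cast cfg_k_pos hB
  refine ⟨by positivity, ?_⟩
  rw [mul_one_div, div_le_one hk]
  calc (Z.card : ℝ) ≤ B.T ^ 3000 := hZ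
    _ ≤ B.T ^ 3999 := pow_le_pow_right₀ (cfg_T_one hB) (by norm_num)
    _ ≤ B.k := hB.k_lo

theorem card_inter_le (hB : B.Ok) (u x : Q) : ((B.N u ∩ B.N x).card : ℝ) ≤ B.T ^ 3000 := by
  refine le_trans ?_ (hB.degQ x)
  exact_mod_cast Finset.card_le_card Finset.inter_subset_right

theorem card_inter_le' (hB : B.Ok) (u x : Q) : ((B.N x ∩ B.N u).card : ℝ) ≤ B.T ^ 3000 := by
  refine le_trans ?_ (hB.degQ x)
  exact_mod_cast Finset.card_le_card Finset.inter_subset_left

/-- Double counting of common neighbours. -/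
theorem sum_inter_le (x : Q) (A : Finset Q) (n : ℝ)
    (hA : ∀ z, ((A.filter fun u => z ∈ B.N u).card : ℝ) ≤ n) :
    ∑ u ∈ A, ((B.N u ∩ B.N x).card : ℝ) ≤ (B.N x).card * n := by
  have h1 : ∀ u, ((B.N u ∩ B.N x).card : ℝ) = ∑ z ∈ B.N x, if z ∈ B.N u then (1 : ℝ) else 0 := by
    intro u
    rw [← Finset.sum_filter, Finset.sum_const, nsmul_eq_mul, mul_one]
    congr 2
    ext z
    rw [Finset.mem_inter, Finset.mem_filter, and_comm]
  simp only [h1]
  rw [Finset.sum_comm]
  calc ∑ z ∈ B.N x, ∑ u ∈ A, (if z ∈ B.N u then (1 : ℝ) else 0)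
      = ∑ z ∈ B.N x, ((A.filter fun u => z ∈ B.N u).card : ℝ) := by
        refine Finset.sum_congr rfl fun z _ => ?_
        rw [← Finset.sum_filter, Finset.sum_const, nsmul_eq_mul, mul_one]
    _ ≤ ∑ _z ∈ B.N x, n := Finset.sum_le_sum fun z _ => hA z
    _ = (B.N x).card * n := by rw [Finset.sum_const, nsmul_eq_mul]

theorem sum_inter_univ (hB : B.Ok) (x : Q) :
    ∑ u, ((B.N u ∩ B.N x).card : ℝ) ≤ B.T ^ 6000 := by
  have h1 := sum_inter_le (B := B) x univ (B.T ^ 3000) (fun z => hB.degP z)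
  calc ∑ u, ((B.N u ∩ B.N x).card : ℝ) ≤ (B.N x).card * B.T ^ 3000 := h1
    _ ≤ B.T ^ 3000 * B.T ^ 3000 :=
        mul_le_mul_of_nonneg_right (hB.degQ x) (pow_nonneg (zero_le_one.trans (cfg_T_one hB)) _)
    _ = B.T ^ 6000 := by rw [← pow_add]

theorem sum_inter_univ' (hB : B.Ok) (x : Q) :
    ∑ u, ((B.N x ∩ B.N u).card : ℝ) ≤ B.T ^ 6000 := by
  have := sum_inter_univ hB x
  simpa only [Finset.inter_comm] using this

theorem sum_ind_le (z : P) (A : Finset Q) (n : ℝ)
    (hA : ∀ z, ((A.filter fun u => z ∈ B.N u).card : ℝ) ≤ n) :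
    ∑ u ∈ A, (if z ∈ B.N u then (1 : ℝ) else 0) ≤ n := by
  rw [← Finset.sum_filter, Finset.sum_const, nsmul_eq_mul, mul_one]
  exact hA z

theorem sum_ind_univ (hB : B.Ok) (z : P) :
    ∑ u : Q, (if z ∈ B.N u then (1 : ℝ) else 0) ≤ B.T ^ 3000 :=
  sum_ind_le z univ _ fun z => hB.degP z

/-- `x / k^2 <= y` from `x <= T^7998 y`. -/
theorem div_sq_le (hB : B.Ok) {x y : ℝ} (hy : 0 ≤ y) (h : x ≤ B.T ^ 7998 * y) :
    x * (1 / (B.k : ℝ)) ^ 2 ≤ y := by
  have hk : (0 : ℝ) < B.k := by exact_mod_cast cfg_k_pos hB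
  rw [one_div, inv_pow, ← div_eq_mul_inv, div_le_iff₀ (by positivity)]
  have h1 : B.T ^ 7998 ≤ (B.k : ℝ) ^ 2 := by
    calc B.T ^ 7998 = (B.T ^ 3999) ^ 2 := by rw [← pow_mul]
      _ ≤ (B.k : ℝ) ^ 2 := pow_le_pow_left₀ (pow_nonneg (zero_le_one.trans (cfg_T_one hB)) _) hB.k_lo 2
  calc x ≤ B.T ^ 7998 * y := h
    _ ≤ (B.k : ℝ) ^ 2 * y := mul_le_mul_of_nonneg_right h1 hy
    _ = y * (B.k : ℝ) ^ 2 := by ring

theorem div_le (hB : B.Ok) {x y : ℝ} (hy : 0 ≤ y) (h : x ≤ B.T ^ 3999 * y) :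
    x * (1 / (B.k : ℝ)) ≤ y := by
  have hk : (0 : ℝ) < B.k := by exact_mod_cast cfg_k_pos hB
  rw [mul_one_div, div_le_iff₀ hk]
  calc x ≤ B.T ^ 3999 * y := h
    _ ≤ (B.k : ℝ) * y := mul_le_mul_of_nonneg_right hB.k_lo hy
    _ = y * (B.k : ℝ) := by ring

theorem ind_le_one (p : Prop) [Decidable p] : (if p then (1 : ℝ) else 0) ≤ 1 := by
  split_ifs <;> norm_num

theorem ind_nonneg (p : Prop) [Decidable p] : 0 ≤ (if p then (1 : ℝ) else 0) := by
  split_ifs <;> norm_num

/-- Light conflicts. -/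
theorem hd_tail (hB : B.Ok) (x : Q) :
    Pr (unif P B.k) (fun φ => ¬ ((univ.filter fun u => B.Hd φ u x).card : ℝ) ≤ B.T ^ 3977) ≤
      Real.exp (-(2 * B.T)) := by
  have hT1 := cfg_T_one hB
  have hT0 : (0 : ℝ) < B.T := lt_of_lt_of_le one_pos hT1
  have hk : (0 : ℝ) < B.k := by exact_mod_cast cfg_k_pos hB
  let Z : Q → Fin 2 → Finset P := fun u _ => if B.light u x then B.N u ∩ B.N x else ∅
  have hZ : ∀ u i, ((Z u i).card : ℝ) ≤ (B.N u ∩ B.N x).card := by
    intro u i
    show (((if B.light u x then B.N u ∩ B.N x else ∅ : Finset P)).card : ℝ) ≤ _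
    split_ifs
    · exact le_rfl
    · simp
  have hZl : ∀ u i, ((Z u i).card : ℝ) ≤ B.T ^ 1970 := by
    intro u i
    show (((if B.light u x then B.N u ∩ B.N x else ∅ : Finset P)).card : ℝ) ≤ _
    split_ifs with h
    · exact h.2.le
    · simp only [Finset.card_empty, Nat.cast_zero]
      positivity
  have hZ3 : ∀ u i, ((Z u i).card : ℝ) ≤ B.T ^ 3000 := fun u i =>
    (hZ u i).trans (card_inter_le hB u x)
  have key := mono_tail hB.big (cfg_k_pos hB) (r := 2) (by norm_num) Z (B.T ^ 3971) (by positivity)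
    (by
      simp only [Fin.prod_univ_two]
      have h1 : ∀ u, ((Z u 0).card : ℝ) * (1 / (B.k : ℝ)) * ((Z u 1).card * (1 / (B.k : ℝ))) ≤
          (B.T ^ 1970 * (1 / (B.k : ℝ)) ^ 2) * ((B.N u ∩ B.N x).card : ℝ) := by
        intro u
        have h2 := hZl u 0
        have h3 := hZ u 1
        calc ((Z u 0).card : ℝ) * (1 / (B.k : ℝ)) * ((Z u 1).card * (1 / (B.k : ℝ)))
            = (1 / (B.k : ℝ)) ^ 2 * ((Z u 0).card * (Z u 1).card) := by ring
          _ ≤ (1 / (B.k : ℝ)) ^ 2 * (B.T ^ 1970 * (B.N u ∩ B.N x).card) := by gcongr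
          _ = _ := by ring
      refine (Finset.sum_le_sum fun u _ => h1 u).trans ?_
      rw [← Finset.mul_sum]
      have h4 : B.T ^ 1970 * (1 / (B.k : ℝ)) ≤ 1 := by
        refine div_le hB zero_le_one ?_
        rw [mul_one]
        exact pow_le_pow_right₀ hT1 (by norm_num)
      calc B.T ^ 1970 * (1 / (B.k : ℝ)) ^ 2 * ∑ u, ((B.N u ∩ B.N x).card : ℝ)
          ≤ B.T ^ 1970 * (1 / (B.k : ℝ)) ^ 2 * B.T ^ 6000 :=
            mul_le_mul_of_nonneg_left (sum_inter_univ hB x) (by positivity)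
        _ = (B.T ^ 1970 * B.T ^ 6000 * (1 / (B.k : ℝ))) * (1 / (B.k : ℝ)) := by ring
        _ ≤ B.T ^ 3971 * (1 / (B.k : ℝ)) := by
            refine mul_le_mul_of_nonneg_right ?_ (by positivity)
            refine div_le hB (by positivity) (le_of_eq ?_)
            rw [← pow_add, ← pow_add])
    (by
      rintro J ⟨i, hi⟩ b
      have h1 : ∀ u, ∏ i, (if i ∈ J then (if b i ∈ Z u i then (1 : ℝ) else 0)
          else (Z u i).card * (1 / (B.k : ℝ))) ≤ (if b i ∈ B.N u then (1 : ℝ) else 0) := by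
        intro u
        rw [← Finset.mul_prod_erase univ _ (Finset.mem_univ i), if_pos hi]
        have h2 : ∏ i' ∈ univ.erase i, (if i' ∈ J then (if b i' ∈ Z u i' then (1 : ℝ) else 0)
          else (Z u i').card * (1 / (B.k : ℝ))) ≤ 1 := by
          refine Finset.prod_le_one (fun i' _ => ?_) fun i' _ => ?_
          · split_ifs
            · norm_num
            · norm_num
            · exact (frac_le hB (hZ3 u i')).1
          · split_ifs
            · norm_num
            · norm_num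
            · exact (frac_le hB (hZ3 u i')).2
        have h3 : (if b i ∈ Z u i then (1 : ℝ) else 0) ≤ (if b i ∈ B.N u then (1 : ℝ) else 0) := by
          by_cases h4 : b i ∈ Z u i
          · have h5 : b i ∈ B.N u := by
              have h6 : b i ∈ (if B.light u x then B.N u ∩ B.N x else ∅ : Finset P) := h4
              split_ifs at h6
              · exact (Finset.mem_inter.mp h6).1
              · simp at h6
            rw [if_pos h4, if_pos h5]
          · rw [if_neg h4]
            exact ind_nonneg _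
        calc _ ≤ (if b i ∈ Z u i then (1 : ℝ) else 0) * 1 :=
              mul_le_mul_of_nonneg_left h2 (ind_nonneg _)
          _ ≤ _ := by rw [mul_one]; exact h3
      refine (Finset.sum_le_sum fun u _ => h1 u).trans ((sum_ind_univ hB (b i)).trans ?_)
      exact pow_le_pow_right₀ hT1 (by norm_num))
  refine (Pr_mono (unif_isPM B.k (cfg_k_pos hB)) fun φ hφ => ?_).trans key
  rw [not_le] at hφ
  have h5 : B.T ^ 5 * B.T ^ 3971 ≤ B.T ^ 3977 := by
    rw [← pow_add]
    exact pow_le_pow_right₀ hT1 (by norm_num)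
  refine h5.trans (hφ.le.trans ?_)
  have hsub : (univ.filter fun u => B.Hd φ u x) ⊆ univ.filter fun u => ∃ z : Fin 2 → P,
      Function.Injective z ∧ (∀ i, z i ∈ Z u i) ∧ ∃ c, ∀ i, φ (z i) = c := by
    intro u hu
    obtain ⟨hl, hn⟩ := (Finset.mem_filter.mp hu).2
    have hn' : ¬ Set.InjOn φ ((B.N u ∩ B.N x : Finset P) : Set P) := hn
    unfold Set.InjOn at hn'
    push Not at hn'
    obtain ⟨z, hz, z', hz', he, hne⟩ := hn'
    refine Finset.mem_filter.mpr ⟨Finset.mem_univ u, ![z, z'], ?_, ?_, φ z, ?_⟩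
    · intro i i' hii
      fin_cases i <;> fin_cases i'
      · rfl
      · exact absurd hii hne
      · exact absurd hii.symm hne
      · rfl
    · intro i
      show _ ∈ (if B.light u x then B.N u ∩ B.N x else ∅ : Finset P)
      rw [if_pos hl]
      fin_cases i
      · exact hz
      · exact hz'
    · intro i
      fin_cases i
      · rfl
      · exact he.symm
  exact_mod_cast Finset.card_le_card hsub

/-- Pairs joined by a path with monochromatic `P`-vertices. -/
theorem hs_tail (hB : B.Ok) (x : Q) (A : Finset Q) (n : ℝ) (hn : 1 ≤ n) (hn' : n ≤ B.T ^ 3000)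
    (hA : ∀ z, ((A.filter fun u => z ∈ B.N u).card : ℝ) ≤ n) :
    Pr (unif P B.k) (fun φ => ¬ ((A.filter fun u => B.Hs φ u x).card : ℝ) ≤ B.T ^ 1008 * n) ≤
      Real.exp (-(2 * B.T)) := by
  have hT1 := cfg_T_one hB
  have hT0 : (0 : ℝ) < B.T := lt_of_lt_of_le one_pos hT1
  have hk : (0 : ℝ) < B.k := by exact_mod_cast cfg_k_pos hB
  have hn0 : 0 < n := by linarith
  have hkk : (0 : ℝ) ≤ 1 / (B.k : ℝ) := by positivity
  -- index type: the elements of `A`
  let Z : A → Fin 3 → Finset P := fun u => ![B.N u, B.N u ∩ B.N x, B.N x]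
  have hZ3 : ∀ u i, ((Z u i).card : ℝ) ≤ B.T ^ 3000 := by
    intro u i
    fin_cases i
    · exact hB.degQ _
    · exact card_inter_le hB _ x
    · exact hB.degQ x
  have hsum : ∑ u : A, ((B.N u ∩ B.N x).card : ℝ) ≤ B.T ^ 3000 * n := by
    rw [Finset.sum_coe_sort A (fun u => ((B.N u ∩ B.N x).card : ℝ))]
    exact (sum_inter_le x A n hA).trans (mul_le_mul_of_nonneg_right (hB.degQ x) hn0.le)
  have hind : ∀ z, ∑ u : A, (if z ∈ B.N u then (1 : ℝ) else 0) ≤ n := by
    intro z
    rw [Finset.sum_coe_sort A (fun u => if z ∈ B.N u then (1 : ℝ) else 0)]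
    exact sum_ind_le z A n hA
  have key := mono_tail hB.big (cfg_k_pos hB) (r := 3) (by norm_num) Z (B.T ^ 1002 * n) (by positivity)
    (by
      simp only [Fin.prod_univ_three]
      have h1 : ∀ u : A, ((Z u 0).card : ℝ) * (1 / (B.k : ℝ)) * ((Z u 1).card * (1 / (B.k : ℝ))) *
          ((Z u 2).card * (1 / (B.k : ℝ))) ≤
          (B.T ^ 6000 * (1 / (B.k : ℝ)) ^ 3) * ((B.N u ∩ B.N x).card : ℝ) := by
        intro u
        have h2 := hZ3 u 0
        have h3 := hZ3 u 2
        have h4 : ((Z u 1).card : ℝ) = (B.N u ∩ B.N x).card := rfl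
        calc ((Z u 0).card : ℝ) * (1 / (B.k : ℝ)) * ((Z u 1).card * (1 / (B.k : ℝ))) *
          ((Z u 2).card * (1 / (B.k : ℝ)))
            = (1 / (B.k : ℝ)) ^ 3 * (((Z u 0).card * (Z u 2).card) * (Z u 1).card) := by ring
          _ ≤ (1 / (B.k : ℝ)) ^ 3 * ((B.T ^ 3000 * B.T ^ 3000) * (B.N u ∩ B.N x).card) := by
              rw [h4]
              gcongr
          _ = _ := by rw [← pow_add]; ring
      refine (Finset.sum_le_sum fun u _ => h1 u).trans ?_
      rw [← Finset.mul_sum]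
      calc B.T ^ 6000 * (1 / (B.k : ℝ)) ^ 3 * ∑ u : A, ((B.N u ∩ B.N x).card : ℝ)
          ≤ B.T ^ 6000 * (1 / (B.k : ℝ)) ^ 3 * (B.T ^ 3000 * n) :=
            mul_le_mul_of_nonneg_left hsum (by positivity)
        _ = (B.T ^ 9000 * n) * (1 / (B.k : ℝ)) ^ 2 * (1 / (B.k : ℝ)) := by
            rw [show (9000 : ℕ) = 6000 + 3000 by norm_num, pow_add]; ring
        _ ≤ B.T ^ 1002 * n * (1 / (B.k : ℝ)) := by
            refine mul_le_mul_of_nonneg_right ?_ hkk
            refine div_sq_le hB (by positivity) (le_of_eq ?_)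
            rw [← mul_assoc, ← pow_add])
    (by
      intro J hJ b
      have hfac : ∀ (u : A) (i : Fin 3), 0 ≤ (if i ∈ J then (if b i ∈ Z u i then (1 : ℝ) else 0)
          else (Z u i).card * (1 / (B.k : ℝ))) ∧ (if i ∈ J then (if b i ∈ Z u i then (1 : ℝ) else 0)
          else (Z u i).card * (1 / (B.k : ℝ))) ≤ 1 := by
        intro u i
        by_cases h : i ∈ J
        · rw [if_pos h]
          exact ⟨ind_nonneg _, ind_le_one _⟩
        · rw [if_neg h]
          exact frac_le hB (hZ3 u i)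
      have hM1 : n ≤ B.T ^ 1002 * n := by
        have := one_le_pow₀ hT1 (n := 1002)
        nlinarith
      refine le_trans ?_ hM1
      by_cases h0 : (0 : Fin 3) ∈ J
      · refine le_trans (Finset.sum_le_sum fun u _ => ?_) (hind (b 0))
        rw [← Finset.mul_prod_erase univ _ (Finset.mem_univ 0), if_pos h0]
        calc _ ≤ (if b 0 ∈ Z u 0 then (1 : ℝ) else 0) * 1 :=
              mul_le_mul_of_nonneg_left (Finset.prod_le_one (fun i _ => (hfac u i).1)
                fun i _ => (hfac u i).2) (ind_nonneg _)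
          _ = _ := by rw [mul_one]; rfl
      · by_cases h1 : (1 : Fin 3) ∈ J
        · refine le_trans (Finset.sum_le_sum fun u _ => ?_) (hind (b 1))
          rw [← Finset.mul_prod_erase univ _ (Finset.mem_univ 1), if_pos h1]
          calc _ ≤ (if b 1 ∈ Z u 1 then (1 : ℝ) else 0) * 1 :=
                mul_le_mul_of_nonneg_left (Finset.prod_le_one (fun i _ => (hfac u i).1)
                  fun i _ => (hfac u i).2) (ind_nonneg _)
            _ ≤ _ := by
                rw [mul_one]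
                by_cases h4 : b 1 ∈ Z u 1
                · have h5 : b 1 ∈ B.N u := (Finset.mem_inter.mp h4).1
                  rw [if_pos h4, if_pos h5]
                · rw [if_neg h4]
                  exact ind_nonneg _
        · have hterm : ∀ u : A, ∏ i, (if i ∈ J then (if b i ∈ Z u i then (1 : ℝ) else 0)
              else (Z u i).card * (1 / (B.k : ℝ))) ≤
              B.T ^ 3000 * (1 / (B.k : ℝ)) ^ 2 * ((B.N u ∩ B.N x).card : ℝ) := by
            intro u
            rw [Fin.prod_univ_three, if_neg h0, if_neg h1]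
            have h2 := hZ3 u 0
            have h3 : ((Z u 1).card : ℝ) = (B.N u ∩ B.N x).card := rfl
            have h4 := (hfac u 2).2
            have h5 : (0 : ℝ) ≤ (Z u 0).card * (1 / (B.k : ℝ)) * ((Z u 1).card * (1 / (B.k : ℝ))) := by
              positivity
            calc _ ≤ (Z u 0).card * (1 / (B.k : ℝ)) * ((Z u 1).card * (1 / (B.k : ℝ))) * 1 :=
                  mul_le_mul_of_nonneg_left h4 h5
              _ = (1 / (B.k : ℝ)) ^ 2 * ((Z u 0).card * (Z u 1).card) := by ring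
              _ ≤ (1 / (B.k : ℝ)) ^ 2 * (B.T ^ 3000 * (B.N u ∩ B.N x).card) := by
                  rw [h3]
                  gcongr
              _ = _ := by ring
          refine (Finset.sum_le_sum fun u _ => hterm u).trans ?_
          rw [← Finset.mul_sum]
          calc B.T ^ 3000 * (1 / (B.k : ℝ)) ^ 2 * ∑ u : A, ((B.N u ∩ B.N x).card : ℝ)
              ≤ B.T ^ 3000 * (1 / (B.k : ℝ)) ^ 2 * (B.T ^ 3000 * n) :=
                mul_le_mul_of_nonneg_left hsum (by positivity)
            _ = (B.T ^ 6000 * n) * (1 / (B.k : ℝ)) ^ 2 := by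
                rw [show (6000 : ℕ) = 3000 + 3000 by norm_num, pow_add]; ring
            _ ≤ n := by
                refine div_sq_le hB hn0.le ?_
                exact mul_le_mul_of_nonneg_right (pow_le_pow_right₀ hT1 (by norm_num)) hn0.le)
  refine (Pr_mono (unif_isPM B.k (cfg_k_pos hB)) fun φ hφ => ?_).trans key
  rw [not_le] at hφ
  have h5 : B.T ^ 5 * (B.T ^ 1002 * n) ≤ B.T ^ 1008 * n := by
    rw [← mul_assoc, ← pow_add]
    exact mul_le_mul_of_nonneg_right (pow_le_pow_right₀ hT1 (by norm_num)) hn0.le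
  refine h5.trans (hφ.le.trans ?_)
  have hcard : (A.filter fun u => B.Hs φ u x).card ≤
      (univ.filter fun u : A => ∃ z : Fin 3 → P,
      Function.Injective z ∧ (∀ i, z i ∈ Z u i) ∧ ∃ c, ∀ i, φ (z i) = c).card := by
    have h6 : (A.filter fun u => B.Hs φ u x) ⊆ (univ.filter fun u : A => ∃ z : Fin 3 → P,
      Function.Injective z ∧ (∀ i, z i ∈ Z u i) ∧ ∃ c, ∀ i, φ (z i) = c).image Subtype.val := by
      intro u hu
      obtain ⟨huA, hne, z₀, z₁, z₂, h01, h02, h12, e01, e12, m0, m1, m1', m2⟩ :=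
        Finset.mem_filter.mp hu
      refine Finset.mem_image.mpr ⟨⟨u, huA⟩, Finset.mem_filter.mpr ⟨Finset.mem_univ _,
        ![z₀, z₁, z₂], ?_, ?_, φ z₀, ?_⟩, rfl⟩
      · intro i i' hii
        fin_cases i <;> fin_cases i'
        · rfl
        · exact absurd hii h01
        · exact absurd hii h02
        · exact absurd hii.symm h01
        · rfl
        · exact absurd hii h12
        · exact absurd hii.symm h02
        · exact absurd hii.symm h12
        · rfl
      · intro i
        fin_cases i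
        · exact m0
        · exact Finset.mem_inter.mpr ⟨m1, m1'⟩
        · exact m2
      · intro i
        fin_cases i
        · rfl
        · exact e01.symm
        · exact (e01.trans e12).symm
    exact (Finset.card_le_card h6).trans Finset.card_image_le
  exact_mod_cast hcard

end BData

end Pool.Agent.Acy
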