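import Pool.Agent.Acy.Pl
import Pool.Agent.Acy.CountT

/-! # Counting long patterns (module G3b) -/

set_option autoImplicit false
set_option linter.unusedSectionVars false

namespace Pool.Agent.Acy

open Finset
open scoped Classical

universe u

namespace BData

variable {P Q : Type u} [Fintype P] [DecidableEq P] [Fintype Q] [DecidableEq Q] {B : BData P Q}

section mono

variable {κ : Type*} [Fintype κ] (F : κ → Prop) (f₁ f₂ f₃ : κ → P)

/-- The conditions of a configuration with colour. -/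
def mcd (B : BData P Q) (U : κ × Fin B.k) : Finset (P × Fin B.k) :=
  {(f₁ U.1, U.2), (f₂ U.1, U.2), (f₃ U.1, U.2)}

/-- The number of configurations with restricted vertices. -/
noncomputable def mN (A₁ A₂ A₃ : Finset P) : Finset κ :=
  univ.filter fun U => F U ∧ f₁ U ∈ A₁ ∧ f₂ U ∈ A₂ ∧ f₃ U ∈ A₃

theorem mcd_card (hne : ∀ U, F U → f₁ U ≠ f₂ U ∧ f₁ U ≠ f₃ U ∧ f₂ U ≠ f₃ U)
    (U : κ × Fin B.k) (hU : F U.1) : (mcd f₁ f₂ f₃ B U).card = 3 := by
  obtain ⟨h1, h2, h3⟩ := hne U.1 hU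
  unfold mcd
  rw [Finset.card_eq_three]
  refine ⟨_, _, _, ?_, ?_, ?_, rfl⟩
  · intro h; exact h1 (Prod.ext_iff.mp h).1
  · intro h; exact h2 (Prod.ext_iff.mp h).1
  · intro h; exact h3 (Prod.ext_iff.mp h).1

theorem mcd_card_le (U : κ × Fin B.k) : (mcd f₁ f₂ f₃ B U).card ≤ 3 := by
  unfold mcd
  exact Finset.card_le_three

/-- Configurations containing a nonempty partial assignment. -/
theorem card_ext_le (E : ℝ) (hE : 0 < E) (D : ℝ) (hD : 3 ≤ D)
    (hc : ∀ A₁ A₂ A₃ : Finset P, ((mN F f₁ f₂ f₃ A₁ A₂ A₃).card : ℝ) ≤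
      min (A₁.card : ℝ) D * min (A₂.card : ℝ) D * min (A₃.card : ℝ) D * E)
    (W : Finset (P × Fin B.k)) (hW : W.card ≤ 3) (hW1 : 1 ≤ W.card) :
    ((univ.filter fun U : κ × Fin B.k => F U.1 ∧ W ⊆ mcd f₁ f₂ f₃ B U).card : ℝ) ≤
      81 * D ^ (3 - W.card) * E := by
  set Z : Finset P := W.image Prod.fst with hZ
  set C : Finset (Fin B.k) := W.image Prod.snd with hC
  have hZc : (Z.card : ℝ) ≤ 3 := by exact_mod_cast (Finset.card_image_le).trans hW
  have hCc : (C.card : ℝ) ≤ 3 := by exact_mod_cast (Finset.card_image_le).trans hW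
  have hD0 : 0 < D := by linarith
  have bZ : min (Z.card : ℝ) D ≤ 3 := (min_le_left _ _).trans hZc
  have bZ0 : 0 ≤ min (Z.card : ℝ) D := le_min (Nat.cast_nonneg _) hD0.le
  have bU : min ((univ : Finset P).card : ℝ) D ≤ D := min_le_right _ _
  have bU0 : 0 ≤ min ((univ : Finset P).card : ℝ) D := le_min (Nat.cast_nonneg _) hD0.le
  -- a witness in W determines the colour
  have hmemW : ∀ (U : κ × Fin B.k), W ⊆ mcd f₁ f₂ f₃ B U → U.2 ∈ C := by
    intro U hU
    obtain ⟨q, hq⟩ := Finset.card_pos.mp (by omega : 0 < W.card)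
    have h := hU hq
    unfold mcd at h
    simp only [Finset.mem_insert, Finset.mem_singleton] at h
    rw [hC, Finset.mem_image]
    refine ⟨q, hq, ?_⟩
    rcases h with h | h | h <;> rw [h]
  have hin : ∀ (U : κ × Fin B.k) (p : P), (p, U.2) ∈ W → p ∈ Z := by
    intro U p hp
    rw [hZ, Finset.mem_image]
    exact ⟨_, hp, rfl⟩
  -- number of hits
  have hits : ∀ (U : κ × Fin B.k), W ⊆ mcd f₁ f₂ f₃ B U →
      W.card ≤ (if f₁ U.1 ∈ Z then 1 else 0) + (if f₂ U.1 ∈ Z then 1 else 0) +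
        (if f₃ U.1 ∈ Z then 1 else 0) := by
    intro U hU
    have e1 : W ⊆ ((if f₁ U.1 ∈ Z then {(f₁ U.1, U.2)} else ∅) ∪
        (if f₂ U.1 ∈ Z then {(f₂ U.1, U.2)} else ∅) ∪
        (if f₃ U.1 ∈ Z then {(f₃ U.1, U.2)} else ∅) : Finset (P × Fin B.k)) := by
      intro q hq
      have h := hU hq
      unfold mcd at h
      simp only [Finset.mem_insert, Finset.mem_singleton] at h
      rw [Finset.mem_union, Finset.mem_union]
      rcases h with h | h | h
      · left; left
        rw [if_pos (hin U _ (h ▸ hq)), h]; exact Finset.mem_singleton_self _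
      · left; right
        rw [if_pos (hin U _ (h ▸ hq)), h]; exact Finset.mem_singleton_self _
      · right
        rw [if_pos (hin U _ (h ▸ hq)), h]; exact Finset.mem_singleton_self _
    refine (Finset.card_le_card e1).trans ((Finset.card_union_le _ _).trans ?_)
    refine Nat.add_le_add ((Finset.card_union_le _ _).trans (Nat.add_le_add ?_ ?_)) ?_
    · split_ifs <;> simp
    · split_ifs <;> simp
    · split_ifs <;> simp
  have hfin : ∀ (N : Finset κ) (r : ℝ), (N.card : ℝ) ≤ r → 0 ≤ r →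
      ((univ.filter fun U : κ × Fin B.k => F U.1 ∧ W ⊆ mcd f₁ f₂ f₃ B U) ⊆ N ×ˢ C) →
      ((univ.filter fun U : κ × Fin B.k => F U.1 ∧ W ⊆ mcd f₁ f₂ f₃ B U).card : ℝ) ≤ r * 3 := by
    intro N r hN hr hsub
    have h1 := Finset.card_le_card hsub
    rw [Finset.card_product] at h1
    have h2 : ((univ.filter fun U : κ × Fin B.k => F U.1 ∧ W ⊆ mcd f₁ f₂ f₃ B U).card : ℝ) ≤
        (N.card : ℝ) * C.card := by exact_mod_cast h1
    refine h2.trans ?_
    exact mul_le_mul hN hCc (Nat.cast_nonneg _) hr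
  have hprod : ∀ a b c a' b' c' : ℝ, 0 ≤ a → 0 ≤ b → 0 ≤ c → a ≤ a' → b ≤ b' → c ≤ c' →
      a * b * c * E ≤ a' * b' * c' * E := by
    intro a b c a' b' c' ha hb hc' h1 h2 h3
    refine mul_le_mul_of_nonneg_right ?_ hE.le
    exact mul_le_mul (mul_le_mul h1 h2 hb (ha.trans h1)) h3 hc'
      (mul_nonneg (ha.trans h1) (hb.trans h2))
  have hcases : W.card = 1 ∨ W.card = 2 ∨ W.card = 3 := by omega
  rcases hcases with hs | hs | hs
  · -- one condition
    have h1 := (hc Z univ univ).trans (hprod _ _ _ _ _ _ bZ0 bU0 bU0 bZ bU bU)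
    have h2 := (hc univ Z univ).trans (hprod _ _ _ _ _ _ bU0 bZ0 bU0 bU bZ bU)
    have h3 := (hc univ univ Z).trans (hprod _ _ _ _ _ _ bU0 bU0 bZ0 bU bU bZ)
    have h4 := hfin (mN F f₁ f₂ f₃ Z univ univ ∪ mN F f₁ f₂ f₃ univ Z univ ∪
      mN F f₁ f₂ f₃ univ univ Z) (9 * D ^ 2 * E) ?_ (by positivity) ?_
    · refine h4.trans ?_
      rw [hs]
      have : 0 < D ^ 2 * E := by positivity
      norm_num
      linarith
    · have h5 : ((mN F f₁ f₂ f₃ Z univ univ ∪ mN F f₁ f₂ f₃ univ Z univ ∪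
          mN F f₁ f₂ f₃ univ univ Z).card : ℝ) ≤ (mN F f₁ f₂ f₃ Z univ univ).card +
          (mN F f₁ f₂ f₃ univ Z univ).card + (mN F f₁ f₂ f₃ univ univ Z).card := by
        exact_mod_cast (Finset.card_union_le _ _).trans
          (Nat.add_le_add_right (Finset.card_union_le _ _) _)
      nlinarith
    · intro U hU
      rw [Finset.mem_filter] at hU
      have hh := hits U hU.2.2
      rw [hs] at hh
      rw [Finset.mem_product]
      refine ⟨?_, hmemW U hU.2.2⟩
      rw [Finset.mem_union, Finset.mem_union]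
      unfold mN
      simp only [Finset.mem_filter, Finset.mem_univ, true_and, hU.2.1, and_true]
      by_contra hcon
      push Not at hcon
      rw [if_neg hcon.1.1, if_neg hcon.1.2, if_neg hcon.2] at hh
      omega
  · -- two conditions
    have h1 := (hc Z Z univ).trans (hprod _ _ _ _ _ _ bZ0 bZ0 bU0 bZ bZ bU)
    have h2 := (hc Z univ Z).trans (hprod _ _ _ _ _ _ bZ0 bU0 bZ0 bZ bU bZ)
    have h3 := (hc univ Z Z).trans (hprod _ _ _ _ _ _ bU0 bZ0 bZ0 bU bZ bZ)
    have h4 := hfin (mN F f₁ f₂ f₃ Z Z univ ∪ mN F f₁ f₂ f₃ Z univ Z ∪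
      mN F f₁ f₂ f₃ univ Z Z) (27 * D * E) ?_ (by positivity) ?_
    · refine h4.trans (le_of_eq ?_)
      rw [hs]; norm_num; ring
    · have h5 : ((mN F f₁ f₂ f₃ Z Z univ ∪ mN F f₁ f₂ f₃ Z univ Z ∪
          mN F f₁ f₂ f₃ univ Z Z).card : ℝ) ≤ (mN F f₁ f₂ f₃ Z Z univ).card +
          (mN F f₁ f₂ f₃ Z univ Z).card + (mN F f₁ f₂ f₃ univ Z Z).card := by
        exact_mod_cast (Finset.card_union_le _ _).trans
          (Nat.add_le_add_right (Finset.card_union_le _ _) _)
      nlinarith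
    · intro U hU
      rw [Finset.mem_filter] at hU
      have hh := hits U hU.2.2
      rw [hs] at hh
      rw [Finset.mem_product]
      refine ⟨?_, hmemW U hU.2.2⟩
      rw [Finset.mem_union, Finset.mem_union]
      unfold mN
      simp only [Finset.mem_filter, Finset.mem_univ, true_and, hU.2.1, and_true]
      by_cases c1 : f₁ U.1 ∈ Z
      · by_cases c2 : f₂ U.1 ∈ Z
        · exact Or.inl (Or.inl ⟨c1, c2⟩)
        · by_cases c3 : f₃ U.1 ∈ Z
          · exact Or.inl (Or.inr ⟨c1, c3⟩)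
          · rw [if_pos c1, if_neg c2, if_neg c3] at hh
            omega
      · by_cases c2 : f₂ U.1 ∈ Z
        · by_cases c3 : f₃ U.1 ∈ Z
          · exact Or.inr ⟨c2, c3⟩
          · rw [if_neg c1, if_pos c2, if_neg c3] at hh
            omega
        · rw [if_neg c1, if_neg c2] at hh
          split_ifs at hh <;> omega
  · -- three conditions
    have h1 := (hc Z Z Z).trans (hprod _ _ _ _ _ _ bZ0 bZ0 bZ0 bZ bZ bZ)
    have h4 := hfin (mN F f₁ f₂ f₃ Z Z Z) (27 * E) ?_ (by positivity) ?_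
    · refine h4.trans (le_of_eq ?_)
      rw [hs]; norm_num; ring
    · linarith
    · intro U hU
      rw [Finset.mem_filter] at hU
      have hh := hits U hU.2.2
      rw [hs] at hh
      rw [Finset.mem_product]
      refine ⟨?_, hmemW U hU.2.2⟩
      unfold mN
      simp only [Finset.mem_filter, Finset.mem_univ, true_and, hU.2.1]
      by_cases c1 : f₁ U.1 ∈ Z
      · by_cases c2 : f₂ U.1 ∈ Z
        · by_cases c3 : f₃ U.1 ∈ Z
          · exact ⟨c1, c2, c3⟩
          · rw [if_pos c1, if_pos c2, if_neg c3] at hh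
            omega
        · rw [if_pos c1, if_neg c2] at hh
          split_ifs at hh <;> omega
      · rw [if_neg c1] at hh
        split_ifs at hh <;> omega

/-- The monochromatic configurations are counted by `cnt`. -/
theorem card_mono_le (φ : P → Fin B.k) :
    ((univ.filter fun U : κ => F U ∧ φ (f₁ U) = φ (f₂ U) ∧ φ (f₁ U) = φ (f₃ U)).card : ℝ) ≤
      cnt (fun U : κ × Fin B.k => if F U.1 then (1 : ℝ) else 0) (mcd f₁ f₂ f₃ B) φ := by
  unfold cnt
  rw [Fintype.sum_prod_type, Finset.card_filter]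
  push_cast
  refine Finset.sum_le_sum fun U _ => ?_
  have h0 : ∀ c : Fin B.k, (0 : ℝ) ≤ (if Holds (mcd f₁ f₂ f₃ B (U, c)) φ then
      (if F U then (1 : ℝ) else 0) else 0) := by
    intro c
    split_ifs <;> norm_num
  by_cases hU : F U ∧ φ (f₁ U) = φ (f₂ U) ∧ φ (f₁ U) = φ (f₃ U)
  · rw [if_pos hU]
    refine le_trans ?_ (Finset.single_le_sum (fun c _ => h0 c) (Finset.mem_univ (φ (f₁ U))))
    have hH : Holds (mcd f₁ f₂ f₃ B (U, φ (f₁ U))) φ := by
      intro q hq
      unfold mcd at hq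
      simp only [Finset.mem_insert, Finset.mem_singleton] at hq
      rcases hq with h | h | h
      · rw [h]
      · rw [h]; exact hU.2.1.symm
      · rw [h]; exact hU.2.2.symm
    rw [if_pos hH, if_pos hU.1]
  · rw [if_neg hU]
    exact Finset.sum_nonneg fun c _ => h0 c

/-- Counting lemma for monochromatic triples. -/
theorem mono3_tail (hB : B.Ok)
    (hne : ∀ U, F U → f₁ U ≠ f₂ U ∧ f₁ U ≠ f₃ U ∧ f₂ U ≠ f₃ U)
    (E : ℝ) (hE : 0 < E)
    (hc : ∀ A₁ A₂ A₃ : Finset P, ((mN F f₁ f₂ f₃ A₁ A₂ A₃).card : ℝ) ≤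
      min (A₁.card : ℝ) (B.T ^ 3000) * min (A₂.card : ℝ) (B.T ^ 3000) *
        min (A₃.card : ℝ) (B.T ^ 3000) * E) :
    Pr (unif P B.k) (fun φ => B.T ^ 4 * (B.T ^ 1002 * E) ≤
      ((univ.filter fun U => F U ∧ φ (f₁ U) = φ (f₂ U) ∧ φ (f₁ U) = φ (f₃ U)).card : ℝ)) ≤
      Real.exp (-(2 * B.T)) := by
  have hT6 : (10 : ℝ) ^ 6 ≤ B.T := hB.big.big
  have hT1 : 1 ≤ B.T := le_trans (by norm_num) hT6
  have hT0 : 0 < B.T := lt_of_lt_of_le one_pos hT1
  have hk0 : (0 : ℝ) < B.k := lt_of_lt_of_le (by positivity) hB.k_lo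
  have hkn : 0 < B.k := by exact_mod_cast hk0
  have hPM : IsPM (unif P B.k) := unif_isPM B.k hkn
  refine le_trans (Pr_mono hPM ?_) (count_T hB.big hPM (unif P B.k) (fun _ _ => le_rfl)
    (fun U : κ × Fin B.k => if F U.1 then (1 : ℝ) else 0) ?_ (mcd f₁ f₂ f₃ B)
    (mcd_card_le f₁ f₂ f₃) (B.T ^ 1002 * E) (by positivity) ?_)
  · intro φ hφ
    exact hφ.trans (card_mono_le F f₁ f₂ f₃ φ)
  · intro U
    split_ifs <;> norm_num
  · intro W hW
    have hD3 : (3 : ℝ) ≤ B.T ^ 3000 := by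
      have : B.T ^ 1 ≤ B.T ^ 3000 := pow_le_pow_right₀ hT1 (by norm_num)
      rw [pow_one] at this
      linarith
    -- the extension sum
    have e1 : ext (unif P B.k) (fun U : κ × Fin B.k => if F U.1 then (1 : ℝ) else 0)
        (mcd f₁ f₂ f₃ B) W =
        ((univ.filter fun U : κ × Fin B.k => F U.1 ∧ W ⊆ mcd f₁ f₂ f₃ B U).card : ℝ) *
          (1 / (B.k : ℝ)) ^ (3 - W.card) := by
      unfold ext
      rw [Finset.card_filter]
      push_cast
      rw [Finset.sum_mul]
      refine Finset.sum_congr rfl fun U _ => ?_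
      by_cases hU : F U.1 ∧ W ⊆ mcd f₁ f₂ f₃ B U
      · rw [if_pos hU, if_pos hU.2, if_pos hU.1, one_mul, one_mul]
        unfold unif
        rw [Finset.prod_const, Finset.card_sdiff_of_subset hU.2,
          mcd_card f₁ f₂ f₃ (F := F) hne U hU.1]
      · rw [if_neg hU]
        by_cases h2 : W ⊆ mcd f₁ f₂ f₃ B U
        · rw [if_pos h2, if_neg (fun h1 => hU ⟨h1, h2⟩)]; ring
        · rw [if_neg h2]; ring
    rw [e1]
    rcases Nat.eq_zero_or_pos W.card with hs | hs
    · rw [hs]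
      have h1 : ((univ.filter fun U : κ × Fin B.k => F U.1 ∧ W ⊆ mcd f₁ f₂ f₃ B U).card : ℝ) ≤
          (mN F f₁ f₂ f₃ univ univ univ).card * B.k := by
        have hsub : (univ.filter fun U : κ × Fin B.k => F U.1 ∧ W ⊆ mcd f₁ f₂ f₃ B U) ⊆
            (mN F f₁ f₂ f₃ univ univ univ) ×ˢ (univ : Finset (Fin B.k)) := by
          intro U hU
          rw [Finset.mem_filter] at hU
          rw [Finset.mem_product]
          refine ⟨?_, Finset.mem_univ _⟩
          unfold mN
          rw [Finset.mem_filter]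
          exact ⟨Finset.mem_univ _, hU.2.1, Finset.mem_univ _, Finset.mem_univ _,
            Finset.mem_univ _⟩
        have h2 := Finset.card_le_card hsub
        rw [Finset.card_product, Finset.card_univ, Fintype.card_fin] at h2
        exact_mod_cast h2
      have h2 := hc univ univ univ
      have h3 : min ((univ : Finset P).card : ℝ) (B.T ^ 3000) *
          min ((univ : Finset P).card : ℝ) (B.T ^ 3000) *
          min ((univ : Finset P).card : ℝ) (B.T ^ 3000) * E ≤
          B.T ^ 3000 * B.T ^ 3000 * B.T ^ 3000 * E := by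
        have hb0 : 0 ≤ min ((univ : Finset P).card : ℝ) (B.T ^ 3000) :=
          le_min (Nat.cast_nonneg _) (by positivity)
        have hb : min ((univ : Finset P).card : ℝ) (B.T ^ 3000) ≤ B.T ^ 3000 := min_le_right _ _
        refine mul_le_mul_of_nonneg_right ?_ hE.le
        exact mul_le_mul (mul_le_mul hb hb hb0 (by positivity)) hb hb0 (by positivity)
      have h4 : ((univ.filter fun U : κ × Fin B.k => F U.1 ∧ W ⊆ mcd f₁ f₂ f₃ B U).card : ℝ) ≤
          B.T ^ 9000 * E * B.k := by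
        refine h1.trans (mul_le_mul_of_nonneg_right (h2.trans (h3.trans (le_of_eq ?_))) hk0.le)
        ring
      have h5 : (B.T : ℝ) ^ 9000 ≤ B.T ^ 1002 * (B.k : ℝ) ^ 2 := by
        have h6 : (B.T ^ 3999) ^ 2 ≤ (B.k : ℝ) ^ 2 := pow_le_pow_left₀ (by positivity) hB.k_lo 2
        calc (B.T : ℝ) ^ 9000 = B.T ^ 1002 * (B.T ^ 3999) ^ 2 := by rw [← pow_mul, ← pow_add]
          _ ≤ _ := mul_le_mul_of_nonneg_left h6 (by positivity)
      calc ((univ.filter fun U : κ × Fin B.k => F U.1 ∧ W ⊆ mcd f₁ f₂ f₃ B U).card : ℝ) *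
            (1 / (B.k : ℝ)) ^ (3 - 0)
          ≤ B.T ^ 9000 * E * B.k * (1 / (B.k : ℝ)) ^ (3 - 0) :=
            mul_le_mul_of_nonneg_right h4 (by positivity)
        _ = B.T ^ 9000 * E / (B.k : ℝ) ^ 2 := by
            norm_num
            field_simp
        _ ≤ B.T ^ 1002 * E := by
            rw [div_le_iff₀ (by positivity)]
            nlinarith
    · have h1 := card_ext_le F f₁ f₂ f₃ (B := B) E hE (B.T ^ 3000) hD3 hc W hW hs
      have hDk : B.T ^ 3000 ≤ (B.k : ℝ) :=
        (pow_le_pow_right₀ hT1 (by norm_num)).trans hB.k_lo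
      calc ((univ.filter fun U : κ × Fin B.k => F U.1 ∧ W ⊆ mcd f₁ f₂ f₃ B U).card : ℝ) *
            (1 / (B.k : ℝ)) ^ (3 - W.card)
          ≤ 81 * (B.T ^ 3000) ^ (3 - W.card) * E * (1 / (B.k : ℝ)) ^ (3 - W.card) :=
            mul_le_mul_of_nonneg_right h1 (by positivity)
        _ = 81 * E * (B.T ^ 3000 / (B.k : ℝ)) ^ (3 - W.card) := by
            rw [div_eq_mul_one_div (B.T ^ 3000) (B.k : ℝ), mul_pow]
            ring
        _ ≤ 81 * E * 1 := by
            refine mul_le_mul_of_nonneg_left ?_ (by positivity)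
            refine pow_le_one₀ (by positivity) ?_
            rw [div_le_one hk0]
            exact hDk
        _ ≤ B.T ^ 1002 * E := by
            rw [mul_one]
            refine mul_le_mul_of_nonneg_right ?_ hE.le
            have : B.T ^ 1 ≤ B.T ^ 1002 := pow_le_pow_right₀ hT1 (by norm_num)
            rw [pow_one] at this
            linarith

end mono

/-- Counting by fibres. -/
theorem card_fib {κ α : Type*} [DecidableEq α] (S : Finset κ) (g : κ → α) (A : Finset α) (r : ℝ)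
    (h1 : ∀ U ∈ S, g U ∈ A) (h2 : ∀ a ∈ A, ((S.filter fun U => g U = a).card : ℝ) ≤ r) :
    (S.card : ℝ) ≤ A.card * r := by
  rw [Finset.card_eq_sum_card_fiberwise h1]
  push_cast
  refine (Finset.sum_le_sum h2).trans (le_of_eq ?_)
  rw [Finset.sum_const, nsmul_eq_mul]

theorem le_minD (hB : B.Ok) (A : Finset P) (u : Q) :
    ((A ∩ B.N u).card : ℝ) ≤ min (A.card : ℝ) (B.T ^ 3000) := by
  refine le_min ?_ ?_
  · exact_mod_cast Finset.card_le_card Finset.inter_subset_left
  · refine le_trans ?_ (hB.degQ u)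
    exact_mod_cast Finset.card_le_card Finset.inter_subset_right

theorem minD_nonneg (hB : B.Ok) (A : Finset P) : 0 ≤ min (A.card : ℝ) (B.T ^ 3000) := by
  have hT : (10 : ℝ) ^ 6 ≤ B.T := hB.big.big
  have hT0 : 0 < B.T := lt_of_lt_of_le (by norm_num) hT
  exact le_min (Nat.cast_nonneg _) (by positivity)

/-- The two-sided long patterns at `x`. -/
def FA (B : BData P Q) (x : Q) (U : (P × P × P) × (Q × Q)) : Prop :=
  U.1.1 ≠ U.1.2.1 ∧ U.1.1 ≠ U.1.2.2 ∧ U.1.2.1 ≠ U.1.2.2 ∧ U.1.1 ∈ B.N x ∧ U.1.2.1 ∈ B.N x ∧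
    U.1.1 ∈ B.N U.2.1 ∧ U.1.2.2 ∈ B.N U.2.1 ∧ U.1.2.1 ∈ B.N U.2.2

theorem FA_count (hB : B.Ok) (x : Q) (A₁ A₂ A₃ : Finset P) :
    ((mN (FA B x) (fun U => U.1.1) (fun U => U.1.2.1) (fun U => U.1.2.2) A₁ A₂ A₃).card : ℝ) ≤
      min (A₁.card : ℝ) (B.T ^ 3000) * min (A₂.card : ℝ) (B.T ^ 3000) *
        min (A₃.card : ℝ) (B.T ^ 3000) * B.T ^ 6000 := by
  have hT : (10 : ℝ) ^ 6 ≤ B.T := hB.big.big
  have hT0 : 0 < B.T := lt_of_lt_of_le (by norm_num) hT
  have n1 := minD_nonneg hB A₁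
  have n2 := minD_nonneg hB A₂
  have n3 := minD_nonneg hB A₃
  set S := mN (FA B x) (fun U => U.1.1) (fun U => U.1.2.1) (fun U => U.1.2.2) A₁ A₂ A₃ with hS
  have hmem : ∀ U ∈ S, FA B x U ∧ U.1.1 ∈ A₁ ∧ U.1.2.1 ∈ A₂ ∧ U.1.2.2 ∈ A₃ := by
    intro U hU
    rw [hS] at hU
    unfold mN at hU
    exact (Finset.mem_filter.mp hU).2
  have s1 : (S.card : ℝ) ≤ (A₁ ∩ B.N x).card *
      (min (A₂.card : ℝ) (B.T ^ 3000) * (B.T ^ 3000 * (min (A₃.card : ℝ) (B.T ^ 3000) *
        B.T ^ 3000))) := by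
    refine card_fib S (fun U => U.1.1) _ _ ?_ ?_
    · intro U hU
      obtain ⟨hF, h1, h2, h3⟩ := hmem U hU
      exact Finset.mem_inter.mpr ⟨h1, hF.2.2.2.1⟩
    · intro z _
      refine le_trans (card_fib _ (fun U => U.1.2.1) (A₂ ∩ B.N x) (B.T ^ 3000 *
        (min (A₃.card : ℝ) (B.T ^ 3000) * B.T ^ 3000)) ?_ ?_)
        (mul_le_mul_of_nonneg_right (le_minD hB A₂ x) (by positivity))
      · intro U hU
        obtain ⟨hF, h1, h2, h3⟩ := hmem U (Finset.mem_filter.mp hU).1
        exact Finset.mem_inter.mpr ⟨h2, hF.2.2.2.2.1⟩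
      · intro z' _
        refine le_trans (card_fib _ (fun U => U.2.1) (B.NP z)
          (min (A₃.card : ℝ) (B.T ^ 3000) * B.T ^ 3000) ?_ ?_)
          (mul_le_mul_of_nonneg_right (hB.degP z) (by positivity))
        · intro U hU
          have hU1 := Finset.mem_filter.mp (Finset.mem_filter.mp hU).1
          obtain ⟨hF, h1, h2, h3⟩ := hmem U hU1.1
          unfold NP
          refine Finset.mem_filter.mpr ⟨Finset.mem_univ _, ?_⟩
          rw [← hU1.2]
          exact hF.2.2.2.2.2.1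
        · intro w _
          refine le_trans (card_fib _ (fun U => U.1.2.2) (A₃ ∩ B.N w) (B.T ^ 3000) ?_ ?_)
            (mul_le_mul_of_nonneg_right (le_minD hB A₃ w) (by positivity))
          · intro U hU
            have hU1 := Finset.mem_filter.mp hU
            have hU2 := Finset.mem_filter.mp hU1.1
            have hU3 := Finset.mem_filter.mp hU2.1
            obtain ⟨hF, h1, h2, h3⟩ := hmem U hU3.1
            refine Finset.mem_inter.mpr ⟨h3, ?_⟩
            rw [← hU1.2]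
            exact hF.2.2.2.2.2.2.1
          · intro z'' _
            refine le_trans ?_ (hB.degP z')
            have hinj : (Finset.filter (fun U : (P × P × P) × (Q × Q) => U.1.2.2 = z'')
                (Finset.filter (fun U => U.2.1 = w) (Finset.filter (fun U => U.1.2.1 = z')
                (Finset.filter (fun U => U.1.1 = z) S)))).card ≤ (B.NP z').card := by
              refine Finset.card_le_card_of_injOn (fun U => U.2.2) ?_ ?_
              · intro U hU
                rw [Finset.mem_coe] at hU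
                simp only [Finset.mem_filter] at hU
                obtain ⟨hF, h1, h2, h3⟩ := hmem U hU.1.1.1.1
                rw [Finset.mem_coe]
                unfold NP
                refine Finset.mem_filter.mpr ⟨Finset.mem_univ _, ?_⟩
                rw [← hU.1.1.2]
                exact hF.2.2.2.2.2.2.2
              · intro U hU U' hU' heq
                rw [Finset.mem_coe] at hU hU'
                simp only [Finset.mem_filter] at hU hU'
                have a1 : U.1.1 = U'.1.1 := hU.1.1.1.2.trans hU'.1.1.1.2.symm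
                have a2 : U.1.2.1 = U'.1.2.1 := hU.1.1.2.trans hU'.1.1.2.symm
                have a3 : U.2.1 = U'.2.1 := hU.1.2.trans hU'.1.2.symm
                have a4 : U.1.2.2 = U'.1.2.2 := hU.2.trans hU'.2.symm
                exact Prod.ext (Prod.ext a1 (Prod.ext a2 a4)) (Prod.ext a3 heq)
            exact_mod_cast hinj
  refine s1.trans ((mul_le_mul_of_nonneg_right (le_minD hB A₁ x) (by positivity)).trans
    (le_of_eq ?_))
  have : B.T ^ 6000 = B.T ^ 3000 * B.T ^ 3000 := by rw [← pow_add]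
  rw [this]
  ring

/-- The one-sided long patterns at `x`, `u`, first kind. -/
def FB (B : BData P Q) (x u : Q) (U : (P × P × P) × Q) : Prop :=
  U.1.1 ≠ U.1.2.1 ∧ U.1.1 ≠ U.1.2.2 ∧ U.1.2.1 ≠ U.1.2.2 ∧ U.1.1 ∈ B.N x ∧ U.1.2.1 ∈ B.N x ∧
    U.1.1 ∈ B.N u ∧ U.1.2.2 ∈ B.N u ∧ U.1.2.1 ∈ B.N U.2

theorem FB_count (hB : B.Ok) (x u : Q) (A₁ A₂ A₃ : Finset P) :
    ((mN (FB B x u) (fun U => U.1.1) (fun U => U.1.2.1) (fun U => U.1.2.2) A₁ A₂ A₃).card : ℝ) ≤
      min (A₁.card : ℝ) (B.T ^ 3000) * min (A₂.card : ℝ) (B.T ^ 3000) *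
        min (A₃.card : ℝ) (B.T ^ 3000) * B.T ^ 3000 := by
  have hT : (10 : ℝ) ^ 6 ≤ B.T := hB.big.big
  have hT0 : 0 < B.T := lt_of_lt_of_le (by norm_num) hT
  have n1 := minD_nonneg hB A₁
  have n2 := minD_nonneg hB A₂
  have n3 := minD_nonneg hB A₃
  set S := mN (FB B x u) (fun U => U.1.1) (fun U => U.1.2.1) (fun U => U.1.2.2) A₁ A₂ A₃ with hS
  have hmem : ∀ U ∈ S, FB B x u U ∧ U.1.1 ∈ A₁ ∧ U.1.2.1 ∈ A₂ ∧ U.1.2.2 ∈ A₃ := by
    intro U hU
    rw [hS] at hU
    unfold mN at hU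
    exact (Finset.mem_filter.mp hU).2
  have s1 : (S.card : ℝ) ≤ (A₁ ∩ B.N x).card *
      (min (A₂.card : ℝ) (B.T ^ 3000) * (min (A₃.card : ℝ) (B.T ^ 3000) * B.T ^ 3000)) := by
    refine card_fib S (fun U => U.1.1) _ _ ?_ ?_
    · intro U hU
      obtain ⟨hF, h1, h2, h3⟩ := hmem U hU
      exact Finset.mem_inter.mpr ⟨h1, hF.2.2.2.1⟩
    · intro z _
      refine le_trans (card_fib _ (fun U => U.1.2.1) (A₂ ∩ B.N x)
        (min (A₃.card : ℝ) (B.T ^ 3000) * B.T ^ 3000) ?_ ?_)
        (mul_le_mul_of_nonneg_right (le_minD hB A₂ x) (by positivity))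
      · intro U hU
        obtain ⟨hF, h1, h2, h3⟩ := hmem U (Finset.mem_filter.mp hU).1
        exact Finset.mem_inter.mpr ⟨h2, hF.2.2.2.2.1⟩
      · intro z' _
        refine le_trans (card_fib _ (fun U => U.1.2.2) (A₃ ∩ B.N u) (B.T ^ 3000) ?_ ?_)
          (mul_le_mul_of_nonneg_right (le_minD hB A₃ u) (by positivity))
        · intro U hU
          have hU1 := Finset.mem_filter.mp hU
          have hU2 := Finset.mem_filter.mp hU1.1
          obtain ⟨hF, h1, h2, h3⟩ := hmem U hU2.1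
          exact Finset.mem_inter.mpr ⟨h3, hF.2.2.2.2.2.2.1⟩
        · intro z'' _
          refine le_trans ?_ (hB.degP z')
          have hinj : (Finset.filter (fun U : (P × P × P) × Q => U.1.2.2 = z'')
              (Finset.filter (fun U => U.1.2.1 = z')
              (Finset.filter (fun U => U.1.1 = z) S))).card ≤ (B.NP z').card := by
            refine Finset.card_le_card_of_injOn (fun U => U.2) ?_ ?_
            · intro U hU
              rw [Finset.mem_coe] at hU
              simp only [Finset.mem_filter] at hU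
              obtain ⟨hF, h1, h2, h3⟩ := hmem U hU.1.1.1
              rw [Finset.mem_coe]
              unfold NP
              refine Finset.mem_filter.mpr ⟨Finset.mem_univ _, ?_⟩
              rw [← hU.1.2]
              exact hF.2.2.2.2.2.2.2
            · intro U hU U' hU' heq
              rw [Finset.mem_coe] at hU hU'
              simp only [Finset.mem_filter] at hU hU'
              have a1 : U.1.1 = U'.1.1 := hU.1.1.2.trans hU'.1.1.2.symm
              have a2 : U.1.2.1 = U'.1.2.1 := hU.1.2.trans hU'.1.2.symm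
              have a4 : U.1.2.2 = U'.1.2.2 := hU.2.trans hU'.2.symm
              exact Prod.ext (Prod.ext a1 (Prod.ext a2 a4)) heq
          exact_mod_cast hinj
  refine s1.trans ((mul_le_mul_of_nonneg_right (le_minD hB A₁ x) (by positivity)).trans
    (le_of_eq ?_))
  ring

/-- The one-sided long patterns at `x`, `u`, second kind. -/
def FC (B : BData P Q) (x u : Q) (U : (P × P × P) × Q) : Prop :=
  U.1.1 ≠ U.1.2.1 ∧ U.1.1 ≠ U.1.2.2 ∧ U.1.2.1 ≠ U.1.2.2 ∧ U.1.1 ∈ B.N x ∧ U.1.2.1 ∈ B.N x ∧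
    U.1.1 ∈ B.N U.2 ∧ U.1.2.2 ∈ B.N U.2 ∧ U.1.2.1 ∈ B.N u

theorem FC_count (hB : B.Ok) (x u : Q) (A₁ A₂ A₃ : Finset P) :
    ((mN (FC B x u) (fun U => U.1.1) (fun U => U.1.2.1) (fun U => U.1.2.2) A₁ A₂ A₃).card : ℝ) ≤
      min (A₁.card : ℝ) (B.T ^ 3000) * min (A₂.card : ℝ) (B.T ^ 3000) *
        min (A₃.card : ℝ) (B.T ^ 3000) * B.T ^ 3000 := by
  have hT : (10 : ℝ) ^ 6 ≤ B.T := hB.big.big
  have hT0 : 0 < B.T := lt_of_lt_of_le (by norm_num) hT
  have n1 := minD_nonneg hB A₁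
  have n2 := minD_nonneg hB A₂
  have n3 := minD_nonneg hB A₃
  set S := mN (FC B x u) (fun U => U.1.1) (fun U => U.1.2.1) (fun U => U.1.2.2) A₁ A₂ A₃ with hS
  have hmem : ∀ U ∈ S, FC B x u U ∧ U.1.1 ∈ A₁ ∧ U.1.2.1 ∈ A₂ ∧ U.1.2.2 ∈ A₃ := by
    intro U hU
    rw [hS] at hU
    unfold mN at hU
    exact (Finset.mem_filter.mp hU).2
  have s1 : (S.card : ℝ) ≤ (A₁ ∩ B.N x).card *
      (min (A₂.card : ℝ) (B.T ^ 3000) * (B.T ^ 3000 * min (A₃.card : ℝ) (B.T ^ 3000))) := by
    refine card_fib S (fun U => U.1.1) _ _ ?_ ?_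
    · intro U hU
      obtain ⟨hF, h1, h2, h3⟩ := hmem U hU
      exact Finset.mem_inter.mpr ⟨h1, hF.2.2.2.1⟩
    · intro z _
      refine le_trans (card_fib _ (fun U => U.1.2.1) (A₂ ∩ B.N x)
        (B.T ^ 3000 * min (A₃.card : ℝ) (B.T ^ 3000)) ?_ ?_)
        (mul_le_mul_of_nonneg_right (le_minD hB A₂ x) (by positivity))
      · intro U hU
        obtain ⟨hF, h1, h2, h3⟩ := hmem U (Finset.mem_filter.mp hU).1
        exact Finset.mem_inter.mpr ⟨h2, hF.2.2.2.2.1⟩
      · intro z' _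
        refine le_trans (card_fib _ (fun U => U.2) (B.NP z)
          (min (A₃.card : ℝ) (B.T ^ 3000)) ?_ ?_)
          (mul_le_mul_of_nonneg_right (hB.degP z) (by positivity))
        · intro U hU
          have hU1 := Finset.mem_filter.mp (Finset.mem_filter.mp hU).1
          obtain ⟨hF, h1, h2, h3⟩ := hmem U hU1.1
          unfold NP
          refine Finset.mem_filter.mpr ⟨Finset.mem_univ _, ?_⟩
          rw [← hU1.2]
          exact hF.2.2.2.2.2.1
        · intro w _
          refine le_trans ?_ (le_minD hB A₃ w)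
          have hinj : (Finset.filter (fun U : (P × P × P) × Q => U.2 = w)
              (Finset.filter (fun U => U.1.2.1 = z')
              (Finset.filter (fun U => U.1.1 = z) S))).card ≤ (A₃ ∩ B.N w).card := by
            refine Finset.card_le_card_of_injOn (fun U => U.1.2.2) ?_ ?_
            · intro U hU
              rw [Finset.mem_coe] at hU
              simp only [Finset.mem_filter] at hU
              obtain ⟨hF, h1, h2, h3⟩ := hmem U hU.1.1.1
              rw [Finset.mem_coe]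
              refine Finset.mem_inter.mpr ⟨h3, ?_⟩
              rw [← hU.2]
              exact hF.2.2.2.2.2.2.1
            · intro U hU U' hU' heq
              rw [Finset.mem_coe] at hU hU'
              simp only [Finset.mem_filter] at hU hU'
              have a1 : U.1.1 = U'.1.1 := hU.1.1.2.trans hU'.1.1.2.symm
              have a2 : U.1.2.1 = U'.1.2.1 := hU.1.2.trans hU'.1.2.symm
              have a4 : U.2 = U'.2 := hU.2.trans hU'.2.symm
              exact Prod.ext (Prod.ext a1 (Prod.ext a2 heq)) a4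
          exact_mod_cast hinj
  refine s1.trans ((mul_le_mul_of_nonneg_right (le_minD hB A₁ x) (by positivity)).trans
    (le_of_eq ?_))
  ring

theorem e3_tail (hB : B.Ok) (x : Q) :
    Pr (unif P B.k) (fun φ =>
      ¬ ((univ.filter fun w : Q × Q => B.E3 φ x w.1 w.2).card : ℝ) ≤ B.T ^ 7010) ≤
      2 * Real.exp (-(2 * B.T)) := by
  have hT : (10 : ℝ) ^ 6 ≤ B.T := hB.big.big
  have hT1 : 1 ≤ B.T := le_trans (by norm_num) hT
  have hT0 : 0 < B.T := lt_of_lt_of_le one_pos hT1
  have hk0 : (0 : ℝ) < B.k := lt_of_lt_of_le (by positivity) hB.k_lo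
  have hPM : IsPM (unif P B.k) := unif_isPM B.k (by exact_mod_cast hk0)
  have h1 := mono3_tail (FA B x) (fun U => U.1.1) (fun U => U.1.2.1) (fun U => U.1.2.2) hB
    (fun U hU => ⟨hU.1, hU.2.1, hU.2.2.1⟩) (B.T ^ 6000) (by positivity) (FA_count hB x)
  refine le_trans (Pr_mono hPM ?_) (h1.trans ?_)
  · intro φ hφ
    rw [not_le] at hφ
    set M := univ.filter fun U : (P × P × P) × (Q × Q) =>
      FA B x U ∧ φ U.1.1 = φ U.1.2.1 ∧ φ U.1.1 = φ U.1.2.2 with hM
    have hsub : (univ.filter fun w : Q × Q => B.E3 φ x w.1 w.2) ⊆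
        M.image (fun U => (U.2.1, U.2.2)) ∪ M.image (fun U => (U.2.2, U.2.1)) := by
      intro w hw
      rw [Finset.mem_filter] at hw
      rw [Finset.mem_union, Finset.mem_image, Finset.mem_image]
      rcases hw.2 with h | h
      · left
        obtain ⟨-, -, -, z, z', z'', d1, d2, d3, e1, e2, m1, m2, m3, m4, m5⟩ := h
        refine ⟨((z, z', z''), (w.1, w.2)), ?_, rfl⟩
        rw [hM, Finset.mem_filter]
        exact ⟨Finset.mem_univ _, ⟨d1, d2, d3, m1, m2, m3, m4, m5⟩, e1, e2⟩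
      · right
        obtain ⟨-, -, -, z, z', z'', d1, d2, d3, e1, e2, m1, m2, m3, m4, m5⟩ := h
        refine ⟨((z, z', z''), (w.2, w.1)), ?_, rfl⟩
        rw [hM, Finset.mem_filter]
        exact ⟨Finset.mem_univ _, ⟨d1, d2, d3, m1, m2, m3, m4, m5⟩, e1, e2⟩
    have hcard : ((univ.filter fun w : Q × Q => B.E3 φ x w.1 w.2).card : ℝ) ≤
        M.card + M.card := by
      exact_mod_cast (Finset.card_le_card hsub).trans ((Finset.card_union_le _ _).trans
        (Nat.add_le_add Finset.card_image_le Finset.card_image_le))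
    have e1 : B.T ^ 4 * (B.T ^ 1002 * B.T ^ 6000) = B.T ^ 7006 := by
      rw [← pow_add, ← pow_add]
    rw [e1]
    have e2 : 2 * B.T ^ 7006 ≤ B.T ^ 7010 := by
      have : B.T ^ 7010 = B.T ^ 7006 * B.T ^ 4 := by rw [← pow_add]
      rw [this, mul_comm]
      refine mul_le_mul_of_nonneg_left ?_ (by positivity)
      have : B.T ^ 1 ≤ B.T ^ 4 := pow_le_pow_right₀ hT1 (by norm_num)
      rw [pow_one] at this
      linarith
    linarith
  · have := Real.exp_pos (-(2 * B.T))
    linarith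

theorem e3'_tail (hB : B.Ok) (x u : Q) :
    Pr (unif P B.k) (fun φ =>
      ¬ ((univ.filter fun u' => B.E3 φ x u u').card : ℝ) ≤ B.T ^ 4010) ≤
      2 * Real.exp (-(2 * B.T)) := by
  have hT : (10 : ℝ) ^ 6 ≤ B.T := hB.big.big
  have hT1 : 1 ≤ B.T := le_trans (by norm_num) hT
  have hT0 : 0 < B.T := lt_of_lt_of_le one_pos hT1
  have hk0 : (0 : ℝ) < B.k := lt_of_lt_of_le (by positivity) hB.k_lo
  have hPM : IsPM (unif P B.k) := unif_isPM B.k (by exact_mod_cast hk0)
  have h1 := mono3_tail (FB B x u) (fun U => U.1.1) (fun U => U.1.2.1) (fun U => U.1.2.2) hB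
    (fun U hU => ⟨hU.1, hU.2.1, hU.2.2.1⟩) (B.T ^ 3000) (by positivity) (FB_count hB x u)
  have h2 := mono3_tail (FC B x u) (fun U => U.1.1) (fun U => U.1.2.1) (fun U => U.1.2.2) hB
    (fun U hU => ⟨hU.1, hU.2.1, hU.2.2.1⟩) (B.T ^ 3000) (by positivity) (FC_count hB x u)
  refine le_trans (Pr_mono hPM ?_) ((Pr_or_le hPM _ _).trans
    ((add_le_add h1 h2).trans (le_of_eq (by ring))))
  intro φ hφ
  rw [not_le] at hφ
  set M1 := univ.filter fun U : (P × P × P) × Q =>
    FB B x u U ∧ φ U.1.1 = φ U.1.2.1 ∧ φ U.1.1 = φ U.1.2.2 with hM1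
  set M2 := univ.filter fun U : (P × P × P) × Q =>
    FC B x u U ∧ φ U.1.1 = φ U.1.2.1 ∧ φ U.1.1 = φ U.1.2.2 with hM2
  have hsub : (univ.filter fun u' => B.E3 φ x u u') ⊆
      M1.image (fun U => U.2) ∪ M2.image (fun U => U.2) := by
    intro w hw
    rw [Finset.mem_filter] at hw
    rw [Finset.mem_union, Finset.mem_image, Finset.mem_image]
    rcases hw.2 with h | h
    · left
      obtain ⟨-, -, -, z, z', z'', d1, d2, d3, e1, e2, m1, m2, m3, m4, m5⟩ := h
      refine ⟨((z, z', z''), w), ?_, rfl⟩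
      rw [hM1, Finset.mem_filter]
      exact ⟨Finset.mem_univ _, ⟨d1, d2, d3, m1, m2, m3, m4, m5⟩, e1, e2⟩
    · right
      obtain ⟨-, -, -, z, z', z'', d1, d2, d3, e1, e2, m1, m2, m3, m4, m5⟩ := h
      refine ⟨((z, z', z''), w), ?_, rfl⟩
      rw [hM2, Finset.mem_filter]
      exact ⟨Finset.mem_univ _, ⟨d1, d2, d3, m1, m2, m3, m4, m5⟩, e1, e2⟩
  have hcard : ((univ.filter fun u' => B.E3 φ x u u').card : ℝ) ≤ M1.card + M2.card := by
    exact_mod_cast (Finset.card_le_card hsub).trans ((Finset.card_union_le _ _).trans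
      (Nat.add_le_add Finset.card_image_le Finset.card_image_le))
  have e1 : B.T ^ 4 * (B.T ^ 1002 * B.T ^ 3000) = B.T ^ 4006 := by
    rw [← pow_add, ← pow_add]
  rw [e1]
  have e2 : 2 * B.T ^ 4006 ≤ B.T ^ 4010 := by
    have : B.T ^ 4010 = B.T ^ 4006 * B.T ^ 4 := by rw [← pow_add]
    rw [this, mul_comm]
    refine mul_le_mul_of_nonneg_left ?_ (by positivity)
    have : B.T ^ 1 ≤ B.T ^ 4 := pow_le_pow_right₀ hT1 (by norm_num)
    rw [pow_one] at this
    linarith
  by_contra hcon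
  rw [not_or, not_le, not_le] at hcon
  linarith [hcon.1, hcon.2]

end BData

end Pool.Agent.Acy
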