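import Pool.Agent.Acy.BasicB
import Pool.Agent.Acy.BasicC

/-! # Probability estimates: centred sums (module N3a) -/

set_option autoImplicit false
set_option linter.unusedSectionVars false

namespace Pool.Agent.Acy

open Finset
open scoped Classical

universe u

namespace NibData

variable {Q : Type u} [Fintype Q] [DecidableEq Q] {D : NibData Q}
  (hD : D.Ok) {S : NState Q D.k} {j : ℕ} {col : Q → Fin D.k} (hI : D.Inv S j col)
  (hj : j < D.q)

theorem evA_exp {T : ℝ} (hT : (1000000 : ℝ) ≤ T) {z : ℝ} (hz : z ≤ -(2 * T)) :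
    2 * Real.exp z ≤ Real.exp (-T) := by
  have h1 : (2 : ℝ) ≤ Real.exp T := by
    have := Real.add_one_le_exp T
    linarith
  have h2 : Real.exp z ≤ Real.exp (-T) * Real.exp (-T) := by
    rw [← Real.exp_add]
    exact Real.exp_le_exp.mpr (by linarith)
  have h3 : Real.exp T * Real.exp (-T) = 1 := by rw [← Real.exp_add]; simp
  have h4 : 0 < Real.exp (-T) := Real.exp_pos _
  calc 2 * Real.exp z ≤ Real.exp T * (Real.exp (-T) * Real.exp (-T)) := by
        apply mul_le_mul h1 h2 (Real.exp_pos _).le (Real.exp_pos _).le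
    _ = Real.exp (-T) := by rw [← mul_assoc, h3, one_mul]

include hD hI hj

/-- Test functions supported on the related vertices of the round. -/
theorem evA_core (x : Q) (Y : Q → Fin D.k → ℝ) (hY : ∀ u c, |Y u c| ≤ D.T ^ 3)
    (h0 : ∀ u c, u ∉ D.R x ∩ D.V j → Y u c = 0) :
    Pr (D.p S) (fun ω => ¬ |D.cen S Y ω| ≤ D.T ^ 2000) ≤ Real.exp (-D.T) := by
  have hT : (1000000 : ℝ) ≤ D.T := by
    have := hD.big.big
    norm_num at this
    exact this
  have hT0 : 0 < D.T := by linarith
  have hp := p_isPM hD hI hj.le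
  have hV : ∑ u, ∑ c, D.p S u c * Y u c ^ 2 ≤ D.T ^ 3891 := by
    have h1 : ∀ u, ∑ c, D.p S u c * Y u c ^ 2 ≤ if u ∈ D.R x ∩ D.V j then D.T ^ 6 else 0 := by
      intro u
      split_ifs with hu
      · calc ∑ c, D.p S u c * Y u c ^ 2 ≤ ∑ c, D.p S u c * D.T ^ 6 := by
              refine Finset.sum_le_sum fun c _ => mul_le_mul_of_nonneg_left ?_ (hp.nonneg u c)
              have := hY u c
              calc Y u c ^ 2 = |Y u c| ^ 2 := (sq_abs _).symm
                _ ≤ (D.T ^ 3) ^ 2 := pow_le_pow_left₀ (abs_nonneg _) this 2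
                _ = _ := by rw [← pow_mul]
          _ = D.T ^ 6 := by rw [← Finset.sum_mul, hp.sum_one, one_mul]
      · refine le_of_eq (Finset.sum_eq_zero fun c _ => ?_)
        rw [h0 u c hu]; ring
    calc _ ≤ ∑ u, (if u ∈ D.R x ∩ D.V j then D.T ^ 6 else 0) :=
          Finset.sum_le_sum fun u _ => h1 u
      _ = (D.R x ∩ D.V j).card * D.T ^ 6 := by
          rw [← Finset.sum_filter, Finset.sum_const, nsmul_eq_mul]
          congr 3
          ext u
          simp
      _ ≤ D.T ^ 3885 * D.T ^ 6 := by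
          have := hD.RV_card x j
          gcongr
      _ = _ := by rw [← pow_add]
  have ht := indep_tail hp Y (D.T ^ 3) hY (D.T ^ 3891) hV (1 / (2 * D.T ^ 1891)) (by positivity)
    (by
      have e : 2 * (1 / (2 * D.T ^ 1891) * D.T ^ 3) = D.T ^ 3 / D.T ^ 1891 := by
        field_simp
      rw [e, div_le_one (by positivity)]
      exact pow_le_pow_right₀ (by linarith) (by norm_num)) (D.T ^ 2000)
  refine (Pr_mono hp fun ω hω => (not_le.1 hω).le).trans (ht.trans (evA_exp hT ?_))
  have e1 : (1 / (2 * D.T ^ 1891)) ^ 2 * D.T ^ 3891 = D.T ^ 109 / 4 := by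
    have : D.T ^ 3891 = D.T ^ 109 * (D.T ^ 1891) ^ 2 := by rw [← pow_mul, ← pow_add]
    rw [this]
    field_simp
    norm_num
  have e2 : 1 / (2 * D.T ^ 1891) * D.T ^ 2000 = D.T ^ 109 / 2 := by
    have : D.T ^ 2000 = D.T ^ 109 * D.T ^ 1891 := by rw [← pow_add]
    rw [this]
    field_simp
  rw [e1, e2]
  have e3 : 8 * D.T ≤ D.T ^ 109 := by
    have : D.T ^ 2 ≤ D.T ^ 109 := pow_le_pow_right₀ (by linarith) (by norm_num)
    nlinarith
  linarith

theorem e1_tail (x : Q) :
    Pr (D.p S) (fun ω => ¬ |D.cen S (D.Y1 S j x) ω| ≤ D.T ^ 2000) ≤ Real.exp (-D.T) := by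
  have hT : (1000000 : ℝ) ≤ D.T := by
    have := hD.big.big
    norm_num at this
    exact this
  refine evA_core hD hI hj x _ (fun u c => ?_) (fun u c hu => ?_)
  · unfold Y1
    split_ifs
    · rw [abs_mul]
      have h1 := v_abs hD hI hj.le x c
      have h2 := K_abs hD u x
      calc |S.v x c| * |D.K u x| ≤ D.T * D.T := by gcongr
        _ = D.T ^ 2 := by ring
        _ ≤ D.T ^ 3 := pow_le_pow_right₀ (by linarith) (by norm_num)
    · rw [abs_zero]; positivity
  · unfold Y1
    split_ifs with h
    · have : u ∉ D.R x := by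
        intro hR
        apply hu
        rw [mem_inter]
        refine ⟨hR, ?_⟩
        unfold V
        exact mem_filter.2 ⟨mem_univ _, h.1⟩
      rw [K_off' hD x u this, mul_zero]
    · rfl

theorem e2_tail (x : Q) :
    Pr (D.p S) (fun ω => ¬ |D.cen S (D.Y2 S j x) ω| ≤ D.T ^ 2000) ≤ Real.exp (-D.T) := by
  have hT : (1000000 : ℝ) ≤ D.T := by
    have := hD.big.big
    norm_num at this
    exact this
  refine evA_core hD hI hj x _ (fun u c => ?_) (fun u c hu => ?_)
  · unfold Y2
    split_ifs
    · rw [abs_mul, abs_mul]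
      have h1 := v_abs hD hI hj.le x c
      have h2 := K_abs hD u x
      have h3 : |S.be x c - 2 * S.ac false x c - 2 * D.dac S j false x c| ≤ D.T := by
        have hb0 := hI.be_nonneg x c
        have hb1 := hI.be_le x c
        have ha0 := hI.ac_nonneg false x c
        have ha1 := hI.ac_false x c
        have hd0 := dac_nonneg hD hI hj.le false x c
        have hd1 : D.dac S j false x c ≤ 1 := (dac_le hD hI hj.le false x c).trans (by
          rw [div_le_one (by positivity)]
          exact one_le_pow₀ (by linarith))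
        rw [abs_le]
        constructor <;> linarith
      calc |S.v x c| * |D.K u x| * |S.be x c - 2 * S.ac false x c - 2 * D.dac S j false x c| ≤
            D.T * D.T * D.T := by gcongr
        _ = D.T ^ 3 := by ring
    · rw [abs_zero]; positivity
  · unfold Y2
    split_ifs with h
    · have : u ∉ D.R x := by
        intro hR
        apply hu
        rw [mem_inter]
        refine ⟨hR, ?_⟩
        unfold V
        exact mem_filter.2 ⟨mem_univ _, h.1⟩
      rw [K_off' hD x u this, mul_zero, zero_mul]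
    · rfl

theorem e3_tail (x : Q) :
    Pr (D.p S) (fun ω => ¬ |D.cen S (D.Y3 S j x) ω| ≤ D.T ^ 2000) ≤ Real.exp (-D.T) := by
  have hT : (1000000 : ℝ) ≤ D.T := by
    have := hD.big.big
    norm_num at this
    exact this
  refine evA_core hD hI hj x _ (fun u c => ?_) (fun u c hu => ?_)
  · unfold Y3
    split_ifs
    · rw [abs_mul]
      have h1 := v_abs hD hI hj.le x c
      have h2 : |(2 + D.K u x) * D.h u x| ≤ D.T := by
        have a1 := a_nonneg hD false x u
        have a2 := a_le hD false x u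
        simp only [a, Bool.false_eq_true, if_false] at a1 a2
        rw [abs_of_nonneg a1]
        exact a2
      calc |S.v x c| * |(2 + D.K u x) * D.h u x| ≤ D.T * D.T := by gcongr
        _ = D.T ^ 2 := by ring
        _ ≤ D.T ^ 3 := pow_le_pow_right₀ (by linarith) (by norm_num)
    · rw [abs_zero]; positivity
  · unfold Y3
    split_ifs with h
    · have : u ∉ D.R x := by
        intro hR
        apply hu
        rw [mem_inter]
        refine ⟨hR, ?_⟩
        unfold V
        exact mem_filter.2 ⟨mem_univ _, h.1⟩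
      rw [h_off' hD x u this, mul_zero, mul_zero]
    · rfl

theorem e4_tail (b : Bool) (x : Q) (c : Fin D.k) :
    Pr (D.p S) (fun ω => ¬ |D.cen S (D.Y4 S j b x c) ω| ≤ 1 / D.T ^ 187) ≤ Real.exp (-D.T) := by
  have hT : (1000000 : ℝ) ≤ D.T := by
    have := hD.big.big
    norm_num at this
    exact this
  have hT0 : 0 < D.T := by linarith
  have hp := p_isPM hD hI hj.le
  have hY : ∀ u c', |D.Y4 S j b x c u c'| ≤ 1 / D.T ^ 190 := by
    intro u c'
    unfold Y4
    split_ifs with h
    · exact h.2.2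
    · rw [abs_zero]; positivity
  have hV : ∑ u, ∑ c', D.p S u c' * D.Y4 S j b x c u c' ^ 2 ≤ 1 / D.T ^ 556 := by
    refine le_trans ?_ (qv_le hD hI hj.le b x c)
    unfold V
    rw [Finset.sum_filter]
    refine Finset.sum_le_sum fun u _ => ?_
    rw [Finset.sum_eq_single c]
    · unfold Y4
      split_ifs with h1 h2 h2
      · exact le_rfl
      · exact absurd h1.1 h2
      · have := mul_nonneg (hp.nonneg u c) (sq_nonneg (D.G S j b u x c))
        simpa using this
      · simp
    · intro c' _ hc'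
      unfold Y4
      rw [if_neg (fun h => hc' h.2.1)]
      ring
    · intro h
      exact absurd (mem_univ c) h
  have ht := indep_tail hp (D.Y4 S j b x c) (1 / D.T ^ 190) hY (1 / D.T ^ 556) hV (D.T ^ 190 / 2)
    (by positivity)
    (by
      have e : 2 * (D.T ^ 190 / 2 * (1 / D.T ^ 190)) = 1 := by
        field_simp
      rw [e]) (1 / D.T ^ 187)
  refine (Pr_mono hp fun ω hω => (not_le.1 hω).le).trans (ht.trans (evA_exp hT ?_))
  have e1 : (D.T ^ 190 / 2) ^ 2 * (1 / D.T ^ 556) ≤ 1 := by
    have e0 : (D.T ^ 190) ^ 2 ≤ D.T ^ 556 := by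
      rw [← pow_mul]
      exact pow_le_pow_right₀ (by linarith) (by norm_num)
    rw [mul_one_div, div_le_one (by positivity), div_pow]
    have : 0 ≤ (D.T ^ 190) ^ 2 := by positivity
    linarith
  have e2 : D.T ^ 190 / 2 * (1 / D.T ^ 187) = D.T ^ 3 / 2 := by
    have : D.T ^ 190 = D.T ^ 3 * D.T ^ 187 := by rw [← pow_add]
    rw [this]
    field_simp
  rw [e2]
  have e3 : 8 * D.T ≤ D.T ^ 3 := by
    have : D.T ^ 3 = D.T * D.T ^ 2 := by ring
    have : (8 : ℝ) ≤ D.T ^ 2 := by nlinarith
    nlinarith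
  linarith

end NibData

end Pool.Agent.Acy
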