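import Pool.Agent.Acy.BasicB
import Pool.Agent.Acy.BasicC
import Pool.Agent.Acy.CountT

/-! # Probability estimates: counts (module N3b) -/

set_option autoImplicit false
set_option linter.unusedSectionVars false

namespace Pool.Agent.Acy

open Finset
open scoped Classical

universe u

namespace NibData

variable {Q : Type u} [Fintype Q] [DecidableEq Q] {D : NibData Q}
  (hD : D.Ok) {S : NState Q D.k} {j : ℕ} {col : Q → Fin D.k} (hI : D.Inv S j col)
  (hj : j < D.q)

theorem evB_exp {T : ℝ} (hT : (1000000 : ℝ) ≤ T) : Real.exp (-(2 * T)) ≤ Real.exp (-T) :=
  Real.exp_le_exp.mpr (by linarith)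

include hD hI hj

theorem e5_tail (b : Bool) (x : Q) :
    Pr (D.p S) (fun ω =>
      ¬ (((D.V j).filter fun u => D.d3 < |D.G S j b u x (ω u)|).card : ℝ) ≤ D.T ^ 3830) ≤
      Real.exp (-D.T) := by
  have hT : (1000000 : ℝ) ≤ D.T := by
    have := hD.big.big
    norm_num at this
    exact this
  have hT0 : 0 < D.T := by linarith
  have hp := p_isPM hD hI hj.le
  let w : Q × Fin D.k → ℝ := fun U => if D.rd U.1 = j ∧ D.d3 < |D.G S j b U.1 x U.2| then 1 else 0
  let cd : Q × Fin D.k → Finset (Q × Fin D.k) := fun U => {U}
  have hw : ∀ U, 0 ≤ w U := fun U => by
    simp only [w]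
    split_ifs <;> norm_num
  have hw1 : ∀ U, w U ≤ 1 := fun U => by
    simp only [w]
    split_ifs <;> norm_num
  have hcnt : ∀ ω : Q → Fin D.k,
      (((D.V j).filter fun u => D.d3 < |D.G S j b u x (ω u)|).card : ℝ) = cnt w cd ω := by
    intro ω
    unfold cnt
    rw [Fintype.sum_prod_type]
    rw [Finset.card_filter]
    push_cast
    unfold V
    rw [Finset.sum_filter]
    refine Finset.sum_congr rfl fun u _ => ?_
    rw [Finset.sum_eq_single (ω u)]
    · have hh : Holds (cd (u, ω u)) ω := by
        intro q hq
        rw [mem_singleton] at hq
        rw [hq]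
      rw [if_pos hh]
      simp only [w]
      by_cases h1 : D.rd u = j <;> by_cases h2 : D.d3 < |D.G S j b u x (ω u)| <;> simp [h1, h2]
    · intro c _ hc
      rw [if_neg]
      intro hh
      exact hc (hh (u, c) (mem_singleton_self _)).symm
    · intro h
      exact absurd (mem_univ _) h
  have hM : (1 : ℝ) ≤ D.T ^ 3824 := one_le_pow₀ (by linarith)
  have hext0 : ∑ U : Q × Fin D.k, w U * D.p S U.1 U.2 ≤ D.T ^ 3824 := by
    rw [Fintype.sum_prod_type_right]
    have h1 : ∀ c : Fin D.k, ∑ u, w (u, c) * D.p S u c ≤ D.T ^ 380 * (1 / D.T ^ 556) := by
      intro c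
      have h2 := qv_le hD hI hj.le b x c
      calc ∑ u, w (u, c) * D.p S u c ≤
            ∑ u, D.T ^ 380 * (if D.rd u = j then D.p S u c * D.G S j b u x c ^ 2 else 0) := by
            refine Finset.sum_le_sum fun u _ => ?_
            simp only [w]
            by_cases h3 : D.rd u = j
            · by_cases h4 : D.d3 < |D.G S j b u x c|
              · simp only [h3, h4, and_self, if_true, one_mul]
                have h5 : (1 : ℝ) ≤ D.T ^ 380 * D.G S j b u x c ^ 2 := by
                  have h6 : D.d3 ^ 2 ≤ D.G S j b u x c ^ 2 := by
                    rw [← sq_abs (D.G S j b u x c)]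
                    exact pow_le_pow_left₀ (by unfold d3; positivity) h4.le 2
                  have h7 : D.T ^ 380 * D.d3 ^ 2 = 1 := by
                    unfold d3
                    rw [div_pow, one_pow, ← pow_mul]
                    exact mul_one_div_cancel (pow_pos hT0 _).ne'
                  calc (1 : ℝ) = D.T ^ 380 * D.d3 ^ 2 := h7.symm
                    _ ≤ _ := mul_le_mul_of_nonneg_left h6 (by positivity)
                have h8 := mul_le_mul_of_nonneg_left h5 (hp.nonneg u c)
                linarith
              · simp only [h3, h4, and_false, if_false, zero_mul, if_true]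
                exact mul_nonneg (pow_pos hT0 _).le
                  (mul_nonneg (hp.nonneg u c) (sq_nonneg (D.G S j b u x c)))
            · simp only [h3, false_and, if_false, zero_mul, mul_zero]
              exact le_rfl
        _ = D.T ^ 380 * ∑ u ∈ D.V j, D.p S u c * D.G S j b u x c ^ 2 := by
            rw [← Finset.mul_sum]
            unfold V
            rw [Finset.sum_filter]
        _ ≤ _ := mul_le_mul_of_nonneg_left h2 (by positivity)
    calc _ ≤ ∑ _c : Fin D.k, D.T ^ 380 * (1 / D.T ^ 556) := Finset.sum_le_sum fun c _ => h1 c
      _ = D.k * (D.T ^ 380 * (1 / D.T ^ 556)) := by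
          rw [Finset.sum_const, card_univ, Fintype.card_fin, nsmul_eq_mul]
      _ ≤ D.T ^ 4000 * (D.T ^ 380 * (1 / D.T ^ 556)) := by
          have := hD.k_hi
          gcongr
      _ = D.T ^ 3824 := by
          have e : D.T ^ 4000 * D.T ^ 380 = D.T ^ 3824 * D.T ^ 556 := by
            rw [← pow_add, ← pow_add]
          rw [← mul_assoc, e, mul_assoc, mul_one_div_cancel (pow_pos hT0 _).ne', mul_one]
  have ht := count_T hD.big hp (D.p S) (fun i a => le_rfl) w hw cd
    (fun U => by simp only [cd, card_singleton]; norm_num) (D.T ^ 3824) (by positivity) (by
      intro W _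
      unfold ext
      by_cases hW : W = ∅
      · subst hW
        calc _ = ∑ U : Q × Fin D.k, w U * D.p S U.1 U.2 := by
              refine Finset.sum_congr rfl fun U _ => ?_
              rw [if_pos (empty_subset _), sdiff_empty]
              simp only [cd, prod_singleton]
          _ ≤ _ := hext0
      · obtain ⟨q, hq⟩ := nonempty_iff_ne_empty.2 hW
        calc _ ≤ ∑ U : Q × Fin D.k, (if U = q then (1 : ℝ) else 0) := by
              refine Finset.sum_le_sum fun U _ => ?_
              by_cases hU : U = q
              · subst hU
                rw [if_pos rfl]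
                split_ifs with h
                · have : cd U \ W = ∅ := by
                    rw [sdiff_eq_empty_iff_subset]
                    intro z hz
                    simp only [cd, mem_singleton] at hz
                    rw [hz]; exact hq
                  rw [this, prod_empty, mul_one]
                  exact hw1 U
                · norm_num
              · rw [if_neg hU, if_neg]
                intro h
                have := h hq
                simp only [cd, mem_singleton] at this
                exact hU this.symm
          _ = 1 := by simp
          _ ≤ _ := hM)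
  refine (Pr_mono hp fun ω hω => ?_).trans (ht.trans (evB_exp hT))
  rw [← hcnt]
  have h1 := (not_le.1 hω).le
  refine le_trans ?_ h1
  rw [← pow_add]
  exact pow_le_pow_right₀ (by linarith) (by norm_num)

theorem e6_tail (x : Q) :
    Pr (D.p S) (fun ω =>
      ¬ ∑ c, (D.J j ω x c : ℝ) * ((D.J j ω x c : ℝ) - 1) ≤ D.T ^ 3778) ≤ Real.exp (-D.T) := by
  have hT : (1000000 : ℝ) ≤ D.T := by
    have := hD.big.big
    norm_num at this
    exact this
  have hT0 : 0 < D.T := by linarith
  have hk0 : (0 : ℝ) < D.k := by exact_mod_cast k_pos hD
  have hp := p_isPM hD hI hj.le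
  set RV : Finset Q := D.R x ∩ D.V j with hRV
  have hRVc : (RV.card : ℝ) ≤ D.T ^ 3885 := hD.RV_card x j
  let w : Q × Q × Fin D.k → ℝ := fun U =>
    if U.1 ∈ RV ∧ U.2.1 ∈ RV ∧ U.1 ≠ U.2.1 then 1 else 0
  let cd : Q × Q × Fin D.k → Finset (Q × Fin D.k) := fun U => {(U.1, U.2.2), (U.2.1, U.2.2)}
  have hw : ∀ U, 0 ≤ w U := fun U => by
    simp only [w]
    split_ifs <;> norm_num
  have hcnt : ∀ ω : Q → Fin D.k,
      ∑ c, (D.J j ω x c : ℝ) * ((D.J j ω x c : ℝ) - 1) = cnt w cd ω := by
    intro ω
    unfold cnt
    have h1 : ∀ c, (D.J j ω x c : ℝ) * ((D.J j ω x c : ℝ) - 1) =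
        ∑ u, ∑ u', if Holds (cd (u, u', c)) ω then w (u, u', c) else 0 := by
      intro c
      have h2 : ((D.J j ω x c : ℝ) * ((D.J j ω x c : ℝ) - 1)) =
          ((RV.filter fun u => ω u = c).offDiag.card : ℝ) := by
        rw [offDiag_card]
        have : (RV.filter fun u => ω u = c).card ≤
            (RV.filter fun u => ω u = c).card * (RV.filter fun u => ω u = c).card :=
          Nat.le_mul_self _
        rw [Nat.cast_sub this]
        unfold J
        push_cast
        ring
      rw [h2, ← Fintype.sum_prod_type' (f := fun u u' =>
        if Holds (cd (u, u', c)) ω then w (u, u', c) else 0)]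
      have h3 : ((RV.filter fun u => ω u = c).offDiag.card : ℝ) =
          ∑ q : Q × Q, if q ∈ (RV.filter fun u => ω u = c).offDiag then (1 : ℝ) else 0 := by
        rw [← Finset.sum_filter, Finset.sum_const, nsmul_eq_mul, mul_one]
        congr 2
        ext q
        simp
      rw [h3]
      refine Finset.sum_congr rfl fun q _ => ?_
      have h4 : Holds (cd (q.1, q.2, c)) ω ↔ ω q.1 = c ∧ ω q.2 = c := by
        constructor
        · intro hh
          exact ⟨hh (q.1, c) (by simp [cd]), hh (q.2, c) (by simp [cd])⟩
        · rintro ⟨ha, hb⟩ z hz
          simp only [cd, mem_insert, mem_singleton] at hz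
          rcases hz with rfl | rfl
          · exact ha
          · exact hb
      by_cases h5 : q ∈ (RV.filter fun u => ω u = c).offDiag
      · rw [if_pos h5]
        rw [mem_offDiag, mem_filter, mem_filter] at h5
        rw [if_pos (h4.2 ⟨h5.1.2, h5.2.1.2⟩)]
        simp only [w]
        rw [if_pos ⟨h5.1.1, h5.2.1.1, h5.2.2⟩]
      · rw [if_neg h5]
        split_ifs with h6
        · simp only [w]
          rw [if_neg]
          rintro ⟨h7, h8, h9⟩
          obtain ⟨h10, h11⟩ := h4.1 h6
          apply h5
          rw [mem_offDiag, mem_filter, mem_filter]
          exact ⟨⟨h7, h10⟩, ⟨h8, h11⟩, h9⟩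
        · rfl
    simp only [h1]
    rw [Fintype.sum_prod_type]
    rw [Finset.sum_comm]
    refine Finset.sum_congr rfl fun u _ => ?_
    rw [Fintype.sum_prod_type, Finset.sum_comm]
  have hπ0 : (0 : ℝ) ≤ 2 * D.T / D.k := by positivity
  have hπle : 2 * D.T / D.k ≤ 1 / D.T ^ 3900 := by
    rw [div_le_div_iff₀ hk0 (by positivity), one_mul]
    refine le_trans ?_ hD.k_lo
    calc 2 * D.T * D.T ^ 3900 ≤ D.T ^ 2 * D.T ^ 3900 := by
          have : 2 * D.T ≤ D.T ^ 2 := by nlinarith
          gcongr
      _ = D.T ^ 3902 := by rw [← pow_add]
      _ ≤ _ := pow_le_pow_right₀ (by linarith) (by norm_num)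
  have hone : (2 : ℝ) ≤ 4 * D.T ^ 3773 := by
    have : (1 : ℝ) ≤ D.T ^ 3773 := one_le_pow₀ (by linarith)
    linarith
  have hw1 : ∀ U, w U ≤ 1 := fun U => by
    simp only [w]
    split_ifs <;> norm_num
  have ht := count_T hD.big hp (fun _ _ => 2 * D.T / D.k) (fun i a => p_le hD hI hj.le i a) w hw cd
    (fun U => by
      refine (card_insert_le _ _).trans ?_
      rw [card_singleton]
      norm_num) (4 * D.T ^ 3773) (by positivity) (by
      intro W _
      unfold ext
      simp only [prod_const]
      rcases lt_trichotomy W.card 1 with hc | hc | hc
      · -- no condition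
        have hW : W = ∅ := card_eq_zero.1 (by omega)
        subst hW
        calc _ ≤ ∑ U : Q × Q × Fin D.k, (if U.1 ∈ RV ∧ U.2.1 ∈ RV then
              (2 * D.T / D.k) ^ 2 else 0) := by
              refine Finset.sum_le_sum fun U _ => ?_
              rw [if_pos (empty_subset _), sdiff_empty]
              simp only [w]
              by_cases h1 : U.1 ∈ RV ∧ U.2.1 ∈ RV ∧ U.1 ≠ U.2.1
              · rw [if_pos h1, if_pos ⟨h1.1, h1.2.1⟩, one_mul]
                have : (cd U).card = 2 := by
                  simp only [cd]
                  rw [card_pair]
                  intro h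
                  exact h1.2.2 (Prod.ext_iff.1 h).1
                rw [this]
              · rw [if_neg h1, zero_mul]
                split_ifs <;> positivity
          _ = RV.card * (RV.card * (D.k * (2 * D.T / D.k) ^ 2)) := by
              simp only [Fintype.sum_prod_type, ite_and]
              have e1 : ∀ (g : ℝ), ∑ u : Q, (if u ∈ RV then g else 0) = RV.card * g := by
                intro g
                rw [← Finset.sum_filter, Finset.sum_const, nsmul_eq_mul]
                congr 3
                ext u
                simp
              have e2 : ∀ u : Q, ∑ u' : Q, ∑ _c : Fin D.k, (if u ∈ RV then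
                  (if u' ∈ RV then (2 * D.T / (D.k : ℝ)) ^ 2 else 0) else 0) =
                  if u ∈ RV then RV.card * (D.k * (2 * D.T / (D.k : ℝ)) ^ 2) else 0 := by
                intro u
                by_cases h1 : u ∈ RV
                · simp only [h1, if_true]
                  rw [← e1]
                  refine Finset.sum_congr rfl fun u' _ => ?_
                  rw [Finset.sum_const, card_univ, Fintype.card_fin, nsmul_eq_mul]
                  split_ifs <;> simp
                · simp only [h1, if_false, Finset.sum_const_zero]
              rw [Finset.sum_congr rfl fun u _ => e2 u, e1]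
          _ ≤ D.T ^ 3885 * (D.T ^ 3885 * (D.k * (2 * D.T / D.k) ^ 2)) := by
              gcongr
          _ ≤ 4 * D.T ^ 3773 := by
              have e3 : (D.k : ℝ) * (2 * D.T / D.k) ^ 2 = 4 * D.T ^ 2 / D.k := by
                field_simp
                ring
              rw [e3, ← mul_assoc, ← pow_add, mul_div_assoc', div_le_iff₀ hk0]
              have e4 := hD.k_lo
              calc D.T ^ (3885 + 3885) * (4 * D.T ^ 2) = 4 * D.T ^ 3773 * D.T ^ 3999 := by
                    rw [mul_assoc, ← pow_add]
                    have : D.T ^ (3885 + 3885) * (4 * D.T ^ 2) = 4 * (D.T ^ (3885 + 3885) * D.T ^ 2) := by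
                      ring
                    rw [this, ← pow_add]
                _ ≤ _ := by gcongr
      · -- one condition
        obtain ⟨q, hq⟩ := card_eq_one.1 hc
        subst hq
        calc _ ≤ ∑ U : Q × Q × Fin D.k,
              ((if U.1 = q.1 ∧ U.2.2 = q.2 ∧ U.2.1 ∈ RV then 2 * D.T / D.k else 0) +
               (if U.2.1 = q.1 ∧ U.2.2 = q.2 ∧ U.1 ∈ RV then 2 * D.T / D.k else 0)) := by
              refine Finset.sum_le_sum fun U _ => ?_
              have hn1 : (0 : ℝ) ≤ if U.1 = q.1 ∧ U.2.2 = q.2 ∧ U.2.1 ∈ RV then
                  2 * D.T / D.k else 0 := by split_ifs <;> positivity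
              have hn2 : (0 : ℝ) ≤ if U.2.1 = q.1 ∧ U.2.2 = q.2 ∧ U.1 ∈ RV then
                  2 * D.T / D.k else 0 := by split_ifs <;> positivity
              by_cases h : {q} ⊆ cd U
              · rw [if_pos h]
                simp only [w]
                by_cases h1 : U.1 ∈ RV ∧ U.2.1 ∈ RV ∧ U.1 ≠ U.2.1
                · rw [if_pos h1, one_mul]
                  have h2 : (cd U \ {q}).card = 1 := by
                    rw [card_sdiff_of_subset h, card_singleton]
                    simp only [cd]
                    rw [card_pair]
                    intro h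
                    exact h1.2.2 (Prod.ext_iff.1 h).1
                  rw [h2, pow_one]
                  have h3 : q ∈ cd U := h (mem_singleton_self q)
                  simp only [cd, mem_insert, mem_singleton] at h3
                  rcases h3 with h3 | h3
                  · rw [if_pos (by rw [h3]; exact ⟨rfl, rfl, h1.2.1⟩)]
                    linarith
                  · rw [if_pos (c := U.2.1 = q.1 ∧ U.2.2 = q.2 ∧ U.1 ∈ RV)
                      (by rw [h3]; exact ⟨rfl, rfl, h1.1⟩)]
                    linarith
                · rw [if_neg h1, zero_mul]
                  linarith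
              · rw [if_neg h]
                linarith
          _ = 2 * (RV.card * (2 * D.T / D.k)) := by
              rw [Finset.sum_add_distrib]
              have e1 : ∀ (g : ℝ), ∑ u : Q, (if u ∈ RV then g else 0) = RV.card * g := by
                intro g
                rw [← Finset.sum_filter, Finset.sum_const, nsmul_eq_mul]
                congr 3
                ext u
                simp
              have e2 : ∑ U : Q × Q × Fin D.k, (if U.1 = q.1 ∧ U.2.2 = q.2 ∧ U.2.1 ∈ RV then
                  2 * D.T / D.k else 0) = RV.card * (2 * D.T / D.k) := by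
                simp only [Fintype.sum_prod_type, ite_and]
                rw [Finset.sum_eq_single q.1]
                · simp only [if_true]
                  rw [Finset.sum_comm, Finset.sum_eq_single q.2]
                  · simp only [if_true]
                    exact e1 _
                  · intro c _ hc
                    simp [hc]
                  · intro h; exact absurd (mem_univ _) h
                · intro u _ hu
                  simp [hu]
                · intro h; exact absurd (mem_univ _) h
              have e3 : ∑ U : Q × Q × Fin D.k, (if U.2.1 = q.1 ∧ U.2.2 = q.2 ∧ U.1 ∈ RV then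
                  2 * D.T / D.k else 0) = RV.card * (2 * D.T / D.k) := by
                simp only [Fintype.sum_prod_type, ite_and]
                have e4 : ∀ u : Q, ∑ u' : Q, ∑ c : Fin D.k, (if u' = q.1 then
                    (if c = q.2 then (if u ∈ RV then 2 * D.T / (D.k : ℝ) else 0) else 0) else 0) =
                    if u ∈ RV then 2 * D.T / (D.k : ℝ) else 0 := by
                  intro u
                  rw [Finset.sum_eq_single q.1]
                  · rw [Finset.sum_eq_single q.2]
                    · simp
                    · intro c _ hc
                      simp [hc]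
                    · intro h; exact absurd (mem_univ _) h
                  · intro u' _ hu'
                    simp [hu']
                  · intro h; exact absurd (mem_univ _) h
                rw [Finset.sum_congr rfl fun u _ => e4 u, e1]
              rw [e2, e3]; ring
          _ ≤ 2 * (D.T ^ 3885 * (1 / D.T ^ 3900)) := by
              gcongr
          _ ≤ 2 := by
              have : D.T ^ 3885 * (1 / D.T ^ 3900) ≤ 1 := by
                rw [mul_one_div, div_le_one (by positivity)]
                exact pow_le_pow_right₀ (by linarith) (by norm_num)
              linarith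
          _ ≤ _ := hone
      · -- both conditions
        obtain ⟨q, hq, q', hq', hne⟩ := one_lt_card.1 hc
        calc _ ≤ ∑ U : Q × Q × Fin D.k,
              ((if U = (q.1, q'.1, q.2) then (1 : ℝ) else 0) +
               (if U = (q'.1, q.1, q.2) then (1 : ℝ) else 0)) := by
              refine Finset.sum_le_sum fun U _ => ?_
              have hn1 : (0 : ℝ) ≤ if U = (q.1, q'.1, q.2) then (1 : ℝ) else 0 := by
                split_ifs <;> norm_num
              have hn2 : (0 : ℝ) ≤ if U = (q'.1, q.1, q.2) then (1 : ℝ) else 0 := by
                split_ifs <;> norm_num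
              by_cases h : W ⊆ cd U
              · rw [if_pos h]
                have h1 : cd U \ W = ∅ := by
                  rw [← card_eq_zero]
                  rw [card_sdiff_of_subset h]
                  have : (cd U).card ≤ 2 := by
                    refine (card_insert_le _ _).trans ?_
                    rw [card_singleton]
                  omega
                rw [h1, card_empty, pow_zero, mul_one]
                refine (hw1 U).trans ?_
                have h3 := h hq
                have h4 := h hq'
                simp only [cd, mem_insert, mem_singleton] at h3 h4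
                rcases h3 with h3 | h3 <;> rcases h4 with h4 | h4
                · exact absurd (h3.trans h4.symm) hne
                · have : U = (q.1, q'.1, q.2) := by rw [h3, h4]
                  rw [if_pos this]
                  linarith
                · have : U = (q'.1, q.1, q.2) := by rw [h3, h4]
                  rw [if_pos (c := U = (q'.1, q.1, q.2)) this]
                  linarith
                · exact absurd (h3.trans h4.symm) hne
              · rw [if_neg h]
                linarith
          _ = 2 := by
              rw [Finset.sum_add_distrib]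
              simp
              norm_num
          _ ≤ _ := hone)
  refine (Pr_mono hp fun ω hω => ?_).trans (ht.trans (evB_exp hT))
  rw [← hcnt]
  have h1 := (not_le.1 hω).le
  refine le_trans ?_ h1
  calc D.T ^ 4 * (4 * D.T ^ 3773) = 4 * D.T ^ 3777 := by
        have : D.T ^ 3777 = D.T ^ 4 * D.T ^ 3773 := by rw [← pow_add]
        rw [this]; ring
    _ ≤ D.T * D.T ^ 3777 := by
        have : 0 ≤ D.T ^ 3777 := by positivity
        nlinarith
    _ = D.T ^ 3778 := by rw [← pow_succ']

end NibData

end Pool.Agent.Acy
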