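import Pool.Agent.Acy.EvA
import Pool.Agent.Acy.EvB

/-! # Probability estimates: the local family (module N3c) -/

set_option autoImplicit false
set_option linter.unusedSectionVars false

namespace Pool.Agent.Acy

open Finset
open scoped Classical

universe u

namespace NibData

variable {Q : Type u} [Fintype Q] [DecidableEq Q] {D : NibData Q}

/-- Related vertices of first and second order. -/
noncomputable def R2 (D : NibData Q) (x : Q) : Finset Q := D.R x ∪ (D.R x).biUnion D.R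

theorem mem_R2_of_R {x u : Q} (h : u ∈ D.R x) : u ∈ D.R2 x := mem_union_left _ h

theorem mem_R2_of_RR {x y u : Q} (h : y ∈ D.R x) (h' : u ∈ D.R y) : u ∈ D.R2 x :=
  mem_union_right _ (mem_biUnion.2 ⟨y, h, h'⟩)

theorem mem_R2_symm (hD : D.Ok) {x u : Q} (h : u ∈ D.R2 x) : x ∈ D.R2 u := by
  rcases mem_union.1 h with h1 | h1
  · exact mem_R2_of_R ((mem_R_symm hD x u).2 h1)
  · obtain ⟨y, hy, hu⟩ := mem_biUnion.1 h1
    exact mem_R2_of_RR ((mem_R_symm hD y u).2 hu) ((mem_R_symm hD x y).2 hy)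

theorem R2_card (hD : D.Ok) (x : Q) : ((D.R2 x).card : ℝ) ≤ 2 * D.T ^ 8060 := by
  have h1 : ((D.R2 x).card : ℝ) ≤ (D.R x).card + ∑ y ∈ D.R x, ((D.R y).card : ℝ) := by
    have h2 := card_union_le (D.R x) ((D.R x).biUnion D.R)
    have h3 : ((D.R x).biUnion D.R).card ≤ ∑ y ∈ D.R x, (D.R y).card := card_biUnion_le
    have h4 : (D.R2 x).card ≤ (D.R x).card + ∑ y ∈ D.R x, (D.R y).card :=
      h2.trans (Nat.add_le_add_left h3 _)
    exact_mod_cast h4
  have h2 : ∑ y ∈ D.R x, ((D.R y).card : ℝ) ≤ D.T ^ 8060 := by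
    calc ∑ y ∈ D.R x, ((D.R y).card : ℝ) ≤ ∑ _y ∈ D.R x, D.T ^ 4030 :=
          sum_le_sum fun y _ => hD.R_card y
      _ = (D.R x).card * D.T ^ 4030 := by rw [sum_const, nsmul_eq_mul]
      _ ≤ D.T ^ 4030 * D.T ^ 4030 :=
          mul_le_mul_of_nonneg_right (hD.R_card x) (pow_nonneg (hD.big.pos).le _)
      _ = D.T ^ 8060 := by rw [← pow_add]
  have h3 : D.T ^ 4030 ≤ D.T ^ 8060 := pow_le_pow_right₀ hD.big.one_le (by norm_num)
  linarith [hD.R_card x]

/-- A centred sum depends only on the coordinates with nonzero test function. -/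
theorem cen_congr (S : NState Q D.k) {Y : Q → Fin D.k → ℝ} {A : Finset Q}
    (hY : ∀ u, u ∉ A → ∀ c, Y u c = 0) {ω ω' : Q → Fin D.k} (h : ∀ u ∈ A, ω u = ω' u) :
    D.cen S Y ω = D.cen S Y ω' := by
  unfold cen
  refine sum_congr rfl fun u _ => ?_
  by_cases hu : u ∈ A
  · rw [h u hu]
  · rw [hY u hu, hY u hu]

theorem G_zero (hD : D.Ok) (S : NState Q D.k) (j : ℕ) (b : Bool) (u x : Q) (c : Fin D.k)
    (hu : u ∉ D.R2 x) : D.G S j b u x c = 0 := by
  unfold G
  rw [mul_eq_zero]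
  right
  refine sum_eq_zero fun y _ => ?_
  split_ifs with h
  · by_cases hy : y ∈ D.R x
    · have h1 : u ∉ D.R y := fun h2 => hu (mem_R2_of_RR hy h2)
      rw [K_off' hD y u h1, mul_zero]
    · rw [a_off hD b x y hy, zero_mul, zero_mul]
  · rfl

theorem Y1_zero (hD : D.Ok) (S : NState Q D.k) (j : ℕ) (x u : Q) (hu : u ∉ D.R2 x) (c : Fin D.k) :
    D.Y1 S j x u c = 0 := by
  unfold Y1
  split_ifs
  · rw [K_off' hD x u fun h => hu (mem_R2_of_R h), mul_zero]
  · rfl

theorem Y2_zero (hD : D.Ok) (S : NState Q D.k) (j : ℕ) (x u : Q) (hu : u ∉ D.R2 x) (c : Fin D.k) :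
    D.Y2 S j x u c = 0 := by
  unfold Y2
  split_ifs
  · rw [K_off' hD x u fun h => hu (mem_R2_of_R h), mul_zero, zero_mul]
  · rfl

theorem Y3_zero (hD : D.Ok) (S : NState Q D.k) (j : ℕ) (x u : Q) (hu : u ∉ D.R2 x) (c : Fin D.k) :
    D.Y3 S j x u c = 0 := by
  unfold Y3
  split_ifs
  · rw [h_off' hD x u fun h => hu (mem_R2_of_R h), mul_zero, mul_zero]
  · rfl

theorem Y4_zero (hD : D.Ok) (S : NState Q D.k) (j : ℕ) (b : Bool) (x : Q) (c₀ : Fin D.k) (u : Q)
    (hu : u ∉ D.R2 x) (c : Fin D.k) : D.Y4 S j b x c₀ u c = 0 := by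
  unfold Y4
  split_ifs
  · exact G_zero hD S j b u x c₀ hu
  · rfl

theorem J_congr (j : ℕ) (x : Q) {ω ω' : Q → Fin D.k} (h : ∀ u ∈ D.R2 x, ω u = ω' u)
    (c : Fin D.k) : D.J j ω x c = D.J j ω' x c := by
  unfold J
  congr 1
  refine filter_congr fun u hu => ?_
  rw [h u (mem_R2_of_R (mem_inter.1 hu).1)]

theorem d3_pos (hD : D.Ok) : 0 < D.d3 := by
  unfold d3
  exact div_pos one_pos (pow_pos hD.big.pos _)

/-- Labels of the events. -/
abbrev Lab (k : ℕ) : Type := Fin 4 ⊕ ((Bool × Fin k) ⊕ Bool)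

/-- The events. -/
noncomputable def Ev (D : NibData Q) (S : NState Q D.k) (j : ℕ) (b : Q × Lab D.k)
    (ω : Q → Fin D.k) : Prop :=
  match b.2 with
  | .inl i =>
    if i = 0 then ¬ |D.cen S (D.Y1 S j b.1) ω| ≤ D.T ^ 2000
    else if i = 1 then ¬ |D.cen S (D.Y2 S j b.1) ω| ≤ D.T ^ 2000
    else if i = 2 then ¬ |D.cen S (D.Y3 S j b.1) ω| ≤ D.T ^ 2000
    else ¬ ∑ c, (D.J j ω b.1 c : ℝ) * ((D.J j ω b.1 c : ℝ) - 1) ≤ D.T ^ 3778
  | .inr (.inl bc) => ¬ |D.cen S (D.Y4 S j bc.1 b.1 bc.2) ω| ≤ 1 / D.T ^ 187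
  | .inr (.inr b') =>
    ¬ (((D.V j).filter fun u => D.d3 < |D.G S j b' u b.1 (ω u)|).card : ℝ) ≤ D.T ^ 3830

/-- `GoodEv` is reached by avoiding a local family of unlikely events. -/
theorem good_stepOK (hD : D.Ok) {S : NState Q D.k} {j : ℕ} {col : Q → Fin D.k}
    (hI : D.Inv S j col) (hj : j < D.q) : StepOK D.T (D.p S) (D.GoodEv S j) := by
  have hT := hD.big
  have hT1 := hT.one_le
  have hT0 := hT.pos
  refine ⟨Q × Lab D.k, inferInstance, D.Ev S j, fun b => D.R2 b.1, ?_, ?_, ?_, ?_, ?_⟩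
  · rintro ⟨x, l⟩ ω ω' h
    have h1 : ∀ u ∈ D.R2 x, ω u = ω' u := fun u hu => h u (by exact_mod_cast hu)
    rcases l with i | bc | b'
    · have e1 := cen_congr S (Y1_zero hD S j x) h1
      have e2 := cen_congr S (Y2_zero hD S j x) h1
      have e3 := cen_congr S (Y3_zero hD S j x) h1
      have e4 : ∀ c, D.J j ω x c = D.J j ω' x c := J_congr j x h1
      simp only [Ev, e1, e2, e3, e4]
    · have e1 := cen_congr S (Y4_zero hD S j bc.1 x bc.2) h1
      simp only [Ev, e1]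
    · have e1 : ((D.V j).filter fun u => D.d3 < |D.G S j b' u x (ω u)|) =
          ((D.V j).filter fun u => D.d3 < |D.G S j b' u x (ω' u)|) := by
        refine filter_congr fun u _ => ?_
        by_cases hu : u ∈ D.R2 x
        · rw [h1 u hu]
        · rw [G_zero hD S j b' u x _ hu, G_zero hD S j b' u x _ hu]
      simp only [Ev, e1]
  · rintro ⟨x, l⟩
    show Pr (D.p S) (fun ω => D.Ev S j (x, l) ω) ≤ Real.exp (-D.T)
    rcases l with i | bc | b'
    · by_cases h0 : i = 0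
      · subst h0
        exact e1_tail hD hI hj x
      by_cases h1 : i = 1
      · subst h1
        exact e2_tail hD hI hj x
      by_cases h2 : i = 2
      · subst h2
        exact e3_tail hD hI hj x
      · simp only [Ev, if_neg h0, if_neg h1, if_neg h2]
        exact e6_tail hD hI hj x
    · exact e4_tail hD hI hj bc.1 x bc.2
    · exact e5_tail hD hI hj b' x
  · intro b
    have h1 := R2_card hD b.1
    have h2 : 2 * D.T ^ 8060 ≤ D.T ^ 20000 := by
      have h3 : (2 : ℝ) ≤ D.T := by linarith [hT.big]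
      calc 2 * D.T ^ 8060 ≤ D.T * D.T ^ 8060 :=
            mul_le_mul_of_nonneg_right h3 (pow_nonneg hT0.le _)
        _ = D.T ^ 8061 := by rw [← pow_succ']
        _ ≤ D.T ^ 20000 := pow_le_pow_right₀ hT1 (by norm_num)
    exact h1.trans h2
  · intro i
    have hsub : (univ.filter fun b : Q × Lab D.k => i ∈ D.R2 b.1) ⊆
        (D.R2 i) ×ˢ (univ : Finset (Lab D.k)) := by
      intro b hb
      exact mem_product.2 ⟨mem_R2_symm hD (mem_filter.1 hb).2, mem_univ _⟩
    have h1 : ((univ.filter fun b : Q × Lab D.k => i ∈ D.R2 b.1).card : ℝ) ≤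
        (D.R2 i).card * (6 + 2 * D.k : ℕ) := by
      have h2 := card_le_card hsub
      rw [card_product, card_univ] at h2
      have h3 : Fintype.card (Lab D.k) = 6 + 2 * D.k := by
        simp [Lab]
        ring
      rw [h3] at h2
      exact_mod_cast h2
    have h2 := R2_card hD i
    have h3 : ((6 + 2 * D.k : ℕ) : ℝ) ≤ D.T * D.T ^ 4000 := by
      push_cast
      have h4 := hD.k_hi
      have h5 : (1 : ℝ) ≤ D.T ^ 4000 := one_le_pow₀ hT1
      have h6 : (8 : ℝ) ≤ D.T := by linarith [hT.big]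
      nlinarith
    have h4 : 2 * D.T ^ 8060 ≤ D.T * D.T ^ 8060 :=
      mul_le_mul_of_nonneg_right (by linarith [hT.big]) (pow_nonneg hT0.le _)
    calc ((univ.filter fun b : Q × Lab D.k => i ∈ D.R2 b.1).card : ℝ)
        ≤ (D.R2 i).card * (6 + 2 * D.k : ℕ) := h1
      _ ≤ (D.T * D.T ^ 8060) * (D.T * D.T ^ 4000) :=
          mul_le_mul (h2.trans h4) h3 (Nat.cast_nonneg _) (by positivity)
      _ = D.T ^ 12062 := by rw [← pow_succ', ← pow_succ', ← pow_add]
      _ ≤ D.T ^ 20000 := pow_le_pow_right₀ hT1 (by norm_num)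
  · intro ω hω
    refine ⟨fun x => ?_, fun x => ?_, fun x => ?_, fun b x c => ?_, fun b x => ?_, fun x => ?_⟩
    · exact not_not.1 fun h => hω (x, .inl 0) (by simpa [Ev] using h)
    · exact not_not.1 fun h => hω (x, .inl 1) (by simpa [Ev] using h)
    · exact not_not.1 fun h => hω (x, .inl 2) (by simpa [Ev] using h)
    · exact not_not.1 fun h => hω (x, .inr (.inl (b, c))) h
    · exact not_not.1 fun h => hω (x, .inr (.inr b)) h
    · exact not_not.1 fun h => hω (x, .inl 3) (by simpa [Ev] using h)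

end NibData

end Pool.Agent.Acy
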