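import Pool.Agent.Acy.Assem

/-! # From the parameters to all large degrees, and to simple graphs (module G7) -/

set_option autoImplicit false
set_option linter.unusedSectionVars false

namespace Pool.Agent.Acy

open Finset
open scoped Classical

universe u

/-- Acyclic colouring of a simple graph: proper, and two colour classes induce a forest. -/
def IsAcyclicColouring {V α : Type*} (G : SimpleGraph V) (f : V → α) : Prop :=
  (∀ u v, G.Adj u v → f u ≠ f v) ∧ ∀ a b : α, (G.induce {v | f v = a ∨ f v = b}).IsAcyclic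

/-- Acyclic chromatic number. -/
noncomputable def acyclicNumber {V : Type*} (G : SimpleGraph V) : ℕ :=
  sInf {n | ∃ f : V → Fin n, IsAcyclicColouring G f}

/-- The number of colours as a function of the large parameter. -/
theorem params_core {T y : ℝ} (hT : (10 : ℝ) ^ 6 ≤ T) (hL : (5001 : ℝ) ^ 3 ≤ 3000 * Real.log T)
    (hy : 0 < y) (h3 : y ^ 3 * (3000 * Real.log T) = T ^ 12000) :
    T ^ 3999 ≤ (⌈5000 * y⌉₊ : ℝ) ∧ (⌈5000 * y⌉₊ : ℝ) ≤ T ^ 4000 ∧
    1600 * T ^ 6000 ≤ (⌈5000 * y⌉₊ : ℝ) * Real.sqrt ((⌈5000 * y⌉₊ : ℝ) * (Real.log T / 10)) ∧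
    (⌈5000 * y⌉₊ : ℝ) ≤ 6000 * y := by
  have hT0 : (0 : ℝ) < T := by linarith
  have hT1 : (1 : ℝ) ≤ T := by linarith
  have hlog0 : 0 < Real.log T := by
    have : (0 : ℝ) < 5001 ^ 3 := by norm_num
    linarith
  have hlogT : Real.log T ≤ T := by
    have := Real.log_le_sub_one_of_pos hT0
    linarith
  have hL0 : (0 : ℝ) < 3000 * Real.log T := by linarith
  have hc1 : 5000 * y ≤ (⌈5000 * y⌉₊ : ℝ) := Nat.le_ceil _
  have hc2 : (⌈5000 * y⌉₊ : ℝ) < 5000 * y + 1 := Nat.ceil_lt_add_one (by positivity)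
  have hlow : T ^ 3999 ≤ 5000 * y := by
    refine le_of_pow_le_pow_left₀ (n := 3) (by norm_num) (by positivity) ?_
    refine le_of_mul_le_mul_right ?_ hL0
    have e1 : (5000 * y) ^ 3 * (3000 * Real.log T) = 125000000000 * T ^ 12000 := by
      rw [← h3]; ring
    rw [e1]
    have e2 : (T ^ 3999) ^ 3 * (3000 * Real.log T) ≤ (T ^ 3999) ^ 3 * (3000 * T ^ 3) := by
      refine mul_le_mul_of_nonneg_left ?_ (by positivity)
      have : T ≤ T ^ 3 := le_self_pow₀ hT1 (by norm_num)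
      linarith
    refine e2.trans ?_
    have e3 : (T ^ 3999) ^ 3 * (3000 * T ^ 3) = 3000 * T ^ 12000 := by ring
    rw [e3]
    have : 0 ≤ T ^ 12000 := by positivity
    linarith
  have hy1 : 1 ≤ y := by
    have : T ≤ T ^ 3999 := le_self_pow₀ hT1 (by norm_num)
    linarith
  have hup : 5001 * y ≤ T ^ 4000 := by
    refine le_of_pow_le_pow_left₀ (n := 3) (by norm_num) (by positivity) ?_
    refine le_of_mul_le_mul_right ?_ hL0
    have e1 : (5001 * y) ^ 3 * (3000 * Real.log T) = 5001 ^ 3 * T ^ 12000 := by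
      rw [← h3]; ring
    rw [e1]
    have e2 : (T ^ 4000) ^ 3 = T ^ 12000 := by ring
    rw [e2, mul_comm]
    exact mul_le_mul_of_nonneg_left hL (by positivity)
  refine ⟨by linarith, by linarith, ?_, by linarith⟩
  set K : ℝ := (⌈5000 * y⌉₊ : ℝ) with hK
  have hK0 : 0 ≤ K := by linarith
  have e1 : K * Real.sqrt (K * (Real.log T / 10)) = Real.sqrt (K ^ 2 * (K * (Real.log T / 10))) := by
    rw [Real.sqrt_mul (sq_nonneg K), Real.sqrt_sq hK0]
  rw [e1]
  refine Real.le_sqrt_of_sq_le ?_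
  have e2 : (5000 * y) ^ 3 * (Real.log T / 10) ≤ K ^ 2 * (K * (Real.log T / 10)) := by
    have : K ^ 2 * (K * (Real.log T / 10)) = K ^ 3 * (Real.log T / 10) := by ring
    rw [this]
    exact mul_le_mul_of_nonneg_right (pow_le_pow_left₀ (by positivity) hc1 3) (by positivity)
  refine le_trans ?_ e2
  have e3 : (5000 * y) ^ 3 * (Real.log T / 10) = 125000000000 / 30000 * T ^ 12000 := by
    rw [← h3]; ring
  have e4 : (1600 * T ^ 6000) ^ 2 = 2560000 * T ^ 12000 := by ring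
  rw [e3, e4]
  exact mul_le_mul_of_nonneg_right (by norm_num) (by positivity)

/-- The parameters for all large degrees. -/
theorem exists_params : ∃ d₀ : ℕ, ∀ d : ℕ, d₀ ≤ d → ∃ (T : ℝ) (k q : ℕ), T ^ 3000 = d ∧
    Big T ∧ T ^ 3999 ≤ k ∧ (k : ℝ) ≤ T ^ 4000 ∧
    1600 * T ^ 6000 ≤ k * Real.sqrt (k * (Real.log T / 10)) ∧
    T ^ 150 / 2 ≤ q ∧ (q : ℝ) ≤ T ^ 150 ∧
    (k : ℝ) ≤ 6000 * ((d : ℝ) ^ ((4 : ℝ) / 3) / Real.log d ^ ((1 : ℝ) / 3)) := by
  have htend : Filter.Tendsto (fun d : ℕ => (d : ℝ) ^ ((1 : ℝ) / 3000)) Filter.atTop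
      Filter.atTop :=
    (tendsto_rpow_atTop (by norm_num)).comp tendsto_natCast_atTop_atTop
  have hexp : ∀ᶠ T : ℝ in Filter.atTop, T ^ 60000 ≤ Real.exp T := by
    have h := (Real.isLittleO_pow_exp_atTop (n := 60000)).bound (c := 1) one_pos
    filter_upwards [h, Filter.eventually_ge_atTop (0 : ℝ)] with T hT hT0
    rw [one_mul, Real.norm_eq_abs, Real.norm_eq_abs, abs_of_nonneg (pow_nonneg hT0 _),
      abs_of_pos (Real.exp_pos _)] at hT
    exact hT
  have hlog : ∀ᶠ T : ℝ in Filter.atTop, (5001 : ℝ) ^ 3 ≤ 3000 * Real.log T := by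
    filter_upwards [Real.tendsto_log_atTop.eventually_ge_atTop ((5001 : ℝ) ^ 3)] with T hT
    have : (0 : ℝ) < 5001 ^ 3 := by norm_num
    linarith
  have hall := htend.eventually ((Filter.eventually_ge_atTop ((10 : ℝ) ^ 6)).and (hexp.and hlog))
  obtain ⟨d₀, hd₀⟩ := Filter.eventually_atTop.mp hall
  refine ⟨max d₀ 1, fun d hd => ?_⟩
  obtain ⟨h1, h2, h4⟩ := hd₀ d (le_trans (le_max_left _ _) hd)
  have hd1 : 1 ≤ d := le_trans (le_max_right _ _) hd
  have hdpos : (0 : ℝ) < (d : ℝ) := by exact_mod_cast hd1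
  set T : ℝ := (d : ℝ) ^ ((1 : ℝ) / 3000) with hTdef
  have hTd : T ^ 3000 = (d : ℝ) := by
    rw [hTdef, ← Real.rpow_natCast, ← Real.rpow_mul hdpos.le]
    norm_num
  have hlogd : Real.log (d : ℝ) = 3000 * Real.log T := by
    rw [← hTd, Real.log_pow]
    norm_num
  have hlogd0 : 0 < Real.log (d : ℝ) := by
    rw [hlogd]
    have : (0 : ℝ) < 5001 ^ 3 := by norm_num
    linarith
  set y : ℝ := (d : ℝ) ^ ((4 : ℝ) / 3) / Real.log d ^ ((1 : ℝ) / 3) with hydef
  have hy : 0 < y := div_pos (Real.rpow_pos_of_pos hdpos _) (Real.rpow_pos_of_pos hlogd0 _)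
  have hy3 : y ^ 3 * (3000 * Real.log T) = T ^ 12000 := by
    have e1 : ((d : ℝ) ^ ((4 : ℝ) / 3)) ^ 3 = (d : ℝ) ^ 4 := by
      rw [← Real.rpow_natCast, ← Real.rpow_mul hdpos.le, ← Real.rpow_natCast]
      norm_num
    have e2 : (Real.log (d : ℝ) ^ ((1 : ℝ) / 3)) ^ 3 = Real.log d := by
      rw [← Real.rpow_natCast, ← Real.rpow_mul hlogd0.le]
      norm_num
    rw [hydef, div_pow, e1, e2, ← hlogd, div_mul_cancel₀ _ hlogd0.ne', ← hTd]
    ring
  obtain ⟨c1, c2, c3, c4⟩ := params_core h1 h4 hy hy3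
  have hT1 : (1 : ℝ) ≤ T := by linarith
  have hT150 : T ≤ T ^ 150 := le_self_pow₀ hT1 (by norm_num)
  have hf1 : (⌊T ^ 150⌋₊ : ℝ) ≤ T ^ 150 := Nat.floor_le (by positivity)
  have hf2 : T ^ 150 < (⌊T ^ 150⌋₊ : ℝ) + 1 := Nat.lt_floor_add_one _
  exact ⟨T, ⌈5000 * y⌉₊, ⌊T ^ 150⌋₊, hTd, ⟨h1, h2⟩, c1, c2, c3, by linarith, hf1, c4⟩

/-- From a colouring of the two sides to an acyclic colouring of the graph. -/
theorem acyclic_of_pair {V : Type u} [Fintype V] [DecidableEq V] (G : SimpleGraph V)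
    (s : V → Prop) (hs : ∀ u v, G.Adj u v → (s u ↔ ¬ s v)) {α β : Type*}
    (φ : {v : V // s v} → α) (ψ : {v : V // ¬ s v} → β)
    (h : AcycPair (fun u : {v : V // ¬ s v} => univ.filter fun z : {v : V // s v} => G.Adj u.1 z.1)
      φ ψ) :
    IsAcyclicColouring G (fun v => if hv : s v then (Sum.inl (φ ⟨v, hv⟩) : α ⊕ β)
      else Sum.inr (ψ ⟨v, hv⟩)) := by
  set f : V → α ⊕ β := fun v => if hv : s v then (Sum.inl (φ ⟨v, hv⟩) : α ⊕ β)
      else Sum.inr (ψ ⟨v, hv⟩) with hf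
  have f_s : ∀ v (hv : s v), f v = Sum.inl (φ ⟨v, hv⟩) := fun v hv => dif_pos hv
  have f_n : ∀ v (hv : ¬ s v), f v = Sum.inr (ψ ⟨v, hv⟩) := fun v hv => dif_neg hv
  have hs2 : ∀ u v, G.Adj u v → ¬ s u → s v := fun u v huv hu => by
    by_contra hv
    exact hu ((hs u v huv).2 hv)
  refine ⟨?_, ?_⟩
  · intro u v huv he
    by_cases hu : s u
    · have hv : ¬ s v := (hs u v huv).1 hu
      rw [f_s u hu, f_n v hv] at he
      exact Sum.inl_ne_inr he
    · have hv : s v := hs2 u v huv hu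
      rw [f_n u hu, f_s v hv] at he
      exact Sum.inr_ne_inl he
  · intro a b x c hc
    have hdeg : ∀ y ∈ c.support, ∃ y1 y2, y1 ≠ y2 ∧ y1 ∈ c.support ∧ y2 ∈ c.support ∧
        G.Adj y.1 y1.1 ∧ G.Adj y.1 y2.1 := by
      intro y hy
      obtain ⟨y1, y2, h12, heq⟩ := Set.ncard_eq_two.mp (hc.ncard_neighborSet_toSubgraph_eq_two hy)
      have h1 : y1 ∈ c.toSubgraph.neighborSet y := by rw [heq]; simp
      have h2 : y2 ∈ c.toSubgraph.neighborSet y := by rw [heq]; simp
      have a1 : c.toSubgraph.Adj y y1 := h1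
      have a2 : c.toSubgraph.Adj y y2 := h2
      refine ⟨y1, y2, h12, ?_, ?_, ?_, ?_⟩
      · exact c.mem_verts_toSubgraph.mp (c.toSubgraph.edge_vert a1.symm)
      · exact c.mem_verts_toSubgraph.mp (c.toSubgraph.edge_vert a2.symm)
      · exact a1.adj_sub
      · exact a2.adj_sub
    have hsame_s : ∀ y ∈ c.support, ∀ y' ∈ c.support, s y.1 → s y'.1 → f y.1 = f y'.1 := by
      intro y hy y' hy' hsy hsy'
      obtain ⟨y1, -, -, h1, -, a1, -⟩ := hdeg y hy
      have hn1 : ¬ s y1.1 := (hs _ _ a1).1 hsy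
      have e0 := f_s _ hsy
      have e0' := f_s _ hsy'
      have e1 := f_n _ hn1
      have p0 : f y.1 = a ∨ f y.1 = b := y.2
      have p0' : f y'.1 = a ∨ f y'.1 = b := y'.2
      have p1 : f y1.1 = a ∨ f y1.1 = b := y1.2
      have n1 : f y.1 ≠ f y1.1 := by rw [e0, e1]; exact Sum.inl_ne_inr
      have n2 : f y'.1 ≠ f y1.1 := by rw [e0', e1]; exact Sum.inl_ne_inr
      rcases p0 with p0 | p0 <;> rcases p0' with p0' | p0' <;> rcases p1 with p1 | p1
      · rw [p0, p0']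
      · rw [p0, p0']
      · exact absurd (p0.trans p1.symm) n1
      · exact absurd (p0'.trans p1.symm) n2
      · exact absurd (p0'.trans p1.symm) n2
      · exact absurd (p0.trans p1.symm) n1
      · rw [p0, p0']
      · rw [p0, p0']
    have hsame_n : ∀ y ∈ c.support, ∀ y' ∈ c.support, ¬ s y.1 → ¬ s y'.1 → f y.1 = f y'.1 := by
      intro y hy y' hy' hsy hsy'
      obtain ⟨y1, -, -, h1, -, a1, -⟩ := hdeg y hy
      have hn1 : s y1.1 := hs2 _ _ a1 hsy
      have e0 := f_n _ hsy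
      have e0' := f_n _ hsy'
      have e1 := f_s _ hn1
      have p0 : f y.1 = a ∨ f y.1 = b := y.2
      have p0' : f y'.1 = a ∨ f y'.1 = b := y'.2
      have p1 : f y1.1 = a ∨ f y1.1 = b := y1.2
      have n1 : f y.1 ≠ f y1.1 := by rw [e0, e1]; exact Sum.inr_ne_inl
      have n2 : f y'.1 ≠ f y1.1 := by rw [e0', e1]; exact Sum.inr_ne_inl
      rcases p0 with p0 | p0 <;> rcases p0' with p0' | p0' <;> rcases p1 with p1 | p1
      · rw [p0, p0']
      · rw [p0, p0']
      · exact absurd (p0.trans p1.symm) n1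
      · exact absurd (p0'.trans p1.symm) n2
      · exact absurd (p0'.trans p1.symm) n2
      · exact absurd (p0.trans p1.symm) n1
      · rw [p0, p0']
      · rw [p0, p0']
    refine h (univ.filter fun z => ∃ y ∈ c.support, y.1 = z.1)
      (univ.filter fun u => ∃ y ∈ c.support, y.1 = u.1) ?_ ?_ ?_ ?_ ?_
    · by_cases hx : s x.1
      · obtain ⟨y1, -, -, h1, -, a1, -⟩ := hdeg x c.start_mem_support
        have hn1 : ¬ s y1.1 := (hs _ _ a1).1 hx
        exact ⟨⟨y1.1, hn1⟩, by simp only [mem_filter, mem_univ, true_and]; exact ⟨y1, h1, rfl⟩⟩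
      · exact ⟨⟨x.1, hx⟩, by
          simp only [mem_filter, mem_univ, true_and]; exact ⟨x, c.start_mem_support, rfl⟩⟩
    · rintro ⟨z, hz⟩ hzW ⟨z', hz'⟩ hzW'
      simp only [mem_filter, mem_univ, true_and] at hzW hzW'
      obtain ⟨y, hy, rfl⟩ := hzW
      obtain ⟨y', hy', rfl⟩ := hzW'
      have := hsame_s y hy y' hy' hz hz'
      rw [f_s _ hz, f_s _ hz'] at this
      exact Sum.inl_injective this
    · rintro ⟨z, hz⟩ hzW ⟨z', hz'⟩ hzW'
      simp only [mem_filter, mem_univ, true_and] at hzW hzW'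
      obtain ⟨y, hy, rfl⟩ := hzW
      obtain ⟨y', hy', rfl⟩ := hzW'
      have := hsame_n y hy y' hy' hz hz'
      rw [f_n _ hz, f_n _ hz'] at this
      exact Sum.inr_injective this
    · rintro ⟨u, hu⟩ huU
      simp only [mem_filter, mem_univ, true_and] at huU
      obtain ⟨y, hy, rfl⟩ := huU
      obtain ⟨y1, y2, h12, m1, m2, a1, a2⟩ := hdeg y hy
      have s1 := hs2 _ _ a1 hu
      have s2 := hs2 _ _ a2 hu
      refine Finset.one_lt_card.mpr ⟨⟨y1.1, s1⟩, ?_, ⟨y2.1, s2⟩, ?_, ?_⟩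
      · simp only [mem_inter, mem_filter, mem_univ, true_and]
        exact ⟨a1, y1, m1, rfl⟩
      · simp only [mem_inter, mem_filter, mem_univ, true_and]
        exact ⟨a2, y2, m2, rfl⟩
      · intro he
        have he' := congrArg Subtype.val he
        exact h12 (Subtype.ext he')
    · rintro ⟨z, hz⟩ hzW
      simp only [mem_filter, mem_univ, true_and] at hzW
      obtain ⟨y, hy, rfl⟩ := hzW
      obtain ⟨y1, y2, h12, m1, m2, a1, a2⟩ := hdeg y hy
      have s1 := (hs _ _ a1).1 hz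
      have s2 := (hs _ _ a2).1 hz
      refine Finset.one_lt_card.mpr ⟨⟨y1.1, s1⟩, ?_, ⟨y2.1, s2⟩, ?_, ?_⟩
      · simp only [mem_filter, mem_univ, true_and]
        exact ⟨⟨y1, m1, rfl⟩, a1.symm⟩
      · simp only [mem_filter, mem_univ, true_and]
        exact ⟨⟨y2, m2, rfl⟩, a2.symm⟩
      · intro he
        have he' := congrArg Subtype.val he
        exact h12 (Subtype.ext he')

/-- Acyclic colourings can be transported along an injection of the colours. -/
theorem IsAcyclicColouring.equiv {V α β : Type*} {G : SimpleGraph V} {f : V → α}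
    (h : IsAcyclicColouring G f) (e : α ≃ β) : IsAcyclicColouring G (fun v => e (f v)) := by
  refine ⟨fun u v huv he => h.1 u v huv (e.injective he), fun a b => ?_⟩
  have : {v | e (f v) = a ∨ e (f v) = b} = {v | f v = e.symm a ∨ f v = e.symm b} := by
    ext v
    simp only [Set.mem_ofPred_eq, Equiv.eq_symm_apply]
  rw [this]
  exact h.2 _ _

/-- Upper bound. -/
theorem upper : ∃ d₀ : ℕ, ∀ d : ℕ, d₀ ≤ d → ∀ (V : Type u) [Fintype V] [DecidableEq V]
    (G : SimpleGraph V) [DecidableRel G.Adj], G.IsBipartite → (∀ v, G.degree v ≤ d) →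
    (acyclicNumber G : ℝ) ≤ 18000 * ((d : ℝ) ^ ((4 : ℝ) / 3) / Real.log d ^ ((1 : ℝ) / 3)) := by
  obtain ⟨d₀, h₀⟩ := exists_params
  refine ⟨d₀, fun d hd V _ _ G _ hG hdeg => ?_⟩
  obtain ⟨T, k, q, hTd, hT, hk1, hk2, hk3, hq1, hq2, hk4⟩ := h₀ d hd
  obtain ⟨c⟩ := hG
  let s : V → Prop := fun v => c v = 0
  have hs : ∀ u v, G.Adj u v → (s u ↔ ¬ s v) := by
    intro u v huv
    have hne : c u ≠ c v := c.valid huv
    have key : ∀ x y : Fin 2, x ≠ y → (x = 0 ↔ ¬ y = 0) := by decide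
    exact key _ _ hne
  let B : BData {v // s v} {v // ¬ s v} :=
    ⟨T, k, q, fun u => univ.filter fun z : {v : V // s v} => G.Adj u.1 z.1⟩
  have hB : B.Ok := by
    refine ⟨hT, hk1, hk2, hk3, hq1, hq2, fun u => ?_, fun z => ?_⟩
    · have h1 : (B.N u).card ≤ G.degree u.1 := by
        rw [← G.card_neighborFinset_eq_degree]
        refine Finset.card_le_card_of_injOn Subtype.val (fun z hz => ?_)
          (fun a _ b _ hab => Subtype.ext hab)
        have hz' : z ∈ univ.filter fun z : {v : V // s v} => G.Adj u.1 z.1 := hz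
        simp only [mem_filter, mem_univ, true_and] at hz'
        simpa using hz'
      have h2 : (B.N u).card ≤ d := h1.trans (hdeg _)
      have h3 : ((B.N u).card : ℝ) ≤ (d : ℝ) := by exact_mod_cast h2
      rw [← hTd] at h3
      exact h3
    · have h1 : (B.NP z).card ≤ G.degree z.1 := by
        rw [← G.card_neighborFinset_eq_degree]
        refine Finset.card_le_card_of_injOn Subtype.val (fun u hu => ?_)
          (fun a _ b _ hab => Subtype.ext hab)
        have hu' : u ∈ univ.filter fun u : {v : V // ¬ s v} => z ∈ B.N u := hu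
        simp only [mem_filter, mem_univ, true_and] at hu'
        have hu2 : z ∈ univ.filter fun z : {v : V // s v} => G.Adj u.1 z.1 := hu'
        simp only [mem_filter, mem_univ, true_and] at hu2
        simpa using hu2.symm
      have h2 : (B.NP z).card ≤ d := h1.trans (hdeg _)
      have h3 : ((B.NP z).card : ℝ) ≤ (d : ℝ) := by exact_mod_cast h2
      rw [← hTd] at h3
      exact h3
  obtain ⟨φ, ψ, h⟩ := BData.colour_exists hB
  have hac := acyclic_of_pair G s hs φ ψ (by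
    intro W U h1 h2 h3 h4 h5
    refine h W U h1 h2 h3 (fun u hu => ?_) (fun z hz => ?_)
    · refine le_of_le_of_eq (h4 u hu) (congrArg Finset.card ?_)
      ext z
      simp only [B, mem_inter, mem_filter, mem_univ, true_and]
    · refine le_of_le_of_eq (h5 z hz) (congrArg Finset.card ?_)
      ext u
      simp only [B, mem_filter, mem_univ, true_and])
  let e : Fin k ⊕ (Fin k ⊕ Fin k) ≃ Fin (k + (k + k)) :=
    (Equiv.sumCongr (Equiv.refl _) finSumFinEquiv).trans finSumFinEquiv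
  have hac2 := hac.equiv e
  have hle : acyclicNumber G ≤ k + (k + k) := Nat.sInf_le ⟨_, hac2⟩
  have hle2 : (acyclicNumber G : ℝ) ≤ ((k + (k + k) : ℕ) : ℝ) := by exact_mod_cast hle
  push_cast at hle2
  linarith

end Pool.Agent.Acy
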