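import Pool.Agent.Acy.Defs

/-! # The bipartite graph and its codegree data (project MP_af9dfb_co)

`B.N u` is the neighbourhood (in `P`) of the vertex `u` of `Q`. `P` is coloured by `φ : P → Fin k`
(uniformly at random). -/

set_option autoImplicit false
set_option linter.unusedSectionVars false

namespace Pool.Agent.Acy

open Finset
open scoped Classical

universe u

section

variable {P Q : Type u} [Fintype P] [DecidableEq P] [Fintype Q] [DecidableEq Q]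

/-- Probability that a uniform colouring with `k` colours is injective on `m` points. -/
noncomputable def rho (k m : ℕ) : ℝ := ∏ i ∈ range m, (1 - (i : ℝ) / k)

/-- Bipartite graph with parameters. -/
structure BData (P Q : Type u) where
  T : ℝ
  k : ℕ
  q : ℕ
  N : Q → Finset P

namespace BData

variable (B : BData P Q)

/-- Neighbours of `z` in `Q`. -/
noncomputable def NP (z : P) : Finset Q := univ.filter fun u => z ∈ B.N u

/-- Codegree. -/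
def cod (u x : Q) : ℕ := (B.N u ∩ B.N x).card

/-- Hazard as a function of the codegree. -/
noncomputable def hz (u x : Q) : ℝ := -Real.log (rho B.k (B.cod u x))

/-- Pairs of medium codegree. -/
def rel (u x : Q) : Prop :=
  u ≠ x ∧ B.T ^ 1970 ≤ (B.cod u x : ℝ) ∧ B.hz u x ≤ Real.log B.T / 10

/-- Pairs of large codegree. -/
def spec (u x : Q) : Prop := u ≠ x ∧ Real.log B.T / 10 < B.hz u x

/-- Pairs of small codegree. -/
def light (u x : Q) : Prop := u ≠ x ∧ (B.cod u x : ℝ) < B.T ^ 1970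

structure Ok : Prop where
  big : Big B.T
  k_lo : B.T ^ 3999 ≤ B.k
  k_hi : (B.k : ℝ) ≤ B.T ^ 4000
  kK : 1600 * B.T ^ 6000 ≤ B.k * Real.sqrt (B.k * (Real.log B.T / 10))
  q_lo : B.T ^ 150 / 2 ≤ B.q
  q_hi : (B.q : ℝ) ≤ B.T ^ 150
  degQ : ∀ u, ((B.N u).card : ℝ) ≤ B.T ^ 3000
  degP : ∀ z, ((B.NP z).card : ℝ) ≤ B.T ^ 3000

/-- The rounds are balanced. -/
structure RdOk (rd : Q → ℕ) : Prop where
  lt : ∀ u, rd u < B.q
  np : ∀ z j, (((B.NP z).filter fun u => rd u = j).card : ℝ) ≤ B.T ^ 2855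
  rp : ∀ x j, ((univ.filter fun u => (B.rel u x ∨ B.spec u x) ∧ rd u = j).card : ℝ) ≤ B.T ^ 3885

/-- `φ` is injective on the common neighbourhood. -/
def inj (φ : P → Fin B.k) (u x : Q) : Prop := Set.InjOn φ ((B.N u ∩ B.N x : Finset P) : Set P)

/-- The compensation kernel. -/
noncomputable def K (φ : P → Fin B.k) (u x : Q) : ℝ :=
  if B.rel u x then (if B.inj φ u x then 1 / rho B.k (B.cod u x) - 1 else -1) else 0

/-- Normalised hazards. -/
noncomputable def h (u x : Q) : ℝ :=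
  if B.rel u x then B.hz u x / (Real.log B.T / 10) else if B.spec u x then 2 else 0

/-- Light conflicts. -/
def Hd (φ : P → Fin B.k) (u x : Q) : Prop := B.light u x ∧ ¬ B.inj φ u x

/-- Pairs joined by a path with five vertices whose three `P`-vertices have the same colour. -/
def Hs (φ : P → Fin B.k) (u x : Q) : Prop :=
  u ≠ x ∧ ∃ z₀ z₁ z₂, z₀ ≠ z₁ ∧ z₀ ≠ z₂ ∧ z₁ ≠ z₂ ∧ φ z₀ = φ z₁ ∧ φ z₁ = φ z₂ ∧
    z₀ ∈ B.N u ∧ z₁ ∈ B.N u ∧ z₁ ∈ B.N x ∧ z₂ ∈ B.N x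

/-- Directed long pattern: a path `z'' u z x z' u'`. -/
def E3h (φ : P → Fin B.k) (x u u' : Q) : Prop :=
  x ≠ u ∧ x ≠ u' ∧ u ≠ u' ∧ ∃ z z' z'', z ≠ z' ∧ z ≠ z'' ∧ z' ≠ z'' ∧ φ z = φ z' ∧ φ z = φ z'' ∧
    z ∈ B.N x ∧ z' ∈ B.N x ∧ z ∈ B.N u ∧ z'' ∈ B.N u ∧ z' ∈ B.N u'

/-- Long pattern. -/
def E3 (φ : P → Fin B.k) (x u u' : Q) : Prop := B.E3h φ x u u' ∨ B.E3h φ x u' u

/-- What the random colouring of `P` has to satisfy. -/
structure PFacts (rd : Q → ℕ) (φ : P → Fin B.k) : Prop where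
  pl2 : ∀ x x' j, (B.cod x x' : ℝ) ≤ B.T ^ 2500 →
    |∑ u ∈ univ.filter (fun u => rd u = j), B.K φ u x * B.K φ u x'| ≤ B.T ^ 3373
  pl1 : ∀ x j, |∑ u ∈ univ.filter (fun u => rd u = j), B.K φ u x * rho B.k (B.cod u x)| ≤
    B.T ^ 3373
  plh : ∀ x j, |∑ u ∈ univ.filter (fun u => rd u = j), B.K φ u x * B.h u x| ≤ B.T ^ 3373
  hd : ∀ x, ((univ.filter fun u => B.Hd φ u x).card : ℝ) ≤ B.T ^ 3977
  hs : ∀ x, ((univ.filter fun u => B.Hs φ u x).card : ℝ) ≤ B.T ^ 4008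
  hsV : ∀ x j, ((univ.filter fun u => B.Hs φ u x ∧ rd u = j).card : ℝ) ≤ B.T ^ 3864
  e3 : ∀ x, ((univ.filter fun w : Q × Q => B.E3 φ x w.1 w.2).card : ℝ) ≤ B.T ^ 7010
  e3' : ∀ x u, ((univ.filter fun u' => B.E3 φ x u u').card : ℝ) ≤ B.T ^ 4010

/-- The data of the nibble. -/
noncomputable def toNib (rd : Q → ℕ) (φ : P → Fin B.k) : NibData Q where
  T := B.T
  k := B.k
  q := B.q
  rd := rd
  rp := fun u x => B.rel u x ∨ B.spec u x
  K := B.K φ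
  h := B.h

end BData

/-! ## Auxiliary system: long cycles and dropped vertices -/

/-- Extra relations on `Q`. -/
structure XData (Q : Type u) where
  /-- pairs with a common neighbour -/
  nb : Q → Q → Prop
  Hd : Q → Q → Prop
  Hs : Q → Q → Prop
  E3 : Q → Q → Q → Prop

namespace XData

variable (X : XData Q) (D : NibData Q)

structure Ok : Prop where
  nb_symm : ∀ x y, X.nb x y → X.nb y x
  nb_card : ∀ x, ((univ.filter (X.nb x)).card : ℝ) ≤ D.T ^ 6000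
  rp_nb : ∀ x y, D.rp x y → X.nb x y
  Hd_nb : ∀ x y, X.Hd x y → X.nb x y
  Hs_nb : ∀ x y, X.Hs x y → X.nb x y
  E3_nb : ∀ x u u', X.E3 x u u' → X.nb x u ∧ X.nb x u'
  Hd_symm : ∀ x y, X.Hd x y → X.Hd y x
  Hs_symm : ∀ x y, X.Hs x y → X.Hs y x
  E3_symm : ∀ x u u', X.E3 x u u' → X.E3 x u' u
  Hd_irr : ∀ x, ¬ X.Hd x x
  Hs_irr : ∀ x, ¬ X.Hs x x
  E3_irr : ∀ x u u', X.E3 x u u' → x ≠ u ∧ x ≠ u' ∧ u ≠ u'
  hd : ∀ x, ((univ.filter fun u => X.Hd u x).card : ℝ) ≤ D.T ^ 3977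
  hs : ∀ x, ((univ.filter fun u => X.Hs u x).card : ℝ) ≤ D.T ^ 4008
  hsV : ∀ x j, ((univ.filter fun u => X.Hs u x ∧ D.rd u = j).card : ℝ) ≤ D.T ^ 3864
  e3 : ∀ x, ((univ.filter fun w : Q × Q => X.E3 x w.1 w.2).card : ℝ) ≤ D.T ^ 7010
  e3' : ∀ x u, ((univ.filter fun u' => X.E3 x u u').card : ℝ) ≤ D.T ^ 4010

/-- The test sets for the greedy recolouring. -/
def Tv (v y : Q) : Prop := D.K v y = -1 ∨ 1 < D.h v y ∨ X.Hd v y ∨ X.Hs v y

/-- Dropped vertices. -/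
def drop (col : Q → Fin D.k) (y : Q) : Prop :=
  (∃ u, u ≠ y ∧ D.rd u = D.rd y ∧ col u = col y ∧ (D.rp u y ∨ X.Hd u y ∨ X.Hs u y)) ∨
  (∃ u, D.rd u < D.rd y ∧ col u = col y ∧ X.Hd u y) ∨
  (∃ u u', D.rd u < D.rd y ∧ D.rd u' < D.rd y ∧ col u = col y ∧ col u' = col y ∧ X.E3 y u u')

/-- The auxiliary invariants. -/
structure Inv (j : ℕ) (col : Q → Fin D.k) : Prop where
  cc : ∀ x u c, ((univ.filter fun u' => D.rd u' < j ∧ X.E3 x u u' ∧ col u' = c).card : ℝ) ≤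
    j * D.T ^ 20
  cp : ∀ x, ((univ.filter fun w : Q × Q => D.rd w.1 < j ∧ D.rd w.2 < j ∧ X.E3 x w.1 w.2 ∧
    col w.1 = col w.2).card : ℝ) ≤ j * D.T ^ 3030
  cr : ∀ v, ((univ.filter fun y => D.rd y < j ∧ X.drop D col y ∧ X.Tv D v y).card : ℝ) ≤
    (univ.filter fun y => D.rd y < j ∧ X.Tv D v y).card / D.T ^ 13 + j * D.T ^ 6

end XData

/-- An auxiliary invariant that can be maintained for every product measure with small
probabilities. -/
def AuxOK (D : NibData Q) (X : ℕ → (Q → Fin D.k) → Prop) : Prop :=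
  (∀ col, X 0 col) ∧ ∀ j < D.q, ∀ col, X j col → ∀ μ : Q → Fin D.k → ℝ, IsPM μ →
    (∀ u c, μ u c ≤ 2 * D.T / D.k) → StepOK D.T μ (fun ω => X (j + 1) (D.upd j col ω))

end

end Pool.Agent.Acy
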