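import Pool.Agent.Acy.BasicB
import Pool.Agent.Acy.BasicC

/-! # One round: the predictions (module N2b) -/

set_option autoImplicit false
set_option linter.unusedSectionVars false

namespace Pool.Agent.Acy

open Finset
open scoped Classical

universe u

namespace NibData

variable {Q : Type u} [Fintype Q] [DecidableEq Q] {D : NibData Q}
  (hD : D.Ok) {S : NState Q D.k} {j : ℕ} {col : Q → Fin D.k} (hI : D.Inv S j col)
  (hj : j < D.q) (ω : Q → Fin D.k)

include hD hI hj

/-- Change of one term of the prediction. -/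
theorem step_term (b : Bool) (x y : Q) (c : Fin D.k) :
    (if j + 1 ≤ D.rd y then D.a b x y * (D.step S j ω).v y c else 0) ≤
      (if j + 1 ≤ D.rd y then D.a b x y * S.v y c else 0) +
      (if j < D.rd y ∧ S.al y c then
        D.a b x y * S.v y c * (D.pk j ω y c - D.cmp S j y c) else 0) +
      (if y ∈ D.R x then D.T ^ 3 * ((D.J j ω y c : ℝ) * ((D.J j ω y c : ℝ) - 1)) else 0) := by
  have hT := hD.big
  have hT0 := hT.pos
  have hT1 := hT.one_le
  have hJ0 := J_mul_nonneg (D := D) j ω y c
  have hlast : 0 ≤ (if y ∈ D.R x then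
      D.T ^ 3 * ((D.J j ω y c : ℝ) * ((D.J j ω y c : ℝ) - 1)) else 0) := by
    split_ifs
    · positivity
    · exact le_rfl
  by_cases hy : j + 1 ≤ D.rd y
  · have hy' : j < D.rd y := hy
    rw [if_pos hy, if_pos hy]
    by_cases hal : S.al y c
    · rw [if_pos ⟨hy', hal⟩]
      by_cases hJ : D.J j ω y c ≤ 1
      · have hv : (D.step S j ω).v y c = S.v y c * (1 + D.pk j ω y c - D.cmp S j y c) := by
          show (if S.al y c then (if D.J j ω y c ≤ 1 then
            S.v y c * (1 + D.pk j ω y c - D.cmp S j y c) else 0) else S.v y c) = _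
          rw [if_pos hal, if_pos hJ]
        rw [hv]
        have : D.a b x y * (S.v y c * (1 + D.pk j ω y c - D.cmp S j y c)) =
            D.a b x y * S.v y c + D.a b x y * S.v y c * (D.pk j ω y c - D.cmp S j y c) := by
          ring
        linarith
      · have hv : (D.step S j ω).v y c = 0 := by
          show (if S.al y c then (if D.J j ω y c ≤ 1 then
            S.v y c * (1 + D.pk j ω y c - D.cmp S j y c) else 0) else S.v y c) = _
          rw [if_pos hal, if_neg hJ]
        rw [hv, mul_zero]
        by_cases hyR : y ∈ D.R x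
        · rw [if_pos hyR]
          have hJ2 : (2 : ℝ) ≤ (D.J j ω y c : ℝ) := by
            have : 2 ≤ D.J j ω y c := by omega
            exact_mod_cast this
          have ha0 := a_nonneg hD b x y
          have ha1 := a_le hD b x y
          have hv0 := hI.al_pos y c hal
          have hv1 := v_le hD hI hj.le y c
          have hpk := pk_abs hD j ω y c
          have hcmp := cmp_abs hD hI hj.le y c
          have h110 : 1 / D.T ^ 110 ≤ 1 / 1000000 := hT.small (by norm_num)
          have h1 : -(D.pk j ω y c - D.cmp S j y c) ≤ D.T * D.J j ω y c + 1 := by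
            have h2 := neg_abs_le (D.pk j ω y c)
            have h3 := le_abs_self (D.cmp S j y c)
            linarith
          have h4 : 0 ≤ D.a b x y * S.v y c := mul_nonneg ha0 hv0.le
          have h5 : D.a b x y * S.v y c ≤ D.T * D.T := mul_le_mul ha1 hv1 hv0.le hT0.le
          have h6 : 0 ≤ D.T * (D.J j ω y c : ℝ) := by positivity
          have h7 : D.a b x y * S.v y c * (-(D.pk j ω y c - D.cmp S j y c) - 1) ≤
              D.a b x y * S.v y c * (D.T * D.J j ω y c) :=
            mul_le_mul_of_nonneg_left (by linarith) h4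
          have h8 : D.a b x y * S.v y c * (D.T * D.J j ω y c) ≤
              D.T * D.T * (D.T * D.J j ω y c) := mul_le_mul_of_nonneg_right h5 h6
          have h9 : D.T * D.T * (D.T * D.J j ω y c) ≤
              D.T ^ 3 * ((D.J j ω y c : ℝ) * ((D.J j ω y c : ℝ) - 1)) := by
            have h10 : (D.J j ω y c : ℝ) ≤ (D.J j ω y c : ℝ) * ((D.J j ω y c : ℝ) - 1) := by
              nlinarith
            calc D.T * D.T * (D.T * D.J j ω y c) = D.T ^ 3 * (D.J j ω y c : ℝ) := by ring
              _ ≤ _ := mul_le_mul_of_nonneg_left h10 (by positivity)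
          nlinarith
        · rw [a_off hD b x y hyR]
          simp only [zero_mul, add_zero, zero_add]
          exact hlast
    · have hn : ¬ (j < D.rd y ∧ S.al y c) := fun h => hal h.2
      have hv : (D.step S j ω).v y c = S.v y c := by
        show (if S.al y c then (if D.J j ω y c ≤ 1 then
          S.v y c * (1 + D.pk j ω y c - D.cmp S j y c) else 0) else S.v y c) = _
        rw [if_neg hal]
      rw [if_neg hn, hv]
      linarith
  · have hn : ¬ (j < D.rd y ∧ S.al y c) := fun h => hy h.1
    rw [if_neg hy, if_neg hy, if_neg hn]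
    linarith

/-- Linear part. -/
theorem step_lin (hG : D.GoodEv S j ω) (b : Bool) (x : Q) (c : Fin D.k)
    (h : (D.step S j ω).al x c) :
    ∑ u ∈ D.V j, ((if ω u = c then 1 else 0) - D.p S u c) * D.G S j b u x c ≤
      1 / D.T ^ 187 + 1 / D.T ^ 366 := by
  have hT := hD.big
  have hT0 := hT.pos
  have hd : 0 < D.d3 := by
    unfold d3
    positivity
  have h4 := (le_abs_self _).trans (hG.e4 b x c)
  rw [cen_Y4] at h4
  have hbad : ∀ u, D.rd u = j → ω u = c → |D.G S j b u x c| ≤ D.d3 := by
    intro u hu hc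
    exact h.2.2.2.2.2 b u hu hc
  have hq := qv_le hD hI hj.le b x c
  have h1 : ∀ u ∈ D.V j, ((if ω u = c then 1 else 0) - D.p S u c) * D.G S j b u x c ≤
      ((if ω u = c then 1 else 0) - D.p S u c) *
        (if |D.G S j b u x c| ≤ D.d3 then D.G S j b u x c else 0) +
      D.T ^ 190 * (D.p S u c * D.G S j b u x c ^ 2) := by
    intro u hu
    have hu' : D.rd u = j := by
      unfold V at hu
      simpa using hu
    have hp := p_nonneg hD hI hj.le u c
    have hpos : 0 ≤ D.T ^ 190 * (D.p S u c * D.G S j b u x c ^ 2) := by positivity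
    by_cases hg : |D.G S j b u x c| ≤ D.d3
    · rw [if_pos hg]
      linarith
    · rw [if_neg hg, mul_zero, zero_add]
      have hω : ω u ≠ c := fun h' => hg (hbad u hu' h')
      rw [if_neg hω, zero_sub]
      have h2 : D.d3 * |D.G S j b u x c| ≤ D.G S j b u x c ^ 2 := by
        rw [← sq_abs, pow_two]
        exact mul_le_mul_of_nonneg_right (not_le.mp hg).le (abs_nonneg _)
      have h3 : |D.G S j b u x c| ≤ D.T ^ 190 * D.G S j b u x c ^ 2 := by
        have h5 : D.T ^ 190 * (D.d3 * |D.G S j b u x c|) = |D.G S j b u x c| := by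
          unfold d3
          field_simp
        rw [← h5]
        exact mul_le_mul_of_nonneg_left h2 (by positivity)
      have h6 := neg_abs_le (D.G S j b u x c)
      calc -D.p S u c * D.G S j b u x c = D.p S u c * (-D.G S j b u x c) := by ring
        _ ≤ D.p S u c * (D.T ^ 190 * D.G S j b u x c ^ 2) :=
          mul_le_mul_of_nonneg_left (by linarith) hp
        _ = _ := by ring
  have h5 : D.T ^ 190 * (1 / D.T ^ 556) = 1 / D.T ^ 366 := by
    field_simp
  calc _ ≤ _ := Finset.sum_le_sum h1
    _ ≤ 1 / D.T ^ 187 + D.T ^ 190 * (1 / D.T ^ 556) := by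
      rw [Finset.sum_add_distrib, ← Finset.mul_sum]
      exact add_le_add h4 (mul_le_mul_of_nonneg_left hq (by positivity))
    _ = _ := by rw [h5]

theorem step_pred (hG : D.GoodEv S j ω) (b : Bool) (x : Q) (c : Fin D.k)
    (h : (D.step S j ω).al x c) :
    (D.step S j ω).ac b x c + D.Nf (D.step S j ω) (j + 1) b x c ≤
      1 / D.k * (∑ y, D.a b x y) + (j + 1 : ℕ) / D.T ^ 180 +
        6 * D.T ^ 3 / D.k * (D.step S j ω).pd x c := by
  have hT := hD.big
  have hT0 := hT.pos
  have hk := k_pos' hD
  have hal : S.al x c := h.1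
  have hac : (D.step S j ω).ac b x c = S.ac b x c + D.dac S j b x c := by
    show (if S.al x c then S.ac b x c + D.dac S j b x c else S.ac b x c) = _
    rw [if_pos hal]
  have hpd : (D.step S j ω).pd x c = S.pd x c + D.dbl j ω x c := by
    show (if S.al x c then S.pd x c + D.dbl j ω x c else S.pd x c) = _
    rw [if_pos hal]
  have hlin := step_lin hD hI hj ω hG b x c h
  rw [← sum_eff] at hlin
  have hsum := Finset.sum_le_sum fun y (_ : y ∈ (univ : Finset Q)) =>
    step_term hD hI hj ω b x y c
  rw [Finset.sum_add_distrib, Finset.sum_add_distrib] at hsum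
  have hdbl : (∑ y, if y ∈ D.R x then
      D.T ^ 3 * ((D.J j ω y c : ℝ) * ((D.J j ω y c : ℝ) - 1)) else 0) =
      D.T ^ 3 * D.dbl j ω x c := by
    unfold dbl
    rw [Finset.mul_sum, ← Finset.sum_filter]
    congr 1
    ext y
    simp
  rw [hdbl] at hsum
  have hN : D.Nf (D.step S j ω) (j + 1) b x c ≤ D.Nf S (j + 1) b x c +
      (1 / D.T ^ 187 + 1 / D.T ^ 366) + D.T ^ 3 / D.k * D.dbl j ω x c := by
    have h1 := mul_le_mul_of_nonneg_left hsum (by positivity : (0 : ℝ) ≤ 1 / D.k)
    have h2 : 1 / (D.k : ℝ) * (D.T ^ 3 * D.dbl j ω x c) =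
        D.T ^ 3 / D.k * D.dbl j ω x c := by ring
    rw [mul_add, mul_add, h2] at h1
    unfold Nf
    linarith
  have hd := dac_add_le hD hI hj.le b x c
  have hp := hI.pred b x c hal
  have hdn := dbl_nonneg (D := D) j ω x c
  have h3 : D.T ^ 3 / D.k * D.dbl j ω x c ≤ 6 * D.T ^ 3 / D.k * D.dbl j ω x c := by
    have h4 : 0 ≤ D.T ^ 3 / D.k * D.dbl j ω x c := by positivity
    have h5 : 6 * D.T ^ 3 / D.k * D.dbl j ω x c = 6 * (D.T ^ 3 / D.k * D.dbl j ω x c) := by ring
    linarith
  have h187 : 1 / D.T ^ 187 ≤ 1 / 1000000 * (1 / D.T ^ 180) := by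
    have h6 : 1 / D.T ^ 187 = 1 / D.T ^ 7 * (1 / D.T ^ 180) := by
      field_simp
    rw [h6]
    exact mul_le_mul_of_nonneg_right (hT.small (by norm_num)) (by positivity)
  have h366 : 1 / D.T ^ 366 ≤ 1 / D.T ^ 187 := hT.ipw (by norm_num)
  have h200 : 1 / D.T ^ 200 ≤ 1 / D.T ^ 187 := hT.ipw (by norm_num)
  have h180 : 0 < 1 / D.T ^ 180 := by positivity
  have hfin : ((j + 1 : ℕ) : ℝ) / D.T ^ 180 = j / D.T ^ 180 + 1 / D.T ^ 180 := by
    push_cast
    ring
  rw [hac, hpd, hfin, mul_add]
  linarith

end NibData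

end Pool.Agent.Acy
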