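import Pool.Agent.Acy.StepA
import Pool.Agent.Acy.StepB
import Pool.Agent.Acy.StepC
import Pool.Agent.Acy.EvC
import Pool.Agent.Acy.GDefs

/-! # Iteration of the rounds (module N4) -/

set_option autoImplicit false
set_option linter.unusedSectionVars false

namespace Pool.Agent.Acy

open Finset
open scoped Classical

universe u

/-- Two goals can be reached simultaneously (local lemma). -/
theorem StepOK.and_exists {Q : Type u} [Fintype Q] [DecidableEq Q] {α : Type*} [Fintype α]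
    {T : ℝ} (hT : Big T) {μ : Q → α → ℝ} (hμ : IsPM μ) {G₁ G₂ : (Q → α) → Prop}
    (h₁ : StepOK T μ G₁) (h₂ : StepOK T μ G₂) : ∃ ω, 0 < wt μ ω ∧ G₁ ω ∧ G₂ ω := by
  obtain ⟨κ₁, _, E₁, S₁, hd₁, hp₁, hs₁, hi₁, hg₁⟩ := h₁
  obtain ⟨κ₂, _, E₂, S₂, hd₂, hp₂, hs₂, hi₂, hg₂⟩ := h₂
  have hT0 := hT.pos
  have hT1 := hT.one_le
  have hfl : ((⌊T ^ 20000⌋₊ : ℕ) : ℝ) ≤ T ^ 20000 := Nat.floor_le (by positivity)
  have hfl2 : ((⌊2 * T ^ 20000⌋₊ : ℕ) : ℝ) ≤ 2 * T ^ 20000 := Nat.floor_le (by positivity)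
  have hexp : Real.exp (-T) * T ^ 60000 ≤ 1 := by
    have h := mul_le_mul_of_nonneg_left hT.exp (Real.exp_pos (-T)).le
    rwa [← Real.exp_add, neg_add_cancel, Real.exp_zero] at h
  have h8 : (8 : ℝ) ≤ T ^ 20000 :=
    calc (8 : ℝ) ≤ T := by linarith [hT.big]
      _ = T ^ 1 := (pow_one T).symm
      _ ≤ T ^ 20000 := pow_le_pow_right₀ hT1 (by norm_num)
  obtain ⟨ω, hω, hE⟩ := lll_local hμ (Sum.elim E₁ E₂) (Sum.elim S₁ S₂) (by
      rintro (b | b)
      · exact hd₁ b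
      · exact hd₂ b) (Real.exp (-T)) ⌊T ^ 20000⌋₊ ⌊2 * T ^ 20000⌋₊ (Real.exp_pos _).le (by
      rintro (b | b)
      · exact hp₁ b
      · exact hp₂ b) (by
      rintro (b | b)
      · exact Nat.le_floor (hs₁ b)
      · exact Nat.le_floor (hs₂ b)) (by
      intro i
      refine Nat.le_floor ?_
      have h1 : (univ.filter fun b : κ₁ ⊕ κ₂ => i ∈ Sum.elim S₁ S₂ b).card ≤
          (univ.filter fun b => i ∈ S₁ b).card + (univ.filter fun b => i ∈ S₂ b).card := by
        have h2 : (univ.filter fun b : κ₁ ⊕ κ₂ => i ∈ Sum.elim S₁ S₂ b) =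
            (univ.filter fun b => i ∈ S₁ b).disjSum (univ.filter fun b => i ∈ S₂ b) := by
          ext b
          rcases b with b | b <;> simp
        rw [h2, card_disjSum]
      have h3 : ((univ.filter fun b : κ₁ ⊕ κ₂ => i ∈ Sum.elim S₁ S₂ b).card : ℝ) ≤
          (univ.filter fun b => i ∈ S₁ b).card + (univ.filter fun b => i ∈ S₂ b).card := by
        exact_mod_cast h1
      linarith [hi₁ i, hi₂ i]) (by
      push_cast
      have h1 : ((⌊T ^ 20000⌋₊ : ℕ) : ℝ) * ((⌊2 * T ^ 20000⌋₊ : ℕ) : ℝ) ≤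
          T ^ 20000 * (2 * T ^ 20000) :=
        mul_le_mul hfl hfl2 (Nat.cast_nonneg _) (by positivity)
      calc 4 * Real.exp (-T) * (((⌊T ^ 20000⌋₊ : ℕ) : ℝ) * ((⌊2 * T ^ 20000⌋₊ : ℕ) : ℝ))
          ≤ 4 * Real.exp (-T) * (T ^ 20000 * (2 * T ^ 20000)) :=
            mul_le_mul_of_nonneg_left h1 (by positivity)
        _ = Real.exp (-T) * (8 * T ^ 40000) := by
            rw [show (40000 : ℕ) = 20000 + 20000 from rfl, pow_add]
            ring
        _ ≤ Real.exp (-T) * (T ^ 20000 * T ^ 40000) :=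
            mul_le_mul_of_nonneg_left (mul_le_mul_of_nonneg_right h8 (by positivity))
              (Real.exp_pos _).le
        _ = Real.exp (-T) * T ^ 60000 := by rw [← pow_add]
        _ ≤ 1 := hexp) (by
      have h1 : (8 : ℝ) ≤ T ^ 60000 := h8.trans (pow_le_pow_right₀ hT1 (by norm_num))
      have h2 := Real.exp_pos (-T)
      nlinarith)
  exact ⟨ω, hω, hg₁ ω fun b => hE (.inl b), hg₂ ω fun b => hE (.inr b)⟩

namespace NibData

variable {Q : Type u} [Fintype Q] [DecidableEq Q] {D : NibData Q}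

theorem inv_init (hD : D.Ok) (col : Q → Fin D.k) : D.Inv (NState.init Q D.k) 0 col := by
  have hT0 := hD.big.pos
  have hl := hD.big.log_pos
  constructor
  · intro x c _
    exact one_pos
  · intro x c
    have : 0 ≤ 1 / D.T ^ 100 := by positivity
    show -(1 / D.T ^ 100) ≤ (1 : ℝ)
    linarith
  · intro x c
    show (1 : ℝ) ≤ Real.exp (Real.log D.T / 10 * 0 + 2 * 0)
    simp
  · intro x c
    exact le_refl (0 : ℝ)
  · intro x c
    show (0 : ℝ) ≤ 3
    norm_num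
  · intro x c _
    show (0 : ℝ) ≤ 1
    norm_num
  · intro b x c
    exact le_refl (0 : ℝ)
  · intro x c
    show (0 : ℝ) ≤ Real.log D.T / 20
    positivity
  · intro x c
    show (0 : ℝ) ≤ 1 / 50
    norm_num
  · intro x c
    exact le_refl (0 : ℝ)
  · intro x c _
    show (0 : ℝ) ≤ D.k / D.T ^ 20
    positivity
  · intro b x c _
    show (0 : ℝ) + D.Nf (NState.init Q D.k) 0 b x c ≤
      1 / D.k * (∑ y, D.a b x y) + (0 : ℕ) / D.T ^ 180 + 6 * D.T ^ 3 / D.k * 0
    simp [Nf, NState.init]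
  · intro x
    show |∑ _c : Fin D.k, (1 : ℝ) - D.k| ≤ (0 : ℕ) * D.k / D.T ^ 180
    simp
  · intro x
    show ∑ _c : Fin D.k, (1 : ℝ) * (0 - 2 * 0) ≤ (0 : ℕ) * D.k / D.T ^ 180
    simp
  · intro x
    refine ⟨∅, by simp, fun c hc => absurd trivial hc⟩
  · intro x
    show ∑ _c : Fin D.k, (0 : ℝ) ≤ (0 : ℕ) * D.T ^ 7810
    simp
  · intro x c _ u hu
    exact absurd hu (Nat.not_lt_zero _)
  · intro u y _ hy
    exact absurd hy (Nat.not_lt_zero _)

theorem inv_step (hD : D.Ok) {S : NState Q D.k} {j : ℕ} {col : Q → Fin D.k}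
    (hI : D.Inv S j col) (hj : j < D.q) (ω : Q → Fin D.k) (hw : 0 < wt (D.p S) ω)
    (hG : D.GoodEv S j ω) : D.Inv (D.step S j ω) (j + 1) (D.upd j col ω) where
  al_pos := step_al_pos hD hI hj ω
  v_lo := step_v_lo hD hI hj ω
  v_hi := step_v_hi hD hI hj ω
  be_nonneg := step_be_nonneg hD hI hj ω
  be_le := step_be_le hD hI hj ω
  be_al := step_be_al hD hI hj ω
  ac_nonneg := step_ac_nonneg hD hI hj ω
  ac_true := step_ac_true hD hI hj ω
  ac_false := step_ac_false hD hI hj ω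
  pd_nonneg := step_pd_nonneg hD hI hj ω
  pd_al := step_pd_al hD hI hj ω
  pred := step_pred hD hI hj ω hG
  mass := step_mass hD hI hj ω hG
  bud := step_bud hD hI hj ω hG
  dead := step_dead hD hI hj ω hG
  pds := step_pds hD hI hj ω hG
  sep := step_sep hD hI hj ω
  col_ok := step_col_ok hD hI hj ω hw

/-- The semi-random colouring, together with any auxiliary invariant. -/
theorem nibble (hD : D.Ok) (X : ℕ → (Q → Fin D.k) → Prop) (hX : AuxOK D X) :
    ∃ col : Q → Fin D.k, X D.q col ∧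
      ∀ u y, D.rd u < D.rd y → col u = col y → D.K u y ≠ -1 ∧ D.h u y ≤ 1 := by
  have hk : 0 < D.k := k_pos hD
  have key : ∀ j, j ≤ D.q → ∃ (S : NState Q D.k) (col : Q → Fin D.k),
      D.Inv S j col ∧ X j col := by
    intro j
    induction j with
    | zero =>
      intro _
      exact ⟨NState.init Q D.k, fun _ => ⟨0, hk⟩, inv_init hD _, hX.1 _⟩
    | succ j ih =>
      intro hj
      obtain ⟨S, col, hI, hXj⟩ := ih (Nat.le_of_succ_le hj)
      have hjq : j < D.q := hj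
      have hpm := p_isPM hD hI hjq.le
      obtain ⟨ω, hw, hG, hX'⟩ := StepOK.and_exists hD.big hpm (good_stepOK hD hI hjq)
        (hX.2 j hjq col hXj (D.p S) hpm (p_le hD hI hjq.le))
      exact ⟨D.step S j ω, D.upd j col ω, inv_step hD hI hjq ω hw hG, hX'⟩
  obtain ⟨S, col, hI, hXq⟩ := key D.q le_rfl
  exact ⟨col, hXq, fun u y h hc => hI.col_ok u y h (hD.rd_lt y) hc⟩

end NibData

end Pool.Agent.Acy
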