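import Pool.Agent.Acy.Mgf

/-! # Lower bound by random bipartite graphs (module G8) -/

set_option autoImplicit false
set_option linter.unusedSectionVars false

namespace Pool.Agent.Acy

open Finset
open scoped Classical

universe u

namespace Low

section general

variable {ι α : Type*} [Fintype ι] [DecidableEq ι] [Fintype α] {μ : ι → α → ℝ}

theorem Pr_not (h : IsPM μ) (E : (ι → α) → Prop) : Pr μ (fun ω => ¬ E ω) = 1 - Pr μ E := by
  have h1 : Pr μ E + Pr μ (fun ω => ¬ E ω) = 1 := by
    unfold Pr
    rw [← Ex_add]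
    refine Eq.trans ?_ (Ex_const h 1)
    congr 1
    funext ω
    by_cases hE : E ω <;> simp [hE]
  linarith

theorem exists_of_Pr_lt (h : IsPM μ) {E : (ι → α) → Prop} (hE : Pr μ E < 1) : ∃ ω, ¬ E ω := by
  by_contra hcon
  push Not at hcon
  have : Pr μ E = 1 := by
    unfold Pr
    refine Eq.trans ?_ (Ex_const h 1)
    congr 1
    funext ω
    simp [hcon ω]
  linarith

/-- Events with pairwise disjoint supports are independent. -/
theorem Pr_forall (h : IsPM μ) {κ : Type*} (E : κ → (ι → α) → Prop) (S : κ → Finset ι)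
    (hdep : ∀ b, DependsOn (E b) (S b : Set ι)) (s : Finset κ)
    (hdis : ∀ b ∈ s, ∀ b' ∈ s, b ≠ b' → Disjoint (S b) (S b')) :
    Pr μ (fun ω => ∀ b ∈ s, E b ω) = ∏ b ∈ s, Pr μ (E b) := by
  induction s using Finset.induction_on with
  | empty =>
    rw [Finset.prod_empty]
    refine Eq.trans ?_ (Ex_const h 1)
    unfold Pr
    congr 1
    funext ω
    simp
  | insert b s hb ih =>
    rw [Finset.prod_insert hb, ← ih fun c hc c' hc' hcc =>
      hdis c (Finset.mem_insert_of_mem hc) c' (Finset.mem_insert_of_mem hc') hcc]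
    rw [← Pr_and_disjoint h (hdep b) (T := ((s.biUnion S : Finset ι) : Set ι)) ?_ ?_]
    · congr 1
      funext ω
      rw [Finset.forall_mem_insert]
    · intro x y hxy
      refine propext (forall₂_congr fun b' hb' => ?_)
      have := hdep b' (x := x) (y := y) fun i hi => hxy i (by
        simp only [Finset.coe_biUnion, Set.mem_iUnion]
        exact ⟨b', hb', hi⟩)
      rw [this]
    · rw [Finset.disjoint_coe, Finset.disjoint_biUnion_right]
      intro b' hb'
      exact hdis b (Finset.mem_insert_self b s) b' (Finset.mem_insert_of_mem hb')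
        (fun hh => hb (hh ▸ hb'))

end general

/-- Independent coin flips. -/
noncomputable def coin (ι : Type*) (p : ℝ) : ι → Bool → ℝ := fun _ a => if a then p else 1 - p

section coin

variable {ι : Type*} [Fintype ι] [DecidableEq ι] {p : ℝ}

theorem coin_isPM (h0 : 0 ≤ p) (h1 : p ≤ 1) : IsPM (coin ι p) where
  nonneg i a := by
    cases a
    · simp only [coin]
      simpa using h1
    · simp only [coin]
      simpa using h0
  sum_one i := by
    simp [coin]

theorem Pr_all (W : Finset ι) :
    Pr (coin ι p) (fun ω => ∀ i ∈ W, ω i = true) = p ^ W.card := by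
  have h1 : Pr (coin ι p) (fun ω => ∀ i ∈ W, ω i = true) =
      Ex (coin ι p) (fun ω => ∏ i, (fun (i : ι) (a : Bool) =>
        if i ∈ W then (if a then (1 : ℝ) else 0) else 1) i (ω i)) := by
    unfold Pr
    congr 1
    funext ω
    by_cases hW : ∀ i ∈ W, ω i = true
    · rw [if_pos hW]
      symm
      refine Finset.prod_eq_one fun i _ => ?_
      by_cases hi : i ∈ W
      · simp [hi, hW i hi]
      · simp [hi]
    · rw [if_neg hW]
      push Not at hW
      obtain ⟨i, hi, hne⟩ := hW
      symm
      refine Finset.prod_eq_zero (Finset.mem_univ i) ?_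
      simp [hi, hne]
  rw [h1, Ex_prod (fun (i : ι) (a : Bool) => if i ∈ W then (if a then (1 : ℝ) else 0) else 1)]
  have h2 : ∀ i : ι, ∑ a, coin ι p i a * (if i ∈ W then (if a then (1 : ℝ) else 0) else 1) =
      if i ∈ W then p else 1 := by
    intro i
    by_cases hi : i ∈ W <;> simp [hi, coin]
  rw [Finset.prod_congr rfl fun i _ => h2 i]
  rw [Finset.prod_ite_mem, Finset.univ_inter, Finset.prod_const]

/-- Binomial tail. -/
theorem deg_tail (h0 : 0 ≤ p) (h1 : p ≤ 1) (A : Finset ι) :
    Pr (coin ι p) (fun ω => 2 * (A.card * p) ≤ ((A.filter fun i => ω i = true).card : ℝ)) ≤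
      2 * Real.exp (-(A.card * p / 4)) := by
  have hPM := coin_isPM (ι := ι) h0 h1
  have hmean : ∀ i, mean (coin ι p) (fun i a => if i ∈ A ∧ a = true then (1 : ℝ) else 0) i =
      if i ∈ A then p else 0 := by
    intro i
    unfold mean
    by_cases hi : i ∈ A <;> simp [hi, coin]
  have key := indep_tail hPM (fun i a => if i ∈ A ∧ a = true then (1 : ℝ) else 0) 1 ?_
    (A.card * p) ?_ (1 / 2) (by norm_num) (by norm_num) (A.card * p)
  · refine (Pr_mono hPM ?_).trans (key.trans (le_of_eq ?_))
    · intro ω hω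
      refine le_trans ?_ (le_abs_self _)
      rw [Finset.sum_sub_distrib, Finset.sum_congr rfl fun i _ => hmean i]
      have e1 : ∑ i, (if i ∈ A then p else 0) = A.card * p := by
        rw [Finset.sum_ite_mem, Finset.univ_inter, Finset.sum_const, nsmul_eq_mul]
      have e2 : ∑ i, (if i ∈ A ∧ ω i = true then (1 : ℝ) else 0) =
          ((A.filter fun i => ω i = true).card : ℝ) := by
        rw [Finset.card_filter, Nat.cast_sum]
        rw [← Finset.sum_subset (Finset.subset_univ A)]
        · refine Finset.sum_congr rfl fun i hi => ?_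
          by_cases ho : ω i = true <;> simp [hi, ho]
        · intro i _ hi
          simp [hi]
      rw [e1, e2]
      linarith
    · congr 2
      ring
  · intro i a
    split_ifs <;> norm_num
  · have h3 : ∀ i, ∑ a, coin ι p i a * (if i ∈ A ∧ a = true then (1 : ℝ) else 0) ^ 2 =
        if i ∈ A then p else 0 := by
      intro i
      by_cases hi : i ∈ A <;> simp [hi, coin]
    rw [Finset.sum_congr rfl fun i _ => h3 i, Finset.sum_ite_mem, Finset.univ_inter,
      Finset.sum_const, nsmul_eq_mul]

end coin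

/-- Disjoint monochromatic pairs. -/
theorem exists_pairs {n m : ℕ} (ψ : Fin n → Fin m) : ∀ s : ℕ, m + 2 * s ≤ n + 1 →
    ∃ a : Fin s × Bool → Fin n, Function.Injective a ∧
      ∀ i, ψ (a (i, false)) = ψ (a (i, true)) := by
  intro s
  induction s with
  | zero =>
    intro _
    exact ⟨fun q => q.1.elim0, fun q => q.1.elim0, fun i => i.elim0⟩
  | succ s ih =>
    intro hs
    obtain ⟨a, ha, hψ⟩ := ih (by omega)
    let U : Finset (Fin n) := univ \ (univ.image a)
    have hU : m < U.card := by
      have h1 : (univ.image a).card = s * 2 := by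
        rw [Finset.card_image_of_injective _ ha]
        simp
      have h2 : U.card = n - s * 2 := by
        rw [Finset.card_sdiff_of_subset (Finset.subset_univ _), h1, Finset.card_univ,
          Fintype.card_fin]
      omega
    have hpig : ∃ u ∈ U, ∃ u' ∈ U, u ≠ u' ∧ ψ u = ψ u' := by
      refine Finset.exists_ne_map_eq_of_card_lt_of_maps_to (t := (univ : Finset (Fin m))) ?_
        (fun u _ => Finset.mem_univ _)
      rw [Finset.card_univ, Fintype.card_fin]
      exact hU
    obtain ⟨u, hu, u', hu', hne, he⟩ := hpig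
    have hnot : ∀ v ∈ U, ∀ q, a q ≠ v := by
      intro v hv q hq
      have := (Finset.mem_sdiff.mp hv).2
      exact this (Finset.mem_image.mpr ⟨q, Finset.mem_univ _, hq⟩)
    let g : Fin (s + 1) × Bool → Fin n := fun q =>
      if h : q.1.val < s then a (⟨q.1.val, h⟩, q.2) else (if q.2 then u' else u)
    have g1 : ∀ (i : Fin (s + 1)) (b : Bool) (h : i.val < s), g (i, b) = a (⟨i.val, h⟩, b) :=
      fun i b h => dif_pos h
    have g2 : ∀ (i : Fin (s + 1)) (b : Bool) (h : ¬ i.val < s), g (i, b) = if b then u' else u :=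
      fun i b h => dif_neg h
    refine ⟨g, ?_, ?_⟩
    · rintro ⟨i, b⟩ ⟨i', b'⟩ hq
      by_cases h1 : i.val < s
      · by_cases h2 : i'.val < s
        · rw [g1 i b h1, g1 i' b' h2] at hq
          have := ha hq
          simp only [Prod.mk.injEq, Fin.mk.injEq] at this
          exact Prod.ext (Fin.ext this.1) this.2
        · rw [g1 i b h1, g2 i' b' h2] at hq
          exfalso
          cases b'
          · exact hnot u hu _ hq
          · exact hnot u' hu' _ hq
      · by_cases h2 : i'.val < s
        · rw [g2 i b h1, g1 i' b' h2] at hq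
          exfalso
          cases b
          · exact hnot u hu _ hq.symm
          · exact hnot u' hu' _ hq.symm
        · rw [g2 i b h1, g2 i' b' h2] at hq
          have hi : i = i' := Fin.ext (by have := i.2; have := i'.2; omega)
          refine Prod.ext hi ?_
          cases b <;> cases b'
          · rfl
          · exact absurd hq hne
          · exact absurd hq.symm hne
          · rfl
    · intro i
      by_cases h1 : i.val < s
      · rw [g1 i false h1, g1 i true h1]
        exact hψ _
      · rw [g2 i false h1, g2 i true h1]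
        exact he

/-- The four pairs of two disjoint pairs. -/
def quad {n s : ℕ} (a b : Fin s × Bool → Fin n) (ij : Fin s × Fin s) : Finset (Fin n × Fin n) :=
  (univ : Finset (Bool × Bool)).image fun xy => (a (ij.1, xy.1), b (ij.2, xy.2))

theorem quad_card {n s : ℕ} {a b : Fin s × Bool → Fin n} (ha : Function.Injective a)
    (hb : Function.Injective b) (ij : Fin s × Fin s) : (quad a b ij).card = 4 := by
  unfold quad
  rw [Finset.card_image_of_injective]
  · rfl
  · rintro ⟨x, y⟩ ⟨x', y'⟩ h
    simp only [Prod.mk.injEq] at h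
    have h1 := ha h.1
    have h2 := hb h.2
    simp only [Prod.mk.injEq, true_and] at h1 h2
    exact Prod.ext h1 h2

theorem quad_disjoint {n s : ℕ} {a b : Fin s × Bool → Fin n} (ha : Function.Injective a)
    (hb : Function.Injective b) (ij ij' : Fin s × Fin s) (h : ij ≠ ij') :
    Disjoint (quad a b ij) (quad a b ij') := by
  rw [Finset.disjoint_left]
  intro q hq hq'
  unfold quad at hq hq'
  obtain ⟨xy, -, e1⟩ := Finset.mem_image.mp hq
  obtain ⟨xy', -, e2⟩ := Finset.mem_image.mp hq'
  rw [← e2] at e1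
  simp only [Prod.mk.injEq] at e1
  have h1 := ha e1.1
  have h2 := hb e1.2
  simp only [Prod.mk.injEq] at h1 h2
  exact h (Prod.ext h1.1 h2.1)

theorem Pr_no_cycle {n s : ℕ} {p : ℝ} (h0 : 0 ≤ p) (h1 : p ≤ 1) {a b : Fin s × Bool → Fin n}
    (ha : Function.Injective a) (hb : Function.Injective b) :
    Pr (coin (Fin n × Fin n) p) (fun ω => ∀ ij ∈ (univ : Finset (Fin s × Fin s)),
      ¬ ∀ q ∈ quad a b ij, ω q = true) ≤ Real.exp (-(p ^ 4 * s ^ 2)) := by
  have hPM := coin_isPM (ι := Fin n × Fin n) h0 h1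
  rw [Pr_forall hPM (fun (ij : Fin s × Fin s) ω => ¬ ∀ q ∈ quad a b ij, ω q = true) (quad a b) ?_ _
    (fun ij _ ij' _ h => quad_disjoint ha hb ij ij' h)]
  · have h2 : ∀ ij : Fin s × Fin s, Pr (coin (Fin n × Fin n) p)
        (fun ω => ¬ ∀ q ∈ quad a b ij, ω q = true) ≤ Real.exp (-(p ^ 4)) := by
      intro ij
      rw [Pr_not hPM, Pr_all, quad_card ha hb]
      have := Real.add_one_le_exp (-(p ^ 4))
      linarith
    calc ∏ ij : Fin s × Fin s, Pr (coin (Fin n × Fin n) p)
          (fun ω => ¬ ∀ q ∈ quad a b ij, ω q = true)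
        ≤ ∏ _ij : Fin s × Fin s, Real.exp (-(p ^ 4)) :=
          Finset.prod_le_prod (fun ij _ => Pr_nonneg hPM _) fun ij _ => h2 ij
      _ = Real.exp (-(p ^ 4 * s ^ 2)) := by
          rw [Finset.prod_const, Finset.card_univ, Fintype.card_prod, Fintype.card_fin,
            ← Real.exp_nat_mul]
          congr 1
          push_cast
          ring
  · intro ij x y hxy
    refine propext (not_congr (forall₂_congr fun q hq => ?_))
    rw [hxy q hq]

end Low

open Low in
/-- There is a bipartite graph on `n + n` vertices with all degrees at most `2 p n`,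
`p = 4 (log n / n) ^ (1/4)`, such that any colourings of the two sides with fewer than `n / 2`
colours contain a two-coloured 4-cycle. -/
theorem lower_core : ∃ n₀ : ℕ, ∀ n : ℕ, n₀ ≤ n → ∃ N : Fin n → Finset (Fin n),
    (∀ u, ((N u).card : ℝ) ≤ 8 * (n : ℝ) ^ ((3 : ℝ) / 4) * Real.log n ^ ((1 : ℝ) / 4)) ∧
    (∀ z, ((univ.filter fun u => z ∈ N u).card : ℝ) ≤
      8 * (n : ℝ) ^ ((3 : ℝ) / 4) * Real.log n ^ ((1 : ℝ) / 4)) ∧
    ∀ m : ℕ, 2 * m < n → ∀ (φ ψ : Fin n → Fin m), ∃ u u' z z', u ≠ u' ∧ z ≠ z' ∧
      ψ u = ψ u' ∧ φ z = φ z' ∧ z ∈ N u ∧ z' ∈ N u ∧ z ∈ N u' ∧ z' ∈ N u' := by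
  refine ⟨10 ^ 6, fun n hn => ?_⟩
  have hn6 : (10 : ℝ) ^ 6 ≤ n := by exact_mod_cast hn
  have hn0 : (0 : ℝ) < n := by linarith [hn6]
  -- fourth roots
  obtain ⟨x, hx0, hx4, hx3⟩ : ∃ x : ℝ, 0 < x ∧ x ^ 4 = n ∧ (n : ℝ) ^ ((3 : ℝ) / 4) = x ^ 3 := by
    refine ⟨(n : ℝ) ^ ((1 : ℝ) / 4), Real.rpow_pos_of_pos hn0 _, ?_, ?_⟩
    · rw [← Real.rpow_natCast, ← Real.rpow_mul hn0.le]
      norm_num
    · rw [← Real.rpow_natCast, ← Real.rpow_mul hn0.le]
      norm_num
  have hlog1 : 1 ≤ Real.log n := by
    rw [Real.le_log_iff_exp_le hn0]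
    have := Real.exp_one_lt_d9
    linarith
  have hlog0 : 0 < Real.log n := by linarith
  obtain ⟨y, hy0, hy4, hy1⟩ : ∃ y : ℝ, 0 < y ∧ y ^ 4 = Real.log n ∧
      Real.log n ^ ((1 : ℝ) / 4) = y := by
    refine ⟨Real.log n ^ ((1 : ℝ) / 4), Real.rpow_pos_of_pos hlog0 _, ?_, rfl⟩
    rw [← Real.rpow_natCast, ← Real.rpow_mul hlog0.le]
    norm_num
  have hy1' : 1 ≤ y := by
    by_contra hcon
    push Not at hcon
    have : y ^ 4 < 1 := pow_lt_one₀ hy0.le hcon (by norm_num)
    linarith
  have hx31 : 31 ≤ x := by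
    by_contra hcon
    push Not at hcon
    have : x ^ 4 < 31 ^ 4 := pow_lt_pow_left₀ hcon hx0.le (by norm_num)
    norm_num at this
    linarith
  -- log n <= n / 256
  have hlogn : Real.log n ≤ 4 * x := by
    rw [← hx4, Real.log_pow]
    have := Real.log_le_sub_one_of_pos hx0
    push_cast
    linarith
  obtain ⟨p, hp⟩ : ∃ p : ℝ, p = 4 * y / x := ⟨_, rfl⟩
  have hp0 : 0 ≤ p := by rw [hp]; positivity
  have hp1 : p ≤ 1 := by
    rw [hp, div_le_one hx0]
    by_contra hcon
    push Not at hcon
    have h1 : x ^ 4 < (4 * y) ^ 4 := pow_lt_pow_left₀ hcon hx0.le (by norm_num)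
    have h2 : (4 * y) ^ 4 = 256 * Real.log n := by rw [mul_pow, hy4]; norm_num
    rw [h2] at h1
    have h3 : x ^ 4 < 1024 * x := by linarith
    have h4 : x ^ 4 = x ^ 3 * x := by ring
    rw [h4] at h3
    have h5 : x ^ 3 < 1024 := lt_of_mul_lt_mul_right h3 hx0.le
    have h6 : (31 : ℝ) ^ 3 ≤ x ^ 3 := pow_le_pow_left₀ (by norm_num) hx31 3
    norm_num at h6
    linarith
  have hnp : (n : ℝ) * p = 4 * x ^ 3 * y := by
    rw [hp, ← hx4]
    field_simp
  have hPM := coin_isPM (ι := Fin n × Fin n) hp0 hp1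
  -- the bad events
  let s : ℕ := n / 4
  let row : Fin n → Finset (Fin n × Fin n) := fun u => univ.image fun z => (u, z)
  let colm : Fin n → Finset (Fin n × Fin n) := fun z => univ.image fun u => (u, z)
  have hrow : ∀ u, (row u).card = n := fun u => by
    rw [Finset.card_image_of_injective _ (fun z z' h => (Prod.mk.inj h).2), Finset.card_univ,
      Fintype.card_fin]
  have hcolm : ∀ u, (colm u).card = n := fun u => by
    rw [Finset.card_image_of_injective _ (fun z z' h => (Prod.mk.inj h).1), Finset.card_univ,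
      Fintype.card_fin]
  let E1 : (Fin n × Fin n → Bool) → Prop := fun ω => ∃ u ∈ (univ : Finset (Fin n)),
    2 * ((row u).card * p) ≤ (((row u).filter fun i => ω i = true).card : ℝ)
  let E2 : (Fin n × Fin n → Bool) → Prop := fun ω => ∃ u ∈ (univ : Finset (Fin n)),
    2 * ((colm u).card * p) ≤ (((colm u).filter fun i => ω i = true).card : ℝ)
  let I : Finset ((Fin s × Bool → Fin n) × (Fin s × Bool → Fin n)) :=
    univ.filter fun ab => Function.Injective ab.1 ∧ Function.Injective ab.2
  let E3 : (Fin n × Fin n → Bool) → Prop := fun ω => ∃ ab ∈ I,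
    ∀ ij ∈ (univ : Finset (Fin s × Fin s)), ¬ ∀ q ∈ quad ab.1 ab.2 ij, ω q = true
  have hx6 : Real.exp (-(n * p / 4)) ≤ 1 / (8 * n) := by
    rw [Real.exp_neg, ← one_div]
    refine one_div_le_one_div_of_le (by positivity) ?_
    have h1 : x ^ 3 ≤ n * p / 4 := by
      rw [hnp]
      have : x ^ 3 * 1 ≤ x ^ 3 * y := mul_le_mul_of_nonneg_left hy1' (by positivity)
      linarith
    refine le_trans ?_ (Real.exp_le_exp.mpr h1)
    have h2 := Real.quadratic_le_exp_of_nonneg (x := x ^ 3) (by positivity)
    have h3 : (31 : ℝ) ^ 2 ≤ x ^ 2 := pow_le_pow_left₀ (by norm_num) hx31 2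
    have h4 : (x ^ 3) ^ 2 = x ^ 4 * x ^ 2 := by ring
    rw [h4, hx4] at h2
    have h5 : (n : ℝ) * 16 ≤ n * x ^ 2 := mul_le_mul_of_nonneg_left (by linarith) hn0.le
    have h6 : 0 ≤ x ^ 3 := by positivity
    linarith
  have b1 : Pr (coin (Fin n × Fin n) p) E1 ≤ 1 / 4 := by
    refine (Pr_exists_le hPM _ _).trans ?_
    calc ∑ u : Fin n, Pr (coin (Fin n × Fin n) p) (fun ω => 2 * ((row u).card * p) ≤
          (((row u).filter fun i => ω i = true).card : ℝ))
        ≤ ∑ _u : Fin n, 2 * (1 / (8 * (n : ℝ))) := by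
          refine Finset.sum_le_sum fun u _ => (deg_tail hp0 hp1 (row u)).trans ?_
          rw [hrow u]
          linarith
      _ = 1 / 4 := by
          rw [Finset.sum_const, Finset.card_univ, Fintype.card_fin, nsmul_eq_mul]
          field_simp
          norm_num
  have b2 : Pr (coin (Fin n × Fin n) p) E2 ≤ 1 / 4 := by
    refine (Pr_exists_le hPM _ _).trans ?_
    calc ∑ u : Fin n, Pr (coin (Fin n × Fin n) p) (fun ω => 2 * ((colm u).card * p) ≤
          (((colm u).filter fun i => ω i = true).card : ℝ))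
        ≤ ∑ _u : Fin n, 2 * (1 / (8 * (n : ℝ))) := by
          refine Finset.sum_le_sum fun u _ => (deg_tail hp0 hp1 (colm u)).trans ?_
          rw [hcolm u]
          linarith
      _ = 1 / 4 := by
          rw [Finset.sum_const, Finset.card_univ, Fintype.card_fin, nsmul_eq_mul]
          field_simp
          norm_num
  have hs4 : (n : ℝ) / 4 - 1 ≤ s := by
    have h1 : n ≤ 4 * s + 3 := by
      show n ≤ 4 * (n / 4) + 3
      omega
    have h2 : (n : ℝ) ≤ 4 * s + 3 := by exact_mod_cast h1
    linarith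
  have hs1 : (1 : ℝ) ≤ s := by linarith
  have b3 : Pr (coin (Fin n × Fin n) p) E3 ≤ 1 / 4 := by
    refine (Pr_exists_le hPM _ _).trans ?_
    have hI : (I.card : ℝ) ≤ Real.exp (4 * s * Real.log n) := by
      have h1 : I.card ≤ Fintype.card ((Fin s × Bool → Fin n) × (Fin s × Bool → Fin n)) :=
        (Finset.card_filter_le _ _).trans (le_of_eq Finset.card_univ)
      have h2 : Fintype.card ((Fin s × Bool → Fin n) × (Fin s × Bool → Fin n)) =
          n ^ (4 * s) := by
        rw [Fintype.card_prod, Fintype.card_fun, Fintype.card_fin, Fintype.card_prod,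
          Fintype.card_fin, Fintype.card_bool, ← pow_add]
        congr 1
        ring
      rw [h2] at h1
      have h3 : (I.card : ℝ) ≤ (n : ℝ) ^ (4 * s) := by exact_mod_cast h1
      refine h3.trans (le_of_eq ?_)
      rw [← Real.rpow_natCast, Real.rpow_def_of_pos hn0]
      congr 1
      push_cast
      ring
    calc ∑ ab ∈ I, Pr (coin (Fin n × Fin n) p) (fun ω =>
          ∀ ij ∈ (univ : Finset (Fin s × Fin s)), ¬ ∀ q ∈ quad ab.1 ab.2 ij, ω q = true)
        ≤ ∑ _ab ∈ I, Real.exp (-(p ^ 4 * s ^ 2)) := by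
          refine Finset.sum_le_sum fun ab hab => ?_
          have := (Finset.mem_filter.mp hab).2
          exact Pr_no_cycle hp0 hp1 this.1 this.2
      _ = I.card * Real.exp (-(p ^ 4 * s ^ 2)) := by
          rw [Finset.sum_const, nsmul_eq_mul]
      _ ≤ Real.exp (4 * s * Real.log n) * Real.exp (-(p ^ 4 * s ^ 2)) :=
          mul_le_mul_of_nonneg_right hI (Real.exp_pos _).le
      _ = Real.exp (4 * s * Real.log n - p ^ 4 * s ^ 2) := by
          rw [← Real.exp_add]
          congr 1
      _ ≤ Real.exp (-2) := by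
          refine Real.exp_le_exp.mpr ?_
          have hp4 : p ^ 4 = 256 * Real.log n / n := by
            rw [hp, div_pow, mul_pow, hy4, hx4]
            norm_num
          have h1 : 8 * Real.log n ≤ p ^ 4 * s := by
            rw [hp4, div_mul_eq_mul_div, le_div_iff₀ hn0]
            have h2 : (n : ℝ) / 32 ≤ s := by linarith
            have h3 : 256 * Real.log n * (n / 32) ≤ 256 * Real.log n * s :=
              mul_le_mul_of_nonneg_left h2 (by positivity)
            linarith
          have h2 : 8 * Real.log n * s ≤ p ^ 4 * s * s :=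
            mul_le_mul_of_nonneg_right h1 (by linarith)
          have h3 : 1 * 1 ≤ Real.log n * s := mul_le_mul hlog1 hs1 (by norm_num) hlog0.le
          nlinarith
      _ ≤ 1 / 4 := by
          have h1 := Real.add_one_le_exp (2 : ℝ)
          have h2 : (4 : ℝ) ≤ Real.exp 2 := by
            have h3 := Real.quadratic_le_exp_of_nonneg (x := 2) (by norm_num)
            norm_num at h3
            linarith
          rw [Real.exp_neg, ← one_div]
          exact one_div_le_one_div_of_le (by norm_num) h2
  have htot : Pr (coin (Fin n × Fin n) p) (fun ω => (E1 ω ∨ E2 ω) ∨ E3 ω) < 1 := by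
    have h1 := Pr_or_le hPM (fun ω => E1 ω ∨ E2 ω) E3
    have h2 := Pr_or_le hPM E1 E2
    linarith
  obtain ⟨ω, hω⟩ := exists_of_Pr_lt hPM htot
  push Not at hω
  obtain ⟨⟨h1, h2⟩, h3⟩ := hω
  refine ⟨fun u => univ.filter fun z => ω (u, z) = true, ?_, ?_, ?_⟩
  · intro u
    have e1 : ((univ.filter fun z => ω (u, z) = true).card : ℝ) =
        (((row u).filter fun i => ω i = true).card : ℝ) := by
      congr 1
      have : (row u).filter (fun i => ω i = true) =
          (univ.filter fun z => ω (u, z) = true).image fun z => (u, z) := by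
        ext ⟨v, z⟩
        simp only [row, Finset.mem_filter, Finset.mem_image, Finset.mem_univ, true_and,
          Prod.mk.injEq]
        constructor
        · rintro ⟨⟨z', rfl, rfl⟩, h⟩
          exact ⟨z', h, rfl, rfl⟩
        · rintro ⟨z', h, rfl, rfl⟩
          exact ⟨⟨z', rfl, rfl⟩, h⟩
      rw [this, Finset.card_image_of_injective _ (fun z z' h => (Prod.mk.inj h).2)]
    rw [e1, hx3, hy1]
    by_contra hcon
    push Not at hcon
    refine h1 ⟨u, Finset.mem_univ _, ?_⟩
    rw [hrow u, hnp]
    linarith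
  · intro z
    have e1 : ((univ.filter fun u => z ∈ univ.filter fun z => ω (u, z) = true).card : ℝ) =
        (((colm z).filter fun i => ω i = true).card : ℝ) := by
      congr 1
      have : (colm z).filter (fun i => ω i = true) =
          (univ.filter fun u => z ∈ univ.filter fun z => ω (u, z) = true).image
            fun u => (u, z) := by
        ext ⟨v, z'⟩
        simp only [colm, Finset.mem_filter, Finset.mem_image, Finset.mem_univ, true_and,
          Prod.mk.injEq]
        constructor
        · rintro ⟨⟨u, rfl, rfl⟩, h⟩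
          exact ⟨u, h, rfl, rfl⟩
        · rintro ⟨u, h, rfl, rfl⟩
          exact ⟨⟨u, rfl, rfl⟩, h⟩
      rw [this, Finset.card_image_of_injective _ (fun z z' h => (Prod.mk.inj h).1)]
    rw [e1, hx3, hy1]
    by_contra hcon
    push Not at hcon
    refine h2 ⟨z, Finset.mem_univ _, ?_⟩
    rw [hcolm z, hnp]
    linarith
  · intro m hm φ ψ
    have hms : m + 2 * s ≤ n + 1 := by
      show m + 2 * (n / 4) ≤ n + 1
      omega
    obtain ⟨a, ha, hψ⟩ := exists_pairs ψ s hms
    obtain ⟨b, hb, hφ⟩ := exists_pairs φ s hms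
    have h4 : ∃ ij : Fin s × Fin s, ∀ q ∈ quad a b ij, ω q = true := by
      by_contra hcon
      push Not at hcon
      refine h3 ⟨(a, b), Finset.mem_filter.mpr ⟨Finset.mem_univ _, ha, hb⟩, fun ij _ hall => ?_⟩
      obtain ⟨q, hq, hne⟩ := hcon ij
      exact hne (hall q hq)
    obtain ⟨ij, hij⟩ := h4
    have hmem : ∀ x y : Bool, ω (a (ij.1, x), b (ij.2, y)) = true := fun x y =>
      hij _ (Finset.mem_image.mpr ⟨(x, y), Finset.mem_univ _, rfl⟩)
    refine ⟨a (ij.1, false), a (ij.1, true), b (ij.2, false), b (ij.2, true), ?_, ?_, hψ _, hφ _,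
      ?_, ?_, ?_, ?_⟩
    · intro h
      have := ha h
      simp at this
    · intro h
      have := hb h
      simp at this
    all_goals exact Finset.mem_filter.mpr ⟨Finset.mem_univ _, hmem _ _⟩

end Pool.Agent.Acy
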