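import Pool.Agent.Acy.Prod

/-! # Bernstein type bounds by exposing coordinates one at a time (module 2b of MP_af9dfb_co) -/

set_option autoImplicit false
set_option linter.unusedSectionVars false
set_option linter.unusedVariables false

namespace Pool.Agent.Acy

open Finset
open scoped Classical

section

variable {ι α : Type*} [Fintype ι] [DecidableEq ι] [Fintype α]

/-- One step of the exponential moment bound. -/
theorem mgf_step {μ : α → ℝ} (hμ : ∀ a, 0 ≤ μ a) (h1 : ∑ a, μ a = 1) (G : α → ℝ) (c s b l : ℝ)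
    (hmart : ∑ a, μ a * G a = c) (hb : ∀ a, |G a - c| ≤ b)
    (hs : ∑ a, μ a * (G a - c) ^ 2 ≤ s) (hl : |l| * b ≤ 1) :
    ∑ a, μ a * Real.exp (l * (G a - c)) ≤ Real.exp (l ^ 2 * s) := by
  have h2 : ∀ a, Real.exp (l * (G a - c)) ≤ 1 + l * (G a - c) + l ^ 2 * (G a - c) ^ 2 := by
    intro a
    have habs : |l * (G a - c)| ≤ 1 := by
      rw [abs_mul]
      exact (mul_le_mul_of_nonneg_left (hb a) (abs_nonneg l)).trans hl
    have := (abs_le.mp (Real.abs_exp_sub_one_sub_id_le habs)).2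
    nlinarith
  calc ∑ a, μ a * Real.exp (l * (G a - c))
      ≤ ∑ a, μ a * (1 + l * (G a - c) + l ^ 2 * (G a - c) ^ 2) :=
        Finset.sum_le_sum fun a _ => mul_le_mul_of_nonneg_left (h2 a) (hμ a)
    _ = ∑ a, (μ a * (1 - l * c) + l * (μ a * G a) + l ^ 2 * (μ a * (G a - c) ^ 2)) :=
        Finset.sum_congr rfl fun a _ => by ring
    _ = (1 - l * c) + l * c + l ^ 2 * ∑ a, μ a * (G a - c) ^ 2 := by
        rw [Finset.sum_add_distrib, Finset.sum_add_distrib, ← Finset.sum_mul, h1, one_mul,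
          ← Finset.mul_sum, hmart, ← Finset.mul_sum]
    _ ≤ 1 + l ^ 2 * s := by
        have := mul_le_mul_of_nonneg_left hs (sq_nonneg l)
        linarith
    _ ≤ Real.exp (l ^ 2 * s) := by
        have := Real.add_one_le_exp (l ^ 2 * s)
        linarith

/-- Exponential moment of an exposure martingale. -/
theorem mgf {μ : ι → α → ℝ} (h : IsPM μ) (z : ℕ → ι) (n : ℕ) (hz : Set.InjOn z (Set.Iio n))
    (F : ℕ → (ι → α) → ℝ) (s : ℕ → ℝ)
    (hdep : ∀ t ≤ n, DependsOn (F t) {i | ∃ u < t, z u = i})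
    (hmart : ∀ t < n, ∀ ω, ∑ a, μ (z t) a * F (t + 1) (Function.update ω (z t) a) = F t ω)
    (b : ℝ) (hb : ∀ t < n, ∀ ω a, |F (t + 1) (Function.update ω (z t) a) - F t ω| ≤ b)
    (hs : ∀ t < n, ∀ ω,
      ∑ a, μ (z t) a * (F (t + 1) (Function.update ω (z t) a) - F t ω) ^ 2 ≤ s t)
    (l : ℝ) (hl : |l| * b ≤ 1) :
    Ex μ (fun ω => Real.exp (l * (F n ω - F 0 ω))) ≤
      Real.exp (l ^ 2 * ∑ t ∈ range n, s t) := by
  have h0 : ∀ ω ω', F 0 ω = F 0 ω' := fun ω ω' => hdep 0 (Nat.zero_le n) fun i hi => by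
    obtain ⟨u, hu, -⟩ := hi
    exact absurd hu (Nat.not_lt_zero u)
  clear hdep hz
  induction n with
  | zero =>
    simp only [sub_self, mul_zero, Real.exp_zero, Finset.range_zero, Finset.sum_empty]
    rw [Ex_const h]
  | succ n ih =>
    have ih' := ih (fun t ht => hmart t (Nat.lt_succ_of_lt ht))
      (fun t ht => hb t (Nat.lt_succ_of_lt ht)) (fun t ht => hs t (Nat.lt_succ_of_lt ht))
    rw [Ex_resample h (z n)]
    have hstep : ∀ ω, ∑ a, μ (z n) a *
        Real.exp (l * (F (n + 1) (Function.update ω (z n) a) - F 0 (Function.update ω (z n) a))) ≤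
        Real.exp (l * (F n ω - F 0 ω)) * Real.exp (l ^ 2 * s n) := by
      intro ω
      have h1 := mgf_step (μ := μ (z n)) (h.nonneg (z n)) (h.sum_one (z n))
        (fun a => F (n + 1) (Function.update ω (z n) a)) (F n ω) (s n) b l
        (hmart n (Nat.lt_succ_self n) ω) (hb n (Nat.lt_succ_self n) ω)
        (hs n (Nat.lt_succ_self n) ω) hl
      calc ∑ a, μ (z n) a *
            Real.exp (l * (F (n + 1) (Function.update ω (z n) a) -
              F 0 (Function.update ω (z n) a)))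
          = Real.exp (l * (F n ω - F 0 ω)) * ∑ a, μ (z n) a *
            Real.exp (l * (F (n + 1) (Function.update ω (z n) a) - F n ω)) := by
            rw [Finset.mul_sum]
            refine Finset.sum_congr rfl fun a _ => ?_
            rw [h0 (Function.update ω (z n) a) ω]
            have : l * (F (n + 1) (Function.update ω (z n) a) - F 0 ω) =
                l * (F n ω - F 0 ω) + l * (F (n + 1) (Function.update ω (z n) a) - F n ω) := by
              ring
            rw [this, Real.exp_add]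
            ring
        _ ≤ _ := mul_le_mul_of_nonneg_left h1 (Real.exp_pos _).le
    refine (Ex_mono h hstep).trans ?_
    rw [Ex_mul_right, Finset.sum_range_succ, mul_add, Real.exp_add]
    exact mul_le_mul_of_nonneg_right ih' (Real.exp_pos _).le

/-- One sided tail. -/
theorem upper_tail {μ : ι → α → ℝ} (h : IsPM μ) (X : (ι → α) → ℝ) (l S τ : ℝ) (hl0 : 0 ≤ l)
    (hE : Ex μ (fun ω => Real.exp (l * X ω)) ≤ Real.exp (l ^ 2 * S)) :
    Pr μ (fun ω => τ ≤ X ω) ≤ Real.exp (l ^ 2 * S - l * τ) := by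
  have h1 : Pr μ (fun ω => τ ≤ X ω) ≤
      Pr μ (fun ω => Real.exp (l * τ) ≤ Real.exp (l * X ω)) :=
    Pr_mono h fun ω hω => Real.exp_le_exp.mpr (mul_le_mul_of_nonneg_left hω hl0)
  have h2 := Pr_markov h (f := fun ω => Real.exp (l * X ω)) (fun ω => (Real.exp_pos _).le)
    (Real.exp_pos (l * τ))
  refine h1.trans (h2.trans ?_)
  rw [Real.exp_sub]
  exact div_le_div_of_nonneg_right hE (Real.exp_pos _).le

/-- Two sided tail of an exposure martingale. -/
theorem mart_tail {μ : ι → α → ℝ} (h : IsPM μ) (z : ℕ → ι) (n : ℕ)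
    (hz : Set.InjOn z (Set.Iio n)) (F : ℕ → (ι → α) → ℝ) (s : ℕ → ℝ)
    (hdep : ∀ t ≤ n, DependsOn (F t) {i | ∃ u < t, z u = i})
    (hmart : ∀ t < n, ∀ ω, ∑ a, μ (z t) a * F (t + 1) (Function.update ω (z t) a) = F t ω)
    (b : ℝ) (hb : ∀ t < n, ∀ ω a, |F (t + 1) (Function.update ω (z t) a) - F t ω| ≤ b)
    (hs : ∀ t < n, ∀ ω,
      ∑ a, μ (z t) a * (F (t + 1) (Function.update ω (z t) a) - F t ω) ^ 2 ≤ s t)
    (l : ℝ) (hl0 : 0 ≤ l) (hl : l * b ≤ 1) (τ : ℝ) :
    Pr μ (fun ω => τ ≤ |F n ω - F 0 ω|) ≤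
      2 * Real.exp (l ^ 2 * (∑ t ∈ range n, s t) - l * τ) := by
  have hp := mgf h z n hz F s hdep hmart b hb hs l (by rwa [abs_of_nonneg hl0])
  have hm := mgf h z n hz F s hdep hmart b hb hs (-l) (by rwa [abs_neg, abs_of_nonneg hl0])
  have hm' : Ex μ (fun ω => Real.exp (l * (-(F n ω - F 0 ω)))) ≤
      Real.exp (l ^ 2 * ∑ t ∈ range n, s t) := by
    have e1 : (fun ω => Real.exp (l * (-(F n ω - F 0 ω)))) =
        fun ω => Real.exp (-l * (F n ω - F 0 ω)) := by
      funext ω
      congr 1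
      ring
    rw [e1]
    rwa [neg_sq] at hm
  have t1 := upper_tail h (fun ω => F n ω - F 0 ω) l _ τ hl0 hp
  have t2 := upper_tail h (fun ω => -(F n ω - F 0 ω)) l _ τ hl0 hm'
  have h3 : Pr μ (fun ω => τ ≤ |F n ω - F 0 ω|) ≤
      Pr μ (fun ω => τ ≤ F n ω - F 0 ω) + Pr μ (fun ω => τ ≤ -(F n ω - F 0 ω)) :=
    (Pr_mono h fun ω hω => le_abs.mp hω).trans (Pr_or_le h _ _)
  linarith

/-- Mean of a function of one coordinate. -/
noncomputable def mean (μ : ι → α → ℝ) (Y : ι → α → ℝ) (i : ι) : ℝ := ∑ a, μ i a * Y i a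

/-- Bernstein bound for a sum of functions of single coordinates. -/
theorem indep_tail {μ : ι → α → ℝ} (h : IsPM μ) (Y : ι → α → ℝ) (b : ℝ)
    (hb : ∀ i a, |Y i a| ≤ b) (V : ℝ) (hV : ∑ i, ∑ a, μ i a * Y i a ^ 2 ≤ V)
    (l : ℝ) (hl0 : 0 ≤ l) (hl : 2 * (l * b) ≤ 1) (τ : ℝ) :
    Pr μ (fun ω => τ ≤ |∑ i, (Y i (ω i) - mean μ Y i)|) ≤
      2 * Real.exp (l ^ 2 * V - l * τ) := by
  have hsq : ∀ i, 0 ≤ ∑ a, μ i a * Y i a ^ 2 := fun i =>
    Finset.sum_nonneg fun a _ => mul_nonneg (h.nonneg i a) (sq_nonneg _)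
  have hV0 : 0 ≤ V := (Finset.sum_nonneg fun i _ => hsq i).trans hV
  by_cases hτ : τ ≤ 0
  · have h1 : 0 ≤ l ^ 2 * V - l * τ := by
      have a1 := mul_nonneg (sq_nonneg l) hV0
      have a2 := mul_nonneg hl0 (neg_nonneg.mpr hτ)
      linarith
    have h2 := Real.one_le_exp h1
    have h3 := Pr_le_one h (fun ω => τ ≤ |∑ i, (Y i (ω i) - mean μ Y i)|)
    linarith
  push Not at hτ
  rcases isEmpty_or_nonempty ι with hι | hι
  · have h1 : Pr μ (fun ω => τ ≤ |∑ i, (Y i (ω i) - mean μ Y i)|) = 0 := by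
      unfold Pr Ex
      refine Finset.sum_eq_zero fun ω _ => ?_
      have : ¬ τ ≤ |∑ i, (Y i (ω i) - mean μ Y i)| := by
        simp only [Finset.univ_eq_empty, Finset.sum_empty, abs_zero]
        exact not_le.mpr hτ
      show wt μ ω * (if τ ≤ |∑ i, (Y i (ω i) - mean μ Y i)| then (1 : ℝ) else 0) = 0
      rw [if_neg this, mul_zero]
    rw [h1]
    positivity
  -- enumeration of the coordinates
  let e := (Fintype.equivFin ι).symm
  let N := Fintype.card ι
  let z : ℕ → ι := fun t => if ht : t < N then e ⟨t, ht⟩ else Classical.arbitrary ι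
  have hz : Set.InjOn z (Set.Iio N) := by
    intro u hu v hv huv
    have hu' : u < N := hu
    have hv' : v < N := hv
    simp only [z, dif_pos hu', dif_pos hv'] at huv
    have := e.injective huv
    simpa using this
  let F : ℕ → (ι → α) → ℝ := fun t ω => ∑ u ∈ range t, (Y (z u) (ω (z u)) - mean μ Y (z u))
  have hupd : ∀ t < N, ∀ ω a, F (t + 1) (Function.update ω (z t) a) - F t ω =
      Y (z t) a - mean μ Y (z t) := by
    intro t ht ω a
    have h1 : ∑ u ∈ range t, (Y (z u) (Function.update ω (z t) a (z u)) - mean μ Y (z u)) =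
        ∑ u ∈ range t, (Y (z u) (ω (z u)) - mean μ Y (z u)) := by
      refine Finset.sum_congr rfl fun u hu => ?_
      have hut := Finset.mem_range.mp hu
      have hne : z u ≠ z t := fun hzz => by
        have := hz (Set.mem_Iio.mpr (hut.trans ht)) (Set.mem_Iio.mpr ht) hzz
        omega
      rw [Function.update_of_ne hne]
    simp only [F, Finset.sum_range_succ, Function.update_self]
    rw [h1]
    ring
  have habs : ∀ i, |mean μ Y i| ≤ b := by
    intro i
    unfold mean
    calc |∑ a, μ i a * Y i a| ≤ ∑ a, |μ i a * Y i a| := Finset.abs_sum_le_sum_abs _ _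
      _ ≤ ∑ a, μ i a * b := Finset.sum_le_sum fun a _ => by
          rw [abs_mul, abs_of_nonneg (h.nonneg i a)]
          exact mul_le_mul_of_nonneg_left (hb i a) (h.nonneg i a)
      _ = b := by rw [← Finset.sum_mul, h.sum_one, one_mul]
  have hvar : ∀ i, ∑ a, μ i a * (Y i a - mean μ Y i) ^ 2 ≤ ∑ a, μ i a * Y i a ^ 2 := by
    intro i
    have h1 : ∑ a, μ i a * (Y i a - mean μ Y i) ^ 2 =
        ∑ a, μ i a * Y i a ^ 2 - (mean μ Y i) ^ 2 := by
      calc ∑ a, μ i a * (Y i a - mean μ Y i) ^ 2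
          = ∑ a, (μ i a * Y i a ^ 2 - 2 * mean μ Y i * (μ i a * Y i a) +
              mean μ Y i ^ 2 * μ i a) := Finset.sum_congr rfl fun a _ => by ring
        _ = ∑ a, μ i a * Y i a ^ 2 - 2 * mean μ Y i * ∑ a, μ i a * Y i a +
              mean μ Y i ^ 2 * ∑ a, μ i a := by
            rw [Finset.sum_add_distrib, Finset.sum_sub_distrib, ← Finset.mul_sum,
              ← Finset.mul_sum]
        _ = _ := by
            rw [h.sum_one]
            have : ∑ a, μ i a * Y i a = mean μ Y i := rfl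
            rw [this]
            ring
    rw [h1]
    have := sq_nonneg (mean μ Y i)
    linarith
  have hsum : ∀ f : ι → ℝ, ∑ u ∈ range N, f (z u) = ∑ i, f i := by
    intro f
    rw [Finset.sum_range, ← e.sum_comp f]
    refine Finset.sum_congr rfl fun u _ => ?_
    simp only [z, dif_pos u.isLt]
    rfl
  have hkey := mart_tail h z N hz F (fun t => ∑ a, μ (z t) a * Y (z t) a ^ 2)
    (fun t ht x y hxy => by
      refine Finset.sum_congr rfl fun u hu => ?_
      rw [hxy (z u) ⟨u, Finset.mem_range.mp hu, rfl⟩])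
    (fun t ht ω => by
      have h1 : ∀ a, F (t + 1) (Function.update ω (z t) a) =
          F t ω + (Y (z t) a - mean μ Y (z t)) := fun a => by
        have := hupd t ht ω a
        linarith
      have h2 : ∑ a, μ (z t) a * F (t + 1) (Function.update ω (z t) a) =
          ∑ a, (μ (z t) a * (F t ω - mean μ Y (z t)) + μ (z t) a * Y (z t) a) :=
        Finset.sum_congr rfl fun a _ => by rw [h1 a]; ring
      rw [h2, Finset.sum_add_distrib, ← Finset.sum_mul, h.sum_one, one_mul]
      have : ∑ a, μ (z t) a * Y (z t) a = mean μ Y (z t) := rfl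
      rw [this]
      ring)
    (2 * b)
    (fun t ht ω a => by
      rw [hupd t ht ω a]
      have h1 := abs_le.mp (hb (z t) a)
      have h2 := abs_le.mp (habs (z t))
      rw [abs_le]
      constructor <;> linarith [h1.1, h1.2, h2.1, h2.2])
    (fun t ht ω => by
      have h1 : ∑ a, μ (z t) a * (F (t + 1) (Function.update ω (z t) a) - F t ω) ^ 2 =
          ∑ a, μ (z t) a * (Y (z t) a - mean μ Y (z t)) ^ 2 :=
        Finset.sum_congr rfl fun a _ => by rw [hupd t ht ω a]
      rw [h1]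
      exact hvar (z t))
    l hl0 (by linarith) τ
  have hFN : ∀ ω, F N ω - F 0 ω = ∑ i, (Y i (ω i) - mean μ Y i) := by
    intro ω
    have h1 : F N ω = ∑ i, (Y i (ω i) - mean μ Y i) :=
      hsum (fun i => Y i (ω i) - mean μ Y i)
    have h2 : F 0 ω = 0 := by simp [F]
    rw [h1, h2, sub_zero]
  simp only [hFN] at hkey
  refine hkey.trans ?_
  have h3 : ∑ t ∈ range N, ∑ a, μ (z t) a * Y (z t) a ^ 2 ≤ V := by
    rw [hsum (fun i => ∑ a, μ i a * Y i a ^ 2)]
    exact hV
  have h4 := mul_le_mul_of_nonneg_left h3 (sq_nonneg l)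
  have h5 : Real.exp (l ^ 2 * (∑ t ∈ range N, ∑ a, μ (z t) a * Y (z t) a ^ 2) - l * τ) ≤
      Real.exp (l ^ 2 * V - l * τ) := Real.exp_le_exp.mpr (by linarith)
  linarith

end

end Pool.Agent.Acy
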