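import Pool.Agent.Acy.CountT
import Pool.Agent.Acy.GDefs

/-! # Counting monochromatic configurations (project MP_af9dfb_co, used in G3)

`Z u i` (`i : Fin r`, `u` in an index type `Ω`) are sets of vertices; `mono_tail` bounds the number
of `u` such that there are distinct `z i ∈ Z u i` of the same colour. -/

set_option autoImplicit false
set_option linter.unusedSectionVars false

namespace Pool.Agent.Acy

open Finset
open scoped Classical

universe u

/-- The extension sums from the sums over ordered partial assignments. -/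
theorem ext_ordered {ι α : Type*} [Fintype ι] [DecidableEq ι] [Fintype α] [DecidableEq α]
    {κ : Type*} [Fintype κ] {r : ℕ} (hr : r ≤ 3) (π : ι → α → ℝ) (hπ : ∀ i a, 0 ≤ π i a)
    (w : κ → ℝ) (hw : ∀ U, 0 ≤ w U) (t : κ → Fin r → ι × α)
    (hinj : ∀ U, w U ≠ 0 → Function.Injective (t U)) (M : ℝ) (hM : 0 ≤ M)
    (hJ : ∀ (J : Finset (Fin r)) (a : Fin r → ι × α),
      ∑ U, (if ∀ i ∈ J, t U i = a i then w U * ∏ i ∈ Jᶜ, π (t U i).1 (t U i).2 else 0) ≤ M)
    (W : Finset (ι × α)) : ext π w (fun U => univ.image (t U)) W ≤ 27 * M := by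
  -- the bound for a fixed placement `g`
  have hg : ∀ g : W → Fin r, Function.Injective g →
      ∑ U, (if ∀ q : W, t U (g q) = q.1 then w U * ∏ i ∈ (univ.image g)ᶜ, π (t U i).1 (t U i).2
        else 0) ≤ M := by
    intro g hginj
    by_cases hW : Nonempty W
    · let a : Fin r → ι × α := fun i => if h : ∃ q, g q = i then (h.choose : W).1 else hW.some.1
      have ha : ∀ q, a (g q) = q.1 := by
        intro q
        have h : ∃ q', g q' = g q := ⟨q, rfl⟩
        show (if h : ∃ q', g q' = g q then (h.choose : W).1 else hW.some.1) = q.1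
        rw [dif_pos h]
        exact congrArg Subtype.val (hginj h.choose_spec)
      refine le_trans (le_of_eq ?_) (hJ (univ.image g) a)
      refine Finset.sum_congr rfl fun U _ => ?_
      have hiff : (∀ q : W, t U (g q) = q.1) ↔ ∀ i ∈ univ.image g, t U i = a i := by
        constructor
        · intro h i hi
          obtain ⟨q, _, rfl⟩ := Finset.mem_image.mp hi
          rw [h q, ha q]
        · intro h q
          rw [h _ (Finset.mem_image_of_mem g (Finset.mem_univ q)), ha q]
      simp only [hiff]
    · have hemp : IsEmpty W := not_nonempty_iff.mp hW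
      have himg : univ.image g = ∅ := by
        rw [Finset.image_eq_empty]
        exact Finset.univ_eq_empty
      by_cases hr0 : Nonempty (ι × α)
      · refine le_trans (le_of_eq ?_) (hJ ∅ fun _ => hr0.some)
        refine Finset.sum_congr rfl fun U _ => ?_
        rw [himg]
        simp
      · have hα : IsEmpty (ι × α) := not_nonempty_iff.mp hr0
        rcases Nat.eq_zero_or_pos r with h0 | h0
        · subst h0
          refine le_trans (le_of_eq ?_) (hJ ∅ fun i => i.elim0)
          refine Finset.sum_congr rfl fun U _ => ?_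
          rw [himg]
          simp
        · have : IsEmpty κ := ⟨fun U => hα.elim (t U ⟨0, h0⟩)⟩
          rw [Finset.univ_eq_empty, Finset.sum_empty]
          exact hM
  -- sum over the placements
  have hterm : ∀ U, (if W ⊆ univ.image (t U) then w U * ∏ q ∈ univ.image (t U) \ W, π q.1 q.2
      else 0) ≤ ∑ g ∈ (univ : Finset (W → Fin r)).filter (fun g => Function.Injective g),
        (if ∀ q : W, t U (g q) = q.1 then w U * ∏ i ∈ (univ.image g)ᶜ, π (t U i).1 (t U i).2
          else 0) := by
    intro U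
    have hnn : ∀ g ∈ (univ : Finset (W → Fin r)).filter (fun g => Function.Injective g),
        0 ≤ (if ∀ q : W, t U (g q) = q.1 then w U * ∏ i ∈ (univ.image g)ᶜ, π (t U i).1 (t U i).2
          else 0) := by
      intro g _
      split_ifs
      · exact mul_nonneg (hw U) (Finset.prod_nonneg fun i _ => hπ _ _)
      · exact le_rfl
    by_cases hsub : W ⊆ univ.image (t U)
    · by_cases hw0 : w U = 0
      · have h0 : (if W ⊆ univ.image (t U) then w U * ∏ q ∈ univ.image (t U) \ W, π q.1 q.2
            else 0) = 0 := by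
          rw [if_pos hsub, hw0, zero_mul]
        rw [h0]
        exact Finset.sum_nonneg hnn
      · have hinjU := hinj U hw0
        have hex : ∀ q : W, ∃ i, t U i = q.1 := by
          intro q
          obtain ⟨i, _, hi⟩ := Finset.mem_image.mp (hsub q.2)
          exact ⟨i, hi⟩
        choose g hgt using hex
        have hginj : Function.Injective g := by
          intro q q' hqq
          apply Subtype.ext
          rw [← hgt q, ← hgt q', hqq]
        rw [if_pos hsub]
        refine le_trans (le_of_eq ?_) (Finset.single_le_sum hnn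
          (Finset.mem_filter.mpr ⟨Finset.mem_univ g, hginj⟩))
        rw [if_pos hgt]
        congr 1
        have himg : univ.image (t U) \ W = ((univ.image g)ᶜ).image (t U) := by
          ext q
          rw [Finset.mem_sdiff, Finset.mem_image, Finset.mem_image]
          constructor
          · rintro ⟨⟨i, _, rfl⟩, hq⟩
            refine ⟨i, ?_, rfl⟩
            rw [Finset.mem_compl, Finset.mem_image]
            rintro ⟨q', _, rfl⟩
            apply hq
            rw [hgt q']
            exact q'.2
          · rintro ⟨i, hi, rfl⟩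
            refine ⟨⟨i, Finset.mem_univ i, rfl⟩, fun hq => ?_⟩
            rw [Finset.mem_compl, Finset.mem_image] at hi
            exact hi ⟨⟨t U i, hq⟩, Finset.mem_univ _, hinjU (hgt ⟨t U i, hq⟩)⟩
        rw [himg, Finset.prod_image fun i _ i' _ h => hinjU h]
    · rw [if_neg hsub]
      exact Finset.sum_nonneg hnn
  have hcard : (((univ : Finset (W → Fin r)).filter (fun g => Function.Injective g)).card : ℝ) ≤
      27 := by
    have h1 : ((univ : Finset (W → Fin r)).filter (fun g => Function.Injective g)).card ≤ 27 := by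
      by_cases hc : Fintype.card W ≤ r
      · calc _ ≤ (univ : Finset (W → Fin r)).card := Finset.card_filter_le _ _
          _ = r ^ Fintype.card W := by
            rw [Finset.card_univ, Fintype.card_fun, Fintype.card_fin]
          _ ≤ 27 := by
            interval_cases r <;> interval_cases (Fintype.card W) <;> norm_num
      · have : (univ : Finset (W → Fin r)).filter (fun g => Function.Injective g) = ∅ := by
          rw [Finset.filter_eq_empty_iff]
          intro g _ hgi
          apply hc
          have := Fintype.card_le_of_injective g hgi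
          rwa [Fintype.card_fin] at this
        rw [this]
        norm_num
    exact_mod_cast h1
  calc ext π w (fun U => univ.image (t U)) W
      ≤ ∑ U, ∑ g ∈ (univ : Finset (W → Fin r)).filter (fun g => Function.Injective g),
        (if ∀ q : W, t U (g q) = q.1 then w U * ∏ i ∈ (univ.image g)ᶜ, π (t U i).1 (t U i).2
          else 0) := Finset.sum_le_sum fun U _ => hterm U
    _ = ∑ g ∈ (univ : Finset (W → Fin r)).filter (fun g => Function.Injective g), ∑ U,
        (if ∀ q : W, t U (g q) = q.1 then w U * ∏ i ∈ (univ.image g)ᶜ, π (t U i).1 (t U i).2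
          else 0) := Finset.sum_comm
    _ ≤ ∑ _g ∈ (univ : Finset (W → Fin r)).filter (fun g => Function.Injective g), M :=
        Finset.sum_le_sum fun g hgm => hg g (Finset.mem_filter.mp hgm).2
    _ = (((univ : Finset (W → Fin r)).filter (fun g => Function.Injective g)).card : ℝ) * M := by
        rw [Finset.sum_const, nsmul_eq_mul]
    _ ≤ 27 * M := mul_le_mul_of_nonneg_right hcard hM

/-- A sum over the choices `z i ∈ Z i` with prescribed values on `J`. -/
theorem sum_choices {P : Type*} [Fintype P] [DecidableEq P] {r : ℕ} (Z : Fin r → Finset P)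
    (J : Finset (Fin r)) (b : Fin r → P) (c : ℝ) :
    ∑ z : Fin r → P, (if (∀ i ∈ J, z i = b i) ∧ ∀ i, z i ∈ Z i then ∏ _i ∈ Jᶜ, c else 0) =
      ∏ i, (if i ∈ J then (if b i ∈ Z i then 1 else 0) else (Z i).card * c) := by
  have h1 := Finset.prod_univ_sum (fun _ : Fin r => (Finset.univ : Finset P))
    (fun i p => if i ∈ J then (if p = b i ∧ p ∈ Z i then (1 : ℝ) else 0)
      else (if p ∈ Z i then c else 0))
  rw [Fintype.piFinset_univ] at h1
  have h2 : ∀ i, ∑ p, (if i ∈ J then (if p = b i ∧ p ∈ Z i then (1 : ℝ) else 0)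
      else (if p ∈ Z i then c else 0)) =
      (if i ∈ J then (if b i ∈ Z i then 1 else 0) else (Z i).card * c) := by
    intro i
    by_cases hi : i ∈ J
    · simp only [if_pos hi]
      rw [Finset.sum_eq_single (b i)]
      · simp
      · intro p _ hp
        simp [hp]
      · intro h
        exact absurd (Finset.mem_univ _) h
    · simp only [if_neg hi]
      rw [← Finset.sum_filter, Finset.sum_const, nsmul_eq_mul]
      congr 2
      congr 1
      ext p
      simp
  rw [← Finset.prod_congr rfl fun i _ => h2 i, h1]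
  refine Finset.sum_congr rfl fun z _ => ?_
  by_cases hz : (∀ i ∈ J, z i = b i) ∧ ∀ i, z i ∈ Z i
  · rw [if_pos hz, ← Finset.prod_mul_prod_compl J]
    symm
    rw [Finset.prod_eq_one (s := J), one_mul]
    · refine Finset.prod_congr rfl fun i hi => ?_
      rw [Finset.mem_compl] at hi
      rw [if_neg hi, if_pos (hz.2 i)]
    · intro i hi
      rw [if_pos hi, if_pos ⟨hz.1 i hi, hz.2 i⟩]
  · rw [if_neg hz]
    symm
    by_cases h3 : ∀ i, z i ∈ Z i
    · have h4 : ¬ ∀ i ∈ J, z i = b i := fun h => hz ⟨h, h3⟩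
      push Not at h4
      obtain ⟨i, hi, hne⟩ := h4
      refine Finset.prod_eq_zero (Finset.mem_univ i) ?_
      rw [if_pos hi, if_neg fun h => hne h.1]
    · push Not at h3
      obtain ⟨i, hi⟩ := h3
      refine Finset.prod_eq_zero (Finset.mem_univ i) ?_
      by_cases hiJ : i ∈ J
      · rw [if_pos hiJ, if_neg fun h => hi h.2]
      · rw [if_neg hiJ, if_neg hi]

/-- **Counting monochromatic configurations.** -/
theorem mono_tail {P : Type*} [Fintype P] [DecidableEq P] {T : ℝ} (hT : Big T) {k : ℕ}
    (hk : 0 < k) {Ω : Type*} [Fintype Ω] {r : ℕ} (hr : r ≤ 3)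
    (Z : Ω → Fin r → Finset P) (M : ℝ) (hM : 0 < M)
    (h0 : ∑ u, ∏ i, ((Z u i).card * (1 / (k : ℝ))) ≤ M * (1 / (k : ℝ)))
    (h1 : ∀ (J : Finset (Fin r)), J.Nonempty → ∀ b : Fin r → P,
      ∑ u, ∏ i, (if i ∈ J then (if b i ∈ Z u i then (1 : ℝ) else 0)
        else (Z u i).card * (1 / (k : ℝ))) ≤ M) :
    Pr (fun (_ : P) (_ : Fin k) => 1 / (k : ℝ)) (fun φ => T ^ 5 * M ≤
      ((univ.filter fun u => ∃ z : Fin r → P, Function.Injective z ∧ (∀ i, z i ∈ Z u i) ∧
        ∃ c, ∀ i, φ (z i) = c).card : ℝ)) ≤ Real.exp (-(2 * T)) := by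
  have hTb := hT.big
  have hkR : (0 : ℝ) < k := by exact_mod_cast hk
  have hpm : IsPM (fun (_ : P) (_ : Fin k) => 1 / (k : ℝ)) := by
    refine ⟨fun _ _ => by positivity, fun _ => ?_⟩
    rw [Finset.sum_const, Finset.card_univ, Fintype.card_fin, nsmul_eq_mul]
    field_simp
  let κ := Ω × (Fin r → P) × Fin k
  let w : κ → ℝ := fun U => if Function.Injective U.2.1 ∧ ∀ i, U.2.1 i ∈ Z U.1 i then 1 else 0
  let t : κ → Fin r → P × Fin k := fun U i => (U.2.1 i, U.2.2)
  have hw : ∀ U, 0 ≤ w U := fun U => by
    show (0 : ℝ) ≤ if Function.Injective U.2.1 ∧ ∀ i, U.2.1 i ∈ Z U.1 i then 1 else 0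
    split_ifs <;> norm_num
  have hinj : ∀ U, w U ≠ 0 → Function.Injective (t U) := by
    intro U hU i i' hii
    have h2 : Function.Injective U.2.1 ∧ ∀ i, U.2.1 i ∈ Z U.1 i := by
      by_contra hcon
      exact hU (if_neg hcon)
    exact h2.1 (congrArg Prod.fst hii)
  have hJ : ∀ (J : Finset (Fin r)) (a : Fin r → P × Fin k),
      ∑ U, (if ∀ i ∈ J, t U i = a i then w U * ∏ i ∈ Jᶜ, (fun (_ : P) (_ : Fin k) => 1 / (k : ℝ))
        (t U i).1 (t U i).2 else 0) ≤ M := by
    intro J a
    have hterm : ∀ U : κ, (if ∀ i ∈ J, t U i = a i then w U * ∏ _i ∈ Jᶜ, (1 / (k : ℝ)) else 0) ≤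
        (if ∀ i ∈ J, U.2.2 = (a i).2 then
          (if (∀ i ∈ J, U.2.1 i = (a i).1) ∧ ∀ i, U.2.1 i ∈ Z U.1 i then
            ∏ _i ∈ Jᶜ, (1 / (k : ℝ)) else 0) else 0) := by
      intro U
      have hp : (0 : ℝ) ≤ ∏ _i ∈ Jᶜ, (1 / (k : ℝ)) := Finset.prod_nonneg fun _ _ => by positivity
      by_cases h2 : ∀ i ∈ J, t U i = a i
      · rw [if_pos h2, if_pos fun i hi => congrArg Prod.snd (h2 i hi)]
        by_cases h3 : Function.Injective U.2.1 ∧ ∀ i, U.2.1 i ∈ Z U.1 i
        · have : w U = 1 := if_pos h3
          rw [this, one_mul, if_pos ⟨fun i hi => congrArg Prod.fst (h2 i hi), h3.2⟩]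
        · have : w U = 0 := if_neg h3
          rw [this, zero_mul]
          split_ifs
          · exact hp
          · exact le_rfl
      · rw [if_neg h2]
        split_ifs
        · exact hp
        · exact le_rfl
        · exact le_rfl
    refine (Finset.sum_le_sum fun U _ => hterm U).trans ?_
    rw [Fintype.sum_prod_type]
    have hre : ∀ u : Ω, ∑ y : (Fin r → P) × Fin k, (if ∀ i ∈ J, y.2 = (a i).2 then
          (if (∀ i ∈ J, y.1 i = (a i).1) ∧ ∀ i, y.1 i ∈ Z u i then
            ∏ _i ∈ Jᶜ, (1 / (k : ℝ)) else 0) else 0) =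
        ((univ.filter fun c : Fin k => ∀ i ∈ J, c = (a i).2).card : ℝ) *
          ∏ i, (if i ∈ J then (if (a i).1 ∈ Z u i then (1 : ℝ) else 0)
            else (Z u i).card * (1 / (k : ℝ))) := by
      intro u
      rw [Fintype.sum_prod_type_right, ← sum_choices (Z u) J (fun i => (a i).1) (1 / (k : ℝ)),
        ← Finset.sum_filter_add_sum_filter_not univ (fun c : Fin k => ∀ i ∈ J, c = (a i).2)]
      have e1 : ∑ c ∈ univ.filter (fun c : Fin k => ∀ i ∈ J, c = (a i).2), ∑ z : Fin r → P,
          (if ∀ i ∈ J, c = (a i).2 then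
          (if (∀ i ∈ J, z i = (a i).1) ∧ ∀ i, z i ∈ Z u i then
            ∏ _i ∈ Jᶜ, (1 / (k : ℝ)) else 0) else 0) =
          ∑ _c ∈ univ.filter (fun c : Fin k => ∀ i ∈ J, c = (a i).2), ∑ z : Fin r → P,
          (if (∀ i ∈ J, z i = (a i).1) ∧ ∀ i, z i ∈ Z u i then
            ∏ _i ∈ Jᶜ, (1 / (k : ℝ)) else 0) :=
        Finset.sum_congr rfl fun c hc => Finset.sum_congr rfl fun z _ =>
          if_pos (Finset.mem_filter.mp hc).2
      have e2 : ∑ c ∈ univ.filter (fun c : Fin k => ¬ ∀ i ∈ J, c = (a i).2), ∑ z : Fin r → P,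
          (if ∀ i ∈ J, c = (a i).2 then
          (if (∀ i ∈ J, z i = (a i).1) ∧ ∀ i, z i ∈ Z u i then
            ∏ _i ∈ Jᶜ, (1 / (k : ℝ)) else 0) else 0) = 0 :=
        Finset.sum_eq_zero fun c hc => Finset.sum_eq_zero fun z _ =>
          if_neg (Finset.mem_filter.mp hc).2
      refine (congrArg₂ (· + ·) e1 e2).trans ?_
      show _ + 0 = _
      rw [add_zero, Finset.sum_const, nsmul_eq_mul]
    refine (Finset.sum_congr rfl fun u _ => hre u).le.trans ?_
    rw [← Finset.mul_sum]
    by_cases hJe : J.Nonempty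
    · have hc1 : ((univ.filter fun c : Fin k => ∀ i ∈ J, c = (a i).2).card : ℝ) ≤ 1 := by
        have : (univ.filter fun c : Fin k => ∀ i ∈ J, c = (a i).2).card ≤ 1 := by
          obtain ⟨i, hi⟩ := hJe
          refine Finset.card_le_one.mpr fun c hc c' hc' => ?_
          rw [(Finset.mem_filter.mp hc).2 i hi, (Finset.mem_filter.mp hc').2 i hi]
        exact_mod_cast this
      have hnn : 0 ≤ ∑ u, ∏ i, (if i ∈ J then (if (a i).1 ∈ Z u i then (1 : ℝ) else 0)
            else (Z u i).card * (1 / (k : ℝ))) := by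
        refine Finset.sum_nonneg fun u _ => Finset.prod_nonneg fun i _ => ?_
        split_ifs
        · norm_num
        · norm_num
        · positivity
      calc _ ≤ 1 * ∑ u, ∏ i, (if i ∈ J then (if (a i).1 ∈ Z u i then (1 : ℝ) else 0)
            else (Z u i).card * (1 / (k : ℝ))) := mul_le_mul_of_nonneg_right hc1 hnn
        _ ≤ M := by
          rw [one_mul]
          exact h1 J hJe fun i => (a i).1
    · rw [Finset.not_nonempty_iff_eq_empty] at hJe
      subst hJe
      simp only [Finset.notMem_empty, if_false, false_imp_iff, implies_true, Finset.filter_true,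
        Finset.card_univ, Fintype.card_fin]
      calc (k : ℝ) * ∑ u, ∏ i, ((Z u i).card * (1 / (k : ℝ))) ≤ k * (M * (1 / (k : ℝ))) :=
            mul_le_mul_of_nonneg_left h0 hkR.le
        _ = M := by field_simp
  have hext : ∀ W : Finset (P × Fin k), W.card ≤ 3 →
      ext (fun (_ : P) (_ : Fin k) => 1 / (k : ℝ)) w (fun U => univ.image (t U)) W ≤ 27 * M :=
    fun W _ => ext_ordered hr _ (fun _ _ => by positivity) w hw t hinj M hM.le hJ W
  have key := count_T hT hpm (fun (_ : P) (_ : Fin k) => 1 / (k : ℝ)) (fun _ _ => le_rfl) w hw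
    (fun U => univ.image (t U)) (fun U => by
      refine Finset.card_image_le.trans ?_
      rw [Finset.card_univ, Fintype.card_fin]
      exact hr) (27 * M) (by positivity) hext
  refine (Pr_mono hpm fun φ hφ => ?_).trans key
  have h2 : ((univ.filter fun u => ∃ z : Fin r → P, Function.Injective z ∧ (∀ i, z i ∈ Z u i) ∧
        ∃ c, ∀ i, φ (z i) = c).card : ℝ) ≤ cnt w (fun U => univ.image (t U)) φ := by
    unfold cnt
    rw [Fintype.sum_prod_type]
    have h3 : ∀ u : Ω, (if ∃ z : Fin r → P, Function.Injective z ∧ (∀ i, z i ∈ Z u i) ∧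
        ∃ c, ∀ i, φ (z i) = c then (1 : ℝ) else 0) ≤ ∑ y : (Fin r → P) × Fin k,
        (if Holds (univ.image (t (u, y))) φ then w (u, y) else 0) := by
      intro u
      have hnn : ∀ y ∈ (univ : Finset ((Fin r → P) × Fin k)),
          0 ≤ (if Holds (univ.image (t (u, y))) φ then w (u, y) else 0) := by
        intro y _
        split_ifs
        · exact hw _
        · exact le_rfl
      by_cases hex : ∃ z : Fin r → P, Function.Injective z ∧ (∀ i, z i ∈ Z u i) ∧
        ∃ c, ∀ i, φ (z i) = c
      · rw [if_pos hex]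
        obtain ⟨z, hz1, hz2, c, hc⟩ := hex
        refine le_trans (le_of_eq ?_) (Finset.single_le_sum hnn (Finset.mem_univ (z, c)))
        have hH : Holds (univ.image (t (u, (z, c)))) φ := by
          intro q hq
          obtain ⟨i, _, rfl⟩ := Finset.mem_image.mp hq
          exact hc i
        rw [if_pos hH]
        exact (if_pos ⟨hz1, hz2⟩).symm
      · rw [if_neg hex]
        exact Finset.sum_nonneg hnn
    refine le_trans (le_of_eq ?_) (Finset.sum_le_sum fun u _ => h3 u)
    rw [← Finset.sum_filter, Finset.sum_const, nsmul_eq_mul, mul_one]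
  refine le_trans ?_ (hφ.trans h2)
  calc T ^ 4 * (27 * M) = 27 * (T ^ 4 * M) := by ring
    _ ≤ T * (T ^ 4 * M) := mul_le_mul_of_nonneg_right (by linarith) (by positivity)
    _ = T ^ 5 * M := by ring

end Pool.Agent.Acy
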