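import Pool.Agent.Acy.GDefs

/-! # Elementary facts about rho and the codegrees (module G0) -/

set_option autoImplicit false
set_option linter.unusedSectionVars false

namespace Pool.Agent.Acy

open Finset
open scoped Classical

universe u

theorem rho_zero (k : ℕ) : rho k 0 = 1 := by
  simp [rho]

theorem rho_succ (k m : ℕ) : rho k (m + 1) = rho k m * (1 - (m : ℝ) / k) := by
  simp [rho, Finset.prod_range_succ]

theorem rho_fac_pos {k i : ℕ} (h : i < k) : 0 < 1 - (i : ℝ) / k := by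
  have hk : (0 : ℝ) < k := by exact_mod_cast (by omega : 0 < k)
  have : (i : ℝ) / k < 1 := by
    rw [div_lt_one hk]
    exact_mod_cast h
  linarith

theorem rho_pos {k m : ℕ} (h : m ≤ k) (hk : 0 < k) : 0 < rho k m := by
  unfold rho
  refine Finset.prod_pos fun i hi => rho_fac_pos ?_
  rw [Finset.mem_range] at hi
  omega

theorem rho_nonneg {k m : ℕ} (h : m ≤ k) : 0 ≤ rho k m := by
  unfold rho
  refine Finset.prod_nonneg fun i hi => (rho_fac_pos ?_).le
  rw [Finset.mem_range] at hi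
  omega

theorem rho_le_one {k m : ℕ} (h : m ≤ k) : rho k m ≤ 1 := by
  unfold rho
  refine Finset.prod_le_one (fun i hi => (rho_fac_pos ?_).le) fun i hi => ?_
  · rw [Finset.mem_range] at hi
    omega
  · have : 0 ≤ (i : ℝ) / k := by positivity
    linarith

theorem rho_anti {k m n : ℕ} (h : m ≤ n) (hn : n ≤ k) : rho k n ≤ rho k m := by
  induction n, h using Nat.le_induction with
  | base => exact le_rfl
  | succ n hmn ih =>
    refine le_trans ?_ (ih (by omega))
    rw [rho_succ]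
    have h1 : 0 ≤ rho k n := rho_nonneg (by omega)
    have h2 : 0 ≤ (n : ℝ) / k := by positivity
    nlinarith

/-- `1 - rho <= m^2 / (2k)` and `1 - rho <= m / sqrt (2k)`. -/
theorem one_sub_rho_le {k m : ℕ} (h : m ≤ k) (hk : 0 < k) :
    1 - rho k m ≤ (m : ℝ) ^ 2 / (2 * k) := by
  have hk' : (0 : ℝ) < k := by exact_mod_cast hk
  induction m with
  | zero => simp [rho_zero]
  | succ m ih =>
    have h1 := ih (by omega)
    have h2 : rho k m ≤ 1 := rho_le_one (by omega)
    have h3 : 0 ≤ (m : ℝ) / k := by positivity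
    have h4 : 1 - rho k (m + 1) ≤ (m : ℝ) ^ 2 / (2 * k) + (m : ℝ) / k := by
      rw [rho_succ]
      nlinarith
    refine h4.trans ?_
    have h5 : (m : ℝ) ^ 2 / (2 * k) + (m : ℝ) / k = ((m : ℝ) ^ 2 + 2 * m) / (2 * k) := by
      field_simp
    rw [h5]
    gcongr
    push_cast
    nlinarith

theorem one_sub_rho_le' {k m : ℕ} (h : m ≤ k) (hk : 0 < k) :
    1 - rho k m ≤ (m : ℝ) / Real.sqrt (2 * k) := by
  have hk' : (0 : ℝ) < 2 * k := by
    have : (0 : ℝ) < k := by exact_mod_cast hk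
    linarith
  have hs : 0 < Real.sqrt (2 * k) := Real.sqrt_pos.mpr hk'
  have hsq : Real.sqrt (2 * k) ^ 2 = 2 * k := Real.sq_sqrt hk'.le
  by_cases hm : (m : ℝ) ≤ Real.sqrt (2 * k)
  · refine (one_sub_rho_le h hk).trans ?_
    have h1 : (m : ℝ) ^ 2 / (2 * k) = ((m : ℝ) / Real.sqrt (2 * k)) ^ 2 := by
      rw [div_pow, hsq]
    rw [h1]
    have h2 : 0 ≤ (m : ℝ) / Real.sqrt (2 * k) := by positivity
    have h3 : (m : ℝ) / Real.sqrt (2 * k) ≤ 1 := by
      rw [div_le_one hs]
      exact hm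
    nlinarith
  · have h1 : 1 ≤ (m : ℝ) / Real.sqrt (2 * k) := by
      rw [one_le_div hs]
      exact (not_le.mp hm).le
    have h2 := rho_nonneg h
    linarith

theorem log_rho_succ {k m : ℕ} (h : m + 1 ≤ k) :
    Real.log (rho k (m + 1)) = Real.log (rho k m) + Real.log (1 - (m : ℝ) / k) := by
  rw [rho_succ]
  exact Real.log_mul (rho_pos (by omega) (by omega)).ne' (rho_fac_pos (by omega)).ne'

/-- `-log rho <= m^2 / k` for `2 m <= k`. -/
theorem neg_log_rho_le {k m : ℕ} (h : 2 * m ≤ k) (hk : 0 < k) :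
    -Real.log (rho k m) ≤ (m : ℝ) ^ 2 / k := by
  have hk' : (0 : ℝ) < k := by exact_mod_cast hk
  induction m with
  | zero => simp [rho_zero]
  | succ m ih =>
    have h1 := ih (by omega)
    rw [log_rho_succ (by omega)]
    have hx : (m : ℝ) / k ≤ 1 / 2 := by
      rw [div_le_div_iff₀ hk' (by norm_num)]
      have : ((2 * (m + 1) : ℕ) : ℝ) ≤ k := by exact_mod_cast h
      push_cast at this
      linarith
    have hx0 : 0 ≤ (m : ℝ) / k := by positivity
    have hpos : 0 < 1 - (m : ℝ) / k := by linarith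
    have h2 : -Real.log (1 - (m : ℝ) / k) ≤ 2 * ((m : ℝ) / k) := by
      have h3 := Real.one_sub_inv_le_log_of_pos hpos
      have h4 : (1 - (m : ℝ) / k)⁻¹ ≤ 1 + 2 * ((m : ℝ) / k) := by
        rw [inv_le_iff_one_le_mul₀ hpos]
        nlinarith
      linarith
    have h5 : (m : ℝ) ^ 2 / k + 2 * ((m : ℝ) / k) = ((m : ℝ) ^ 2 + 2 * m) / k := by
      field_simp
    have h6 : ((m : ℝ) ^ 2 + 2 * m) / k ≤ ((m + 1 : ℕ) : ℝ) ^ 2 / k := by
      gcongr
      push_cast
      nlinarith
    linarith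

/-- `m (m - 1) / (2 k) <= -log rho`. -/
theorem le_neg_log_rho_aux {k m : ℕ} (h : m ≤ k) (hk : 0 < k) :
    (m : ℝ) * (m - 1) / (2 * k) ≤ -Real.log (rho k m) := by
  have hk' : (0 : ℝ) < k := by exact_mod_cast hk
  induction m with
  | zero => simp [rho_zero]
  | succ m ih =>
    have h1 := ih (by omega)
    rw [log_rho_succ h]
    have hpos : 0 < 1 - (m : ℝ) / k := rho_fac_pos (by omega)
    have h2 := Real.log_le_sub_one_of_pos hpos
    have h3 : ((m + 1 : ℕ) : ℝ) * (((m + 1 : ℕ) : ℝ) - 1) / (2 * k) =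
        (m : ℝ) * (m - 1) / (2 * k) + (m : ℝ) / k := by
      push_cast
      field_simp
      ring
    rw [h3]
    linarith

/-- `m^2 / (4k) <= -log rho` for `2 <= m <= k`. -/
theorem le_neg_log_rho {k m : ℕ} (h : m < k) (hm : 2 ≤ m) :
    (m : ℝ) ^ 2 / (4 * k) ≤ -Real.log (rho k m) := by
  refine le_trans ?_ (le_neg_log_rho_aux h.le (by omega))
  have hk' : (0 : ℝ) < k := by exact_mod_cast (by omega : 0 < k)
  rw [div_le_div_iff₀ (by positivity) (by positivity)]
  have hm' : (2 : ℝ) ≤ m := by exact_mod_cast hm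
  nlinarith [mul_nonneg (mul_nonneg hk'.le (by linarith : (0 : ℝ) ≤ m))
    (by linarith : (0 : ℝ) ≤ (m : ℝ) - 2)]

namespace BData

variable {P Q : Type u} [Fintype P] [DecidableEq P] [Fintype Q] [DecidableEq Q] {B : BData P Q}

theorem cod_symm (u x : Q) : B.cod u x = B.cod x u := by
  unfold cod
  rw [Finset.inter_comm]

theorem hz_symm (u x : Q) : B.hz u x = B.hz x u := by
  unfold hz
  rw [cod_symm]

theorem cod_le (hB : B.Ok) (u x : Q) : (B.cod u x : ℝ) ≤ B.T ^ 3000 := by
  refine le_trans ?_ (hB.degQ u)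
  unfold cod
  exact_mod_cast Finset.card_le_card Finset.inter_subset_left

/-- Sum of the codegrees at a vertex, restricted to a set. -/
theorem sum_cod_filter (x : Q) (A : Finset Q) (n : ℝ)
    (hA : ∀ z, ((A.filter fun u => z ∈ B.N u).card : ℝ) ≤ n) (N₁ : Finset P) :
    ∑ u ∈ A, ((B.N u ∩ N₁).card : ℝ) ≤ N₁.card * n := by
  have h1 : ∀ u, ((B.N u ∩ N₁).card : ℝ) = ∑ z ∈ N₁, if z ∈ B.N u then (1 : ℝ) else 0 := by
    intro u
    rw [Finset.inter_comm, ← Finset.filter_mem_eq_inter, Finset.card_filter]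
    push_cast
    rfl
  simp only [h1]
  rw [Finset.sum_comm]
  calc ∑ z ∈ N₁, ∑ u ∈ A, (if z ∈ B.N u then (1 : ℝ) else 0)
      = ∑ z ∈ N₁, ((A.filter fun u => z ∈ B.N u).card : ℝ) := by
        refine Finset.sum_congr rfl fun z _ => ?_
        rw [Finset.card_filter]
        push_cast
        rfl
    _ ≤ ∑ _z ∈ N₁, n := Finset.sum_le_sum fun z _ => hA z
    _ = N₁.card * n := by rw [Finset.sum_const, nsmul_eq_mul]

/-- Sum of the codegrees at a vertex. -/
theorem sum_cod (hB : B.Ok) (x : Q) : ∑ u, (B.cod u x : ℝ) ≤ B.T ^ 6000 := by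
  have h1 := sum_cod_filter (B := B) x univ (B.T ^ 3000) (fun z => hB.degP z) (B.N x)
  refine h1.trans ?_
  have h2 := hB.degQ x
  have h0 : (0 : ℝ) ≤ B.T ^ 3000 := by
    have := hB.big.big
    have : (0 : ℝ) ≤ B.T := by linarith
    positivity
  calc ((B.N x).card : ℝ) * B.T ^ 3000 ≤ B.T ^ 3000 * B.T ^ 3000 :=
        mul_le_mul_of_nonneg_right h2 h0
    _ = B.T ^ 6000 := by rw [← pow_add]

theorem T_ge (hB : B.Ok) : (10 : ℝ) ^ 6 ≤ B.T := hB.big.big

theorem T_pos (hB : B.Ok) : 0 < B.T := by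
  have := hB.big.big
  linarith

theorem T_one (hB : B.Ok) : 1 ≤ B.T := by
  have := hB.big.big
  linarith

theorem k_pos (hB : B.Ok) : (0 : ℝ) < B.k := by
  have h1 := hB.k_lo
  have h2 : 0 < B.T ^ 3999 := pow_pos (T_pos hB) _
  linarith

theorem k_pos' (hB : B.Ok) : 0 < B.k := by
  exact_mod_cast k_pos hB

theorem log_T_pos (hB : B.Ok) : 0 < Real.log B.T := by
  refine Real.log_pos ?_
  have := hB.big.big
  linarith

theorem log_T_le (hB : B.Ok) : Real.log B.T ≤ B.T := by
  have := Real.log_le_sub_one_of_pos (T_pos hB)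
  linarith

/-- Codegrees are small compared with the number of colours. -/
theorem two_cod_le (hB : B.Ok) (u x : Q) : 2 * B.cod u x ≤ B.k := by
  have h1 := cod_le hB u x
  have h2 := hB.k_lo
  have h3 := T_ge hB
  have h4 : 2 * B.T ^ 3000 ≤ B.T ^ 3999 := by
    calc 2 * B.T ^ 3000 ≤ B.T * B.T ^ 3000 := by
          have : 0 ≤ B.T ^ 3000 := pow_nonneg (T_pos hB).le _
          exact mul_le_mul_of_nonneg_right (by linarith) this
      _ = B.T ^ 3001 := by rw [← pow_succ']
      _ ≤ B.T ^ 3999 := pow_le_pow_right₀ (T_one hB) (by norm_num)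
  have h5 : ((2 * B.cod u x : ℕ) : ℝ) ≤ B.k := by
    push_cast
    linarith
  exact_mod_cast h5

theorem cod_le_k (hB : B.Ok) (u x : Q) : B.cod u x ≤ B.k := by
  have := two_cod_le hB u x
  omega

theorem hz_nonneg (hB : B.Ok) (u x : Q) : 0 ≤ B.hz u x := by
  unfold hz
  have h1 := Real.log_nonpos (rho_nonneg (cod_le_k hB u x)) (rho_le_one (cod_le_k hB u x))
  linarith

theorem hz_le (hB : B.Ok) (u x : Q) : B.hz u x ≤ (B.cod u x : ℝ) ^ 2 / B.k :=
  neg_log_rho_le (two_cod_le hB u x) (k_pos' hB)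

theorem rel_cod_le (hB : B.Ok) (u x : Q) (h : B.rel u x) : (B.cod u x : ℝ) ≤ B.T ^ 2001 := by
  obtain ⟨-, -, h3⟩ := h
  have hT := T_ge hB
  have hT0 := T_pos hB
  by_cases h2 : 2 ≤ B.cod u x
  · have hlt : B.cod u x < B.k := by
      have := two_cod_le hB u x
      omega
    have h4 := le_neg_log_rho hlt h2
    have h5 : (B.cod u x : ℝ) ^ 2 / (4 * B.k) ≤ Real.log B.T / 10 := h4.trans h3
    have hk := k_pos hB
    rw [div_le_iff₀ (by positivity)] at h5
    have h6 : (B.cod u x : ℝ) ^ 2 ≤ (B.T ^ 2001) ^ 2 := by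
      calc (B.cod u x : ℝ) ^ 2 ≤ Real.log B.T / 10 * (4 * B.k) := h5
        _ ≤ B.T / 10 * (4 * B.T ^ 4000) := by
          have h7 := log_T_le hB
          have h8 := hB.k_hi
          have h9 := log_T_pos hB
          gcongr
        _ ≤ B.T * B.T ^ 4000 := by
          have : 0 ≤ B.T * B.T ^ 4000 := by positivity
          linarith
        _ = B.T ^ 4001 := by rw [← pow_succ']
        _ ≤ B.T ^ 4002 := pow_le_pow_right₀ (T_one hB) (by norm_num)
        _ = (B.T ^ 2001) ^ 2 := by rw [← pow_mul]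
    exact le_of_sq_le_sq h6 (by positivity)
  · have h4 : (B.cod u x : ℝ) ≤ 1 := by
      exact_mod_cast (by omega : B.cod u x ≤ 1)
    exact h4.trans (one_le_pow₀ (T_one hB))

theorem rel_rho_ge (hB : B.Ok) (u x : Q) (h : B.rel u x) :
    1 / B.T ≤ rho B.k (B.cod u x) := by
  obtain ⟨-, -, h3⟩ := h
  have hpos : 0 < rho B.k (B.cod u x) := rho_pos (cod_le_k hB u x) (k_pos' hB)
  have h4 := log_T_pos hB
  unfold hz at h3
  rw [one_div, ← Real.exp_log hpos, ← Real.exp_log (T_pos hB), ← Real.exp_neg]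
  refine Real.exp_le_exp.mpr ?_
  linarith

theorem rel_symm (u x : Q) (h : B.rel u x) : B.rel x u := by
  obtain ⟨h1, h2, h3⟩ := h
  refine ⟨h1.symm, ?_, ?_⟩
  · rw [cod_symm]
    exact h2
  · rw [hz_symm]
    exact h3

theorem spec_symm (u x : Q) (h : B.spec u x) : B.spec x u := by
  obtain ⟨h1, h2⟩ := h
  refine ⟨h1.symm, ?_⟩
  rw [hz_symm]
  exact h2

/-- The scale of the codegrees of special pairs. -/
theorem sqrt_pos (hB : B.Ok) : 0 < Real.sqrt (B.k * (Real.log B.T / 10)) := by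
  have h1 := k_pos hB
  have h2 := log_T_pos hB
  exact Real.sqrt_pos.mpr (by positivity)

theorem hz_div_le (hB : B.Ok) (u x : Q) :
    B.hz u x / (Real.log B.T / 10) ≤
      ((B.cod u x : ℝ) / Real.sqrt (B.k * (Real.log B.T / 10))) ^ 2 := by
  have h1 := k_pos hB
  have h2 := log_T_pos hB
  rw [div_pow, Real.sq_sqrt (by positivity)]
  calc B.hz u x / (Real.log B.T / 10) ≤ ((B.cod u x : ℝ) ^ 2 / B.k) / (Real.log B.T / 10) := by
        have := hz_le hB u x
        gcongr
    _ = _ := by rw [div_div]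

/-- Sum of the hazards over the pairs of medium codegree. -/
theorem sum_rel_hz (hB : B.Ok) (x : Q) :
    ∑ u ∈ univ.filter (fun u => B.rel u x), B.hz u x / (Real.log B.T / 10) ≤
      2 * B.T ^ 6000 / Real.sqrt (B.k * (Real.log B.T / 10)) := by
  have hs := sqrt_pos hB
  have h2 := log_T_pos hB
  calc ∑ u ∈ univ.filter (fun u => B.rel u x), B.hz u x / (Real.log B.T / 10)
      ≤ ∑ u ∈ univ.filter (fun u => B.rel u x),
        (B.cod u x : ℝ) / Real.sqrt (B.k * (Real.log B.T / 10)) := by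
        refine Finset.sum_le_sum fun u hu => ?_
        have hrel := (Finset.mem_filter.mp hu).2
        have h3 := hz_div_le hB u x
        have h4 : B.hz u x / (Real.log B.T / 10) ≤ 1 := by
          rw [div_le_one (by positivity)]
          exact hrel.2.2
        have h5 : 0 ≤ (B.cod u x : ℝ) / Real.sqrt (B.k * (Real.log B.T / 10)) := by positivity
        by_cases h6 : (B.cod u x : ℝ) / Real.sqrt (B.k * (Real.log B.T / 10)) ≤ 1
        · nlinarith
        · linarith
    _ ≤ ∑ u, (B.cod u x : ℝ) / Real.sqrt (B.k * (Real.log B.T / 10)) :=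
        Finset.sum_le_sum_of_subset_of_nonneg (Finset.filter_subset _ _) fun u _ _ => by
          positivity
    _ = (∑ u, (B.cod u x : ℝ)) / Real.sqrt (B.k * (Real.log B.T / 10)) := by
        rw [Finset.sum_div]
    _ ≤ 2 * B.T ^ 6000 / Real.sqrt (B.k * (Real.log B.T / 10)) := by
        have h7 := sum_cod hB x
        have h8 : 0 ≤ B.T ^ 6000 := pow_nonneg (T_pos hB).le _
        gcongr
        linarith

theorem spec_cod_gt (hB : B.Ok) (u x : Q) (h : B.spec u x) :
    1 ≤ (B.cod u x : ℝ) / Real.sqrt (B.k * (Real.log B.T / 10)) := by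
  have h2 := log_T_pos hB
  have h3 := hz_div_le hB u x
  have h4 : 1 < B.hz u x / (Real.log B.T / 10) := by
    rw [one_lt_div (by positivity)]
    exact h.2
  have hs := sqrt_pos hB
  have h5 : 0 ≤ (B.cod u x : ℝ) / Real.sqrt (B.k * (Real.log B.T / 10)) := by positivity
  by_contra h6
  push Not at h6
  nlinarith

theorem card_spec (hB : B.Ok) (x : Q) :
    ((univ.filter fun u => B.spec u x).card : ℝ) ≤
      B.T ^ 6000 / Real.sqrt (B.k * (Real.log B.T / 10)) := by
  have hs := sqrt_pos hB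
  calc ((univ.filter fun u => B.spec u x).card : ℝ)
      = ∑ u ∈ univ.filter (fun u => B.spec u x), (1 : ℝ) := by simp
    _ ≤ ∑ u ∈ univ.filter (fun u => B.spec u x),
        (B.cod u x : ℝ) / Real.sqrt (B.k * (Real.log B.T / 10)) :=
        Finset.sum_le_sum fun u hu => spec_cod_gt hB u x (Finset.mem_filter.mp hu).2
    _ ≤ ∑ u, (B.cod u x : ℝ) / Real.sqrt (B.k * (Real.log B.T / 10)) :=
        Finset.sum_le_sum_of_subset_of_nonneg (Finset.filter_subset _ _) fun u _ _ => by
          positivity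
    _ = (∑ u, (B.cod u x : ℝ)) / Real.sqrt (B.k * (Real.log B.T / 10)) := by
        rw [Finset.sum_div]
    _ ≤ B.T ^ 6000 / Real.sqrt (B.k * (Real.log B.T / 10)) := by
        have h7 := sum_cod hB x
        gcongr

end BData

end Pool.Agent.Acy
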