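import Pool.Agent.Acy.Cfg
import Pool.Agent.Acy.CfgE
import Pool.Agent.Acy.RhoF
import Pool.Agent.Acy.Iter

/-! # The random colouring of `P` (module G4) -/

set_option autoImplicit false
set_option linter.unusedSectionVars false

namespace Pool.Agent.Acy

open Finset
open scoped Classical

universe u

namespace BData

variable {P Q : Type u} [Fintype P] [DecidableEq P] [Fintype Q] [DecidableEq Q] {B : BData P Q}

/-! ## Tails -/

lemma phi_k_pos (hB : B.Ok) : 0 < B.k := by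
  have h1 : (0 : ℝ) < B.T ^ 3999 := pow_pos hB.big.pos _
  have h2 := hB.k_lo
  exact_mod_cast h1.trans_le h2

lemma K_eq_MM (φ : P → Fin B.k) {u x : Q} (h : B.rel u x) :
    B.K φ u x = MM B.k B.N (B.N x) φ u - 1 := by
  unfold K MM
  rw [if_pos h]
  unfold inj cod
  split_ifs <;> ring

lemma K_eq_zero (φ : P → Fin B.k) {u x : Q} (h : ¬ B.rel u x) : B.K φ u x = 0 := by
  unfold K
  rw [if_neg h]

lemma MM_empty (k : ℕ) (N : Q → Finset P) (φ : P → Fin k) (u : Q) : MM k N ∅ φ u = 1 := by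
  unfold MM
  simp [rho]

/-- One compensated indicator, with weights. -/
lemma one_tail (hB : B.Ok) {rd : Q → ℕ} (hrd : B.RdOk rd) (x : Q) (j : ℕ) (A : Finset Q)
    (hAj : ∀ u ∈ A, rd u = j) (hA : ∀ u ∈ A, B.rel u x) (w : Q → ℝ)
    (hw : ∀ u ∈ A, 0 ≤ w u ∧ w u ≤ 1) :
    Pr (unif P B.k) (fun φ => B.T ^ 3370 ≤ |∑ u ∈ A, w u * B.K φ u x|) ≤
      Real.exp (-(2 * B.T)) := by
  have hT := hB.big
  have h1 := pl_tail hT B.k hB.k_lo hB.k_hi B.N (B.N x) ∅ (hB.degQ x)
    (by simpa using (pow_pos hT.pos _).le) A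
    (fun z => le_trans (by
      exact_mod_cast Finset.card_le_card (fun u hu => by
        rw [Finset.mem_filter] at hu
        rw [Finset.mem_filter]
        exact ⟨Finset.mem_filter.2 ⟨mem_univ _, hu.2⟩, hAj u hu.1⟩)) (hrd.np z j))
    (fun u hu => rel_cod_le hB u x (hA u hu))
    (fun u _ => by simpa using (pow_pos hT.pos _).le)
    (fun u hu => rel_rho_ge hB u x (hA u hu))
    (fun u _ => by
      simp only [Finset.inter_empty, Finset.card_empty, rho, Finset.range_zero, Finset.prod_empty]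
      rw [div_le_one hT.pos]
      exact hT.one_le) w hw
  have h2 : ∀ φ : P → Fin B.k, ∑ u ∈ A, w u * B.K φ u x =
      ∑ u ∈ A, w u * (MM B.k B.N (B.N x) φ u * MM B.k B.N ∅ φ u -
        1 / rho B.k (B.N u ∩ B.N x ∩ ∅).card) := fun φ => by
    refine Finset.sum_congr rfl fun u hu => ?_
    rw [MM_empty, K_eq_MM φ (hA u hu)]
    simp [rho]
  simp only [h2]
  exact h1

theorem pl1_tail (hB : B.Ok) {rd : Q → ℕ} (hrd : B.RdOk rd) (x : Q) (j : ℕ) :
    Pr (unif P B.k) (fun φ => ¬ |∑ u ∈ univ.filter (fun u => rd u = j),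
      B.K φ u x * rho B.k (B.cod u x)| ≤ B.T ^ 3373) ≤ Real.exp (-(2 * B.T)) := by
  have hT := hB.big
  have hk := phi_k_pos hB
  set A := univ.filter (fun u => rd u = j ∧ B.rel u x) with hAdef
  have hcodk : ∀ u, B.rel u x → B.cod u x ≤ B.k := fun u hu => by
    have h1 := rel_cod_le hB u x hu
    have h2 : B.T ^ 2001 ≤ B.T ^ 3999 := pow_le_pow_right₀ hT.one_le (by norm_num)
    have h3 := hB.k_lo
    exact_mod_cast (h1.trans h2).trans h3
  have h1 := one_tail hB hrd x j A (fun u hu => (Finset.mem_filter.1 hu).2.1)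
    (fun u hu => (Finset.mem_filter.1 hu).2.2) (fun u => rho B.k (B.cod u x))
    (fun u hu => ⟨(rho_pos (hcodk u (Finset.mem_filter.1 hu).2.2) hk).le,
      rho_le_one (hcodk u (Finset.mem_filter.1 hu).2.2)⟩)
  refine le_trans (Pr_mono (unif_isPM _ hk) fun φ hφ => ?_) h1
  have h2 : ∑ u ∈ univ.filter (fun u => rd u = j), B.K φ u x * rho B.k (B.cod u x) =
      ∑ u ∈ A, rho B.k (B.cod u x) * B.K φ u x := by
    symm
    refine Finset.sum_subset_zero_on_sdiff (fun u hu => ?_) (fun u hu => ?_) (fun u _ => mul_comm _ _)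
    · rw [Finset.mem_filter] at hu ⊢
      exact ⟨mem_univ _, hu.2.1⟩
    · rw [Finset.mem_sdiff, Finset.mem_filter, Finset.mem_filter] at hu
      rw [K_eq_zero φ (fun h => hu.2 ⟨mem_univ _, hu.1.2, h⟩), zero_mul]
  rw [h2] at hφ
  have h3 : B.T ^ 3370 ≤ B.T ^ 3373 := pow_le_pow_right₀ hT.one_le (by norm_num)
  push Not at hφ
  exact h3.trans hφ.le

theorem plh_tail (hB : B.Ok) {rd : Q → ℕ} (hrd : B.RdOk rd) (x : Q) (j : ℕ) :
    Pr (unif P B.k) (fun φ => ¬ |∑ u ∈ univ.filter (fun u => rd u = j),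
      B.K φ u x * B.h u x| ≤ B.T ^ 3373) ≤ Real.exp (-(2 * B.T)) := by
  have hT := hB.big
  have hk := phi_k_pos hB
  set A := univ.filter (fun u => rd u = j ∧ B.rel u x) with hAdef
  have hcodk : ∀ u, B.rel u x → B.cod u x ≤ B.k := fun u hu => by
    have h1 := rel_cod_le hB u x hu
    have h2 : B.T ^ 2001 ≤ B.T ^ 3999 := pow_le_pow_right₀ hT.one_le (by norm_num)
    have h3 := hB.k_lo
    exact_mod_cast (h1.trans h2).trans h3
  have h1 := one_tail hB hrd x j A (fun u hu => (Finset.mem_filter.1 hu).2.1)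
    (fun u hu => (Finset.mem_filter.1 hu).2.2) (fun u => B.h u x)
    (fun u hu => by
      have hr := (Finset.mem_filter.1 hu).2.2
      have hl : 0 < Real.log B.T / 10 := by have := hT.log_pos; positivity
      unfold h
      rw [if_pos hr]
      refine ⟨div_nonneg ?_ hl.le, (div_le_one hl).2 hr.2.2⟩
      unfold hz
      rw [neg_nonneg]
      exact Real.log_nonpos (rho_pos (hcodk u hr) hk).le (rho_le_one (hcodk u hr)))
  refine le_trans (Pr_mono (unif_isPM _ hk) fun φ hφ => ?_) h1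
  have h2 : ∑ u ∈ univ.filter (fun u => rd u = j), B.K φ u x * B.h u x =
      ∑ u ∈ A, B.h u x * B.K φ u x := by
    symm
    refine Finset.sum_subset_zero_on_sdiff (fun u hu => ?_) (fun u hu => ?_) (fun u _ => mul_comm _ _)
    · rw [Finset.mem_filter] at hu ⊢
      exact ⟨mem_univ _, hu.2.1⟩
    · rw [Finset.mem_sdiff, Finset.mem_filter, Finset.mem_filter] at hu
      rw [K_eq_zero φ (fun h => hu.2 ⟨mem_univ _, hu.1.2, h⟩), zero_mul]
  rw [h2] at hφ
  have h3 : B.T ^ 3370 ≤ B.T ^ 3373 := pow_le_pow_right₀ hT.one_le (by norm_num)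
  push Not at hφ
  exact h3.trans hφ.le

theorem pl2_tail (hB : B.Ok) {rd : Q → ℕ} (hrd : B.RdOk rd) (x x' : Q) (j : ℕ)
    (hc : (B.cod x x' : ℝ) ≤ B.T ^ 2500) :
    Pr (unif P B.k) (fun φ => ¬ |∑ u ∈ univ.filter (fun u => rd u = j),
      B.K φ u x * B.K φ u x'| ≤ B.T ^ 3373) ≤ 3 * Real.exp (-(2 * B.T)) := by
  have hT := hB.big
  have hk := phi_k_pos hB
  have hT0 := hT.pos
  have hT1 := hT.one_le
  set A := univ.filter (fun u => rd u = j ∧ B.rel u x ∧ B.rel u x') with hAdef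
  have hAj : ∀ u ∈ A, rd u = j := fun u hu => (Finset.mem_filter.1 hu).2.1
  have hAx : ∀ u ∈ A, B.rel u x := fun u hu => (Finset.mem_filter.1 hu).2.2.1
  have hAx' : ∀ u ∈ A, B.rel u x' := fun u hu => (Finset.mem_filter.1 hu).2.2.2
  have hcodk : ∀ u y, B.rel u y → B.cod u y ≤ B.k := fun u y hu => by
    have h1 := rel_cod_le hB u y hu
    have h2 : B.T ^ 2001 ≤ B.T ^ 3999 := pow_le_pow_right₀ hT.one_le (by norm_num)
    have h3 := hB.k_lo
    exact_mod_cast (h1.trans h2).trans h3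
  have hAz : ∀ z, ((A.filter fun u => z ∈ B.N u).card : ℝ) ≤ B.T ^ 2855 := fun z =>
    le_trans (by
      exact_mod_cast Finset.card_le_card (fun u hu => by
        rw [Finset.mem_filter] at hu
        rw [Finset.mem_filter]
        exact ⟨Finset.mem_filter.2 ⟨mem_univ _, hu.2⟩, hAj u hu.1⟩)) (hrd.np z j)
  have h1 := one_tail hB hrd x j A hAj hAx (fun _ => 1) (fun _ _ => ⟨zero_le_one, le_rfl⟩)
  have h2 := one_tail hB hrd x' j A hAj hAx' (fun _ => 1) (fun _ _ => ⟨zero_le_one, le_rfl⟩)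
  have h3 := pl_tail hT B.k hB.k_lo hB.k_hi B.N (B.N x) (B.N x') (hB.degQ x) (hB.degQ x') A hAz
    (fun u hu => rel_cod_le hB u x (hAx u hu)) (fun u hu => rel_cod_le hB u x' (hAx' u hu))
    (fun u hu => rel_rho_ge hB u x (hAx u hu)) (fun u hu => rel_rho_ge hB u x' (hAx' u hu))
    (fun _ => 1) (fun _ _ => ⟨zero_le_one, le_rfl⟩)
  -- deterministic part
  have hdet : |∑ u ∈ A, (1 / rho B.k (B.N u ∩ B.N x ∩ B.N x').card - 1)| ≤ B.T ^ 3370 := by
    have hc2 : ∀ u ∈ A, (B.N u ∩ B.N x ∩ B.N x').card ≤ B.cod u x := fun u _ =>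
      Finset.card_le_card Finset.inter_subset_left
    have hb : ∀ u ∈ A, 0 ≤ 1 / rho B.k (B.N u ∩ B.N x ∩ B.N x').card - 1 ∧
        1 / rho B.k (B.N u ∩ B.N x ∩ B.N x').card - 1 ≤
          B.T * B.T ^ 2001 / B.T ^ 3999 * ((B.N u ∩ (B.N x ∩ B.N x')).card : ℝ) := by
      intro u hu
      have hck := (hc2 u hu).trans (hcodk u x (hAx u hu))
      have hr1 := rho_le_one hck
      have hr0 := rho_pos hck hk
      have hr2 := rho_anti (hc2 u hu) (hcodk u x (hAx u hu))
      have hr3 := (rel_rho_ge hB u x (hAx u hu)).trans hr2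
      have hr4 := one_sub_rho_le hck hk
      rw [← Finset.inter_assoc]
      set m := (B.N u ∩ B.N x ∩ B.N x').card with hm
      set ρ := rho B.k m
      have hm1 : (m : ℝ) ≤ B.T ^ 2001 := le_trans (by exact_mod_cast hc2 u hu)
        (rel_cod_le hB u x (hAx u hu))
      have hkr : (0 : ℝ) < B.k := by exact_mod_cast hk
      constructor
      · rw [sub_nonneg, le_div_iff₀ hr0]
        linarith
      · have e1 : 1 / ρ - 1 = (1 - ρ) * (1 / ρ) := by
          field_simp
        have e2 : 1 / ρ ≤ B.T := by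
          rw [div_le_iff₀ hr0]
          rw [div_le_iff₀ hT0] at hr3
          linarith
        have e3 : (m : ℝ) ^ 2 / (2 * B.k) ≤ B.T ^ 2001 / B.T ^ 3999 * m := by
          rw [div_le_iff₀ (by positivity)]
          have e4 : (m : ℝ) ^ 2 ≤ B.T ^ 2001 * m := by
            rw [sq]
            exact mul_le_mul_of_nonneg_right hm1 (Nat.cast_nonneg m)
          have e5 : (1 : ℝ) ≤ (2 * B.k) / B.T ^ 3999 := by
            rw [le_div_iff₀ (pow_pos hT0 _)]
            have := hB.k_lo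
            linarith
          calc (m : ℝ) ^ 2 ≤ B.T ^ 2001 * m := e4
            _ = B.T ^ 2001 * m * 1 := by ring
            _ ≤ B.T ^ 2001 * m * ((2 * B.k) / B.T ^ 3999) :=
              mul_le_mul_of_nonneg_left e5 (mul_nonneg (pow_nonneg hT0.le _) (Nat.cast_nonneg m))
            _ = B.T ^ 2001 / B.T ^ 3999 * m * (2 * B.k) := by
              rw [mul_div_assoc', div_mul_eq_mul_div, div_mul_eq_mul_div]
        rw [e1]
        calc (1 - ρ) * (1 / ρ) ≤ (B.T ^ 2001 / B.T ^ 3999 * m) * B.T :=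
              mul_le_mul (hr4.trans e3) e2 (one_div_nonneg.2 hr0.le)
                (mul_nonneg (div_nonneg (pow_nonneg hT0.le _) (pow_nonneg hT0.le _))
                  (Nat.cast_nonneg m))
          _ = B.T * B.T ^ 2001 / B.T ^ 3999 * m := by
              rw [mul_right_comm, div_mul_eq_mul_div, mul_comm (B.T ^ 2001) B.T]
    rw [abs_of_nonneg (Finset.sum_nonneg fun u hu => (hb u hu).1)]
    calc _ ≤ ∑ u ∈ A, B.T * B.T ^ 2001 / B.T ^ 3999 * ((B.N u ∩ (B.N x ∩ B.N x')).card : ℝ) :=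
          Finset.sum_le_sum fun u hu => (hb u hu).2
      _ = B.T * B.T ^ 2001 / B.T ^ 3999 * ∑ u ∈ A, ((B.N u ∩ (B.N x ∩ B.N x')).card : ℝ) := by
          rw [Finset.mul_sum]
      _ ≤ B.T * B.T ^ 2001 / B.T ^ 3999 * ((B.N x ∩ B.N x').card * B.T ^ 2855) := by
          refine mul_le_mul_of_nonneg_left ?_ (by positivity)
          exact sum_cod_filter (B := B) x A _ hAz _
      _ ≤ B.T * B.T ^ 2001 / B.T ^ 3999 * (B.T ^ 2500 * B.T ^ 2855) := by
          refine mul_le_mul_of_nonneg_left ?_ (by positivity)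
          exact mul_le_mul_of_nonneg_right hc (by positivity)
      _ = B.T ^ 7357 / B.T ^ 3999 := by
          rw [div_mul_eq_mul_div, ← pow_succ', ← pow_add, ← pow_add]
      _ ≤ B.T ^ 3370 := by
          rw [div_le_iff₀ (pow_pos hT0 _), ← pow_add]
          exact pow_le_pow_right₀ hT1 (by norm_num)
  have hPM := unif_isPM (P := P) B.k hk
  set E1 : (P → Fin B.k) → Prop := fun φ => B.T ^ 3370 ≤ |∑ u ∈ A, 1 * B.K φ u x|
  set E2 : (P → Fin B.k) → Prop := fun φ => B.T ^ 3370 ≤ |∑ u ∈ A, 1 * B.K φ u x'|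
  set E3 : (P → Fin B.k) → Prop := fun φ => B.T ^ 3370 ≤ |∑ u ∈ A, 1 * (MM B.k B.N (B.N x) φ u *
    MM B.k B.N (B.N x') φ u - 1 / rho B.k (B.N u ∩ B.N x ∩ B.N x').card)|
  have hmain : ∀ φ : P → Fin B.k, ¬ |∑ u ∈ univ.filter (fun u => rd u = j),
      B.K φ u x * B.K φ u x'| ≤ B.T ^ 3373 → E1 φ ∨ (E2 φ ∨ E3 φ) := by
    intro φ hφ
    by_contra hcon
    apply hφ
    simp only [E1, E2, E3, not_or, not_le, one_mul] at hcon
    obtain ⟨f1, f2, f3⟩ := hcon
    have e1 : ∑ u ∈ univ.filter (fun u => rd u = j), B.K φ u x * B.K φ u x' =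
        ∑ u ∈ A, (MM B.k B.N (B.N x) φ u * MM B.k B.N (B.N x') φ u -
          1 / rho B.k (B.N u ∩ B.N x ∩ B.N x').card) - ∑ u ∈ A, B.K φ u x -
          ∑ u ∈ A, B.K φ u x' + ∑ u ∈ A, (1 / rho B.k (B.N u ∩ B.N x ∩ B.N x').card - 1) := by
      rw [← Finset.sum_sub_distrib, ← Finset.sum_sub_distrib, ← Finset.sum_add_distrib]
      symm
      refine Finset.sum_subset_zero_on_sdiff (fun u hu => ?_) (fun u hu => ?_) (fun u hu => ?_)
      · rw [Finset.mem_filter] at hu ⊢
        exact ⟨mem_univ _, hu.2.1⟩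
      · rw [Finset.mem_sdiff, Finset.mem_filter, Finset.mem_filter] at hu
        by_cases hr : B.rel u x
        · rw [K_eq_zero φ (fun h => hu.2 ⟨mem_univ _, hu.1.2, hr, h⟩), mul_zero]
        · rw [K_eq_zero φ hr, zero_mul]
      · rw [K_eq_MM φ (hAx u hu), K_eq_MM φ (hAx' u hu)]
        ring
    rw [e1]
    have hpow : 4 * B.T ^ 3370 ≤ B.T ^ 3373 := by
      have : (4 : ℝ) ≤ B.T ^ 3 := by
        have h6 := hT.big
        calc (4 : ℝ) ≤ ((10 : ℝ) ^ 6) ^ 3 := by norm_num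
          _ ≤ B.T ^ 3 := pow_le_pow_left₀ (by norm_num) h6 3
      calc 4 * B.T ^ 3370 ≤ B.T ^ 3 * B.T ^ 3370 :=
            mul_le_mul_of_nonneg_right this (by positivity)
        _ = B.T ^ 3373 := by rw [← pow_add]
    rw [abs_lt] at f1 f2 f3
    rw [abs_le] at hdet ⊢
    constructor <;> linarith [f1.1, f1.2, f2.1, f2.2, f3.1, f3.2, hdet.1, hdet.2]
  calc _ ≤ Pr (unif P B.k) (fun φ => E1 φ ∨ (E2 φ ∨ E3 φ)) := Pr_mono hPM hmain
    _ ≤ Pr (unif P B.k) E1 + Pr (unif P B.k) (fun φ => E2 φ ∨ E3 φ) := Pr_or_le hPM _ _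
    _ ≤ Pr (unif P B.k) E1 + (Pr (unif P B.k) E2 + Pr (unif P B.k) E3) :=
        add_le_add le_rfl (Pr_or_le hPM _ _)
    _ ≤ Real.exp (-(2 * B.T)) + (Real.exp (-(2 * B.T)) + Real.exp (-(2 * B.T))) :=
        add_le_add h1 (add_le_add h2 h3)
    _ = 3 * Real.exp (-(2 * B.T)) := by ring

/-! ## Local dependence -/

/-- Common neighbours. -/
def near (B : BData P Q) (x y : Q) : Prop := (B.N x ∩ B.N y).Nonempty

/-- Union of the neighbourhoods at distance two. -/
noncomputable def S2 (B : BData P Q) (x : Q) : Finset P :=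
  (univ.filter fun y => B.near x y).biUnion B.N

/-- Distance at most four. -/
def link (B : BData P Q) (x y : Q) : Prop := ∃ u, B.near x u ∧ B.near u y

lemma near_symm {x y : Q} (h : B.near x y) : B.near y x := by
  unfold near at h ⊢
  rwa [Finset.inter_comm]

lemma link_symm {x y : Q} (h : B.link x y) : B.link y x := by
  obtain ⟨u, h1, h2⟩ := h
  exact ⟨u, near_symm h2, near_symm h1⟩

lemma near_of_mem {x y : Q} {z : P} (hx : z ∈ B.N x) (hy : z ∈ B.N y) : B.near x y :=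
  ⟨z, Finset.mem_inter.2 ⟨hx, hy⟩⟩

lemma mem_S2 {x y : Q} {z : P} (h : B.near x y) (hz : z ∈ B.N y) : z ∈ B.S2 x :=
  Finset.mem_biUnion.2 ⟨y, Finset.mem_filter.2 ⟨mem_univ _, h⟩, hz⟩

lemma inj_congr {φ φ' : P → Fin B.k} {x : Q} (h : ∀ z ∈ B.S2 x, φ z = φ' z) (u : Q) :
    B.inj φ u x ↔ B.inj φ' u x := by
  unfold inj
  apply Set.EqOn.injOn_iff
  intro z hz
  have hz' := Finset.mem_inter.1 (Finset.mem_coe.1 hz)
  exact h z (mem_S2 (near_of_mem hz'.2 hz'.2) hz'.2)

lemma K_congr {φ φ' : P → Fin B.k} {x : Q} (h : ∀ z ∈ B.S2 x, φ z = φ' z) (u : Q) :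
    B.K φ u x = B.K φ' u x := by
  unfold K
  simp only [inj_congr h u]

lemma Hd_congr {φ φ' : P → Fin B.k} {x : Q} (h : ∀ z ∈ B.S2 x, φ z = φ' z) (u : Q) :
    B.Hd φ u x ↔ B.Hd φ' u x := by
  unfold Hd
  rw [inj_congr h u]

lemma Hs_imp {φ φ' : P → Fin B.k} {x : Q} (h : ∀ z ∈ B.S2 x, φ z = φ' z) {u : Q}
    (hs : B.Hs φ u x) : B.Hs φ' u x := by
  obtain ⟨h1, z₀, z₁, z₂, h2, h3, h4, h5, h6, h7, h8, h9, h10⟩ := hs
  have n1 : B.near x u := near_of_mem h9 h8
  have n2 : B.near x x := near_of_mem h9 h9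
  have e0 := h z₀ (mem_S2 n1 h7)
  have e1 := h z₁ (mem_S2 n1 h8)
  have e2 := h z₂ (mem_S2 n2 h10)
  exact ⟨h1, z₀, z₁, z₂, h2, h3, h4, by rw [← e0, ← e1]; exact h5, by rw [← e1, ← e2]; exact h6,
    h7, h8, h9, h10⟩

lemma Hs_congr {φ φ' : P → Fin B.k} {x : Q} (h : ∀ z ∈ B.S2 x, φ z = φ' z) (u : Q) :
    B.Hs φ u x ↔ B.Hs φ' u x :=
  ⟨Hs_imp h, Hs_imp fun z hz => (h z hz).symm⟩

lemma E3h_imp {φ φ' : P → Fin B.k} {x : Q} (h : ∀ z ∈ B.S2 x, φ z = φ' z) {u u' : Q}
    (hs : B.E3h φ x u u') : B.E3h φ' x u u' := by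
  obtain ⟨h1, h2, h3, z, z', z'', h4, h5, h6, h7, h8, h9, h10, h11, h12, h13⟩ := hs
  have n1 : B.near x u := near_of_mem h9 h11
  have n2 : B.near x x := near_of_mem h9 h9
  have e0 := h z (mem_S2 n2 h9)
  have e1 := h z' (mem_S2 n2 h10)
  have e2 := h z'' (mem_S2 n1 h12)
  exact ⟨h1, h2, h3, z, z', z'', h4, h5, h6, by rw [← e0, ← e1]; exact h7,
    by rw [← e0, ← e2]; exact h8, h9, h10, h11, h12, h13⟩

lemma E3_imp {φ φ' : P → Fin B.k} {x : Q} (h : ∀ z ∈ B.S2 x, φ z = φ' z) {u u' : Q}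
    (hs : B.E3 φ x u u') : B.E3 φ' x u u' :=
  Or.imp (E3h_imp h) (E3h_imp h) hs

lemma E3_congr {φ φ' : P → Fin B.k} {x : Q} (h : ∀ z ∈ B.S2 x, φ z = φ' z) (u u' : Q) :
    B.E3 φ x u u' ↔ B.E3 φ' x u u' :=
  ⟨E3_imp h, E3_imp fun z hz => (h z hz).symm⟩

/-! ## Counting -/

lemma near_card (hB : B.Ok) (x : Q) :
    ((univ.filter fun y => B.near x y).card : ℝ) ≤ B.T ^ 6000 := by
  have hT0 := hB.big.pos
  have hsub : (univ.filter fun y => B.near x y) ⊆ (B.N x).biUnion B.NP := by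
    intro y hy
    obtain ⟨z, hz⟩ := (Finset.mem_filter.1 hy).2
    rw [Finset.mem_inter] at hz
    exact Finset.mem_biUnion.2 ⟨z, hz.1, Finset.mem_filter.2 ⟨mem_univ _, hz.2⟩⟩
  calc ((univ.filter fun y => B.near x y).card : ℝ)
      ≤ (((B.N x).biUnion B.NP).card : ℝ) := by exact_mod_cast Finset.card_le_card hsub
    _ ≤ ((∑ z ∈ B.N x, (B.NP z).card : ℕ) : ℝ) := by exact_mod_cast Finset.card_biUnion_le
    _ = ∑ z ∈ B.N x, ((B.NP z).card : ℝ) := by push_cast; rfl
    _ ≤ ∑ _z ∈ B.N x, B.T ^ 3000 := Finset.sum_le_sum fun z _ => hB.degP z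
    _ = (B.N x).card * B.T ^ 3000 := by rw [Finset.sum_const, nsmul_eq_mul]
    _ ≤ B.T ^ 3000 * B.T ^ 3000 :=
        mul_le_mul_of_nonneg_right (hB.degQ x) (pow_nonneg hT0.le _)
    _ = B.T ^ 6000 := by rw [← pow_add]

lemma S2_card (hB : B.Ok) (x : Q) : ((B.S2 x).card : ℝ) ≤ B.T ^ 9000 := by
  have hT0 := hB.big.pos
  calc ((B.S2 x).card : ℝ)
      ≤ ((∑ y ∈ univ.filter (fun y => B.near x y), (B.N y).card : ℕ) : ℝ) := by
        exact_mod_cast Finset.card_biUnion_le
    _ = ∑ y ∈ univ.filter (fun y => B.near x y), ((B.N y).card : ℝ) := by push_cast; rfl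
    _ ≤ ∑ _y ∈ univ.filter (fun y => B.near x y), B.T ^ 3000 :=
        Finset.sum_le_sum fun z _ => hB.degQ z
    _ = (univ.filter fun y => B.near x y).card * B.T ^ 3000 := by
        rw [Finset.sum_const, nsmul_eq_mul]
    _ ≤ B.T ^ 6000 * B.T ^ 3000 :=
        mul_le_mul_of_nonneg_right (near_card hB x) (pow_nonneg hT0.le _)
    _ = B.T ^ 9000 := by rw [← pow_add]

lemma S2_inv (hB : B.Ok) (z : P) :
    ((univ.filter fun x => z ∈ B.S2 x).card : ℝ) ≤ B.T ^ 9000 := by
  have hT0 := hB.big.pos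
  have hsub : (univ.filter fun x => z ∈ B.S2 x) ⊆
      (B.NP z).biUnion fun y => univ.filter fun x => B.near y x := by
    intro x hx
    obtain ⟨y, hy, hz⟩ := Finset.mem_biUnion.1 (Finset.mem_filter.1 hx).2
    exact Finset.mem_biUnion.2 ⟨y, Finset.mem_filter.2 ⟨mem_univ _, hz⟩,
      Finset.mem_filter.2 ⟨mem_univ _, near_symm (Finset.mem_filter.1 hy).2⟩⟩
  calc ((univ.filter fun x => z ∈ B.S2 x).card : ℝ)
      ≤ (((B.NP z).biUnion fun y => univ.filter fun x => B.near y x).card : ℝ) := by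
        exact_mod_cast Finset.card_le_card hsub
    _ ≤ ((∑ y ∈ B.NP z, (univ.filter fun x => B.near y x).card : ℕ) : ℝ) := by
        exact_mod_cast Finset.card_biUnion_le
    _ = ∑ y ∈ B.NP z, ((univ.filter fun x => B.near y x).card : ℝ) := by push_cast; rfl
    _ ≤ ∑ _y ∈ B.NP z, B.T ^ 6000 := Finset.sum_le_sum fun z _ => near_card hB z
    _ = (B.NP z).card * B.T ^ 6000 := by rw [Finset.sum_const, nsmul_eq_mul]
    _ ≤ B.T ^ 3000 * B.T ^ 6000 :=
        mul_le_mul_of_nonneg_right (hB.degP z) (pow_nonneg hT0.le _)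
    _ = B.T ^ 9000 := by rw [← pow_add]

lemma link_card (hB : B.Ok) (x : Q) :
    ((univ.filter fun y => B.link x y).card : ℝ) ≤ B.T ^ 12000 := by
  have hT0 := hB.big.pos
  have hsub : (univ.filter fun y => B.link x y) ⊆
      (univ.filter fun u => B.near x u).biUnion fun u => univ.filter fun y => B.near u y := by
    intro y hy
    obtain ⟨u, h1, h2⟩ := (Finset.mem_filter.1 hy).2
    exact Finset.mem_biUnion.2 ⟨u, Finset.mem_filter.2 ⟨mem_univ _, h1⟩,
      Finset.mem_filter.2 ⟨mem_univ _, h2⟩⟩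
  calc ((univ.filter fun y => B.link x y).card : ℝ)
      ≤ (((univ.filter fun u => B.near x u).biUnion
          fun u => univ.filter fun y => B.near u y).card : ℝ) := by
        exact_mod_cast Finset.card_le_card hsub
    _ ≤ ((∑ u ∈ univ.filter (fun u => B.near x u),
          (univ.filter fun y => B.near u y).card : ℕ) : ℝ) := by
        exact_mod_cast Finset.card_biUnion_le
    _ = ∑ u ∈ univ.filter (fun u => B.near x u),
          ((univ.filter fun y => B.near u y).card : ℝ) := by push_cast; rfl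
    _ ≤ ∑ _u ∈ univ.filter (fun u => B.near x u), B.T ^ 6000 :=
        Finset.sum_le_sum fun z _ => near_card hB z
    _ = (univ.filter fun u => B.near x u).card * B.T ^ 6000 := by
        rw [Finset.sum_const, nsmul_eq_mul]
    _ ≤ B.T ^ 6000 * B.T ^ 6000 :=
        mul_le_mul_of_nonneg_right (near_card hB x) (pow_nonneg hT0.le _)
    _ = B.T ^ 12000 := by rw [← pow_add]

/-- Pairs of linked vertices near a given vertex of `P`. -/
lemma pairs_card (hB : B.Ok) (z : P) :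
    ((univ.filter fun w : Q × Q => B.link w.1 w.2 ∧ (z ∈ B.S2 w.1 ∨ z ∈ B.S2 w.2)).card : ℝ) ≤
      2 * B.T ^ 21000 := by
  have hT0 := hB.big.pos
  set Z := univ.filter fun x => z ∈ B.S2 x with hZ
  have hsub : (univ.filter fun w : Q × Q => B.link w.1 w.2 ∧ (z ∈ B.S2 w.1 ∨ z ∈ B.S2 w.2)) ⊆
      (Z.biUnion fun x => (univ.filter fun y => B.link x y).image fun y => (x, y)) ∪
      (Z.biUnion fun x => (univ.filter fun y => B.link x y).image fun y => (y, x)) := by
    rintro ⟨x, y⟩ hw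
    obtain ⟨h1, h2⟩ := (Finset.mem_filter.1 hw).2
    rw [Finset.mem_union]
    rcases h2 with h2 | h2
    · left
      exact Finset.mem_biUnion.2 ⟨x, Finset.mem_filter.2 ⟨mem_univ _, h2⟩,
        Finset.mem_image.2 ⟨y, Finset.mem_filter.2 ⟨mem_univ _, h1⟩, rfl⟩⟩
    · right
      exact Finset.mem_biUnion.2 ⟨y, Finset.mem_filter.2 ⟨mem_univ _, h2⟩,
        Finset.mem_image.2 ⟨x, Finset.mem_filter.2 ⟨mem_univ _, link_symm h1⟩, rfl⟩⟩
  have hone : ∀ g : Q → Q → Q × Q,
      ((Z.biUnion fun x => (univ.filter fun y => B.link x y).image (g x)).card : ℝ) ≤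
        B.T ^ 21000 := by
    intro g
    calc ((Z.biUnion fun x => (univ.filter fun y => B.link x y).image (g x)).card : ℝ)
        ≤ ((∑ x ∈ Z, ((univ.filter fun y => B.link x y).image (g x)).card : ℕ) : ℝ) := by
          exact_mod_cast Finset.card_biUnion_le
      _ = ∑ x ∈ Z, (((univ.filter fun y => B.link x y).image (g x)).card : ℝ) := by
          push_cast; rfl
      _ ≤ ∑ _x ∈ Z, B.T ^ 12000 := Finset.sum_le_sum fun x _ =>
          le_trans (by exact_mod_cast Finset.card_image_le) (link_card hB x)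
      _ = Z.card * B.T ^ 12000 := by rw [Finset.sum_const, nsmul_eq_mul]
      _ ≤ B.T ^ 9000 * B.T ^ 12000 :=
          mul_le_mul_of_nonneg_right (S2_inv hB z) (pow_nonneg hT0.le _)
      _ = B.T ^ 21000 := by rw [← pow_add]
  calc _ ≤ (((Z.biUnion fun x => (univ.filter fun y => B.link x y).image fun y => (x, y)) ∪
      (Z.biUnion fun x => (univ.filter fun y => B.link x y).image fun y => (y, x))).card : ℝ) := by
        exact_mod_cast Finset.card_le_card hsub
    _ ≤ ((Z.biUnion fun x => (univ.filter fun y => B.link x y).image fun y => (x, y)).card : ℝ) +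
        ((Z.biUnion fun x => (univ.filter fun y => B.link x y).image fun y => (y, x)).card : ℝ) := by
        exact_mod_cast Finset.card_union_le _ _
    _ ≤ B.T ^ 21000 + B.T ^ 21000 := add_le_add (hone _) (hone _)
    _ = 2 * B.T ^ 21000 := by ring

/-! ## The events -/

/-- The undesirable events. -/
def bad (B : BData P Q) (rd : Q → ℕ) (i : Fin 8) (x x' : Q) (j : ℕ) (φ : P → Fin B.k) : Prop :=
  match i with
  | 0 => (B.cod x x' : ℝ) ≤ B.T ^ 2500 ∧
      ¬ |∑ u ∈ univ.filter (fun u => rd u = j), B.K φ u x * B.K φ u x'| ≤ B.T ^ 3373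
  | 1 => ¬ |∑ u ∈ univ.filter (fun u => rd u = j), B.K φ u x * rho B.k (B.cod u x)| ≤ B.T ^ 3373
  | 2 => ¬ |∑ u ∈ univ.filter (fun u => rd u = j), B.K φ u x * B.h u x| ≤ B.T ^ 3373
  | 3 => ¬ ((univ.filter fun u => B.Hd φ u x).card : ℝ) ≤ B.T ^ 3977
  | 4 => ¬ ((univ.filter fun u => B.Hs φ u x).card : ℝ) ≤ B.T ^ 4008
  | 5 => ¬ ((univ.filter fun u => B.Hs φ u x ∧ rd u = j).card : ℝ) ≤ B.T ^ 3864
  | 6 => ¬ ((univ.filter fun w : Q × Q => B.E3 φ x w.1 w.2).card : ℝ) ≤ B.T ^ 7010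
  | 7 => ¬ ((univ.filter fun u' => B.E3 φ x x' u').card : ℝ) ≤ B.T ^ 4010

lemma bad_congr {rd : Q → ℕ} {φ φ' : P → Fin B.k} {x x' : Q}
    (h : ∀ z ∈ B.S2 x ∪ B.S2 x', φ z = φ' z) (i : Fin 8) (j : ℕ) :
    B.bad rd i x x' j φ = B.bad rd i x x' j φ' := by
  have h1 : ∀ z ∈ B.S2 x, φ z = φ' z := fun z hz => h z (Finset.mem_union_left _ hz)
  have h2 : ∀ z ∈ B.S2 x', φ z = φ' z := fun z hz => h z (Finset.mem_union_right _ hz)
  fin_cases i
  · show (_ ∧ _) = (_ ∧ _)
    simp only [K_congr h1, K_congr h2]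
  · show (¬ _) = (¬ _)
    simp only [K_congr h1]
  · show (¬ _) = (¬ _)
    simp only [K_congr h1]
  · show (¬ _) = (¬ _)
    simp only [Hd_congr h1]
  · show (¬ _) = (¬ _)
    simp only [Hs_congr h1]
  · show (¬ _) = (¬ _)
    simp only [Hs_congr h1]
  · show (¬ _) = (¬ _)
    simp only [E3_congr h1]
  · show (¬ _) = (¬ _)
    simp only [E3_congr h1]

lemma bad_le (hB : B.Ok) {rd : Q → ℕ} (hrd : B.RdOk rd) (i : Fin 8) (x x' : Q) (j : ℕ) :
    Pr (unif P B.k) (B.bad rd i x x' j) ≤ 3 * Real.exp (-(2 * B.T)) := by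
  have hT := hB.big
  have hT0 := hT.pos
  have hT1 := hT.one_le
  have hPM := unif_isPM (P := P) B.k (phi_k_pos hB)
  have he := Real.exp_pos (-(2 * B.T))
  fin_cases i
  · by_cases hc : (B.cod x x' : ℝ) ≤ B.T ^ 2500
    · refine le_trans (Pr_mono hPM fun φ hφ => ?_) (pl2_tail hB hrd x x' j hc)
      exact (hφ : _ ∧ _).2
    · refine le_trans (le_of_eq ?_) (by positivity : (0 : ℝ) ≤ 3 * Real.exp (-(2 * B.T)))
      have : (B.bad rd 0 x x' j) = fun _ => False := by
        funext φ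
        exact propext ⟨fun hφ => hc (hφ : _ ∧ _).1, False.elim⟩
      show Pr (unif P B.k) (B.bad rd 0 x x' j) = 0
      rw [this]
      simp [Pr, Ex]
  · exact (pl1_tail hB hrd x j).trans (by linarith)
  · exact (plh_tail hB hrd x j).trans (by linarith)
  · exact (hd_tail hB x).trans (by linarith)
  · have h1 := hs_tail hB x univ (B.T ^ 3000) (one_le_pow₀ hT1) le_rfl (fun z => hB.degP z)
    rw [← pow_add] at h1
    exact h1.trans (by linarith)
  · have h1 := hs_tail hB x (univ.filter fun u => rd u = j) (B.T ^ 2856) (one_le_pow₀ hT1)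
      (pow_le_pow_right₀ hT1 (by norm_num)) (fun z => by
        refine le_trans (le_trans ?_ (hrd.np z j)) (pow_le_pow_right₀ hT1 (by norm_num))
        exact_mod_cast Finset.card_le_card (fun u hu => by
          rw [Finset.mem_filter, Finset.mem_filter] at hu
          exact Finset.mem_filter.2 ⟨Finset.mem_filter.2 ⟨mem_univ _, hu.2⟩, hu.1.2⟩))
    rw [← pow_add] at h1
    refine le_trans (Pr_mono hPM fun φ hφ => ?_) (h1.trans (by linarith))
    have h2 : ¬ ((univ.filter fun u => B.Hs φ u x ∧ rd u = j).card : ℝ) ≤ B.T ^ 3864 := hφ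
    rw [Finset.filter_filter]
    simp only [and_comm (a := rd _ = j)]
    exact h2
  · exact (e3_tail hB x).trans (by linarith)
  · exact (e3'_tail hB x x').trans (by linarith)

theorem exists_phi (hB : B.Ok) {rd : Q → ℕ} (hrd : B.RdOk rd) :
    ∃ φ : P → Fin B.k, B.PFacts rd φ := by
  have hT := hB.big
  have hT0 := hT.pos
  have hT1 := hT.one_le
  have hPM := unif_isPM (P := P) B.k (phi_k_pos hB)
  let κ := Fin 8 × (Q × Q) × Fin (B.q + 1)
  let E : κ → (P → Fin B.k) → Prop := fun b φ =>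
    B.link b.2.1.1 b.2.1.2 ∧ B.bad rd b.1 b.2.1.1 b.2.1.2 b.2.2 φ
  let S : κ → Finset P := fun b =>
    if B.link b.2.1.1 b.2.1.2 then B.S2 b.2.1.1 ∪ B.S2 b.2.1.2 else ∅
  have hexp : Real.exp (-(2 * B.T)) * B.T ^ 60000 ≤ Real.exp (-B.T) := by
    calc Real.exp (-(2 * B.T)) * B.T ^ 60000 ≤ Real.exp (-(2 * B.T)) * Real.exp B.T :=
          mul_le_mul_of_nonneg_left hT.exp (Real.exp_pos _).le
      _ = Real.exp (-B.T) := by rw [← Real.exp_add]; congr 1; ring
  have hexp1 : Real.exp (-B.T) ≤ 1 := Real.exp_le_one_iff.2 (by linarith)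
  have hbig := hT.big
  suffices hsuff : ∃ φ : P → Fin B.k, 0 < wt (unif P B.k) φ ∧ ∀ b, ¬ E b φ by
    obtain ⟨φ, -, hφ⟩ := hsuff
    have hno : ∀ i x x' j, j ≤ B.q → B.link x x' → ¬ B.bad rd i x x' j φ := fun i x x' j hj hl hb =>
      hφ (i, (x, x'), ⟨j, Nat.lt_succ_of_le hj⟩) ⟨hl, hb⟩
    have hnearK : ∀ u x, B.K φ u x ≠ 0 → B.near x u := by
      intro u x hK
      have hrel : B.rel u x := by
        by_contra hcon
        exact hK (K_eq_zero φ hcon)
      have h1 : (0 : ℝ) < B.cod u x := (pow_pos hT0 _).trans_le hrel.2.1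
      have h2 : 0 < B.cod u x := by exact_mod_cast h1
      exact near_symm (Finset.card_pos.1 h2)
    have hself : ∀ x u, B.near x u → B.near x x := fun x u h => by
      obtain ⟨z, hz⟩ := h
      have := (Finset.mem_inter.1 hz).1
      exact near_of_mem this this
    refine ⟨φ, ⟨?_, ?_, ?_, ?_, ?_, ?_, ?_, ?_⟩⟩
    · intro x x' j hc
      by_contra hcon
      have hne : ∑ u ∈ univ.filter (fun u => rd u = j), B.K φ u x * B.K φ u x' ≠ 0 := by
        intro h0
        apply hcon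
        rw [h0, abs_zero]
        exact pow_nonneg hT0.le _
      obtain ⟨u, hu, hu0⟩ := Finset.exists_ne_zero_of_sum_ne_zero hne
      have hj : rd u = j := (Finset.mem_filter.1 hu).2
      exact hno 0 x x' j (by rw [← hj]; exact (hrd.lt u).le)
        ⟨u, hnearK u x (left_ne_zero_of_mul hu0), near_symm (hnearK u x' (right_ne_zero_of_mul hu0))⟩
        ⟨hc, hcon⟩
    · intro x j
      by_contra hcon
      have hne : ∑ u ∈ univ.filter (fun u => rd u = j), B.K φ u x * rho B.k (B.cod u x) ≠ 0 := by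
        intro h0
        apply hcon
        rw [h0, abs_zero]
        exact pow_nonneg hT0.le _
      obtain ⟨u, hu, hu0⟩ := Finset.exists_ne_zero_of_sum_ne_zero hne
      have hj : rd u = j := (Finset.mem_filter.1 hu).2
      have hn := hnearK u x (left_ne_zero_of_mul hu0)
      exact hno 1 x x j (by rw [← hj]; exact (hrd.lt u).le) ⟨u, hn, near_symm hn⟩ hcon
    · intro x j
      by_contra hcon
      have hne : ∑ u ∈ univ.filter (fun u => rd u = j), B.K φ u x * B.h u x ≠ 0 := by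
        intro h0
        apply hcon
        rw [h0, abs_zero]
        exact pow_nonneg hT0.le _
      obtain ⟨u, hu, hu0⟩ := Finset.exists_ne_zero_of_sum_ne_zero hne
      have hj : rd u = j := (Finset.mem_filter.1 hu).2
      have hn := hnearK u x (left_ne_zero_of_mul hu0)
      exact hno 2 x x j (by rw [← hj]; exact (hrd.lt u).le) ⟨u, hn, near_symm hn⟩ hcon
    · intro x
      by_contra hcon
      have hne : (univ.filter fun u => B.Hd φ u x).Nonempty := by
        by_contra he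
        rw [Finset.not_nonempty_iff_eq_empty] at he
        apply hcon
        rw [he, Finset.card_empty, Nat.cast_zero]
        exact pow_nonneg hT0.le _
      obtain ⟨u, hu⟩ := hne
      have hd := (Finset.mem_filter.1 hu).2.2
      have hn : B.near x u := by
        by_contra hn
        apply hd
        unfold near at hn
        rw [Finset.not_nonempty_iff_eq_empty, Finset.inter_comm] at hn
        unfold inj
        rw [hn]
        simp
      exact hno 3 x x 0 (Nat.zero_le _) ⟨u, hn, near_symm hn⟩ hcon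
    · intro x
      by_contra hcon
      have hne : (univ.filter fun u => B.Hs φ u x).Nonempty := by
        by_contra he
        rw [Finset.not_nonempty_iff_eq_empty] at he
        apply hcon
        rw [he, Finset.card_empty, Nat.cast_zero]
        exact pow_nonneg hT0.le _
      obtain ⟨u, hu⟩ := hne
      obtain ⟨-, z₀, z₁, z₂, -, -, -, -, -, -, h8, h9, -⟩ := (Finset.mem_filter.1 hu).2
      have hn : B.near x u := near_of_mem h9 h8
      exact hno 4 x x 0 (Nat.zero_le _) ⟨u, hn, near_symm hn⟩ hcon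
    · intro x j
      by_contra hcon
      have hne : (univ.filter fun u => B.Hs φ u x ∧ rd u = j).Nonempty := by
        by_contra he
        rw [Finset.not_nonempty_iff_eq_empty] at he
        apply hcon
        rw [he, Finset.card_empty, Nat.cast_zero]
        exact pow_nonneg hT0.le _
      obtain ⟨u, hu⟩ := hne
      obtain ⟨⟨-, z₀, z₁, z₂, -, -, -, -, -, -, h8, h9, -⟩, hj⟩ := (Finset.mem_filter.1 hu).2
      have hn : B.near x u := near_of_mem h9 h8
      exact hno 5 x x j (by rw [← hj]; exact (hrd.lt u).le) ⟨u, hn, near_symm hn⟩ hcon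
    · intro x
      by_contra hcon
      have hne : (univ.filter fun w : Q × Q => B.E3 φ x w.1 w.2).Nonempty := by
        by_contra he
        rw [Finset.not_nonempty_iff_eq_empty] at he
        apply hcon
        rw [he, Finset.card_empty, Nat.cast_zero]
        exact pow_nonneg hT0.le _
      obtain ⟨w, hw⟩ := hne
      obtain ⟨u, hn⟩ : ∃ u, B.near x u := by
        rcases (Finset.mem_filter.1 hw).2 with
          ⟨-, -, -, z, z', z'', -, -, -, -, -, h9, -, h11, -⟩ |
          ⟨-, -, -, z, z', z'', -, -, -, -, -, h9, -, h11, -⟩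
        · exact ⟨_, near_of_mem h9 h11⟩
        · exact ⟨_, near_of_mem h9 h11⟩
      exact hno 6 x x 0 (Nat.zero_le _) ⟨u, hn, near_symm hn⟩ hcon
    · intro x u
      by_contra hcon
      have hne : (univ.filter fun u' => B.E3 φ x u u').Nonempty := by
        by_contra he
        rw [Finset.not_nonempty_iff_eq_empty] at he
        apply hcon
        rw [he, Finset.card_empty, Nat.cast_zero]
        exact pow_nonneg hT0.le _
      obtain ⟨u', hu'⟩ := hne
      have hn : B.near x u := by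
        rcases (Finset.mem_filter.1 hu').2 with
          ⟨-, -, -, z, z', z'', -, -, -, -, -, h9, -, h11, -⟩ |
          ⟨-, -, -, z, z', z'', -, -, -, -, -, h9, h10, h11, h12, h13⟩
        · exact near_of_mem h9 h11
        · exact near_of_mem h10 h13
      exact hno 7 x u 0 (Nat.zero_le _) ⟨x, hself x u hn, hn⟩ hcon
  refine lll_local hPM E S ?_ (3 * Real.exp (-(2 * B.T))) ⌊B.T ^ 10000⌋₊
    ⌊B.T ^ 22000⌋₊ (by positivity) ?_ ?_ ?_ ?_ ?_
  · -- dependence
    rintro ⟨i, ⟨x, x'⟩, j⟩ φ φ' hφ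
    by_cases hl : B.link x x'
    · have h1 : ∀ z ∈ B.S2 x ∪ B.S2 x', φ z = φ' z := fun z hz => hφ z (by
        show z ∈ ((if B.link x x' then B.S2 x ∪ B.S2 x' else ∅ : Finset P) : Set P)
        rw [if_pos hl]
        exact hz)
      show (_ ∧ _) = (_ ∧ _)
      rw [bad_congr h1]
    · show (_ ∧ _) = (_ ∧ _)
      exact propext ⟨fun h => absurd h.1 hl, fun h => absurd h.1 hl⟩
  · -- probability
    rintro ⟨i, ⟨x, x'⟩, j⟩
    exact le_trans (Pr_mono hPM fun φ hφ => hφ.2) (bad_le hB hrd i x x' j)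
  · -- size
    rintro ⟨i, ⟨x, x'⟩, j⟩
    apply Nat.le_floor
    show (((if B.link x x' then B.S2 x ∪ B.S2 x' else ∅ : Finset P)).card : ℝ) ≤ B.T ^ 10000
    split_ifs with hl
    · calc ((B.S2 x ∪ B.S2 x').card : ℝ) ≤ (B.S2 x).card + (B.S2 x').card := by
            exact_mod_cast Finset.card_union_le _ _
        _ ≤ B.T ^ 9000 + B.T ^ 9000 := add_le_add (S2_card hB x) (S2_card hB x')
        _ = 2 * B.T ^ 9000 := by ring
        _ ≤ B.T * B.T ^ 9000 := mul_le_mul_of_nonneg_right (by linarith) (pow_nonneg hT0.le _)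
        _ = B.T ^ 9001 := by rw [← pow_succ']
        _ ≤ B.T ^ 10000 := pow_le_pow_right₀ hT1 (by norm_num)
    · simpa using (pow_pos hT0 _).le
  · -- degree
    intro z
    apply Nat.le_floor
    have hsub : (univ.filter fun b : κ => z ∈ S b) ⊆ (univ : Finset (Fin 8)) ×ˢ
        ((univ.filter fun w : Q × Q => B.link w.1 w.2 ∧ (z ∈ B.S2 w.1 ∨ z ∈ B.S2 w.2)) ×ˢ
          (univ : Finset (Fin (B.q + 1)))) := by
      rintro ⟨i, ⟨x, x'⟩, j⟩ hb
      have hz := (Finset.mem_filter.1 hb).2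
      have hz' : z ∈ (if B.link x x' then B.S2 x ∪ B.S2 x' else ∅ : Finset P) := hz
      rw [Finset.mem_product, Finset.mem_product]
      refine ⟨mem_univ _, Finset.mem_filter.2 ⟨mem_univ _, ?_⟩, mem_univ _⟩
      by_cases hl : B.link x x'
      · rw [if_pos hl, Finset.mem_union] at hz'
        exact ⟨hl, hz'⟩
      · rw [if_neg hl] at hz'
        exact absurd hz' (Finset.notMem_empty _)
    have hq := hB.q_hi
    calc ((univ.filter fun b : κ => z ∈ S b).card : ℝ)
        ≤ (((univ : Finset (Fin 8)) ×ˢ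
        ((univ.filter fun w : Q × Q => B.link w.1 w.2 ∧ (z ∈ B.S2 w.1 ∨ z ∈ B.S2 w.2)) ×ˢ
          (univ : Finset (Fin (B.q + 1))))).card : ℝ) := by
          exact_mod_cast Finset.card_le_card hsub
      _ = 8 * (((univ.filter fun w : Q × Q =>
            B.link w.1 w.2 ∧ (z ∈ B.S2 w.1 ∨ z ∈ B.S2 w.2)).card : ℝ) * (B.q + 1)) := by
          rw [Finset.card_product, Finset.card_product, Finset.card_univ, Finset.card_univ,
            Fintype.card_fin, Fintype.card_fin]
          push_cast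
          rfl
      _ ≤ 8 * ((2 * B.T ^ 21000) * (B.T ^ 150 + 1)) := by
          have h1 := pairs_card hB z
          have h2 : (0 : ℝ) ≤ B.q + 1 := by positivity
          have h3 : (0 : ℝ) ≤ 2 * B.T ^ 21000 := mul_nonneg zero_le_two (pow_nonneg hT0.le _)
          have h4 := mul_le_mul h1 (add_le_add_left hq 1) h2 h3
          linarith
      _ ≤ 8 * ((2 * B.T ^ 21000) * (2 * B.T ^ 150)) := by
          have h1 : (1 : ℝ) ≤ B.T ^ 150 := one_le_pow₀ hT1
          have h3 : (0 : ℝ) ≤ 2 * B.T ^ 21000 := mul_nonneg zero_le_two (pow_nonneg hT0.le _)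
          have h4 := mul_le_mul_of_nonneg_left (by linarith : B.T ^ 150 + 1 ≤ 2 * B.T ^ 150) h3
          linarith
      _ = 32 * (B.T ^ 21000 * B.T ^ 150) := by ring
      _ = 32 * B.T ^ 21150 := by rw [← pow_add]
      _ ≤ B.T * B.T ^ 21150 := mul_le_mul_of_nonneg_right (by linarith) (pow_nonneg hT0.le _)
      _ = B.T ^ 21151 := by rw [← pow_succ']
      _ ≤ B.T ^ 22000 := pow_le_pow_right₀ hT1 (by norm_num)
  · -- the inequality of the local lemma
    have h1 : ((⌊B.T ^ 10000⌋₊ * ⌊B.T ^ 22000⌋₊ : ℕ) : ℝ) ≤ B.T ^ 32000 := by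
      rw [Nat.cast_mul]
      calc (⌊B.T ^ 10000⌋₊ : ℝ) * ⌊B.T ^ 22000⌋₊ ≤ B.T ^ 10000 * B.T ^ 22000 :=
            mul_le_mul (Nat.floor_le (pow_nonneg hT0.le _)) (Nat.floor_le (pow_nonneg hT0.le _))
              (Nat.cast_nonneg _) (pow_nonneg hT0.le _)
        _ = B.T ^ 32000 := by rw [← pow_add]
    have h2 : 12 * B.T ^ 32000 ≤ B.T ^ 60000 := by
      calc 12 * B.T ^ 32000 ≤ B.T * B.T ^ 32000 :=
            mul_le_mul_of_nonneg_right (by linarith) (pow_nonneg hT0.le _)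
        _ = B.T ^ 32001 := by rw [← pow_succ']
        _ ≤ B.T ^ 60000 := pow_le_pow_right₀ hT1 (by norm_num)
    have h3 := Real.exp_pos (-(2 * B.T))
    calc 4 * (3 * Real.exp (-(2 * B.T))) * ((⌊B.T ^ 10000⌋₊ * ⌊B.T ^ 22000⌋₊ : ℕ) : ℝ)
        ≤ 4 * (3 * Real.exp (-(2 * B.T))) * B.T ^ 32000 :=
          mul_le_mul_of_nonneg_left h1 (by positivity)
      _ = Real.exp (-(2 * B.T)) * (12 * B.T ^ 32000) := by ring
      _ ≤ Real.exp (-(2 * B.T)) * B.T ^ 60000 := mul_le_mul_of_nonneg_left h2 h3.le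
      _ ≤ 1 := hexp.trans hexp1
  · have h1 : (12 : ℝ) ≤ B.T ^ 60000 := by
      calc (12 : ℝ) ≤ B.T := by linarith
        _ = B.T ^ 1 := (pow_one _).symm
        _ ≤ B.T ^ 60000 := pow_le_pow_right₀ hT1 (by norm_num)
    have h3 := Real.exp_pos (-(2 * B.T))
    have h4 : Real.exp (-(2 * B.T)) * 12 ≤ 1 :=
      (mul_le_mul_of_nonneg_left h1 h3.le).trans (hexp.trans hexp1)
    linarith

end BData

end Pool.Agent.Acy
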