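import Mathlib

/-! # Finite product measures: expectation, independence, the symmetric local lemma

Project MP_af9dfb_co (acyclic colourings of bipartite graphs), module 1. -/

set_option autoImplicit false
set_option linter.unusedSectionVars false

namespace Pool.Agent.Acy

open Finset
open scoped Classical

section

variable {ι α : Type*} [Fintype ι] [DecidableEq ι] [Fintype α]

/-- `μ i` is a probability vector for each coordinate `i`. -/
structure IsPM (μ : ι → α → ℝ) : Prop where
  nonneg : ∀ i a, 0 ≤ μ i a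
  sum_one : ∀ i, ∑ a, μ i a = 1

/-- Product weight of a point. -/
noncomputable def wt (μ : ι → α → ℝ) (ω : ι → α) : ℝ := ∏ i, μ i (ω i)

/-- Expectation with respect to the product measure. -/
noncomputable def Ex (μ : ι → α → ℝ) (f : (ι → α) → ℝ) : ℝ := ∑ ω, wt μ ω * f ω

/-- Probability of an event. -/
noncomputable def Pr (μ : ι → α → ℝ) (E : (ι → α) → Prop) : ℝ :=
  Ex μ (fun ω => if E ω then 1 else 0)

variable {μ : ι → α → ℝ}

theorem wt_nonneg (h : IsPM μ) (ω : ι → α) : 0 ≤ wt μ ω :=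
  Finset.prod_nonneg fun i _ => h.nonneg i _

theorem sum_wt (h : IsPM μ) : ∑ ω, wt μ ω = 1 := by
  have h1 := Finset.prod_univ_sum (fun _ : ι => (Finset.univ : Finset α)) (fun i a => μ i a)
  rw [Fintype.piFinset_univ] at h1
  unfold wt
  rw [← h1]
  exact Finset.prod_eq_one fun i _ => h.sum_one i

theorem Ex_const (h : IsPM μ) (c : ℝ) : Ex μ (fun _ => c) = c := by
  unfold Ex
  rw [← Finset.sum_mul, sum_wt h, one_mul]

theorem Ex_mono (h : IsPM μ) {f g : (ι → α) → ℝ} (hfg : ∀ ω, f ω ≤ g ω) : Ex μ f ≤ Ex μ g :=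
  Finset.sum_le_sum fun ω _ => mul_le_mul_of_nonneg_left (hfg ω) (wt_nonneg h ω)

theorem Ex_nonneg (h : IsPM μ) {f : (ι → α) → ℝ} (hf : ∀ ω, 0 ≤ f ω) : 0 ≤ Ex μ f :=
  Finset.sum_nonneg fun ω _ => mul_nonneg (wt_nonneg h ω) (hf ω)

theorem Ex_add (f g : (ι → α) → ℝ) : Ex μ (fun ω => f ω + g ω) = Ex μ f + Ex μ g := by
  unfold Ex
  rw [← Finset.sum_add_distrib]
  exact Finset.sum_congr rfl fun ω _ => by ring

theorem Ex_sub (f g : (ι → α) → ℝ) : Ex μ (fun ω => f ω - g ω) = Ex μ f - Ex μ g := by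
  unfold Ex
  rw [← Finset.sum_sub_distrib]
  exact Finset.sum_congr rfl fun ω _ => by ring

theorem Ex_mul_left (c : ℝ) (f : (ι → α) → ℝ) : Ex μ (fun ω => c * f ω) = c * Ex μ f := by
  unfold Ex
  rw [Finset.mul_sum]
  exact Finset.sum_congr rfl fun ω _ => by ring

theorem Ex_mul_right (c : ℝ) (f : (ι → α) → ℝ) : Ex μ (fun ω => f ω * c) = Ex μ f * c := by
  unfold Ex
  rw [Finset.sum_mul]
  exact Finset.sum_congr rfl fun ω _ => by ring

theorem Ex_sum {κ : Type*} (s : Finset κ) (f : κ → (ι → α) → ℝ) :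
    Ex μ (fun ω => ∑ b ∈ s, f b ω) = ∑ b ∈ s, Ex μ (f b) := by
  unfold Ex
  rw [Finset.sum_comm]
  exact Finset.sum_congr rfl fun ω _ => by rw [Finset.mul_sum]

/-- Resampling one coordinate. -/
theorem Ex_resample (h : IsPM μ) (i : ι) (f : (ι → α) → ℝ) :
    Ex μ f = Ex μ (fun ω => ∑ a, μ i a * f (Function.update ω i a)) := by
  have hwt : ∀ ω : ι → α, wt μ ω = μ i (ω i) * ∏ j ∈ univ.erase i, μ j (ω j) := fun ω =>
    (Finset.mul_prod_erase univ (fun j => μ j (ω j)) (mem_univ i)).symm
  have hwt' : ∀ (ω : ι → α) (a : α),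
      wt μ (Function.update ω i a) = μ i a * ∏ j ∈ univ.erase i, μ j (ω j) := by
    intro ω a
    rw [hwt, Function.update_self]
    congr 1
    refine Finset.prod_congr rfl fun j hj => ?_
    rw [Function.update_of_ne (Finset.ne_of_mem_erase hj)]
  let e : ((ι → α) × α) ≃ ((ι → α) × α) :=
    { toFun := fun q => (Function.update q.1 i q.2, q.1 i)
      invFun := fun q => (Function.update q.1 i q.2, q.1 i)
      left_inv := fun q => by
        refine Prod.ext ?_ ?_
        · simp
        · simp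
      right_inv := fun q => by
        refine Prod.ext ?_ ?_
        · simp
        · simp }
  have h1 : ∑ q : (ι → α) × α, wt μ q.1 * μ i q.2 * f (Function.update q.1 i q.2) =
      ∑ q : (ι → α) × α, wt μ q.1 * μ i q.2 * f q.1 := by
    rw [← e.sum_comp (fun q : (ι → α) × α => wt μ q.1 * μ i q.2 * f q.1)]
    refine Finset.sum_congr rfl fun q _ => ?_
    show _ = wt μ (Function.update q.1 i q.2) * μ i (q.1 i) * f (Function.update q.1 i q.2)
    rw [hwt', hwt q.1]
    ring
  rw [Fintype.sum_prod_type, Fintype.sum_prod_type] at h1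
  unfold Ex
  calc ∑ ω, wt μ ω * f ω = ∑ ω, ∑ a, wt μ ω * μ i a * f ω := by
        refine Finset.sum_congr rfl fun ω _ => ?_
        rw [← Finset.sum_mul, ← Finset.mul_sum, h.sum_one, mul_one]
    _ = ∑ ω, ∑ a, wt μ ω * μ i a * f (Function.update ω i a) := h1.symm
    _ = _ := by
        refine Finset.sum_congr rfl fun ω _ => ?_
        rw [Finset.mul_sum]
        exact Finset.sum_congr rfl fun a _ => by ring

/-- The expectation of a product of functions of single coordinates. -/
theorem Ex_prod (g : ι → α → ℝ) :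
    Ex μ (fun ω => ∏ i, g i (ω i)) = ∏ i, ∑ a, μ i a * g i a := by
  have h1 := Finset.prod_univ_sum (fun _ : ι => (Finset.univ : Finset α))
    (fun i a => μ i a * g i a)
  rw [Fintype.piFinset_univ] at h1
  unfold Ex wt
  rw [h1]
  exact Finset.sum_congr rfl fun ω _ => by rw [Finset.prod_mul_distrib]

/-- Independence of functions of disjoint sets of coordinates. -/
theorem Ex_mul_of_disjoint (h : IsPM μ) {f g : (ι → α) → ℝ} {S T : Set ι}
    (hf : DependsOn f S) (hg : DependsOn g T) (hST : Disjoint S T) :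
    Ex μ (fun ω => f ω * g ω) = Ex μ f * Ex μ g := by
  let mix : (ι → α) → (ι → α) → (ι → α) := fun ω ω' i => if i ∈ S then ω i else ω' i
  have hmm : ∀ ω ω', mix (mix ω ω') (mix ω' ω) = ω := by
    intro ω ω'
    funext i
    by_cases hi : i ∈ S <;> simp [mix, hi]
  let e : ((ι → α) × (ι → α)) ≃ ((ι → α) × (ι → α)) :=
    { toFun := fun q => (mix q.1 q.2, mix q.2 q.1)
      invFun := fun q => (mix q.1 q.2, mix q.2 q.1)
      left_inv := fun q => Prod.ext (hmm q.1 q.2) (hmm q.2 q.1)
      right_inv := fun q => Prod.ext (hmm q.1 q.2) (hmm q.2 q.1) }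
  have hwt : ∀ ω ω', wt μ (mix ω ω') * wt μ (mix ω' ω) = wt μ ω * wt μ ω' := by
    intro ω ω'
    unfold wt
    rw [← Finset.prod_mul_distrib, ← Finset.prod_mul_distrib]
    refine Finset.prod_congr rfl fun i _ => ?_
    by_cases hi : i ∈ S <;> simp [mix, hi, mul_comm]
  have hf' : ∀ ω ω', f (mix ω ω') = f ω := fun ω ω' => hf fun i hi => by simp [mix, hi]
  have hg' : ∀ ω ω', g (mix ω ω') = g ω' := fun ω ω' => hg fun i hi => by
    have : i ∉ S := fun hS => Set.disjoint_left.mp hST hS hi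
    simp [mix, this]
  have h1 : ∑ q : (ι → α) × (ι → α), wt μ q.1 * wt μ q.2 * (f q.1 * g q.2) =
      ∑ q : (ι → α) × (ι → α), wt μ q.1 * wt μ q.2 * (f q.1 * g q.1) := by
    rw [← e.sum_comp (fun q : (ι → α) × (ι → α) => wt μ q.1 * wt μ q.2 * (f q.1 * g q.1))]
    refine Finset.sum_congr rfl fun q _ => ?_
    show _ = wt μ (mix q.1 q.2) * wt μ (mix q.2 q.1) * (f (mix q.1 q.2) * g (mix q.1 q.2))
    rw [hwt, hf', hg']
  rw [Fintype.sum_prod_type, Fintype.sum_prod_type] at h1
  have h2 : Ex μ f * Ex μ g = ∑ ω, ∑ ω', wt μ ω * wt μ ω' * (f ω * g ω') := by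
    unfold Ex
    rw [Finset.sum_mul_sum]
    exact Finset.sum_congr rfl fun ω _ => Finset.sum_congr rfl fun ω' _ => by ring
  rw [h2, h1]
  unfold Ex
  refine Finset.sum_congr rfl fun ω _ => ?_
  show wt μ ω * (f ω * g ω) = ∑ ω', wt μ ω * wt μ ω' * (f ω * g ω)
  rw [← Finset.sum_mul, ← Finset.mul_sum, sum_wt h, mul_one]

theorem Pr_nonneg (h : IsPM μ) (E : (ι → α) → Prop) : 0 ≤ Pr μ E :=
  Ex_nonneg h fun ω => by split_ifs <;> norm_num

theorem Pr_le_one (h : IsPM μ) (E : (ι → α) → Prop) : Pr μ E ≤ 1 := by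
  have := Ex_mono h (f := fun ω => if E ω then (1 : ℝ) else 0) (g := fun _ => 1)
    (fun ω => by split_ifs <;> norm_num)
  rwa [Ex_const h] at this

theorem Pr_mono (h : IsPM μ) {E F : (ι → α) → Prop} (hEF : ∀ ω, E ω → F ω) :
    Pr μ E ≤ Pr μ F :=
  Ex_mono h fun ω => by
    by_cases hE : E ω
    · simp [hE, hEF ω hE]
    · by_cases hF : F ω <;> simp [hE, hF]

theorem Pr_or_le (h : IsPM μ) (E F : (ι → α) → Prop) :
    Pr μ (fun ω => E ω ∨ F ω) ≤ Pr μ E + Pr μ F := by
  unfold Pr
  rw [← Ex_add]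
  exact Ex_mono h fun ω => by by_cases hE : E ω <;> by_cases hF : F ω <;> simp [hE, hF]

theorem Pr_exists_le (h : IsPM μ) {κ : Type*} (s : Finset κ) (E : κ → (ι → α) → Prop) :
    Pr μ (fun ω => ∃ b ∈ s, E b ω) ≤ ∑ b ∈ s, Pr μ (E b) := by
  unfold Pr
  rw [← Ex_sum]
  refine Ex_mono h fun ω => ?_
  by_cases hE : ∃ b ∈ s, E b ω
  · obtain ⟨b, hb, hbE⟩ := hE
    rw [if_pos ⟨b, hb, hbE⟩]
    calc (1 : ℝ) = if E b ω then 1 else 0 := by simp [hbE]
      _ ≤ _ := Finset.single_le_sum (f := fun b => if E b ω then (1 : ℝ) else 0)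
          (fun c _ => by split_ifs <;> norm_num) hb
  · rw [if_neg hE]
    exact Finset.sum_nonneg fun c _ => by split_ifs <;> norm_num

/-- Markov's inequality. -/
theorem Pr_markov (h : IsPM μ) {f : (ι → α) → ℝ} (hf : ∀ ω, 0 ≤ f ω) {c : ℝ} (hc : 0 < c) :
    Pr μ (fun ω => c ≤ f ω) ≤ Ex μ f / c := by
  rw [div_eq_mul_inv, ← Ex_mul_right]
  refine Ex_mono h fun ω => ?_
  by_cases hω : c ≤ f ω
  · rw [if_pos hω]
    rw [← div_eq_mul_inv, le_div_iff₀ hc]
    linarith
  · rw [if_neg hω]
    exact mul_nonneg (hf ω) (inv_nonneg.mpr hc.le)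

/-- None of the events of `S` happens. -/
def Avoid {κ : Type*} (E : κ → (ι → α) → Prop) (S : Finset κ) (ω : ι → α) : Prop :=
  ∀ b ∈ S, ¬ E b ω

theorem Pr_and_disjoint (h : IsPM μ) {E F : (ι → α) → Prop} {S T : Set ι}
    (hE : DependsOn E S) (hF : DependsOn F T) (hST : Disjoint S T) :
    Pr μ (fun ω => E ω ∧ F ω) = Pr μ E * Pr μ F := by
  unfold Pr
  rw [← Ex_mul_of_disjoint h (S := S) (T := T) ?_ ?_ hST]
  · congr 1
    funext ω
    by_cases hE' : E ω <;> by_cases hF' : F ω <;> simp [hE', hF']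
  · intro x y hxy
    have := hE hxy
    simp only [this]
  · intro x y hxy
    have := hF hxy
    simp only [this]

theorem lll_step (h : IsPM μ) {κ : Type*} (E : κ → (ι → α) → Prop) (S : κ → Finset ι)
    (hdep : ∀ b, DependsOn (E b) (S b : Set ι)) (I : Finset κ) (p : ℝ) (D : ℕ)
    (hp0 : 0 ≤ p) (hp : ∀ b ∈ I, Pr μ (E b) ≤ p)
    (hD : ∀ b ∈ I, (I.filter fun b' => ¬ Disjoint (S b) (S b')).card ≤ D)
    (h4 : 4 * p * D ≤ 1) :
    ∀ n : ℕ, ∀ J ⊆ I, J.card = n → ∀ b ∈ I,
      Pr μ (fun ω => E b ω ∧ Avoid E J ω) ≤ 2 * p * Pr μ (Avoid E J) := by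
  intro n
  induction n using Nat.strong_induction_on with
  | _ n ih =>
    intro J hJI hJn b hb
    set J1 := J.filter fun b' => ¬ Disjoint (S b) (S b') with hJ1
    set J2 := J.filter fun b' => Disjoint (S b) (S b') with hJ2
    have hind : Pr μ (fun ω => E b ω ∧ Avoid E J2 ω) = Pr μ (E b) * Pr μ (Avoid E J2) := by
      refine Pr_and_disjoint h (hdep b) (T := ((J2.biUnion S : Finset ι) : Set ι)) ?_ ?_
      · intro x y hxy
        unfold Avoid
        refine propext (forall₂_congr fun b' hb' => ?_)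
        have := hdep b' (x := x) (y := y) fun i hi => hxy i (by
          simp only [Finset.coe_biUnion, Set.mem_iUnion]
          exact ⟨b', hb', hi⟩)
        rw [this]
      · rw [Finset.disjoint_coe, Finset.disjoint_biUnion_right]
        intro b' hb'
        exact (Finset.mem_filter.mp hb').2
    have hnum : Pr μ (fun ω => E b ω ∧ Avoid E J2 ω) ≤ p * Pr μ (Avoid E J2) := by
      rw [hind]
      exact mul_le_mul_of_nonneg_right (hp b hb) (Pr_nonneg h _)
    have hnum' : Pr μ (fun ω => E b ω ∧ Avoid E J ω) ≤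
        Pr μ (fun ω => E b ω ∧ Avoid E J2 ω) :=
      Pr_mono h fun ω hω => ⟨hω.1, fun b' hb' => hω.2 b' (Finset.mem_filter.mp hb').1⟩
    have hden : Pr μ (Avoid E J2) ≤ 2 * Pr μ (Avoid E J) := by
      by_cases hemp : J1 = ∅
      · have : J2 = J := by
          apply Finset.filter_true_of_mem
          intro u hu
          by_contra hcon
          have : u ∈ J1 := Finset.mem_filter.mpr ⟨hu, hcon⟩
          rw [hemp] at this
          simp at this
        rw [this]
        have := Pr_nonneg h (Avoid E J)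
        linarith
      · have hlt : J2.card < n := by
          rw [← hJn]
          apply Finset.card_lt_card
          refine ⟨Finset.filter_subset _ _, fun hsub => ?_⟩
          obtain ⟨u, hu⟩ := Finset.nonempty_iff_ne_empty.mpr hemp
          have h1 := Finset.mem_filter.mp hu
          have h2 := hsub h1.1
          exact h1.2 (Finset.mem_filter.mp h2).2
        have h1 : Pr μ (Avoid E J2) ≤
            Pr μ (Avoid E J) + ∑ u ∈ J1, Pr μ (fun ω => E u ω ∧ Avoid E J2 ω) := by
          refine le_trans ?_ (add_le_add le_rfl (Pr_exists_le h J1 _))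
          refine le_trans ?_ (Pr_or_le h _ _)
          refine Pr_mono h fun ω hω => ?_
          by_cases hgood : Avoid E J ω
          · exact Or.inl hgood
          · right
            unfold Avoid at hgood
            push Not at hgood
            obtain ⟨u, huJ, hau⟩ := hgood
            refine ⟨u, ?_, hau, hω⟩
            rw [hJ1, Finset.mem_filter]
            exact ⟨huJ, fun hdis => hω u (Finset.mem_filter.mpr ⟨huJ, hdis⟩) hau⟩
        have h3 : ∑ u ∈ J1, Pr μ (fun ω => E u ω ∧ Avoid E J2 ω) ≤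
            ∑ _u ∈ J1, 2 * p * Pr μ (Avoid E J2) := by
          apply Finset.sum_le_sum
          intro u hu
          exact ih J2.card hlt J2 ((Finset.filter_subset _ _).trans hJI) rfl u
            (hJI (Finset.mem_filter.mp hu).1)
        rw [Finset.sum_const, nsmul_eq_mul] at h3
        have h4' : (J1.card : ℝ) ≤ D := by
          have : J1.card ≤ (I.filter fun u => ¬ Disjoint (S b) (S u)).card :=
            Finset.card_le_card (Finset.filter_subset_filter _ hJI)
          exact_mod_cast this.trans (hD b hb)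
        have h5 : 0 ≤ Pr μ (Avoid E J2) := Pr_nonneg h _
        have h6 : (J1.card : ℝ) * (2 * p * Pr μ (Avoid E J2)) ≤
            (D : ℝ) * (2 * p * Pr μ (Avoid E J2)) := by
          apply mul_le_mul_of_nonneg_right h4'
          positivity
        nlinarith
    calc Pr μ (fun ω => E b ω ∧ Avoid E J ω) ≤ _ := hnum'
      _ ≤ p * Pr μ (Avoid E J2) := hnum
      _ ≤ p * (2 * Pr μ (Avoid E J)) := by gcongr
      _ = 2 * p * Pr μ (Avoid E J) := by ring

/-- The symmetric local lemma: if every event has probability at most `p`, every event meets at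
most `D` events (itself included) and `4 p D ≤ 1`, `2 p < 1`, then some point of positive weight
avoids all events. -/
theorem lll (h : IsPM μ) {κ : Type*} [Fintype κ] (E : κ → (ι → α) → Prop) (S : κ → Finset ι)
    (hdep : ∀ b, DependsOn (E b) (S b : Set ι)) (p : ℝ) (D : ℕ)
    (hp0 : 0 ≤ p) (hp : ∀ b, Pr μ (E b) ≤ p)
    (hD : ∀ b, (univ.filter fun b' => ¬ Disjoint (S b) (S b')).card ≤ D)
    (h4 : 4 * p * D ≤ 1) (h2 : 2 * p < 1) :
    ∃ ω : ι → α, 0 < wt μ ω ∧ ∀ b, ¬ E b ω := by
  have key : ∀ J : Finset κ, 0 < Pr μ (Avoid E J) := by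
    intro J
    induction J using Finset.induction_on with
    | empty =>
      have : Pr μ (Avoid E (∅ : Finset κ)) = 1 := by
        unfold Pr Avoid
        simp [Ex_const h]
      rw [this]
      norm_num
    | insert b J hbJ ih =>
      have h1 := lll_step h E S hdep univ p D hp0 (fun b _ => hp b) (fun b _ => hD b) h4
        J.card J (Finset.subset_univ _) rfl b (mem_univ _)
      have h3 : Pr μ (Avoid E J) ≤ Pr μ (Avoid E (insert b J)) +
          Pr μ (fun ω => E b ω ∧ Avoid E J ω) := by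
        refine le_trans ?_ (Pr_or_le h _ _)
        refine Pr_mono h fun ω hω => ?_
        by_cases hb : E b ω
        · exact Or.inr ⟨hb, hω⟩
        · left
          intro u hu
          rcases Finset.mem_insert.mp hu with h' | h'
          · rw [h']; exact hb
          · exact hω u h'
      nlinarith
  have h1 := key univ
  by_contra hcon
  push Not at hcon
  have : Pr μ (Avoid E univ) = 0 := by
    unfold Pr Ex
    refine Finset.sum_eq_zero fun ω _ => ?_
    by_cases hω : 0 < wt μ ω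
    · obtain ⟨b, hb⟩ := hcon ω hω
      have : ¬ Avoid E univ ω := fun hA => hA b (mem_univ _) hb
      simp [this]
    · have : wt μ ω = 0 := le_antisymm (not_lt.mp hω) (wt_nonneg h ω)
      simp [this]
  linarith

/-- The local lemma with local degrees: every event depends on at most `s` coordinates and every
coordinate is used by at most `s'` events. -/
theorem lll_local (h : IsPM μ) {κ : Type*} [Fintype κ] (E : κ → (ι → α) → Prop)
    (S : κ → Finset ι) (hdep : ∀ b, DependsOn (E b) (S b : Set ι)) (p : ℝ) (s s' : ℕ)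
    (hp0 : 0 ≤ p) (hp : ∀ b, Pr μ (E b) ≤ p) (hs : ∀ b, (S b).card ≤ s)
    (hs' : ∀ i, (univ.filter fun b => i ∈ S b).card ≤ s')
    (h4 : 4 * p * (s * s' : ℕ) ≤ 1) (h2 : 2 * p < 1) :
    ∃ ω : ι → α, 0 < wt μ ω ∧ ∀ b, ¬ E b ω := by
  refine lll h E S hdep p (s * s') hp0 hp (fun b => ?_) h4 h2
  have hsub : (univ.filter fun b' => ¬ Disjoint (S b) (S b')) ⊆
      (S b).biUnion fun i => univ.filter fun b' => i ∈ S b' := by
    intro b' hb'
    obtain ⟨i, hi, hi'⟩ := Finset.not_disjoint_iff.mp (Finset.mem_filter.mp hb').2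
    exact Finset.mem_biUnion.mpr ⟨i, hi, Finset.mem_filter.mpr ⟨mem_univ _, hi'⟩⟩
  calc _ ≤ _ := Finset.card_le_card hsub
    _ ≤ ∑ i ∈ S b, (univ.filter fun b' => i ∈ S b').card := Finset.card_biUnion_le
    _ ≤ ∑ _i ∈ S b, s' := Finset.sum_le_sum fun i _ => hs' i
    _ = (S b).card * s' := by rw [Finset.sum_const, smul_eq_mul]
    _ ≤ s * s' := Nat.mul_le_mul_right _ (hs b)

theorem pos_of_wt_pos (h : IsPM μ) {ω : ι → α} (hω : 0 < wt μ ω) (i : ι) : 0 < μ i (ω i) := by
  rcases (h.nonneg i (ω i)).lt_or_eq with h1 | h1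
  · exact h1
  · exfalso
    have : wt μ ω = 0 := Finset.prod_eq_zero (mem_univ i) h1.symm
    linarith

end

end Pool.Agent.Acy
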