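import Pool.Agent.Acy.BasicB
import Pool.Agent.Acy.BasicC

/-! # One round: the pointwise invariants (module N2a) -/

set_option autoImplicit false
set_option linter.unusedSectionVars false

namespace Pool.Agent.Acy

open Finset
open scoped Classical

universe u

namespace NibData

variable {Q : Type u} [Fintype Q] [DecidableEq Q] {D : NibData Q}

/-- Negative powers of the large parameter are small. -/
theorem stepA_inv_pow_le {T : ℝ} (hT : Big T) {n : ℕ} (hn : 1 ≤ n) : 1 / T ^ n ≤ 1 / 1000000 := by
  have h1 : (1 : ℝ) ≤ T := le_trans (by norm_num) hT.big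
  have h2 : T ^ 1 ≤ T ^ n := pow_le_pow_right₀ h1 hn
  rw [pow_one] at h2
  exact one_div_le_one_div_of_le (by norm_num) (le_trans (by norm_num) (hT.big.trans h2))

/-- The case distinction for the picks of a colour. -/
theorem stepA_pk_cases (hD : D.Ok) (j : ℕ) (ω : Q → Fin D.k) (x : Q) (c : Fin D.k)
    (hJ : D.J j ω x c ≤ 1) : (D.pk j ω x c = 0 ∧ D.hk j ω x c = 0) ∨
      ∃ u, D.rd u = j ∧ ω u = c ∧ D.pk j ω x c = D.K u x ∧ D.hk j ω x c = D.h u x := by
  rcases Nat.le_one_iff_eq_zero_or_eq_one.mp hJ with h | h
  · exact Or.inl (pk_zero hD j ω x c h)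
  · obtain ⟨u, h1, h2, -, h3, h4⟩ := pk_one hD j ω x c h
    exact Or.inr ⟨u, h1, h2, h3, h4⟩

variable (hD : D.Ok) {S : NState Q D.k} {j : ℕ} {col : Q → Fin D.k} (hI : D.Inv S j col)
  (hj : j < D.q) (ω : Q → Fin D.k)

include hD hI hj

theorem step_al_pos (x : Q) (c : Fin D.k) (h : (D.step S j ω).al x c) :
    0 < (D.step S j ω).v x c := by
  obtain ⟨hal, hJ, hK, -, -, -⟩ := h
  have hv := hI.al_pos x c hal
  have h1 := (abs_le.mp (cmp_abs hD hI hj.le x c)).2
  have h2 := stepA_inv_pow_le hD.big (n := 110) (by norm_num)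
  have h3 : (D.step S j ω).v x c = S.v x c * (1 + D.pk j ω x c - D.cmp S j x c) := by
    simp only [step, if_pos hal, if_pos hJ]
  rw [h3]
  apply mul_pos hv
  rcases stepA_pk_cases hD j ω x c hJ with ⟨h4, -⟩ | ⟨u, hu, hc, h4, -⟩
  · rw [h4]; linarith
  · rw [h4]
    rcases hD.K_cases u x with h5 | h5
    · exact absurd h5 (hK u hu hc)
    · linarith

theorem step_v_lo (x : Q) (c : Fin D.k) : -(1 / D.T ^ 100) ≤ (D.step S j ω).v x c := by
  have hT1 : (1 : ℝ) ≤ D.T := le_trans (by norm_num) hD.big.big
  have hT0 : (0 : ℝ) < D.T := by linarith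
  by_cases hal : S.al x c
  · by_cases hJ : D.J j ω x c ≤ 1
    · have h3 : (D.step S j ω).v x c = S.v x c * (1 + D.pk j ω x c - D.cmp S j x c) := by
        simp only [step, if_pos hal, if_pos hJ]
      rw [h3]
      have hv := hI.al_pos x c hal
      have hvT := v_le hD hI hj.le x c
      have h1 := (abs_le.mp (cmp_abs hD hI hj.le x c)).2
      have h4 : -1 ≤ D.pk j ω x c := by
        rcases stepA_pk_cases hD j ω x c hJ with ⟨h4, -⟩ | ⟨u, hu, hc, h4, -⟩
        · rw [h4]; norm_num
        · rw [h4]
          rcases hD.K_cases u x with h5 | h5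
          · exact h5.ge
          · linarith
      have h5 : S.v x c * (-(1 / D.T ^ 110)) ≤
          S.v x c * (1 + D.pk j ω x c - D.cmp S j x c) :=
        mul_le_mul_of_nonneg_left (by linarith) hv.le
      have h6 : S.v x c * (1 / D.T ^ 110) ≤ 1 / D.T ^ 100 := by
        calc S.v x c * (1 / D.T ^ 110) ≤ D.T * (1 / D.T ^ 110) :=
              mul_le_mul_of_nonneg_right hvT (by positivity)
          _ = 1 / D.T ^ 109 := by field_simp
          _ ≤ 1 / D.T ^ 100 := one_div_le_one_div_of_le (by positivity)
              (pow_le_pow_right₀ hT1 (by norm_num))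
      linarith
    · have h3 : (D.step S j ω).v x c = 0 := by
        simp only [step, if_pos hal, if_neg hJ]
      rw [h3]
      have : 0 < 1 / D.T ^ 100 := by positivity
      linarith
  · have h3 : (D.step S j ω).v x c = S.v x c := by
      simp only [step, if_neg hal]
    rw [h3]
    exact hI.v_lo x c

theorem step_v_hi (x : Q) (c : Fin D.k) : (D.step S j ω).v x c ≤
    Real.exp (Real.log D.T / 10 * (D.step S j ω).be x c + 2 * (D.step S j ω).ac true x c) := by
  by_cases hal : S.al x c
  · by_cases hJ : D.J j ω x c ≤ 1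
    · have h3 : (D.step S j ω).v x c = S.v x c * (1 + D.pk j ω x c - D.cmp S j x c) := by
        simp only [step, if_pos hal, if_pos hJ]
      have h4 : (D.step S j ω).be x c = S.be x c + D.hk j ω x c := by
        simp only [step, if_pos (And.intro hal hJ)]
      have h5 : (D.step S j ω).ac true x c = S.ac true x c + D.dac S j true x c := by
        simp only [step, if_pos hal]
      rw [h3, h4, h5]
      have hv := hI.al_pos x c hal
      have h6 : Real.exp (Real.log D.T / 10 * (S.be x c + D.hk j ω x c) +
          2 * (S.ac true x c + D.dac S j true x c)) =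
          Real.exp (Real.log D.T / 10 * S.be x c + 2 * S.ac true x c) *
            (Real.exp (Real.log D.T / 10 * D.hk j ω x c) * Real.exp (2 * D.dac S j true x c)) := by
        rw [← Real.exp_add, ← Real.exp_add]
        congr 1
        ring
      rw [h6]
      have hcmp := cmp_lo hD hI hj.le x c
      have hdac := dac_nonneg hD hI hj.le true x c
      have hlog : 0 < Real.log D.T := hD.big.log_pos
      have h7 : 1 + D.pk j ω x c - D.cmp S j x c ≤
          Real.exp (Real.log D.T / 10 * D.hk j ω x c) * Real.exp (2 * D.dac S j true x c) := by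
        have h8 : 1 + 2 * D.dac S j true x c ≤ Real.exp (2 * D.dac S j true x c) := by
          have := Real.add_one_le_exp (2 * D.dac S j true x c)
          linarith
        have key : ∀ P H : ℝ, (P ≤ 0 ∧ 0 ≤ H ∨ 0 ≤ P ∧ 1 + P ≤ Real.exp (Real.log D.T / 10 * H)) →
            1 + P - D.cmp S j x c ≤
              Real.exp (Real.log D.T / 10 * H) * Real.exp (2 * D.dac S j true x c) := by
          intro P H hPH
          have h9 : 1 ≤ Real.exp (Real.log D.T / 10 * H) := by
            rcases hPH with ⟨-, hH⟩ | ⟨hP, hPe⟩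
            · exact Real.one_le_exp (by positivity)
            · linarith
          have h10 : 1 + P ≤ Real.exp (Real.log D.T / 10 * H) := by
            rcases hPH with ⟨hP, -⟩ | ⟨-, hPe⟩
            · linarith
            · exact hPe
          calc 1 + P - D.cmp S j x c ≤ Real.exp (Real.log D.T / 10 * H) +
                2 * D.dac S j true x c := by linarith
            _ ≤ Real.exp (Real.log D.T / 10 * H) * (1 + 2 * D.dac S j true x c) := by
                nlinarith
            _ ≤ _ := mul_le_mul_of_nonneg_left h8 (by linarith)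
        apply key
        rcases stepA_pk_cases hD j ω x c hJ with ⟨h9, h10⟩ | ⟨u, hu, hc, h9, h10⟩
        · left; rw [h9, h10]; exact ⟨le_rfl, le_rfl⟩
        · rw [h9, h10]
          by_cases hK : D.K u x = -1
          · left; rw [hK]; exact ⟨by norm_num, hD.h_nonneg u x⟩
          · right
            rcases hD.K_cases u x with h11 | h11
            · exact absurd h11 hK
            · exact ⟨h11, hD.K_exp u x hK⟩
      exact (mul_le_mul_of_nonneg_left h7 hv.le).trans
        (mul_le_mul_of_nonneg_right (hI.v_hi x c) (by positivity))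
    · have h3 : (D.step S j ω).v x c = 0 := by
        simp only [step, if_pos hal, if_neg hJ]
      rw [h3]
      positivity
  · have h3 : (D.step S j ω).v x c = S.v x c := by
      simp only [step, if_neg hal]
    have h4 : (D.step S j ω).be x c = S.be x c := by
      simp only [step, if_neg (fun h : S.al x c ∧ D.J j ω x c ≤ 1 => hal h.1)]
    have h5 : (D.step S j ω).ac true x c = S.ac true x c := by
      simp only [step, if_neg hal]
    rw [h3, h4, h5]
    exact hI.v_hi x c

theorem step_be_nonneg (x : Q) (c : Fin D.k) : 0 ≤ (D.step S j ω).be x c := by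
  have h1 := hI.be_nonneg x c
  have h2 := hk_nonneg hD j ω x c
  simp only [step]
  split_ifs
  · linarith
  · exact h1

theorem step_be_le (x : Q) (c : Fin D.k) : (D.step S j ω).be x c ≤ 3 := by
  by_cases h : S.al x c ∧ D.J j ω x c ≤ 1
  · have h4 : (D.step S j ω).be x c = S.be x c + D.hk j ω x c := by
      simp only [step, if_pos h]
    rw [h4]
    have h1 := hI.be_al x c h.1
    have h2 := hk_le hD j ω x c
    have h3 : (D.J j ω x c : ℝ) ≤ 1 := by exact_mod_cast h.2
    linarith
  · have h4 : (D.step S j ω).be x c = S.be x c := by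
      simp only [step, if_neg h]
    rw [h4]
    exact hI.be_le x c

theorem step_be_al (x : Q) (c : Fin D.k) (h : (D.step S j ω).al x c) :
    (D.step S j ω).be x c ≤ 1 := by
  obtain ⟨hal, hJ, -, hb, -, -⟩ := h
  have h4 : (D.step S j ω).be x c = S.be x c + D.hk j ω x c := by
    simp only [step, if_pos (And.intro hal hJ)]
  rw [h4]
  exact hb

theorem step_ac_nonneg (b : Bool) (x : Q) (c : Fin D.k) : 0 ≤ (D.step S j ω).ac b x c := by
  have h1 := hI.ac_nonneg b x c
  have h2 := dac_nonneg hD hI hj.le b x c
  simp only [step]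
  split_ifs
  · linarith
  · exact h1

/-- The accumulated hazard of an alive pair after the round. -/
theorem stepA_ac_add_dac_le (b : Bool) (x : Q) (c : Fin D.k) (hal : S.al x c) :
    S.ac b x c + D.dac S j b x c ≤ 1 / D.k * (∑ y, D.a b x y) + 1 / 1000 := by
  have hT1 : (1 : ℝ) ≤ D.T := le_trans (by norm_num) hD.big.big
  have hT0 : (0 : ℝ) < D.T := by linarith
  have hk : (0 : ℝ) < D.k := by exact_mod_cast k_pos hD
  have h1 := hI.pred b x c hal
  have h2 := dac_add_le hD hI hj.le b x c
  have h3 := Nf_lo hD hI hj.le (j + 1) b x c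
  have h4 : (j : ℝ) / D.T ^ 180 ≤ 1 / D.T ^ 30 := by
    have h5 : (j : ℝ) ≤ D.T ^ 150 := by
      have : (j : ℝ) ≤ D.q := by exact_mod_cast hj.le
      exact this.trans hD.q_hi
    calc (j : ℝ) / D.T ^ 180 ≤ D.T ^ 150 / D.T ^ 180 :=
          div_le_div_of_nonneg_right h5 (by positivity)
      _ = 1 / D.T ^ 30 := by
          rw [div_eq_div_iff (by positivity) (by positivity)]
          ring
  have h6 : 6 * D.T ^ 3 / D.k * S.pd x c ≤ 6 * (1 / D.T ^ 17) := by
    calc 6 * D.T ^ 3 / D.k * S.pd x c ≤ 6 * D.T ^ 3 / D.k * (D.k / D.T ^ 20) :=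
          mul_le_mul_of_nonneg_left (hI.pd_al x c hal) (by positivity)
      _ = 6 * (1 / D.T ^ 17) := by
          field_simp
  have e1 := stepA_inv_pow_le hD.big (n := 30) (by norm_num)
  have e2 := stepA_inv_pow_le hD.big (n := 17) (by norm_num)
  have e3 := stepA_inv_pow_le hD.big (n := 60) (by norm_num)
  have e4 := stepA_inv_pow_le hD.big (n := 200) (by norm_num)
  linarith

theorem step_ac_true (x : Q) (c : Fin D.k) :
    (D.step S j ω).ac true x c ≤ Real.log D.T / 20 := by
  by_cases hal : S.al x c
  · have h5 : (D.step S j ω).ac true x c = S.ac true x c + D.dac S j true x c := by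
      simp only [step, if_pos hal]
    rw [h5]
    have h1 := stepA_ac_add_dac_le hD hI hj true x c hal
    have hk : (0 : ℝ) < D.k := by exact_mod_cast k_pos hD
    have h2 : 1 / D.k * (∑ y, D.a true x y) ≤ Real.log D.T / 40 := by
      calc 1 / D.k * (∑ y, D.a true x y) ≤ 1 / D.k * (Real.log D.T / 40 * D.k) :=
            mul_le_mul_of_nonneg_left (hD.cf_sum x) (by positivity)
        _ = Real.log D.T / 40 := by field_simp
    have h3 : 1 ≤ Real.log D.T := by
      rw [Real.le_log_iff_exp_le hD.big.pos]
      exact (Real.exp_one_lt_d9.le.trans (by norm_num)).trans hD.big.big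
    linarith
  · have h5 : (D.step S j ω).ac true x c = S.ac true x c := by
      simp only [step, if_neg hal]
    rw [h5]
    exact hI.ac_true x c

theorem step_ac_false (x : Q) (c : Fin D.k) : (D.step S j ω).ac false x c ≤ 1 / 50 := by
  by_cases hal : S.al x c
  · have h5 : (D.step S j ω).ac false x c = S.ac false x c + D.dac S j false x c := by
      simp only [step, if_pos hal]
    rw [h5]
    have h1 := stepA_ac_add_dac_le hD hI hj false x c hal
    have hk : (0 : ℝ) < D.k := by exact_mod_cast k_pos hD
    have h2 : 1 / D.k * (∑ y, D.a false x y) ≤ 1 / 100 := by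
      calc 1 / D.k * (∑ y, D.a false x y) ≤ 1 / D.k * (D.k / 100) :=
            mul_le_mul_of_nonneg_left (hD.h_sum x) (by positivity)
        _ = 1 / 100 := by field_simp
    linarith
  · have h5 : (D.step S j ω).ac false x c = S.ac false x c := by
      simp only [step, if_neg hal]
    rw [h5]
    exact hI.ac_false x c

theorem step_pd_nonneg (x : Q) (c : Fin D.k) : 0 ≤ (D.step S j ω).pd x c := by
  have h1 := hI.pd_nonneg x c
  have h2 := dbl_nonneg (D := D) j ω x c
  simp only [step]
  split_ifs
  · linarith
  · exact h1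

theorem step_pd_al (x : Q) (c : Fin D.k) (h : (D.step S j ω).al x c) :
    (D.step S j ω).pd x c ≤ D.k / D.T ^ 20 := by
  obtain ⟨hal, -, -, -, hp, -⟩ := h
  have h4 : (D.step S j ω).pd x c = S.pd x c + D.dbl j ω x c := by
    simp only [step, if_pos hal]
  rw [h4]
  exact hp

theorem step_sep (x : Q) (c : Fin D.k) (h : (D.step S j ω).al x c) (u : Q)
    (hu : D.rd u < j + 1) (hc : D.upd j col ω u = c) : D.K u x ≠ -1 ∧ D.h u x ≤ 1 := by
  obtain ⟨hal, hJ, hK, hb, -, -⟩ := h
  rcases Nat.lt_succ_iff_lt_or_eq.mp hu with h1 | h1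
  · have h2 : D.upd j col ω u = col u := by
      simp only [upd, if_neg h1.ne]
    rw [h2] at hc
    exact hI.sep x c hal u h1 hc
  · have h2 : D.upd j col ω u = ω u := by
      simp only [upd, if_pos h1]
    rw [h2] at hc
    refine ⟨hK u h1 hc, ?_⟩
    have h3 : D.h u x ≤ D.hk j ω x c := by
      unfold hk
      apply Finset.single_le_sum (f := fun u => D.h u x) (fun w _ => hD.h_nonneg w x)
      simp only [V, Finset.mem_filter, Finset.mem_univ, true_and]
      exact ⟨h1, hc⟩
    have h4 := hI.be_nonneg x c
    linarith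

theorem step_col_ok (hw : 0 < wt (D.p S) ω) (u y : Q) (huy : D.rd u < D.rd y)
    (hy : D.rd y < j + 1) (hc : D.upd j col ω u = D.upd j col ω y) :
    D.K u y ≠ -1 ∧ D.h u y ≤ 1 := by
  rcases Nat.lt_succ_iff_lt_or_eq.mp hy with h1 | h1
  · have h2 : D.upd j col ω u = col u := by
      simp only [upd, if_neg (huy.trans h1).ne]
    have h3 : D.upd j col ω y = col y := by
      simp only [upd, if_neg h1.ne]
    rw [h2, h3] at hc
    exact hI.col_ok u y huy h1 hc
  · have huj : D.rd u < j := h1 ▸ huy
    have h2 : D.upd j col ω u = col u := by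
      simp only [upd, if_neg huj.ne]
    have h3 : D.upd j col ω y = ω y := by
      simp only [upd, if_pos h1]
    rw [h2, h3] at hc
    have h4 : 0 < D.p S y (ω y) := by
      have h5 := (p_isPM hD hI hj.le).nonneg y (ω y)
      rcases h5.lt_or_eq with h6 | h6
      · exact h6
      · exfalso
        have h7 : wt (D.p S) ω = 0 := Finset.prod_eq_zero (Finset.mem_univ y) h6.symm
        rw [h7] at hw
        exact lt_irrefl 0 hw
    exact hI.sep y (ω y) (al_of_p_pos hD hI hj.le y (ω y) h4) u huj hc

end NibData

end Pool.Agent.Acy
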