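import Pool.Agent.Acy.GDefs
import Pool.Agent.Acy.CountT

/-! # Long cycles and dropped vertices: tails for counts (module X, part A) -/

set_option autoImplicit false
set_option linter.unusedSectionVars false

namespace Pool.Agent.Acy

open Finset
open scoped Classical

universe u

section

variable {ι α : Type*} [Fintype ι] [DecidableEq ι] [Fintype α] [DecidableEq α]

/-- Extension sums for configurations with one condition. -/
theorem ext_single {κ : Type*} [Fintype κ] (π₀ : ℝ) (hπ₀ : 0 ≤ π₀) (r : κ → Prop)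
    [DecidablePred r] (p : κ → ι)
    (s : κ → α) (a b : ℝ) (hb0 : 0 ≤ b) (ha : ((univ.filter r).card : ℝ) ≤ a)
    (hb : ∀ i c, ((univ.filter fun U => r U ∧ p U = i ∧ s U = c).card : ℝ) ≤ b)
    (W : Finset (ι × α)) :
    ext (fun _ _ => π₀) (fun U => if r U then 1 else 0) (fun U => {(p U, s U)}) W ≤
      a * π₀ + b := by
  unfold ext
  rcases W.eq_empty_or_nonempty with rfl | ⟨⟨i, c⟩, hic⟩
  · have h1 : ∀ U : κ, (if (∅ : Finset (ι × α)) ⊆ {(p U, s U)} then
        (if r U then (1 : ℝ) else 0) * ∏ q ∈ {(p U, s U)} \ (∅ : Finset (ι × α)), π₀ else 0) =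
        if r U then π₀ else 0 := by
      intro U
      by_cases hU : r U <;> simp [hU]
    rw [Finset.sum_congr rfl fun U _ => h1 U, ← Finset.sum_filter, Finset.sum_const, nsmul_eq_mul]
    nlinarith
  · have h1 : ∀ U : κ, (if W ⊆ {(p U, s U)} then
        (if r U then (1 : ℝ) else 0) * ∏ q ∈ {(p U, s U)} \ W, π₀ else 0) ≤
        if r U ∧ p U = i ∧ s U = c then 1 else 0 := by
      intro U
      by_cases hW : W ⊆ {(p U, s U)}
      · have h2 : (i, c) ∈ ({(p U, s U)} : Finset (ι × α)) := hW hic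
        rw [Finset.mem_singleton, Prod.mk.injEq] at h2
        have h3 : ({(p U, s U)} : Finset (ι × α)) \ W = ∅ := by
          rw [Finset.sdiff_eq_empty_iff_subset, Finset.singleton_subset_iff, ← h2.1, ← h2.2]
          exact hic
        rw [if_pos hW, h3, Finset.prod_empty, mul_one]
        by_cases hU : r U
        · simp [hU, h2.1, h2.2]
        · simp [hU]
      · rw [if_neg hW]
        split_ifs <;> norm_num
    refine (Finset.sum_le_sum fun U _ => h1 U).trans ?_
    rw [← Finset.sum_filter, Finset.sum_const, nsmul_eq_mul, mul_one]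
    have h4 := hb i c
    have h5 : 0 ≤ a := le_trans (Nat.cast_nonneg _) ha
    nlinarith [mul_nonneg h5 hπ₀]

/-- Extension sums for monochromatic pairs. -/
theorem ext_pair (π₀ : ℝ) (hπ₀ : 0 ≤ π₀) (r : ι → ι → Prop) [∀ y u, Decidable (r y u)]
    (hr : ∀ y, ¬ r y y) (a b : ℝ)
    (hb0 : 0 ≤ b)
    (ha : ((univ.filter fun w : ι × ι => r w.1 w.2).card : ℝ) ≤ a)
    (hb : ∀ y, ((univ.filter fun u => r y u).card : ℝ) ≤ b)
    (hb' : ∀ u, ((univ.filter fun y => r y u).card : ℝ) ≤ b) (W : Finset (ι × α)) :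
    ext (fun _ _ => π₀) (fun U : ι × ι × α => if r U.1 U.2.1 then 1 else 0)
      (fun U => {(U.1, U.2.2), (U.2.1, U.2.2)}) W ≤
      a * (Fintype.card α * π₀ ^ 2) + 2 * b * π₀ + 2 := by
  have ha0 : 0 ≤ a := le_trans (Nat.cast_nonneg _) ha
  have hA : 0 ≤ a * (Fintype.card α * π₀ ^ 2) := by positivity
  have hB : 0 ≤ 2 * b * π₀ := by positivity
  have hcard : ∀ U : ι × ι × α, r U.1 U.2.1 →
      ({(U.1, U.2.2), (U.2.1, U.2.2)} : Finset (ι × α)).card = 2 := by
    intro U hU
    refine Finset.card_pair fun h => ?_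
    rw [Prod.mk.injEq] at h
    rw [h.1] at hU
    exact hr _ hU
  unfold ext
  rcases W.eq_empty_or_nonempty with rfl | hWne
  · have h1 : ∀ U : ι × ι × α, (if (∅ : Finset (ι × α)) ⊆ {(U.1, U.2.2), (U.2.1, U.2.2)} then
        (if r U.1 U.2.1 then (1 : ℝ) else 0) *
          ∏ q ∈ {(U.1, U.2.2), (U.2.1, U.2.2)} \ (∅ : Finset (ι × α)), π₀ else 0) =
        if r U.1 U.2.1 then π₀ ^ 2 else 0 := by
      intro U
      by_cases hU : r U.1 U.2.1
      · simp only [Finset.empty_subset, if_true, hU, one_mul, Finset.sdiff_empty,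
          Finset.prod_const, hcard U hU]
      · simp [hU]
    rw [Finset.sum_congr rfl fun U _ => h1 U]
    have h2 : ∑ U : ι × ι × α, (if r U.1 U.2.1 then π₀ ^ 2 else 0) =
        ∑ w : ι × ι, ∑ _c : α, (if r w.1 w.2 then π₀ ^ 2 else 0) := by
      rw [Fintype.sum_prod_type, Fintype.sum_prod_type]
      refine Finset.sum_congr rfl fun y _ => ?_
      rw [Fintype.sum_prod_type]
    rw [h2]
    simp only [Finset.sum_const, Finset.card_univ, nsmul_eq_mul]
    rw [← Finset.mul_sum, ← Finset.sum_filter, Finset.sum_const, nsmul_eq_mul]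
    have h3 : (Fintype.card α : ℝ) *
        ((univ.filter fun w : ι × ι => r w.1 w.2).card * π₀ ^ 2) ≤
        a * (Fintype.card α * π₀ ^ 2) := by
      have : 0 ≤ (Fintype.card α : ℝ) * π₀ ^ 2 := by positivity
      nlinarith
    linarith
  · by_cases hW1 : W.card = 1
    · obtain ⟨⟨i, c⟩, rfl⟩ := Finset.card_eq_one.mp hW1
      have h1 : ∀ U : ι × ι × α, (if ({(i, c)} : Finset (ι × α)) ⊆
          {(U.1, U.2.2), (U.2.1, U.2.2)} then
          (if r U.1 U.2.1 then (1 : ℝ) else 0) *
            ∏ q ∈ {(U.1, U.2.2), (U.2.1, U.2.2)} \ ({(i, c)} : Finset (ι × α)), π₀ else 0) ≤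
          (if U.1 = i ∧ U.2.2 = c ∧ r i U.2.1 then π₀ else 0) +
          (if U.2.1 = i ∧ U.2.2 = c ∧ r U.1 i then π₀ else 0) := by
        intro U
        have hx : 0 ≤ (if U.1 = i ∧ U.2.2 = c ∧ r i U.2.1 then π₀ else 0) := by
          split_ifs <;> simp [hπ₀]
        have hy : 0 ≤ (if U.2.1 = i ∧ U.2.2 = c ∧ r U.1 i then π₀ else 0) := by
          split_ifs <;> simp [hπ₀]
        by_cases hU : r U.1 U.2.1
        · by_cases hs : ({(i, c)} : Finset (ι × α)) ⊆ {(U.1, U.2.2), (U.2.1, U.2.2)}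
          · rw [if_pos hs, if_pos hU, one_mul, Finset.prod_const,
              Finset.card_sdiff_of_subset hs, hcard U hU, Finset.card_singleton]
            have h3 : (i, c) ∈ ({(U.1, U.2.2), (U.2.1, U.2.2)} : Finset (ι × α)) :=
              hs (Finset.mem_singleton_self _)
            rw [Finset.mem_insert, Finset.mem_singleton, Prod.mk.injEq, Prod.mk.injEq] at h3
            rcases h3 with h3 | h3
            · rw [if_pos ⟨h3.1.symm, h3.2.symm, by rw [h3.1]; exact hU⟩]
              simpa using hy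
            · rw [if_pos (c := U.2.1 = i ∧ U.2.2 = c ∧ r U.1 i)
                ⟨h3.1.symm, h3.2.symm, by rw [h3.1]; exact hU⟩]
              simpa using hx
          · rw [if_neg hs]
            exact add_nonneg hx hy
        · simp only [hU, if_false, zero_mul, ite_self]
          exact add_nonneg hx hy
      refine (Finset.sum_le_sum fun U _ => h1 U).trans ?_
      rw [Finset.sum_add_distrib, ← Finset.sum_filter, ← Finset.sum_filter, Finset.sum_const,
        Finset.sum_const, nsmul_eq_mul, nsmul_eq_mul]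
      have h4 : ((univ.filter fun U : ι × ι × α => U.1 = i ∧ U.2.2 = c ∧ r i U.2.1).card : ℝ) ≤
          b := by
        refine le_trans ?_ (hb i)
        refine Nat.cast_le.mpr (Finset.card_le_card_of_injOn (fun U : ι × ι × α => U.2.1)
          (fun U hU => ?_) (fun U hU U' hU' h => ?_))
        · rw [Finset.mem_coe, Finset.mem_filter] at hU ⊢
          exact ⟨Finset.mem_univ _, hU.2.2.2⟩
        · rw [Finset.mem_coe, Finset.mem_filter] at hU hU'
          obtain ⟨y, v, d⟩ := U
          obtain ⟨y', v', d'⟩ := U'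
          have e1 : y = i := hU.2.1
          have e2 : y' = i := hU'.2.1
          have e3 : d = c := hU.2.2.1
          have e4 : d' = c := hU'.2.2.1
          have e5 : v = v' := h
          rw [e1, e2, e3, e4, e5]
      have h5 : ((univ.filter fun U : ι × ι × α => U.2.1 = i ∧ U.2.2 = c ∧ r U.1 i).card : ℝ) ≤
          b := by
        refine le_trans ?_ (hb' i)
        refine Nat.cast_le.mpr (Finset.card_le_card_of_injOn (fun U : ι × ι × α => U.1)
          (fun U hU => ?_) (fun U hU U' hU' h => ?_))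
        · rw [Finset.mem_coe, Finset.mem_filter] at hU ⊢
          exact ⟨Finset.mem_univ _, hU.2.2.2⟩
        · rw [Finset.mem_coe, Finset.mem_filter] at hU hU'
          obtain ⟨y, v, d⟩ := U
          obtain ⟨y', v', d'⟩ := U'
          have e1 : v = i := hU.2.1
          have e2 : v' = i := hU'.2.1
          have e3 : d = c := hU.2.2.1
          have e4 : d' = c := hU'.2.2.1
          have e5 : y = y' := h
          rw [e1, e2, e3, e4, e5]
      nlinarith
    · have hW2 : 2 ≤ W.card := by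
        have := hWne.card_pos
        omega
      have h1 : ∀ U : ι × ι × α, (if W ⊆ {(U.1, U.2.2), (U.2.1, U.2.2)} then
          (if r U.1 U.2.1 then (1 : ℝ) else 0) *
            ∏ q ∈ {(U.1, U.2.2), (U.2.1, U.2.2)} \ W, π₀ else 0) ≤
          if r U.1 U.2.1 ∧ W = {(U.1, U.2.2), (U.2.1, U.2.2)} then 1 else 0 := by
        intro U
        by_cases hU : r U.1 U.2.1
        · by_cases hs : W ⊆ {(U.1, U.2.2), (U.2.1, U.2.2)}
          · have h2 : W = {(U.1, U.2.2), (U.2.1, U.2.2)} :=
              Finset.eq_of_subset_of_card_le hs (by rw [hcard U hU]; exact hW2)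
            rw [if_pos hs, if_pos hU, one_mul, if_pos ⟨hU, h2⟩, ← h2, Finset.sdiff_self,
              Finset.prod_empty]
          · rw [if_neg hs]
            split_ifs <;> norm_num
        · simp only [hU, if_false, zero_mul, ite_self, false_and]
          exact le_refl _
      refine (Finset.sum_le_sum fun U _ => h1 U).trans ?_
      rw [← Finset.sum_filter, Finset.sum_const, nsmul_eq_mul, mul_one]
      have h3 : (univ.filter fun U : ι × ι × α =>
          r U.1 U.2.1 ∧ W = {(U.1, U.2.2), (U.2.1, U.2.2)}).card ≤ 2 := by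
        rcases (univ.filter fun U : ι × ι × α =>
          r U.1 U.2.1 ∧ W = {(U.1, U.2.2), (U.2.1, U.2.2)}).eq_empty_or_nonempty with h | ⟨U₀, hU₀⟩
        · rw [h]; simp
        · have hsub : (univ.filter fun U : ι × ι × α =>
              r U.1 U.2.1 ∧ W = {(U.1, U.2.2), (U.2.1, U.2.2)}) ⊆
              {U₀, (U₀.2.1, U₀.1, U₀.2.2)} := by
            intro U hU
            rw [Finset.mem_filter] at hU hU₀
            have h4 : ({(U.1, U.2.2), (U.2.1, U.2.2)} : Finset (ι × α)) =
                {(U₀.1, U₀.2.2), (U₀.2.1, U₀.2.2)} := hU.2.2.symm.trans hU₀.2.2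
            have h5 : (U.1, U.2.2) ∈ ({(U₀.1, U₀.2.2), (U₀.2.1, U₀.2.2)} : Finset (ι × α)) := by
              rw [← h4]; simp
            have h6 : (U.2.1, U.2.2) ∈ ({(U₀.1, U₀.2.2), (U₀.2.1, U₀.2.2)} : Finset (ι × α)) := by
              rw [← h4]; simp
            have h7 : U.1 ≠ U.2.1 := fun h => hr _ (by
              have := hU.2.1
              rw [h] at this
              exact this)
            obtain ⟨y, v, d⟩ := U
            obtain ⟨y', v', d'⟩ := U₀
            simp only [Finset.mem_insert, Finset.mem_singleton, Prod.mk.injEq] at h5 h6 h7 ⊢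
            rcases h5 with ⟨h5, h5'⟩ | ⟨h5, h5'⟩ <;> rcases h6 with ⟨h6, h6'⟩ | ⟨h6, h6'⟩
            · exact absurd (h5.trans h6.symm) h7
            · exact Or.inl ⟨h5, h6, h5'⟩
            · exact Or.inr ⟨h5, h6, h5'⟩
            · exact absurd (h5.trans h6.symm) h7
          exact (Finset.card_le_card hsub).trans Finset.card_le_two
      have h4 : ((univ.filter fun U : ι × ι × α =>
          r U.1 U.2.1 ∧ W = {(U.1, U.2.2), (U.2.1, U.2.2)}).card : ℝ) ≤ 2 := by exact_mod_cast h3
      linarith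

/-- Tail for the number of single conditions that hold. -/
theorem single_tail {T : ℝ} (hT : Big T) {μ : ι → α → ℝ} (h : IsPM μ) {κ : Type*} [Fintype κ]
    (π₀ : ℝ) (hπ₀ : 0 ≤ π₀) (hπ : ∀ i a, μ i a ≤ π₀) (r : κ → Prop) [DecidablePred r] (p : κ → ι)
    (s : κ → α) (a b : ℝ) (hb0 : 0 < b) (ha : ((univ.filter r).card : ℝ) ≤ a)
    (hb : ∀ i c, ((univ.filter fun U => r U ∧ p U = i ∧ s U = c).card : ℝ) ≤ b) :
    Pr μ (fun ω => T ^ 4 * (a * π₀ + b) ≤
      ((univ.filter fun U => r U ∧ ω (p U) = s U).card : ℝ)) ≤ Real.exp (-(2 * T)) := by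
  have ha0 : 0 ≤ a := le_trans (Nat.cast_nonneg _) ha
  have h1 := count_T hT h (fun _ _ => π₀) hπ (fun U => if r U then 1 else 0)
    (fun U => by split_ifs <;> norm_num) (fun U => {(p U, s U)})
    (fun U => by rw [Finset.card_singleton]; norm_num) (a * π₀ + b)
    (by have := mul_nonneg ha0 hπ₀; linarith)
    (fun W _ => ext_single π₀ hπ₀ r p s a b hb0.le ha hb W)
  refine le_trans (le_of_eq ?_) h1
  congr 1
  funext ω
  have h2 : cnt (fun U => if r U then (1 : ℝ) else 0) (fun U => {(p U, s U)}) ω =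
      ((univ.filter fun U => r U ∧ ω (p U) = s U).card : ℝ) := by
    unfold cnt Holds
    rw [Finset.card_eq_sum_ones, Nat.cast_sum, Finset.sum_filter]
    refine Finset.sum_congr rfl fun U _ => ?_
    by_cases h3 : r U <;> by_cases h4 : ω (p U) = s U <;> simp [h3, h4]
  rw [h2]

/-- Tail for the number of monochromatic pairs. -/
theorem pair_tail {T : ℝ} (hT : Big T) {μ : ι → α → ℝ} (h : IsPM μ)
    (π₀ : ℝ) (hπ₀ : 0 ≤ π₀) (hπ : ∀ i a, μ i a ≤ π₀) (r : ι → ι → Prop)
    [∀ y u, Decidable (r y u)] (hr : ∀ y, ¬ r y y)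
    (a b : ℝ) (hb0 : 0 ≤ b) (ha : ((univ.filter fun w : ι × ι => r w.1 w.2).card : ℝ) ≤ a)
    (hb : ∀ y, ((univ.filter fun u => r y u).card : ℝ) ≤ b)
    (hb' : ∀ u, ((univ.filter fun y => r y u).card : ℝ) ≤ b) :
    Pr μ (fun ω => T ^ 4 * (a * (Fintype.card α * π₀ ^ 2) + 2 * b * π₀ + 2) ≤
      ((univ.filter fun w : ι × ι => r w.1 w.2 ∧ ω w.1 = ω w.2).card : ℝ)) ≤
      Real.exp (-(2 * T)) := by
  have ha0 : 0 ≤ a := le_trans (Nat.cast_nonneg _) ha
  have h1 := count_T hT h (fun _ _ => π₀) hπ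
    (fun U : ι × ι × α => if r U.1 U.2.1 then 1 else 0)
    (fun U => by split_ifs <;> norm_num) (fun U => {(U.1, U.2.2), (U.2.1, U.2.2)})
    (fun U => by
      have := Finset.card_le_two (a := ((U.1, U.2.2) : ι × α)) (b := (U.2.1, U.2.2))
      omega) (a * (Fintype.card α * π₀ ^ 2) + 2 * b * π₀ + 2)
    (by positivity)
    (fun W _ => ext_pair π₀ hπ₀ r hr a b hb0 ha hb hb' W)
  refine le_trans (le_of_eq ?_) h1
  congr 1
  funext ω
  have h2 : cnt (fun U : ι × ι × α => if r U.1 U.2.1 then (1 : ℝ) else 0)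
      (fun U => {(U.1, U.2.2), (U.2.1, U.2.2)}) ω =
      ((univ.filter fun w : ι × ι => r w.1 w.2 ∧ ω w.1 = ω w.2).card : ℝ) := by
    unfold cnt Holds
    rw [Finset.card_eq_sum_ones, Nat.cast_sum, Finset.sum_filter, Fintype.sum_prod_type,
      Fintype.sum_prod_type]
    refine Finset.sum_congr rfl fun y _ => ?_
    rw [Fintype.sum_prod_type]
    refine Finset.sum_congr rfl fun v _ => ?_
    trans ∑ c, if c = ω y then (if r y v ∧ ω y = ω v then (1 : ℝ) else 0) else 0
    · refine Finset.sum_congr rfl fun c _ => ?_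
      by_cases h4 : c = ω y
      · subst h4
        by_cases h5 : ω y = ω v
        · by_cases h6 : r y v <;> simp [h5, h6]
        · by_cases h6 : r y v <;> simp [h5, h6, Ne.symm h5]
      · have h5 : ω y ≠ c := fun h => h4 h.symm
        simp [h4, h5]
    · rw [Finset.sum_ite_eq' univ (ω y)]
      simp
  rw [h2]

end

end Pool.Agent.Acy
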