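import Pool.Agent.Acy.XA

/-! # Long cycles and dropped vertices: local families, the invariants `cc` and `cp`
(module X, part B) -/

set_option autoImplicit false
set_option linter.unusedSectionVars false

namespace Pool.Agent.Acy

open Finset
open scoped Classical

universe u

/-- A local family of events with explicit bounds. -/
def Fam {Q : Type u} [Fintype Q] [DecidableEq Q] {α : Type*} [Fintype α]
    (μ : Q → α → ℝ) (Good : (Q → α) → Prop) (p s s' : ℝ) : Prop :=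
  ∃ (κ : Type u) (_ : Fintype κ) (E : κ → (Q → α) → Prop) (S : κ → Finset Q),
    (∀ b, DependsOn (E b) (S b : Set Q)) ∧ (∀ b, Pr μ (E b) ≤ p) ∧
    (∀ b, ((S b).card : ℝ) ≤ s) ∧
    (∀ i, ((univ.filter fun b => i ∈ S b).card : ℝ) ≤ s') ∧
    ∀ ω, (∀ b, ¬ E b ω) → Good ω

section

variable {Q : Type u} [Fintype Q] [DecidableEq Q] {α : Type*} [Fintype α] {μ : Q → α → ℝ}

theorem Fam.and {G₁ G₂ : (Q → α) → Prop} {p s s₁ s₂ : ℝ} (h₁ : Fam μ G₁ p s s₁)
    (h₂ : Fam μ G₂ p s s₂) : Fam μ (fun ω => G₁ ω ∧ G₂ ω) p s (s₁ + s₂) := by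
  obtain ⟨κ₁, i₁, E₁, S₁, a₁, b₁, c₁, d₁, e₁⟩ := h₁
  obtain ⟨κ₂, i₂, E₂, S₂, a₂, b₂, c₂, d₂, e₂⟩ := h₂
  refine ⟨κ₁ ⊕ κ₂, inferInstance, Sum.elim E₁ E₂, Sum.elim S₁ S₂, ?_, ?_, ?_, ?_, ?_⟩
  · rintro (b | b)
    · exact a₁ b
    · exact a₂ b
  · rintro (b | b)
    · exact b₁ b
    · exact b₂ b
  · rintro (b | b)
    · exact c₁ b
    · exact c₂ b
  · intro i
    have h : (univ.filter fun b : κ₁ ⊕ κ₂ => i ∈ Sum.elim S₁ S₂ b).card =
        (univ.filter fun b => i ∈ S₁ b).card + (univ.filter fun b => i ∈ S₂ b).card := by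
      rw [Finset.card_filter, Fintype.sum_sum_type, Finset.card_filter, Finset.card_filter]
      rfl
    rw [h, Nat.cast_add]
    exact add_le_add (d₁ i) (d₂ i)
  · intro ω hω
    exact ⟨e₁ ω fun b => hω (Sum.inl b), e₂ ω fun b => hω (Sum.inr b)⟩

theorem Fam.mono {G₁ G₂ : (Q → α) → Prop} {p s t s' t' : ℝ} (h : Fam μ G₁ p s s')
    (hG : ∀ ω, G₁ ω → G₂ ω) (hs : s ≤ t) (hs' : s' ≤ t') : Fam μ G₂ p t t' := by
  obtain ⟨κ₁, i₁, E₁, S₁, a₁, b₁, c₁, d₁, e₁⟩ := h
  exact ⟨κ₁, i₁, E₁, S₁, a₁, b₁, fun b => (c₁ b).trans hs, fun i => (d₁ i).trans hs',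
    fun ω hω => hG ω (e₁ ω hω)⟩

theorem Fam.stepOK {G : (Q → α) → Prop} {T : ℝ} (h : Fam μ G (Real.exp (-T)) (T ^ 20000)
    (T ^ 20000)) : StepOK T μ G := h

/-- Counting pairs. -/
theorem card_pairs_le {A B : Type*} [Fintype A] [Fintype B] (p : A → B → Prop)
    [∀ a b, Decidable (p a b)] (q : A → Prop) [DecidablePred q]
    (s t : ℝ) (ht0 : 0 ≤ t) (hs : ((univ.filter q).card : ℝ) ≤ s) (h : ∀ a b, p a b → q a)
    (ht : ∀ a, q a → ((univ.filter (p a)).card : ℝ) ≤ t) :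
    ((univ.filter fun w : A × B => p w.1 w.2).card : ℝ) ≤ s * t := by
  have h1 : ((univ.filter fun w : A × B => p w.1 w.2).card : ℝ) =
      ∑ a, ((univ.filter (p a)).card : ℝ) := by
    rw [Finset.card_filter, Fintype.sum_prod_type]
    push_cast
    refine Finset.sum_congr rfl fun a _ => ?_
    rw [Finset.card_filter]
    push_cast
    rfl
  rw [h1]
  have h2 : ∀ a, ((univ.filter (p a)).card : ℝ) ≤ if q a then t else 0 := by
    intro a
    by_cases ha : q a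
    · rw [if_pos ha]
      exact ht a ha
    · rw [if_neg ha]
      have : univ.filter (p a) = ∅ := by
        refine Finset.filter_eq_empty_iff.mpr fun b _ hb => ha (h a b hb)
      rw [this]
      simp
  refine (Finset.sum_le_sum fun a _ => h2 a).trans ?_
  rw [← Finset.sum_filter, Finset.sum_const, nsmul_eq_mul]
  exact mul_le_mul_of_nonneg_right hs ht0

theorem dependsOn_single [DecidableEq α] {κ : Type*} [Fintype κ] (c : ℝ) (r : κ → Prop)
    [DecidablePred r] (p : κ → Q) (s : κ → α) (S : Set Q) (hS : ∀ U, r U → p U ∈ S) :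
    DependsOn (fun ω : Q → α => c ≤ ((univ.filter fun U => r U ∧ ω (p U) = s U).card : ℝ)) S := by
  intro x y hxy
  have : (univ.filter fun U => r U ∧ x (p U) = s U) =
      univ.filter fun U => r U ∧ y (p U) = s U := by
    refine Finset.filter_congr fun U _ => ?_
    constructor
    · rintro ⟨h1, h2⟩
      exact ⟨h1, by rw [← hxy _ (hS U h1)]; exact h2⟩
    · rintro ⟨h1, h2⟩
      exact ⟨h1, by rw [hxy _ (hS U h1)]; exact h2⟩
  simp only [this]

theorem dependsOn_pair [DecidableEq α] (c : ℝ) (r : Q → Q → Prop) [∀ y u, Decidable (r y u)]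
    (S : Set Q)
    (hS : ∀ y u, r y u → y ∈ S ∧ u ∈ S) :
    DependsOn (fun ω : Q → α => c ≤
      ((univ.filter fun w : Q × Q => r w.1 w.2 ∧ ω w.1 = ω w.2).card : ℝ)) S := by
  intro x y hxy
  have : (univ.filter fun w : Q × Q => r w.1 w.2 ∧ x w.1 = x w.2) =
      univ.filter fun w : Q × Q => r w.1 w.2 ∧ y w.1 = y w.2 := by
    refine Finset.filter_congr fun U _ => ?_
    constructor
    · rintro ⟨h1, h2⟩
      exact ⟨h1, by rw [← hxy _ (hS _ _ h1).1, ← hxy _ (hS _ _ h1).2]; exact h2⟩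
    · rintro ⟨h1, h2⟩
      exact ⟨h1, by rw [hxy _ (hS _ _ h1).1, hxy _ (hS _ _ h1).2]; exact h2⟩
  simp only [this]

end

namespace XData

variable {Q : Type u} [Fintype Q] [DecidableEq Q] {X : XData Q} {D : NibData Q}

theorem T_one (hD : D.Ok) : 1 ≤ D.T := le_trans (by norm_num) hD.big.big

theorem T_pos (hD : D.Ok) : 0 < D.T := lt_of_lt_of_le one_pos (T_one hD)

theorem k_pos (hD : D.Ok) : 0 < (D.k : ℝ) :=
  lt_of_lt_of_le (pow_pos (T_pos hD) _) hD.k_lo

theorem pi0_nonneg (hD : D.Ok) : 0 ≤ 2 * D.T / D.k :=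
  div_nonneg (mul_nonneg zero_le_two (T_pos hD).le) (k_pos hD).le

theorem pi0_le (hD : D.Ok) : 2 * D.T / D.k * D.T ^ 3998 ≤ 2 := by
  rw [div_mul_eq_mul_div, div_le_iff₀ (k_pos hD)]
  have h1 := hD.k_lo
  have h2 : 2 * D.T * D.T ^ 3998 = 2 * D.T ^ 3999 := by ring
  rw [h2]
  linarith

theorem pi0_sq (hD : D.Ok) : (D.k : ℝ) * (2 * D.T / D.k) ^ 2 = 2 * D.T * (2 * D.T / D.k) := by
  have := (k_pos hD).ne'
  field_simp

theorem nb_card' (hX : X.Ok D) (i : Q) :
    ((univ.filter fun x => X.nb x i).card : ℝ) ≤ D.T ^ 6000 := by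
  refine le_trans (le_of_eq ?_) (hX.nb_card i)
  congr 2
  refine Finset.filter_congr fun x _ => ⟨hX.nb_symm _ _, hX.nb_symm _ _⟩

/-- Powers of `T`. -/
theorem T_pow_ge (hD : D.Ok) {n : ℕ} (hn : 1 ≤ n) : (10 : ℝ) ^ 6 ≤ D.T ^ n := by
  calc (10 : ℝ) ^ 6 ≤ D.T := hD.big.big
    _ = D.T ^ 1 := (pow_one _).symm
    _ ≤ D.T ^ n := pow_le_pow_right₀ (T_one hD) hn

/-- The family for `cc`. -/
theorem cc_fam (hX : X.Ok D) (hD : D.Ok) (j : ℕ) {μ : Q → Fin D.k → ℝ} (hμ : IsPM μ)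
    (hμ' : ∀ u c, μ u c ≤ 2 * D.T / D.k) :
    Fam μ (fun ω => ∀ x u c,
      ((univ.filter fun u' => (D.rd u' = j ∧ X.E3 x u u') ∧ ω u' = c).card : ℝ) ≤ D.T ^ 20)
      (Real.exp (-(2 * D.T))) (D.T ^ 6000) (D.T ^ 6000 * (D.T ^ 6000 * D.T ^ 4000)) := by
  have hT := T_pos hD
  refine ⟨Q × Q × Fin D.k, inferInstance,
    fun b ω => D.T ^ 4 * (D.T ^ 4010 * (2 * D.T / D.k) + 1) ≤
      ((univ.filter fun u' => (D.rd u' = j ∧ X.E3 b.1 b.2.1 u') ∧ ω u' = b.2.2).card : ℝ),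
    fun b => univ.filter fun u' => D.rd u' = j ∧ X.E3 b.1 b.2.1 u', ?_, ?_, ?_, ?_, ?_⟩
  · rintro ⟨x, u, c⟩
    have := dependsOn_single (κ := Q) (D.T ^ 4 * (D.T ^ 4010 * (2 * D.T / D.k) + 1))
      (fun u' => D.rd u' = j ∧ X.E3 x u u') (fun u' => u')
      (fun _ => c) (univ.filter fun u' => D.rd u' = j ∧ X.E3 x u u' : Finset Q) fun U hU => by
        rw [Finset.mem_coe, Finset.mem_filter]
        exact ⟨mem_univ _, hU⟩
    convert this
  · rintro ⟨x, u, c⟩
    have := single_tail (κ := Q) hD.big hμ (2 * D.T / D.k) (pi0_nonneg hD) hμ'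
      (fun u' => D.rd u' = j ∧ X.E3 x u u') (fun u' => u') (fun _ => c) (D.T ^ 4010) 1 one_pos
      ?_ ?_
    · convert this
    · refine le_trans ?_ (hX.e3' x u)
      exact Nat.cast_le.mpr (Finset.card_le_card fun U hU => by
        rw [Finset.mem_filter] at hU ⊢
        exact ⟨hU.1, hU.2.2⟩)
    · intro i d
      have : (univ.filter fun U => (D.rd U = j ∧ X.E3 x u U) ∧ U = i ∧ c = d) ⊆ {i} := by
        intro U hU
        rw [Finset.mem_filter] at hU
        rw [Finset.mem_singleton]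
        exact hU.2.2.1
      have h2 := Finset.card_le_card this
      rw [Finset.card_singleton] at h2
      exact_mod_cast h2
  · rintro ⟨x, u, c⟩
    refine le_trans ?_ (hX.nb_card x)
    exact Nat.cast_le.mpr (Finset.card_le_card fun U hU => by
      rw [Finset.mem_filter] at hU ⊢
      exact ⟨hU.1, (hX.E3_nb _ _ _ hU.2.2).2⟩)
  · intro i
    have h0 := (card_pairs_le (A := Q) (B := Q × Fin D.k)
      (fun x b => i ∈ univ.filter fun u' => D.rd u' = j ∧ X.E3 x b.1 u') (fun x => X.nb x i)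
      (D.T ^ 6000) (D.T ^ 6000 * D.T ^ 4000)
      (by positivity) (nb_card' hX i) ?_ ?_)
    · convert h0
    · intro x b hb
      rw [Finset.mem_filter] at hb
      exact (hX.E3_nb _ _ _ hb.2.2).2
    · intro x _
      have h1 := (card_pairs_le (A := Q) (B := Fin D.k)
        (fun u _ => i ∈ univ.filter fun u' => D.rd u' = j ∧ X.E3 x u u') (fun u => X.nb x u)
        (D.T ^ 6000) (D.T ^ 4000)
        (by positivity) (hX.nb_card x) ?_ ?_)
      · convert h1
      · intro u c hb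
        rw [Finset.mem_filter] at hb
        exact (hX.E3_nb _ _ _ hb.2.2).1
      · intro u _
        refine le_trans ?_ hD.k_hi
        have := Finset.card_filter_le (univ : Finset (Fin D.k))
          (fun _ => i ∈ univ.filter fun u' => D.rd u' = j ∧ X.E3 x u u')
        rw [Finset.card_univ, Fintype.card_fin] at this
        exact Nat.cast_le.mpr this
  · intro ω hω x u c
    have h1 := (not_le.mp (hω (x, u, c))).le
    refine h1.trans ?_
    have h2 := pi0_le hD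
    have h3 : D.T ^ 4010 * (2 * D.T / D.k) ≤ 2 * D.T ^ 12 := by
      have : D.T ^ 4010 * (2 * D.T / D.k) = D.T ^ 12 * (2 * D.T / D.k * D.T ^ 3998) := by ring
      rw [this]
      nlinarith [pow_pos hT 12]
    have h4 : (1 : ℝ) ≤ D.T ^ 12 := one_le_pow₀ (T_one hD)
    have h5 : (10 : ℝ) ^ 6 ≤ D.T ^ 4 := T_pow_ge hD (by norm_num)
    calc D.T ^ 4 * (D.T ^ 4010 * (2 * D.T / D.k) + 1) ≤ D.T ^ 4 * (3 * D.T ^ 12) := by
          refine mul_le_mul_of_nonneg_left (by linarith) (by positivity)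
      _ = 3 * D.T ^ 16 := by ring
      _ ≤ D.T ^ 4 * D.T ^ 16 := by
          refine mul_le_mul_of_nonneg_right (by linarith) (by positivity)
      _ = D.T ^ 20 := by ring

/-- The step for `cc`. -/
theorem cc_step {j : ℕ} {col ω : Q → Fin D.k}
    (hcc : ∀ x u c, ((univ.filter fun u' => D.rd u' < j ∧ X.E3 x u u' ∧ col u' = c).card : ℝ) ≤
      j * D.T ^ 20)
    (h : ∀ x u c, ((univ.filter fun u' => (D.rd u' = j ∧ X.E3 x u u') ∧ ω u' = c).card : ℝ) ≤
      D.T ^ 20) (x u : Q) (c : Fin D.k) :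
    ((univ.filter fun u' => D.rd u' < j + 1 ∧ X.E3 x u u' ∧ D.upd j col ω u' = c).card : ℝ) ≤
      (j + 1 : ℕ) * D.T ^ 20 := by
  have hsub : (univ.filter fun u' => D.rd u' < j + 1 ∧ X.E3 x u u' ∧ D.upd j col ω u' = c) ⊆
      (univ.filter fun u' => D.rd u' < j ∧ X.E3 x u u' ∧ col u' = c) ∪
      (univ.filter fun u' => (D.rd u' = j ∧ X.E3 x u u') ∧ ω u' = c) := by
    intro u' hu'
    rw [Finset.mem_union, Finset.mem_filter, Finset.mem_filter]
    rw [Finset.mem_filter] at hu'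
    obtain ⟨-, h1, h2, h3⟩ := hu'
    unfold NibData.upd at h3
    by_cases h4 : D.rd u' = j
    · rw [if_pos h4] at h3
      exact Or.inr ⟨mem_univ _, ⟨h4, h2⟩, h3⟩
    · rw [if_neg h4] at h3
      exact Or.inl ⟨mem_univ _, by omega, h2, h3⟩
  have h1 := (Finset.card_le_card hsub).trans (Finset.card_union_le _ _)
  have h2 : ((univ.filter fun u' => D.rd u' < j + 1 ∧ X.E3 x u u' ∧
      D.upd j col ω u' = c).card : ℝ) ≤
      ((univ.filter fun u' => D.rd u' < j ∧ X.E3 x u u' ∧ col u' = c).card : ℝ) +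
      ((univ.filter fun u' => (D.rd u' = j ∧ X.E3 x u u') ∧ ω u' = c).card : ℝ) := by
    exact_mod_cast h1
  have h3 := hcc x u c
  have h4 := h x u c
  push_cast
  linarith

/-- The family for `cp`: one old and one new vertex. -/
theorem cp1_fam (hX : X.Ok D) (hD : D.Ok) (j : ℕ) (hj : j < D.q) (col : Q → Fin D.k)
    (hcc : ∀ x u c, ((univ.filter fun u' => D.rd u' < j ∧ X.E3 x u u' ∧ col u' = c).card : ℝ) ≤
      j * D.T ^ 20) {μ : Q → Fin D.k → ℝ} (hμ : IsPM μ)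
    (hμ' : ∀ u c, μ u c ≤ 2 * D.T / D.k) :
    Fam μ (fun ω => ∀ x, ((univ.filter fun w : Q × Q =>
        (D.rd w.1 < j ∧ D.rd w.2 = j ∧ X.E3 x w.1 w.2) ∧ ω w.2 = col w.1).card : ℝ) ≤ D.T ^ 3020)
      (Real.exp (-(2 * D.T))) (D.T ^ 6000) (D.T ^ 6000) := by
  have hT := T_pos hD
  have hT1 := T_one hD
  refine ⟨Q, inferInstance,
    fun x ω => D.T ^ 4 * (D.T ^ 7010 * (2 * D.T / D.k) + D.T ^ 170) ≤
      ((univ.filter fun w : Q × Q =>
        (D.rd w.1 < j ∧ D.rd w.2 = j ∧ X.E3 x w.1 w.2) ∧ ω w.2 = col w.1).card : ℝ),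
    fun x => univ.filter fun u' => X.nb x u', ?_, ?_, ?_, ?_, ?_⟩
  · intro x
    have := dependsOn_single (κ := Q × Q) (D.T ^ 4 * (D.T ^ 7010 * (2 * D.T / D.k) + D.T ^ 170))
      (fun w => D.rd w.1 < j ∧ D.rd w.2 = j ∧ X.E3 x w.1 w.2) (fun w => w.2)
      (fun w => col w.1) (univ.filter fun u' => X.nb x u' : Finset Q) fun U hU => by
        rw [Finset.mem_coe, Finset.mem_filter]
        exact ⟨mem_univ _, (hX.E3_nb _ _ _ hU.2.2).2⟩
    convert this
  · intro x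
    have := single_tail (κ := Q × Q) hD.big hμ (2 * D.T / D.k) (pi0_nonneg hD) hμ'
      (fun w => D.rd w.1 < j ∧ D.rd w.2 = j ∧ X.E3 x w.1 w.2) (fun w => w.2)
      (fun w => col w.1) (D.T ^ 7010) (D.T ^ 170) (by positivity) ?_ ?_
    · convert this
    · refine le_trans ?_ (hX.e3 x)
      exact Nat.cast_le.mpr (Finset.card_le_card fun U hU => by
        rw [Finset.mem_filter] at hU ⊢
        exact ⟨hU.1, hU.2.2.2⟩)
    · intro i d
      have h1 : ((univ.filter fun U : Q × Q => (D.rd U.1 < j ∧ D.rd U.2 = j ∧ X.E3 x U.1 U.2) ∧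
          U.2 = i ∧ col U.1 = d).card : ℝ) ≤
          ((univ.filter fun u' => D.rd u' < j ∧ X.E3 x i u' ∧ col u' = d).card : ℝ) := by
        refine Nat.cast_le.mpr (Finset.card_le_card_of_injOn (fun U : Q × Q => U.1)
          (fun U hU => ?_) (fun U hU U' hU' h => ?_))
        · rw [Finset.mem_coe, Finset.mem_filter] at hU ⊢
          obtain ⟨-, ⟨h2, h3, h4⟩, h5, h6⟩ := hU
          refine ⟨mem_univ _, h2, ?_, h6⟩
          rw [h5] at h4
          exact hX.E3_symm _ _ _ h4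
        · rw [Finset.mem_coe, Finset.mem_filter] at hU hU'
          exact Prod.ext h (hU.2.2.1.trans hU'.2.2.1.symm)
      refine h1.trans ((hcc x i d).trans ?_)
      have h2 : (j : ℝ) ≤ D.T ^ 150 := by
        refine le_trans ?_ hD.q_hi
        exact_mod_cast hj.le
      calc (j : ℝ) * D.T ^ 20 ≤ D.T ^ 150 * D.T ^ 20 :=
            mul_le_mul_of_nonneg_right h2 (by positivity)
        _ = D.T ^ 170 := by ring
  · intro x
    exact hX.nb_card x
  · intro i
    refine le_trans (le_of_eq ?_) (nb_card' hX i)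
    congr 2
    refine Finset.filter_congr fun x _ => ?_
    rw [Finset.mem_filter]
    exact ⟨fun h => h.2, fun h => ⟨mem_univ _, h⟩⟩
  · intro ω hω x
    have h1 := (not_le.mp (hω x)).le
    refine h1.trans ?_
    have h2 := pi0_le hD
    have h3 : D.T ^ 7010 * (2 * D.T / D.k) ≤ 2 * D.T ^ 3012 := by
      have : D.T ^ 7010 * (2 * D.T / D.k) = D.T ^ 3012 * (2 * D.T / D.k * D.T ^ 3998) := by ring
      rw [this]
      nlinarith [pow_pos hT 3012]
    have h4 : D.T ^ 170 ≤ D.T ^ 3012 := pow_le_pow_right₀ hT1 (by norm_num)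
    have h5 : (10 : ℝ) ^ 6 ≤ D.T ^ 4 := T_pow_ge hD (by norm_num)
    calc D.T ^ 4 * (D.T ^ 7010 * (2 * D.T / D.k) + D.T ^ 170) ≤ D.T ^ 4 * (3 * D.T ^ 3012) := by
          refine mul_le_mul_of_nonneg_left (by linarith) (by positivity)
      _ = 3 * D.T ^ 3016 := by ring
      _ ≤ D.T ^ 4 * D.T ^ 3016 := by
          refine mul_le_mul_of_nonneg_right (by linarith) (by positivity)
      _ = D.T ^ 3020 := by ring

/-- The family for `cp`: two new vertices. -/
theorem cp2_fam (hX : X.Ok D) (hD : D.Ok) (j : ℕ) {μ : Q → Fin D.k → ℝ} (hμ : IsPM μ)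
    (hμ' : ∀ u c, μ u c ≤ 2 * D.T / D.k) :
    Fam μ (fun ω => ∀ x, ((univ.filter fun w : Q × Q =>
        (D.rd w.1 = j ∧ D.rd w.2 = j ∧ X.E3 x w.1 w.2) ∧ ω w.1 = ω w.2).card : ℝ) ≤ D.T ^ 3020)
      (Real.exp (-(2 * D.T))) (D.T ^ 6000) (D.T ^ 6000) := by
  have hT := T_pos hD
  have hT1 := T_one hD
  refine ⟨Q, inferInstance,
    fun x ω => D.T ^ 4 * (D.T ^ 7010 * (Fintype.card (Fin D.k) * (2 * D.T / D.k) ^ 2) +
        2 * D.T ^ 4010 * (2 * D.T / D.k) + 2) ≤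
      ((univ.filter fun w : Q × Q =>
        (D.rd w.1 = j ∧ D.rd w.2 = j ∧ X.E3 x w.1 w.2) ∧ ω w.1 = ω w.2).card : ℝ),
    fun x => univ.filter fun u' => X.nb x u', ?_, ?_, ?_, ?_, ?_⟩
  · intro x
    have := dependsOn_pair (D.T ^ 4 * (D.T ^ 7010 * (Fintype.card (Fin D.k) * (2 * D.T / D.k) ^ 2) +
        2 * D.T ^ 4010 * (2 * D.T / D.k) + 2)) (α := Fin D.k)
      (fun y u => D.rd y = j ∧ D.rd u = j ∧ X.E3 x y u)
      (univ.filter fun u' => X.nb x u' : Finset Q) fun y u hU => by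
        rw [Finset.mem_coe, Finset.mem_coe, Finset.mem_filter, Finset.mem_filter]
        exact ⟨⟨mem_univ _, (hX.E3_nb _ _ _ hU.2.2).1⟩, ⟨mem_univ _, (hX.E3_nb _ _ _ hU.2.2).2⟩⟩
    convert this
  · intro x
    have := pair_tail hD.big hμ (2 * D.T / D.k) (pi0_nonneg hD) hμ'
      (fun y u => D.rd y = j ∧ D.rd u = j ∧ X.E3 x y u)
      (fun y hy => (hX.E3_irr _ _ _ hy.2.2).2.2 rfl) (D.T ^ 7010) (D.T ^ 4010) (by positivity)
      ?_ ?_ ?_
    · convert this
    · refine le_trans ?_ (hX.e3 x)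
      exact Nat.cast_le.mpr (Finset.card_le_card fun U hU => by
        rw [Finset.mem_filter] at hU ⊢
        exact ⟨hU.1, hU.2.2.2⟩)
    · intro y
      refine le_trans ?_ (hX.e3' x y)
      exact Nat.cast_le.mpr (Finset.card_le_card fun U hU => by
        rw [Finset.mem_filter] at hU ⊢
        exact ⟨hU.1, hU.2.2.2⟩)
    · intro u
      refine le_trans ?_ (hX.e3' x u)
      exact Nat.cast_le.mpr (Finset.card_le_card fun U hU => by
        rw [Finset.mem_filter] at hU ⊢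
        exact ⟨hU.1, hX.E3_symm _ _ _ hU.2.2.2⟩)
  · intro x
    exact hX.nb_card x
  · intro i
    refine le_trans (le_of_eq ?_) (nb_card' hX i)
    congr 2
    refine Finset.filter_congr fun x _ => ?_
    rw [Finset.mem_filter]
    exact ⟨fun h => h.2, fun h => ⟨mem_univ _, h⟩⟩
  · intro ω hω x
    have h1 := (not_le.mp (hω x)).le
    refine h1.trans ?_
    have h2 := pi0_le hD
    rw [Fintype.card_fin, pi0_sq hD]
    have h3 : D.T ^ 7010 * (2 * D.T * (2 * D.T / D.k)) ≤ 4 * D.T ^ 3013 := by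
      have : D.T ^ 7010 * (2 * D.T * (2 * D.T / D.k)) =
          2 * D.T ^ 3013 * (2 * D.T / D.k * D.T ^ 3998) := by ring
      rw [this]
      nlinarith [pow_pos hT 3013]
    have h3' : 2 * D.T ^ 4010 * (2 * D.T / D.k) ≤ 4 * D.T ^ 12 := by
      have : 2 * D.T ^ 4010 * (2 * D.T / D.k) =
          2 * D.T ^ 12 * (2 * D.T / D.k * D.T ^ 3998) := by ring
      rw [this]
      nlinarith [pow_pos hT 12]
    have h4 : D.T ^ 12 ≤ D.T ^ 3013 := pow_le_pow_right₀ hT1 (by norm_num)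
    have h4' : 1 ≤ D.T ^ 3013 := one_le_pow₀ hT1
    have h5 : (10 : ℝ) ^ 6 ≤ D.T ^ 3 := T_pow_ge hD (by norm_num)
    calc D.T ^ 4 * (D.T ^ 7010 * (2 * D.T * (2 * D.T / D.k)) +
          2 * D.T ^ 4010 * (2 * D.T / D.k) + 2) ≤ D.T ^ 4 * (10 * D.T ^ 3013) := by
          refine mul_le_mul_of_nonneg_left (by linarith) (by positivity)
      _ = 10 * D.T ^ 3017 := by ring
      _ ≤ D.T ^ 3 * D.T ^ 3017 := by
          refine mul_le_mul_of_nonneg_right (by linarith) (by positivity)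
      _ = D.T ^ 3020 := by ring

/-- The step for `cp`. -/
theorem cp_step (hX : X.Ok D) (hD : D.Ok) {j : ℕ} {col ω : Q → Fin D.k}
    (hcp : ∀ x, ((univ.filter fun w : Q × Q => D.rd w.1 < j ∧ D.rd w.2 < j ∧ X.E3 x w.1 w.2 ∧
      col w.1 = col w.2).card : ℝ) ≤ j * D.T ^ 3030)
    (h₁ : ∀ x, ((univ.filter fun w : Q × Q =>
        (D.rd w.1 < j ∧ D.rd w.2 = j ∧ X.E3 x w.1 w.2) ∧ ω w.2 = col w.1).card : ℝ) ≤ D.T ^ 3020)
    (h₂ : ∀ x, ((univ.filter fun w : Q × Q =>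
        (D.rd w.1 = j ∧ D.rd w.2 = j ∧ X.E3 x w.1 w.2) ∧ ω w.1 = ω w.2).card : ℝ) ≤ D.T ^ 3020)
    (x : Q) :
    ((univ.filter fun w : Q × Q => D.rd w.1 < j + 1 ∧ D.rd w.2 < j + 1 ∧ X.E3 x w.1 w.2 ∧
      D.upd j col ω w.1 = D.upd j col ω w.2).card : ℝ) ≤ (j + 1 : ℕ) * D.T ^ 3030 := by
  set A := univ.filter fun w : Q × Q => D.rd w.1 < j ∧ D.rd w.2 < j ∧ X.E3 x w.1 w.2 ∧
      col w.1 = col w.2 with hA
  set B := univ.filter fun w : Q × Q =>
        (D.rd w.1 < j ∧ D.rd w.2 = j ∧ X.E3 x w.1 w.2) ∧ ω w.2 = col w.1 with hB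
  set C := univ.filter fun w : Q × Q =>
        (D.rd w.1 = j ∧ D.rd w.2 = j ∧ X.E3 x w.1 w.2) ∧ ω w.1 = ω w.2 with hC
  have hsub : (univ.filter fun w : Q × Q => D.rd w.1 < j + 1 ∧ D.rd w.2 < j + 1 ∧
      X.E3 x w.1 w.2 ∧ D.upd j col ω w.1 = D.upd j col ω w.2) ⊆
      A ∪ (B ∪ (B.image Prod.swap ∪ C)) := by
    rintro ⟨y, u⟩ hw
    rw [Finset.mem_filter] at hw
    obtain ⟨-, h1, h2, h3, h4⟩ := hw
    simp only at h1 h2 h3 h4
    unfold NibData.upd at h4
    by_cases hy : D.rd y = j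
    · by_cases hu : D.rd u = j
      · rw [if_pos hy, if_pos hu] at h4
        refine Finset.mem_union_right _ (Finset.mem_union_right _ (Finset.mem_union_right _ ?_))
        rw [hC, Finset.mem_filter]
        exact ⟨mem_univ _, ⟨hy, hu, h3⟩, h4⟩
      · rw [if_pos hy, if_neg hu] at h4
        refine Finset.mem_union_right _ (Finset.mem_union_right _ (Finset.mem_union_left _ ?_))
        rw [Finset.mem_image]
        refine ⟨(u, y), ?_, rfl⟩
        rw [hB, Finset.mem_filter]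
        exact ⟨mem_univ _, ⟨by show D.rd u < j; omega, hy, hX.E3_symm _ _ _ h3⟩, h4⟩
    · by_cases hu : D.rd u = j
      · rw [if_neg hy, if_pos hu] at h4
        refine Finset.mem_union_right _ (Finset.mem_union_left _ ?_)
        rw [hB, Finset.mem_filter]
        exact ⟨mem_univ _, ⟨by show D.rd y < j; omega, hu, h3⟩, h4.symm⟩
      · rw [if_neg hy, if_neg hu] at h4
        refine Finset.mem_union_left _ ?_
        rw [hA, Finset.mem_filter]
        exact ⟨mem_univ _, by show D.rd y < j; omega, by show D.rd u < j; omega, h3, h4⟩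
  have h1 : (univ.filter fun w : Q × Q => D.rd w.1 < j + 1 ∧ D.rd w.2 < j + 1 ∧
      X.E3 x w.1 w.2 ∧ D.upd j col ω w.1 = D.upd j col ω w.2).card ≤
      A.card + (B.card + (B.card + C.card)) := by
    refine (Finset.card_le_card hsub).trans ((Finset.card_union_le _ _).trans ?_)
    refine Nat.add_le_add_left ((Finset.card_union_le _ _).trans ?_) _
    refine Nat.add_le_add_left ((Finset.card_union_le _ _).trans ?_) _
    exact Nat.add_le_add_right Finset.card_image_le _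
  have h2 : ((univ.filter fun w : Q × Q => D.rd w.1 < j + 1 ∧ D.rd w.2 < j + 1 ∧
      X.E3 x w.1 w.2 ∧ D.upd j col ω w.1 = D.upd j col ω w.2).card : ℝ) ≤
      A.card + (B.card + (B.card + C.card)) := by exact_mod_cast h1
  have h3 := hcp x
  have h4 := h₁ x
  have h5 := h₂ x
  rw [← hA] at h3
  rw [← hB] at h4
  rw [← hC] at h5
  have h6 : 3 * D.T ^ 3020 ≤ D.T ^ 3030 := by
    have h7 : (10 : ℝ) ^ 6 ≤ D.T ^ 10 := T_pow_ge hD (by norm_num)
    have h8 : 0 < D.T ^ 3020 := pow_pos (T_pos hD) _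
    calc 3 * D.T ^ 3020 ≤ D.T ^ 10 * D.T ^ 3020 :=
          mul_le_mul_of_nonneg_right (by linarith) h8.le
      _ = D.T ^ 3030 := by ring
  push_cast
  linarith

end XData

end Pool.Agent.Acy
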