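import Pool.Agent.Acy.XB

/-! # Long cycles and dropped vertices: the invariant `cr` (module X, part C) -/

set_option autoImplicit false
set_option linter.unusedSectionVars false

namespace Pool.Agent.Acy

open Finset
open scoped Classical

universe u

namespace XData

variable {Q : Type u} [Fintype Q] [DecidableEq Q] {X : XData Q} {D : NibData Q}

theorem Tv_nb (hX : X.Ok D) (hD : D.Ok) {v y : Q} (h : X.Tv D v y) : X.nb v y := by
  rcases h with h | h | h | h
  · refine hX.rp_nb _ _ ?_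
    by_contra h1
    rw [hD.K_off _ _ h1] at h
    norm_num at h
  · refine hX.rp_nb _ _ ?_
    by_contra h1
    rw [hD.h_off _ _ h1] at h
    norm_num at h
  · exact hX.Hd_nb _ _ h
  · exact hX.Hs_nb _ _ h

/-- Related vertices in one round. -/
def Rl (X : XData Q) (D : NibData Q) (u y : Q) : Prop := D.rp u y ∨ X.Hd u y ∨ X.Hs u y

theorem Rl_nb (hX : X.Ok D) {u y : Q} (h : X.Rl D u y) : X.nb u y := by
  rcases h with h | h | h
  · exact hX.rp_nb _ _ h
  · exact hX.Hd_nb _ _ h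
  · exact hX.Hs_nb _ _ h

theorem Rl_symm (hX : X.Ok D) (hD : D.Ok) {u y : Q} (h : X.Rl D u y) : X.Rl D y u := by
  rcases h with h | h | h
  · exact Or.inl (hD.rp_symm _ _ h)
  · exact Or.inr (Or.inl (hX.Hd_symm _ _ h))
  · exact Or.inr (Or.inr (hX.Hs_symm _ _ h))

theorem card_Rl (hX : X.Ok D) (hD : D.Ok) (j : ℕ) (y : Q) :
    ((univ.filter fun u => D.rd u = j ∧ X.Rl D u y).card : ℝ) ≤ 2 * D.T ^ 3977 := by
  have hsub : (univ.filter fun u => D.rd u = j ∧ X.Rl D u y) ⊆ (D.R y ∩ D.V j) ∪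
      ((univ.filter fun u => X.Hd u y) ∪ (univ.filter fun u => X.Hs u y ∧ D.rd u = j)) := by
    intro u hu
    rw [Finset.mem_filter] at hu
    obtain ⟨-, h1, h2⟩ := hu
    rcases h2 with h2 | h2 | h2
    · refine Finset.mem_union_left _ (Finset.mem_inter.mpr ⟨?_, ?_⟩)
      · exact Finset.mem_filter.mpr ⟨mem_univ _, h2⟩
      · exact Finset.mem_filter.mpr ⟨mem_univ _, h1⟩
    · exact Finset.mem_union_right _ (Finset.mem_union_left _
        (Finset.mem_filter.mpr ⟨mem_univ _, h2⟩))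
    · exact Finset.mem_union_right _ (Finset.mem_union_right _
        (Finset.mem_filter.mpr ⟨mem_univ _, h2, h1⟩))
  have h1 := (Finset.card_le_card hsub).trans ((Finset.card_union_le _ _).trans
    (Nat.add_le_add_left (Finset.card_union_le _ _) _))
  have h2 : ((univ.filter fun u => D.rd u = j ∧ X.Rl D u y).card : ℝ) ≤
      ((D.R y ∩ D.V j).card : ℝ) + (((univ.filter fun u => X.Hd u y).card : ℝ) +
        ((univ.filter fun u => X.Hs u y ∧ D.rd u = j).card : ℝ)) := by exact_mod_cast h1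
  have h3 := hD.RV_card y j
  have h4 := hX.hd y
  have h5 := hX.hsV y j
  have hT := T_pos hD
  have h6 : 2 * D.T ^ 3885 ≤ D.T ^ 3977 := by
    have h7 : (10 : ℝ) ^ 6 ≤ D.T ^ 92 := T_pow_ge hD (by norm_num)
    calc 2 * D.T ^ 3885 ≤ D.T ^ 92 * D.T ^ 3885 :=
          mul_le_mul_of_nonneg_right (by linarith) (by positivity)
      _ = D.T ^ 3977 := by ring
  have h8 : D.T ^ 3864 ≤ D.T ^ 3885 := pow_le_pow_right₀ (T_one hD) (by norm_num)
  linarith

/-- Second neighbourhoods. -/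
def nb2 (X : XData Q) (v i : Q) : Prop := X.nb v i ∨ ∃ y, X.nb v y ∧ X.nb y i

theorem nb2_symm (hX : X.Ok D) {v i : Q} (h : X.nb2 v i) : X.nb2 i v := by
  rcases h with h | ⟨y, h1, h2⟩
  · exact Or.inl (hX.nb_symm _ _ h)
  · exact Or.inr ⟨y, hX.nb_symm _ _ h2, hX.nb_symm _ _ h1⟩

theorem card_nb2 (hX : X.Ok D) (hD : D.Ok) (v : Q) :
    ((univ.filter fun i => X.nb2 v i).card : ℝ) ≤ D.T ^ 12001 := by
  have hT := T_pos hD
  have hsub : (univ.filter fun i => X.nb2 v i) ⊆ (univ.filter fun i => X.nb v i) ∪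
      (univ.filter fun w : Q × Q => X.nb v w.1 ∧ X.nb w.1 w.2).image Prod.snd := by
    intro i hi
    rw [Finset.mem_filter] at hi
    rcases hi.2 with h | ⟨y, h1, h2⟩
    · exact Finset.mem_union_left _ (Finset.mem_filter.mpr ⟨mem_univ _, h⟩)
    · refine Finset.mem_union_right _ (Finset.mem_image.mpr ⟨(y, i), ?_, rfl⟩)
      exact Finset.mem_filter.mpr ⟨mem_univ _, h1, h2⟩
  have h1 := (Finset.card_le_card hsub).trans ((Finset.card_union_le _ _).trans
    (Nat.add_le_add_left Finset.card_image_le _))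
  have h2 : ((univ.filter fun i => X.nb2 v i).card : ℝ) ≤
      ((univ.filter fun i => X.nb v i).card : ℝ) +
      ((univ.filter fun w : Q × Q => X.nb v w.1 ∧ X.nb w.1 w.2).card : ℝ) := by
    exact_mod_cast h1
  have h3 := hX.nb_card v
  have h4 := card_pairs_le (A := Q) (B := Q) (fun y i => X.nb v y ∧ X.nb y i)
    (fun y => X.nb v y) (D.T ^ 6000) (D.T ^ 6000) (by positivity) (hX.nb_card v)
    (fun a b h => h.1) (fun a _ => by
      refine le_trans (Nat.cast_le.mpr (Finset.card_le_card fun U hU => ?_)) (hX.nb_card a)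
      rw [Finset.mem_filter] at hU ⊢
      exact ⟨hU.1, hU.2.2⟩)
  have h5 : D.T ^ 6000 ≤ D.T ^ 12000 := pow_le_pow_right₀ (T_one hD) (by norm_num)
  have h6 : D.T ^ 6000 * D.T ^ 6000 = D.T ^ 12000 := by ring
  have h7 : 2 * D.T ^ 12000 ≤ D.T ^ 12001 := by
    have h8 : (10 : ℝ) ^ 6 ≤ D.T := hD.big.big
    calc 2 * D.T ^ 12000 ≤ D.T * D.T ^ 12000 :=
          mul_le_mul_of_nonneg_right (by linarith) (by positivity)
      _ = D.T ^ 12001 := by ring
  rw [h6] at h4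
  linarith

/-- The test vertices of round `j`. -/
noncomputable def nT (X : XData Q) (D : NibData Q) (j : ℕ) (v : Q) : ℝ :=
  ((univ.filter fun y => D.rd y = j ∧ X.Tv D v y).card : ℝ)

theorem nT_nonneg (j : ℕ) (v : Q) : 0 ≤ X.nT D j v := Nat.cast_nonneg _

/-- Pairs of related vertices of round `j`, the first one in the test set. -/
def rr (X : XData Q) (D : NibData Q) (j : ℕ) (v y u : Q) : Prop :=
  (D.rd y = j ∧ X.Tv D v y) ∧ D.rd u = j ∧ u ≠ y ∧ X.Rl D u y

/-- The family for `cr`: two vertices of round `j`. -/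
theorem cr1_fam (hX : X.Ok D) (hD : D.Ok) (j : ℕ) {μ : Q → Fin D.k → ℝ} (hμ : IsPM μ)
    (hμ' : ∀ u c, μ u c ≤ 2 * D.T / D.k) :
    Fam μ (fun ω => ∀ v, ((univ.filter fun w : Q × Q =>
        X.rr D j v w.1 w.2 ∧ ω w.1 = ω w.2).card : ℝ) ≤ X.nT D j v / (2 * D.T ^ 13) + D.T ^ 6 / 2)
      (Real.exp (-(2 * D.T))) (D.T ^ 12001) (D.T ^ 12001) := by
  have hT := T_pos hD
  have hT1 := T_one hD
  refine ⟨Q, inferInstance,
    fun v ω => D.T ^ 4 * (X.nT D j v * (2 * D.T ^ 3977) *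
        (Fintype.card (Fin D.k) * (2 * D.T / D.k) ^ 2) +
        2 * (2 * D.T ^ 3977) * (2 * D.T / D.k) + 2) ≤
      ((univ.filter fun w : Q × Q => X.rr D j v w.1 w.2 ∧ ω w.1 = ω w.2).card : ℝ),
    fun v => univ.filter fun i => X.nb2 v i, ?_, ?_, ?_, ?_, ?_⟩
  · intro v
    have := dependsOn_pair (D.T ^ 4 * (X.nT D j v * (2 * D.T ^ 3977) *
        (Fintype.card (Fin D.k) * (2 * D.T / D.k) ^ 2) +
        2 * (2 * D.T ^ 3977) * (2 * D.T / D.k) + 2)) (α := Fin D.k)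
      (fun y u => X.rr D j v y u)
      (univ.filter fun i => X.nb2 v i : Finset Q) fun y u hU => by
        rw [Finset.mem_coe, Finset.mem_coe, Finset.mem_filter, Finset.mem_filter]
        have h1 := Tv_nb hX hD hU.1.2
        exact ⟨⟨mem_univ _, Or.inl h1⟩,
          ⟨mem_univ _, Or.inr ⟨y, h1, hX.nb_symm _ _ (Rl_nb hX hU.2.2.2)⟩⟩⟩
    convert this
  · intro v
    have := pair_tail hD.big hμ (2 * D.T / D.k) (pi0_nonneg hD) hμ'
      (fun y u => X.rr D j v y u)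
      (fun y hy => hy.2.2.1 rfl) (X.nT D j v * (2 * D.T ^ 3977)) (2 * D.T ^ 3977) (by positivity)
      ?_ ?_ ?_
    · convert this
    · refine card_pairs_le (A := Q) (B := Q) (fun y u => X.rr D j v y u)
        (fun y => D.rd y = j ∧ X.Tv D v y) (X.nT D j v) (2 * D.T ^ 3977) (by positivity)
        (le_refl _) (fun a b h => h.1) (fun a _ => ?_)
      refine le_trans (Nat.cast_le.mpr (Finset.card_le_card fun U hU => ?_)) (card_Rl hX hD j a)
      rw [Finset.mem_filter] at hU ⊢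
      exact ⟨hU.1, hU.2.2.1, hU.2.2.2.2⟩
    · intro y
      refine le_trans (Nat.cast_le.mpr (Finset.card_le_card fun U hU => ?_)) (card_Rl hX hD j y)
      rw [Finset.mem_filter] at hU ⊢
      exact ⟨hU.1, hU.2.2.1, hU.2.2.2.2⟩
    · intro u
      refine le_trans (Nat.cast_le.mpr (Finset.card_le_card fun U hU => ?_)) (card_Rl hX hD j u)
      rw [Finset.mem_filter] at hU ⊢
      exact ⟨hU.1, hU.2.1.1, Rl_symm hX hD hU.2.2.2.2⟩
  · intro v
    exact card_nb2 hX hD v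
  · intro i
    refine le_trans (Nat.cast_le.mpr (Finset.card_le_card fun U hU => ?_)) (card_nb2 hX hD i)
    rw [Finset.mem_filter] at hU ⊢
    rw [Finset.mem_filter] at hU
    exact ⟨hU.1, nb2_symm hX hU.2.2⟩
  · intro ω hω v
    have h1 := (not_le.mp (hω v)).le
    refine h1.trans ?_
    have h2 := pi0_le hD
    rw [Fintype.card_fin, pi0_sq hD]
    have hn : 0 ≤ X.nT D j v := nT_nonneg j v
    have h5 : (10 : ℝ) ^ 6 ≤ D.T ^ 3 := T_pow_ge hD (by norm_num)
    have h3 : D.T ^ 3995 * (2 * D.T / D.k) * 8 ≤ 1 := by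
      have h6 : D.T ^ 3995 * (2 * D.T / D.k) * D.T ^ 3 ≤ 2 := by
        calc D.T ^ 3995 * (2 * D.T / D.k) * D.T ^ 3 = 2 * D.T / D.k * D.T ^ 3998 := by ring
          _ ≤ 2 := h2
      have h7 : 0 ≤ D.T ^ 3995 * (2 * D.T / D.k) := mul_nonneg (by positivity) (pi0_nonneg hD)
      nlinarith
    have h4 : D.T ^ 4 * (X.nT D j v * (2 * D.T ^ 3977) * (2 * D.T * (2 * D.T / D.k))) ≤
        X.nT D j v / (2 * D.T ^ 13) := by
      rw [le_div_iff₀ (by positivity)]
      calc D.T ^ 4 * (X.nT D j v * (2 * D.T ^ 3977) * (2 * D.T * (2 * D.T / D.k))) *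
            (2 * D.T ^ 13) = X.nT D j v * (D.T ^ 3995 * (2 * D.T / D.k) * 8) := by ring
        _ ≤ X.nT D j v * 1 := mul_le_mul_of_nonneg_left h3 hn
        _ = X.nT D j v := mul_one _
    have h8 : D.T ^ 3981 * (2 * D.T / D.k) * 4 ≤ 1 := by
      have h6 : D.T ^ 3981 * (2 * D.T / D.k) * D.T ^ 17 ≤ 2 := by
        calc D.T ^ 3981 * (2 * D.T / D.k) * D.T ^ 17 = 2 * D.T / D.k * D.T ^ 3998 := by ring
          _ ≤ 2 := h2
      have h7 : 0 ≤ D.T ^ 3981 * (2 * D.T / D.k) := mul_nonneg (by positivity) (pi0_nonneg hD)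
      have h9 : (10 : ℝ) ^ 6 ≤ D.T ^ 17 := T_pow_ge hD (by norm_num)
      nlinarith
    have h10 : 2 * D.T ^ 4 + 1 ≤ D.T ^ 6 / 2 := by
      have h11 : (10 : ℝ) ^ 6 ≤ D.T ^ 2 := T_pow_ge hD (by norm_num)
      have h12 : (10 : ℝ) ^ 6 ≤ D.T ^ 4 := T_pow_ge hD (by norm_num)
      have h13 : D.T ^ 6 = D.T ^ 2 * D.T ^ 4 := by ring
      rw [h13]
      nlinarith
    calc D.T ^ 4 * (X.nT D j v * (2 * D.T ^ 3977) * (2 * D.T * (2 * D.T / D.k)) +
          2 * (2 * D.T ^ 3977) * (2 * D.T / D.k) + 2) =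
          D.T ^ 4 * (X.nT D j v * (2 * D.T ^ 3977) * (2 * D.T * (2 * D.T / D.k))) +
          (D.T ^ 3981 * (2 * D.T / D.k) * 4 + 2 * D.T ^ 4) := by ring
      _ ≤ X.nT D j v / (2 * D.T ^ 13) + D.T ^ 6 / 2 := by linarith

/-- Forbidden colours from the earlier rounds. -/
def Bad (X : XData Q) (D : NibData Q) (j : ℕ) (col : Q → Fin D.k) (y : Q) (c : Fin D.k) : Prop :=
  (∃ u, D.rd u < j ∧ X.Hd u y ∧ col u = c) ∨
  (∃ u u', D.rd u < j ∧ D.rd u' < j ∧ X.E3 y u u' ∧ col u = c ∧ col u' = c)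

theorem card_Bad (hX : X.Ok D) (hD : D.Ok) {j : ℕ} (hj : j < D.q) {col : Q → Fin D.k}
    (hcp : ∀ x, ((univ.filter fun w : Q × Q => D.rd w.1 < j ∧ D.rd w.2 < j ∧ X.E3 x w.1 w.2 ∧
      col w.1 = col w.2).card : ℝ) ≤ j * D.T ^ 3030) (y : Q) :
    ((univ.filter fun c => X.Bad D j col y c).card : ℝ) ≤ 2 * D.T ^ 3977 := by
  have hT := T_pos hD
  have hsub : (univ.filter fun c => X.Bad D j col y c) ⊆
      (univ.filter fun u => X.Hd u y).image col ∪
      (univ.filter fun w : Q × Q => D.rd w.1 < j ∧ D.rd w.2 < j ∧ X.E3 y w.1 w.2 ∧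
        col w.1 = col w.2).image (fun w => col w.1) := by
    intro c hc
    rw [Finset.mem_filter] at hc
    rcases hc.2 with ⟨u, h1, h2, h3⟩ | ⟨u, u', h1, h2, h3, h4, h5⟩
    · exact Finset.mem_union_left _ (Finset.mem_image.mpr
        ⟨u, Finset.mem_filter.mpr ⟨mem_univ _, h2⟩, h3⟩)
    · exact Finset.mem_union_right _ (Finset.mem_image.mpr
        ⟨(u, u'), Finset.mem_filter.mpr ⟨mem_univ _, h1, h2, h3, h4.trans h5.symm⟩, h4⟩)
  have h1 := (Finset.card_le_card hsub).trans ((Finset.card_union_le _ _).trans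
    (Nat.add_le_add Finset.card_image_le Finset.card_image_le))
  have h2 : ((univ.filter fun c => X.Bad D j col y c).card : ℝ) ≤
      ((univ.filter fun u => X.Hd u y).card : ℝ) +
      ((univ.filter fun w : Q × Q => D.rd w.1 < j ∧ D.rd w.2 < j ∧ X.E3 y w.1 w.2 ∧
        col w.1 = col w.2).card : ℝ) := by exact_mod_cast h1
  have h3 := hX.hd y
  have h4 := hcp y
  have h5 : (j : ℝ) ≤ D.T ^ 150 := by
    refine le_trans ?_ hD.q_hi
    exact_mod_cast hj.le
  have h6 : (j : ℝ) * D.T ^ 3030 ≤ D.T ^ 3977 := by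
    calc (j : ℝ) * D.T ^ 3030 ≤ D.T ^ 150 * D.T ^ 3030 :=
          mul_le_mul_of_nonneg_right h5 (by positivity)
      _ = D.T ^ 3180 := by ring
      _ ≤ D.T ^ 3977 := pow_le_pow_right₀ (T_one hD) (by norm_num)
  linarith

/-- The family for `cr`: one new vertex with a forbidden colour. -/
theorem cr2_fam (hX : X.Ok D) (hD : D.Ok) (j : ℕ) (hj : j < D.q) (col : Q → Fin D.k)
    (hcp : ∀ x, ((univ.filter fun w : Q × Q => D.rd w.1 < j ∧ D.rd w.2 < j ∧ X.E3 x w.1 w.2 ∧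
      col w.1 = col w.2).card : ℝ) ≤ j * D.T ^ 3030) {μ : Q → Fin D.k → ℝ} (hμ : IsPM μ)
    (hμ' : ∀ u c, μ u c ≤ 2 * D.T / D.k) :
    Fam μ (fun ω => ∀ v, ((univ.filter fun w : Q × Fin D.k =>
        ((D.rd w.1 = j ∧ X.Tv D v w.1) ∧ X.Bad D j col w.1 w.2) ∧ ω w.1 = w.2).card : ℝ) ≤
          X.nT D j v / (2 * D.T ^ 13) + D.T ^ 6 / 2)
      (Real.exp (-(2 * D.T))) (D.T ^ 6000) (D.T ^ 6000) := by
  have hT := T_pos hD
  have hT1 := T_one hD
  refine ⟨Q, inferInstance,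
    fun v ω => D.T ^ 4 * (X.nT D j v * (2 * D.T ^ 3977) * (2 * D.T / D.k) + 1) ≤
      ((univ.filter fun w : Q × Fin D.k =>
        ((D.rd w.1 = j ∧ X.Tv D v w.1) ∧ X.Bad D j col w.1 w.2) ∧ ω w.1 = w.2).card : ℝ),
    fun v => univ.filter fun i => X.nb v i, ?_, ?_, ?_, ?_, ?_⟩
  · intro v
    have := dependsOn_single (κ := Q × Fin D.k)
      (D.T ^ 4 * (X.nT D j v * (2 * D.T ^ 3977) * (2 * D.T / D.k) + 1))
      (fun w => (D.rd w.1 = j ∧ X.Tv D v w.1) ∧ X.Bad D j col w.1 w.2) (fun w => w.1)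
      (fun w => w.2) (univ.filter fun i => X.nb v i : Finset Q) fun U hU => by
        rw [Finset.mem_coe, Finset.mem_filter]
        exact ⟨mem_univ _, Tv_nb hX hD hU.1.2⟩
    convert this
  · intro v
    have := single_tail (κ := Q × Fin D.k) hD.big hμ (2 * D.T / D.k) (pi0_nonneg hD) hμ'
      (fun w => (D.rd w.1 = j ∧ X.Tv D v w.1) ∧ X.Bad D j col w.1 w.2) (fun w => w.1)
      (fun w => w.2) (X.nT D j v * (2 * D.T ^ 3977)) 1 one_pos ?_ ?_
    · convert this
    · exact card_pairs_le (A := Q) (B := Fin D.k)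
        (fun y c => (D.rd y = j ∧ X.Tv D v y) ∧ X.Bad D j col y c)
        (fun y => D.rd y = j ∧ X.Tv D v y) (X.nT D j v) (2 * D.T ^ 3977) (by positivity)
        (le_refl _) (fun a b h => h.1) (fun a _ => by
          refine le_trans (Nat.cast_le.mpr (Finset.card_le_card fun U hU => ?_))
            (card_Bad hX hD hj hcp a)
          rw [Finset.mem_filter] at hU ⊢
          exact ⟨hU.1, hU.2.2⟩)
    · intro i d
      have h1 : (univ.filter fun U : Q × Fin D.k =>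
          ((D.rd U.1 = j ∧ X.Tv D v U.1) ∧ X.Bad D j col U.1 U.2) ∧ U.1 = i ∧ U.2 = d) ⊆
          {(i, d)} := by
        intro U hU
        rw [Finset.mem_filter] at hU
        rw [Finset.mem_singleton]
        exact Prod.ext hU.2.2.1 hU.2.2.2
      have h2 := Finset.card_le_card h1
      rw [Finset.card_singleton] at h2
      exact_mod_cast h2
  · intro v
    exact hX.nb_card v
  · intro i
    refine le_trans (Nat.cast_le.mpr (Finset.card_le_card fun U hU => ?_)) (nb_card' hX i)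
    rw [Finset.mem_filter] at hU ⊢
    rw [Finset.mem_filter] at hU
    exact ⟨hU.1, hU.2.2⟩
  · intro ω hω v
    have h1 := (not_le.mp (hω v)).le
    refine h1.trans ?_
    have h2 := pi0_le hD
    have hn : 0 ≤ X.nT D j v := nT_nonneg j v
    have h3 : D.T ^ 3994 * (2 * D.T / D.k) * 4 ≤ 1 := by
      have h5 : (10 : ℝ) ^ 6 ≤ D.T ^ 4 := T_pow_ge hD (by norm_num)
      have h6 : D.T ^ 3994 * (2 * D.T / D.k) * D.T ^ 4 ≤ 2 := by
        calc D.T ^ 3994 * (2 * D.T / D.k) * D.T ^ 4 = 2 * D.T / D.k * D.T ^ 3998 := by ring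
          _ ≤ 2 := h2
      have h7 : 0 ≤ D.T ^ 3994 * (2 * D.T / D.k) := mul_nonneg (by positivity) (pi0_nonneg hD)
      nlinarith
    have h4 : D.T ^ 4 * (X.nT D j v * (2 * D.T ^ 3977) * (2 * D.T / D.k)) ≤
        X.nT D j v / (2 * D.T ^ 13) := by
      rw [le_div_iff₀ (by positivity)]
      calc D.T ^ 4 * (X.nT D j v * (2 * D.T ^ 3977) * (2 * D.T / D.k)) *
            (2 * D.T ^ 13) = X.nT D j v * (D.T ^ 3994 * (2 * D.T / D.k) * 4) := by ring
        _ ≤ X.nT D j v * 1 := mul_le_mul_of_nonneg_left h3 hn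
        _ = X.nT D j v := mul_one _
    have h10 : D.T ^ 4 ≤ D.T ^ 6 / 2 := by
      have h11 : (10 : ℝ) ^ 6 ≤ D.T ^ 2 := T_pow_ge hD (by norm_num)
      have h13 : D.T ^ 6 = D.T ^ 2 * D.T ^ 4 := by ring
      have h14 : 0 ≤ D.T ^ 4 := by positivity
      rw [h13]
      nlinarith
    calc D.T ^ 4 * (X.nT D j v * (2 * D.T ^ 3977) * (2 * D.T / D.k) + 1) =
          D.T ^ 4 * (X.nT D j v * (2 * D.T ^ 3977) * (2 * D.T / D.k)) + D.T ^ 4 := by ring
      _ ≤ X.nT D j v / (2 * D.T ^ 13) + D.T ^ 6 / 2 := by linarith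

/-- The step for `cr`. -/
theorem cr_step (hD : D.Ok) {j : ℕ} {col ω : Q → Fin D.k}
    (hcr : ∀ v, ((univ.filter fun y => D.rd y < j ∧ X.drop D col y ∧ X.Tv D v y).card : ℝ) ≤
      (univ.filter fun y => D.rd y < j ∧ X.Tv D v y).card / D.T ^ 13 + j * D.T ^ 6)
    (h₁ : ∀ v, ((univ.filter fun w : Q × Q =>
        X.rr D j v w.1 w.2 ∧ ω w.1 = ω w.2).card : ℝ) ≤
          X.nT D j v / (2 * D.T ^ 13) + D.T ^ 6 / 2)
    (h₂ : ∀ v, ((univ.filter fun w : Q × Fin D.k =>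
        ((D.rd w.1 = j ∧ X.Tv D v w.1) ∧ X.Bad D j col w.1 w.2) ∧ ω w.1 = w.2).card : ℝ) ≤
          X.nT D j v / (2 * D.T ^ 13) + D.T ^ 6 / 2) (v : Q) :
    ((univ.filter fun y => D.rd y < j + 1 ∧ X.drop D (D.upd j col ω) y ∧
      X.Tv D v y).card : ℝ) ≤
      (univ.filter fun y => D.rd y < j + 1 ∧ X.Tv D v y).card / D.T ^ 13 +
        (j + 1 : ℕ) * D.T ^ 6 := by
  set A := univ.filter fun y => D.rd y < j ∧ X.drop D col y ∧ X.Tv D v y with hA
  set B := univ.filter fun w : Q × Q => X.rr D j v w.1 w.2 ∧ ω w.1 = ω w.2 with hB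
  set C := univ.filter fun w : Q × Fin D.k =>
        ((D.rd w.1 = j ∧ X.Tv D v w.1) ∧ X.Bad D j col w.1 w.2) ∧ ω w.1 = w.2 with hC
  have hsub : (univ.filter fun y => D.rd y < j + 1 ∧ X.drop D (D.upd j col ω) y ∧
      X.Tv D v y) ⊆ A ∪ (B.image Prod.fst ∪ C.image Prod.fst) := by
    intro y hy
    rw [Finset.mem_filter] at hy
    obtain ⟨-, h1, h2, h3⟩ := hy
    by_cases hj : D.rd y = j
    · have hold : ∀ u, D.rd u < D.rd y → D.upd j col ω u = col u := fun u hu => by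
        unfold NibData.upd
        rw [if_neg (by omega)]
      have hnew : ∀ u, D.rd u = D.rd y → D.upd j col ω u = ω u := fun u hu => by
        unfold NibData.upd
        rw [if_pos (by omega)]
      refine Finset.mem_union_right _ ?_
      rcases h2 with ⟨u, h4, h5, h6, h7⟩ | ⟨u, h4, h5, h6⟩ | ⟨u, u', h4, h5, h6, h7, h8⟩
      · rw [hnew u h5, hnew y rfl] at h6
        refine Finset.mem_union_left _ (Finset.mem_image.mpr ⟨(y, u), ?_, rfl⟩)
        rw [hB, Finset.mem_filter]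
        exact ⟨mem_univ _, ⟨⟨hj, h3⟩, h5.trans hj, h4, h7⟩, h6.symm⟩
      · rw [hold u h4, hnew y rfl] at h5
        refine Finset.mem_union_right _ (Finset.mem_image.mpr ⟨(y, ω y), ?_, rfl⟩)
        rw [hC, Finset.mem_filter]
        exact ⟨mem_univ _, ⟨⟨hj, h3⟩, Or.inl ⟨u, by rw [← hj]; exact h4, h6, h5⟩⟩, rfl⟩
      · rw [hold u h4, hnew y rfl] at h6
        rw [hold u' h5, hnew y rfl] at h7
        refine Finset.mem_union_right _ (Finset.mem_image.mpr ⟨(y, ω y), ?_, rfl⟩)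
        rw [hC, Finset.mem_filter]
        exact ⟨mem_univ _, ⟨⟨hj, h3⟩, Or.inr ⟨u, u', by rw [← hj]; exact h4,
          by rw [← hj]; exact h5, h8, h6, h7⟩⟩, rfl⟩
    · have hlt : D.rd y < j := by omega
      have hold : ∀ u, D.rd u ≤ D.rd y → D.upd j col ω u = col u := fun u hu => by
        unfold NibData.upd
        rw [if_neg (by omega)]
      refine Finset.mem_union_left _ ?_
      rw [hA, Finset.mem_filter]
      refine ⟨mem_univ _, hlt, ?_, h3⟩
      rcases h2 with ⟨u, h4, h5, h6, h7⟩ | ⟨u, h4, h5, h6⟩ | ⟨u, u', h4, h5, h6, h7, h8⟩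
      · rw [hold u h5.le, hold y le_rfl] at h6
        exact Or.inl ⟨u, h4, h5, h6, h7⟩
      · rw [hold u h4.le, hold y le_rfl] at h5
        exact Or.inr (Or.inl ⟨u, h4, h5, h6⟩)
      · rw [hold u h4.le, hold y le_rfl] at h6
        rw [hold u' h5.le, hold y le_rfl] at h7
        exact Or.inr (Or.inr ⟨u, u', h4, h5, h6, h7, h8⟩)
  have h1 := (Finset.card_le_card hsub).trans ((Finset.card_union_le _ _).trans
    (Nat.add_le_add_left ((Finset.card_union_le _ _).trans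
      (Nat.add_le_add Finset.card_image_le Finset.card_image_le)) _))
  have h2 : ((univ.filter fun y => D.rd y < j + 1 ∧ X.drop D (D.upd j col ω) y ∧
      X.Tv D v y).card : ℝ) ≤ A.card + (B.card + C.card) := by exact_mod_cast h1
  have h3 := hcr v
  have h4 := h₁ v
  have h5 := h₂ v
  rw [← hA] at h3
  rw [← hB] at h4
  rw [← hC] at h5
  have h6 : (univ.filter fun y => D.rd y < j + 1 ∧ X.Tv D v y) =
      (univ.filter fun y => D.rd y < j ∧ X.Tv D v y) ∪
      (univ.filter fun y => D.rd y = j ∧ X.Tv D v y) := by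
    ext y
    rw [Finset.mem_union, Finset.mem_filter, Finset.mem_filter, Finset.mem_filter]
    constructor
    · rintro ⟨-, h7, h8⟩
      rcases Nat.lt_succ_iff_lt_or_eq.mp h7 with h9 | h9
      · exact Or.inl ⟨mem_univ _, h9, h8⟩
      · exact Or.inr ⟨mem_univ _, h9, h8⟩
    · rintro (⟨-, h7, h8⟩ | ⟨-, h7, h8⟩)
      · exact ⟨mem_univ _, by omega, h8⟩
      · exact ⟨mem_univ _, by omega, h8⟩
  have h7 : Disjoint (univ.filter fun y => D.rd y < j ∧ X.Tv D v y)
      (univ.filter fun y => D.rd y = j ∧ X.Tv D v y) := by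
    rw [Finset.disjoint_left]
    intro y hy hy'
    rw [Finset.mem_filter] at hy hy'
    have := hy.2.1
    have := hy'.2.1
    omega
  have h8 : ((univ.filter fun y => D.rd y < j + 1 ∧ X.Tv D v y).card : ℝ) =
      ((univ.filter fun y => D.rd y < j ∧ X.Tv D v y).card : ℝ) + X.nT D j v := by
    rw [h6, Finset.card_union_of_disjoint h7, Nat.cast_add]
    rfl
  rw [h8]
  have h9 : 0 < D.T ^ 13 := pow_pos (T_pos hD) _
  have h10 : X.nT D j v / (2 * D.T ^ 13) = X.nT D j v / D.T ^ 13 / 2 := by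
    field_simp
  rw [h10] at h4 h5
  rw [add_div]
  push_cast
  linarith

end XData

end Pool.Agent.Acy
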